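import Pool.Agent.Helper6.AE.Phi

set_option autoImplicit false

namespace Pool.Agent.Helper6.AE

/-! AE MODULE AppB: symmetries. -/

theorem appB_ext {v w : St} (h1 : ∀ z, v.s z = w.s z) (h2 : ∀ z, v.r z = w.r z)
    (h3 : ∀ z, v.o z = w.o z) (h4 : v.t = w.t) : v = w := by
  obtain ⟨s, r, o, t⟩ := v
  obtain ⟨s', r', o', t'⟩ := w
  obtain rfl : s = s' := funext h1
  obtain rfl : r = r' := funext h2
  obtain rfl : o = o' := funext h3
  obtain rfl : t = t' := h4
  rfl

theorem act_act (σ τ : Equiv.Perm (Fin 3)) (f g : Bool) (k l : ℝ) (v : St) :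
    act τ g l (act σ f k v) = act (τ.trans σ) (xor g f) (l * k) v := by
  refine appB_ext ?_ ?_ ?_ ?_
  · intro z
    show l * (k * v.s (σ (τ z))) = l * k * v.s (σ (τ z))
    ring
  · intro z
    rfl
  · intro z
    show xor g (xor f (v.o (σ (τ z)))) = xor (xor g f) (v.o (σ (τ z)))
    rw [Bool.xor_assoc]
  · show l * (if g = true then (∑ z, k * v.s (σ z)) - k * (if f = true then (∑ z, v.s z) - v.t else v.t)
        else k * (if f = true then (∑ z, v.s z) - v.t else v.t)) =
      l * k * (if (xor g f) = true then (∑ z, v.s z) - v.t else v.t)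
    have h : ∑ z, k * v.s (σ z) = k * ∑ z, v.s z := by
      rw [← Finset.mul_sum, Equiv.sum_comp σ v.s]
    rw [h]
    cases f <;> cases g <;> simp <;> ring

theorem act_id (v : St) : act (Equiv.refl _) false 1 v = v := by
  refine appB_ext ?_ ?_ ?_ ?_
  · intro z
    show 1 * v.s z = v.s z
    ring
  · intro z
    rfl
  · intro z
    show xor false (v.o z) = v.o z
    simp
  · show 1 * (if false = true then (∑ z, v.s z) - v.t else v.t) = v.t
    simp

theorem appB_lw (r : ℝ) (o : Bool) (w : List ℕ) : lw r (xor true o) w = 1 - lw r o w - lam r w := by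
  unfold lw lam
  cases o <;> simp

theorem nxt_act (σ : Equiv.Perm (Fin 3)) (f : Bool) (k : ℝ) (v : St) (w : Fin 3 → List ℕ) :
    nxt (act σ f k v) w = act σ f k (nxt v (fun z => w (σ.symm z))) := by
  refine appB_ext ?_ ?_ ?_ ?_
  · intro z
    show k * v.s (σ z) * lam (v.r (σ z)) (w z) =
      k * (v.s (σ z) * lam (v.r (σ z)) (w (σ.symm (σ z))))
    rw [Equiv.symm_apply_apply]
    ring
  · intro z
    show wv (w z).reverse (v.r (σ z)) = wv (w (σ.symm (σ z))).reverse (v.r (σ z))
    rw [Equiv.symm_apply_apply]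
  · intro z
    show xor (xor f (v.o (σ z))) (decide ((w z).length % 2 = 1)) =
      xor f (xor (v.o (σ z)) (decide ((w (σ.symm (σ z))).length % 2 = 1)))
    rw [Equiv.symm_apply_apply, Bool.xor_assoc]
  · show k * (if f = true then (∑ z, v.s z) - v.t else v.t) -
        ∑ z, k * v.s (σ z) * lw (v.r (σ z)) (xor f (v.o (σ z))) (w z) =
      k * (if f = true then (∑ z, v.s z * lam (v.r z) (w (σ.symm z))) -
          (v.t - ∑ z, v.s z * lw (v.r z) (v.o z) (w (σ.symm z)))
        else v.t - ∑ z, v.s z * lw (v.r z) (v.o z) (w (σ.symm z)))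
    have h1 : ∑ z, v.s z * lw (v.r z) (v.o z) (w (σ.symm z)) =
        ∑ z, v.s (σ z) * lw (v.r (σ z)) (v.o (σ z)) (w z) := by
      rw [← Equiv.sum_comp σ]
      simp
    have h2 : ∑ z, v.s z * lam (v.r z) (w (σ.symm z)) =
        ∑ z, v.s (σ z) * lam (v.r (σ z)) (w z) := by
      rw [← Equiv.sum_comp σ]
      simp
    have h3 : ∑ z, v.s z = ∑ z, v.s (σ z) := (Equiv.sum_comp σ v.s).symm
    rw [h1, h2, h3]
    cases f
    · simp only [Bool.false_xor, Bool.false_eq_true, if_false]
      rw [mul_sub, Finset.mul_sum]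
      congr 1
      exact Finset.sum_congr rfl fun z _ => by ring
    · simp only [if_true, appB_lw]
      rw [Fin.sum_univ_three, Fin.sum_univ_three, Fin.sum_univ_three, Fin.sum_univ_three]
      ring

theorem Good_act {σ : Equiv.Perm (Fin 3)} {f : Bool} {k : ℝ} (hk : 0 < k) {v : St} :
    Good (act σ f k v) ↔ Good v := by
  constructor
  · intro h z
    have h1 := h (σ.symm z)
    have h2 : 0 < k * v.s (σ (σ.symm z)) ∧ RE (v.r (σ (σ.symm z))) := h1
    rw [Equiv.apply_symm_apply] at h2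
    exact ⟨(mul_pos_iff_of_pos_left hk).1 h2.1, h2.2⟩
  · intro h z
    exact ⟨mul_pos hk (h (σ z)).1, (h (σ z)).2⟩

end Pool.Agent.Helper6.AE
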