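import Pool.Agent.Helper6.AE.AppA
import Pool.Agent.Helper6.AE.AppB

set_option autoImplicit false

namespace Pool.Agent.Helper6.AE

/-! AE MODULE AppC: tables, branching and symmetries. -/

theorem InT_act {TT : ℕ → ℕ} {σ : Equiv.Perm (Fin 3)} {f : Bool} {k : ℝ} (hk : 0 < k) {v : St} :
    InT TT (act σ f k v) ↔ InT TT v := by
  constructor
  · rintro ⟨τ, g, l, hl, h⟩
    rw [act_act] at h
    exact ⟨_, _, _, mul_pos hl hk, h⟩
  · rintro ⟨τ, g, l, hl, h⟩
    refine ⟨τ.trans σ.symm, xor g f, l / k, div_pos hl hk, ?_⟩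
    rw [act_act]
    have h1 : (τ.trans σ.symm).trans σ = τ := by
      ext x
      simp
    have h2 : xor (xor g f) f = g := by
      cases g <;> cases f <;> rfl
    rw [h1, h2, div_mul_cancel₀ _ hk.ne']
    exact h

theorem InT_Good {TT : ℕ → ℕ} {v : St} (h : InT TT v) : Good v := by
  obtain ⟨σ, f, k, hk, h1⟩ := h
  exact (Good_act hk).1 h1.1.1

theorem act_sum (σ : Equiv.Perm (Fin 3)) (f : Bool) (k : ℝ) (v : St) :
    ∑ z, (act σ f k v).s z = k * ∑ z, v.s z := by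
  have h1 : ∀ z, (act σ f k v).s z = k * v.s (σ z) := fun z => rfl
  simp only [h1]
  rw [← Finset.mul_sum, Equiv.sum_comp σ v.s]

/-- the target lies between the sums of the ends -/
theorem InT_bounds {TT : ℕ → ℕ} {v : St} (h : InT TT v) : 0 ≤ v.t ∧ v.t ≤ ∑ z, v.s z := by
  obtain ⟨σ, f, k, hk, h1⟩ := h
  obtain ⟨-, h2, h3, -⟩ := h1
  rw [act_sum] at h3
  have h4 : (act σ f k v).t = k * (if f then (∑ z, v.s z) - v.t else v.t) := rfl
  rw [h4] at h2 h3
  have h5 := (mul_nonneg_iff_of_pos_left hk).1 h2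
  have h6 := le_of_mul_le_mul_left h3 hk
  cases f
  · simp only [Bool.false_eq_true, if_false] at h5 h6
    exact ⟨h5, h6⟩
  · simp only [if_true] at h5 h6
    constructor <;> linarith

theorem cel_lower {j : ℕ} (hj : j ≤ 19) {b : ℝ} (hb : 0 < b) (h : cel j b) : 1 / 8 < b := by
  by_contra hcon
  push Not at hcon
  have h1 : b ^ 7 ≤ (1 / 8 : ℝ) ^ 7 := pow_le_pow_left₀ hb.le hcon 7
  have h2 : (2 : ℝ) ^ (j + 1) ≤ 2 ^ 20 := pow_le_pow_right₀ (by norm_num) (by omega)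
  have h3 : (2 : ℝ) ^ (j + 1) * b ^ 7 ≤ 2 ^ 20 * (1 / 8 : ℝ) ^ 7 :=
    mul_le_mul h2 h1 (by positivity) (by positivity)
  have h4 : (2 : ℝ) ^ 20 * (1 / 8 : ℝ) ^ 7 < 1 := by norm_num
  linarith [h.2]

/-- the three lengths are comparable -/
theorem InT_ratio {TT : ℕ → ℕ} {v : St} (h : InT TT v) (z z' : Fin 3) : v.s z ≤ 8 * v.s z' := by
  obtain ⟨σ, f, k, hk, h1⟩ := h
  obtain ⟨⟨hG, hs0, -, h21, h10⟩, -, -, i, j, hij, hj, hci, hcj, -⟩ := h1
  have hlow : 1 / 8 < (act σ f k v).s 2 := cel_lower hj (hG 2).1 hcj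
  have key : ∀ y y' : Fin 3, (act σ f k v).s y ≤ 8 * (act σ f k v).s y' := by
    intro y y'
    have hy : (act σ f k v).s y ≤ 1 := by
      fin_cases y
      · exact hs0.le
      · exact h10
      · exact h21.trans h10
    have hy' : 1 / 8 ≤ (act σ f k v).s y' := by
      fin_cases y'
      · change 1 / 8 ≤ (act σ f k v).s 0
        rw [hs0]
        norm_num
      · exact hlow.le.trans h21
      · exact hlow.le
    linarith
  have h2 := key (σ.symm z) (σ.symm z')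
  have h3 : ∀ y, (act σ f k v).s (σ.symm y) = k * v.s y := fun y => by
    change k * v.s (σ (σ.symm y)) = k * v.s y
    rw [Equiv.apply_symm_apply]
  rw [h3, h3] at h2
  have h4 : k * v.s z ≤ k * (8 * v.s z') := by linarith
  exact le_of_mul_le_mul_left h4 hk

theorem Br_act {TT : ℕ → ℕ} {σ : Equiv.Perm (Fin 3)} {f : Bool} {k : ℝ} (hk : 0 < k) {v : St}
    (h : Br TT (act σ f k v)) : Br TT v := by
  obtain ⟨w, w', hw, hw', ⟨z, hz⟩, h1, h2⟩ := h
  rw [nxt_act, InT_act hk] at h1 h2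
  refine ⟨_, _, fun y => hw _, fun y => hw' _, ⟨σ z, ?_⟩, h1, h2⟩
  simpa using hz

theorem Cv_act {T1 T2 : ℕ → ℕ} {σ : Equiv.Perm (Fin 3)} {f : Bool} {k : ℝ} (hk : 0 < k) {v : St}
    (h : Cv T1 T2 (act σ f k v)) : Cv T1 T2 v := by
  rcases h with ⟨w, hw, h1⟩ | h
  · rw [nxt_act, InT_act hk] at h1
    exact Or.inl ⟨_, fun y => hw _, h1⟩
  · exact Or.inr (Br_act hk h)

theorem Br_of_nxt {TT : ℕ → ℕ} {v : St} (hv : Good v) {w : Fin 3 → List ℕ} (hw : DW w)
    (h : Br TT (nxt v w)) : Br TT v := by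
  obtain ⟨a, b, ha, hb, ⟨z, hz⟩, h1, h2⟩ := h
  have hr : ∀ z, 0 ≤ v.r z := fun z => m0_pos.le.trans (RE_mem (hv z).2).1
  rw [nxt_append v hr (fun z => D12_pos (hw z)) (fun z => D12_pos (ha z))] at h1
  rw [nxt_append v hr (fun z => D12_pos (hw z)) (fun z => D12_pos (hb z))] at h2
  refine ⟨_, _, fun y => D12_append.2 ⟨hw y, ha y⟩, fun y => D12_append.2 ⟨hw y, hb y⟩,
    ⟨z, ?_⟩, h1, h2⟩
  rw [List.prefix_append_right_inj, List.prefix_append_right_inj]
  exact hz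

end Pool.Agent.Helper6.AE
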