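import Pool.Agent.Helper6.AE.Phi

set_option autoImplicit false

namespace Pool.Agent.Helper6.AE

/-! AE MODULE AppA: appending words. -/

theorem lam_append {r : ℝ} (hr : 0 ≤ r) {w w' : List ℕ} (hw : ∀ a ∈ w, 1 ≤ a)
    (hw' : ∀ a ∈ w', 1 ≤ a) : lam r (w ++ w') = lam r w * lam (wv w.reverse r) w' := by
  have hm : (0 : ℝ) ≤ m0 := m0_pos.le
  have hM : (0 : ℝ) ≤ M0 := (m0_pos.trans m0_lt_M0).le
  have h1 := phi_wv hw hr (wv_nonneg (w := w') hm)
  have h2 := phi_wv hw hr (wv_nonneg (w := w') hM)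
  unfold lam upr lwo
  rw [wv_append, wv_append, List.length_append, h1, h2]
  rcases Nat.mod_two_eq_zero_or_one w.length with h | h <;>
    rcases Nat.mod_two_eq_zero_or_one w'.length with h' | h' <;>
    simp only [Nat.add_mod, h, h', Nat.add_zero, Nat.zero_add, Nat.zero_mod, Nat.one_mod,
      if_true, one_ne_zero, if_false, Nat.reduceAdd, Nat.reduceMod] <;> ring

theorem lw_append {r : ℝ} (hr : 0 ≤ r) (o : Bool) {w w' : List ℕ} (hw : ∀ a ∈ w, 1 ≤ a)
    (hw' : ∀ a ∈ w', 1 ≤ a) : lw r o (w ++ w') =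
      lw r o w + lam r w * lw (wv w.reverse r) (xor o (decide (w.length % 2 = 1))) w' := by
  have hm : (0 : ℝ) ≤ m0 := m0_pos.le
  have hM : (0 : ℝ) ≤ M0 := (m0_pos.trans m0_lt_M0).le
  have h1 := phi_wv hw hr (wv_nonneg (w := w') hm)
  have h2 := phi_wv hw hr (wv_nonneg (w := w') hM)
  unfold lw lam upr lwo
  rw [wv_append, wv_append, List.length_append, h1, h2]
  rcases Nat.mod_two_eq_zero_or_one w.length with h | h <;>
    rcases Nat.mod_two_eq_zero_or_one w'.length with h' | h' <;> cases o <;>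
    simp [Nat.add_mod, h, h'] <;> ring

theorem nxt_append (v : St) (hr : ∀ z, 0 ≤ v.r z) {w w' : Fin 3 → List ℕ}
    (hw : ∀ z, ∀ a ∈ w z, 1 ≤ a) (hw' : ∀ z, ∀ a ∈ w' z, 1 ≤ a) :
    nxt (nxt v w) w' = nxt v (fun z => w z ++ w' z) := by
  unfold nxt
  simp only [St.mk.injEq]
  refine ⟨?_, ?_, ?_, ?_⟩
  · funext z
    rw [lam_append (hr z) (hw z) (hw' z), mul_assoc]
  · funext z
    rw [List.reverse_append, wv_append]
  · funext z
    rw [List.length_append]
    rcases Nat.mod_two_eq_zero_or_one (w z).length with h | h <;>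
      rcases Nat.mod_two_eq_zero_or_one (w' z).length with h' | h' <;>
      cases v.o z <;> simp [Nat.add_mod, h, h']
  · rw [sub_sub, ← Finset.sum_add_distrib]
    congr 1
    refine Finset.sum_congr rfl fun z _ => ?_
    rw [lw_append (hr z) (v.o z) (hw z) (hw' z)]
    ring

theorem Good_nxt {v : St} (h : Good v) {w : Fin 3 → List ℕ} (hw : DW w) : Good (nxt v w) := by
  intro z
  refine ⟨?_, ?_⟩
  · exact mul_pos (h z).1 (lam_pos (m0_pos.le.trans (RE_mem (h z).2).1) (D12_pos (hw z)))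
  · exact RE_wv (h z).2 (hw z)

end Pool.Agent.Helper6.AE
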