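import Mathlib

/-!
Continued fraction digits by the Gauss map and the solution set of `x + y + z = 1`.
-/

set_option autoImplicit false

namespace Pool.Agent.Helper6.AE

/-- Gauss map -/
noncomputable def gauss (x : ℝ) : ℝ := Int.fract (1 / x)

/-- partial quotient number `k + 1` of `x` -/
noncomputable def pq (x : ℝ) (k : ℕ) : ℤ := ⌊1 / (gauss^[k] x)⌋

/-- irrational numbers of `(0, 1)` with all partial quotients at most `3` and eventually at most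
`2` -/
def B2s : Set ℝ :=
  {x | Irrational x ∧ 0 < x ∧ x < 1 ∧ (∀ k, pq x k ≤ 3) ∧ ∃ j, ∀ k, j ≤ k → pq x k ≤ 2}

/-- solutions of `x + y + z = 1`, `x ≤ y ≤ z` -/
def SS : Set (ℝ × ℝ × ℝ) :=
  {p | p.1 ∈ B2s ∧ p.2.1 ∈ B2s ∧ p.2.2 ∈ B2s ∧ p.1 + p.2.1 + p.2.2 = 1 ∧
    p.1 ≤ p.2.1 ∧ p.2.1 ≤ p.2.2}

end Pool.Agent.Helper6.AE
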