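import Pool.Agent.Helper6.AE.Defs

set_option autoImplicit false

namespace Pool.Agent.Helper6.AE

/-! AE MODULE Cov: covering of intervals. -/

/-- membership in the list of pieces -/
def PlMem (h n : ℕ) : Pl → Prop
  | .nil => False
  | .cons h' n' t => (h = h' ∧ n = n') ∨ PlMem h n t

theorem cov_and {b x : Bool} (h : @Bool.rec (fun _ => Bool) false x b = true) :
    b = true ∧ x = true := by
  cases b
  · exact absurd h (by simp)
  · exact ⟨rfl, h⟩

theorem cov_or {b x : Bool} (h : @Bool.rec (fun _ => Bool) x true b = true) :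
    b = true ∨ x = true := by
  cases b
  · exact Or.inr h
  · exact Or.inl rfl

theorem cov_sq (n : ℕ) (f : ℕ → Bool) : sq n f = f n := by
  cases n <;> rfl

theorem allP_sound {T1 T2 : ℕ → ℕ} {A0 A1 : Tr} {o0 o1 bb cc : ℕ} : ∀ {L : Pl},
    allP T1 T2 A0 A1 o0 o1 bb cc L = true → ∀ h n, PlMem h n L →
      pcs T1 T2 A0 A1 o0 o1 bb cc h n = true := by
  intro L
  induction L with
  | nil =>
    intro _ h n hm
    exact absurd hm (by simp [PlMem])
  | cons h' n' t ih =>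
    intro hL h n hm
    have h1 := cov_and (show @Bool.rec (fun _ => Bool) false (allP T1 T2 A0 A1 o0 o1 bb cc t)
      (pcs T1 T2 A0 A1 o0 o1 bb cc h' n') = true from hL)
    rcases hm with ⟨rfl, rfl⟩ | hm
    · exact h1.1
    · exact ih h1.2 h n hm

theorem cov_ext {lo hi cur c : ℕ} (h : ext lo hi cur = c) (hc : 1 ≤ c) :
    lo ≤ cur ∧ c = hi + 1 := by
  have e : ext lo hi cur = @Bool.rec (fun _ => ℕ) 0 (hi + 1) (Nat.ble lo cur) := rfl
  rw [e] at h
  cases hb : Nat.ble lo cur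
  · rw [hb] at h
    have h' : 0 = c := h
    omega
  · rw [hb] at h
    exact ⟨Nat.le_of_ble_eq_true hb, h.symm⟩

theorem cov_mxl (a b : ℕ) : mxl a b = a ∨ mxl a b = b := by
  have e : mxl a b = @Bool.rec (fun _ => ℕ) a b (Nat.ble a b) := rfl
  rw [e]
  cases Nat.ble a b
  · exact Or.inl rfl
  · exact Or.inr rfl

/-- the level `θ` is covered -/
def CovAt (e x : ℕ) (L : Pl) (θ : ℝ) : Prop :=
  InE e θ ∨ ∃ hh n, PlMem hh n L ∧ pat x hh = true ∧ ((hh / 2 ^ 8 % 1024 : ℕ) : ℝ) ≤ θ ∧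
    θ ≤ ((hh / 2 ^ 18 % 1024 : ℕ) : ℝ)

theorem cov_exT {e cur c x : ℕ} {L : Pl} {θ : ℝ} (h : exT e cur = c) (hc : 1 ≤ c)
    (h0 : (cur : ℝ) ≤ θ) (h1 : θ ≤ (c : ℝ) - 1) : CovAt e x L θ := by
  have key : ∀ lo hi : ℕ, ext lo hi cur = c → (lo : ℝ) ≤ θ ∧ θ ≤ (hi : ℝ) := by
    intro lo hi hext
    obtain ⟨h2, h3⟩ := cov_ext hext hc
    have h4 : (lo : ℝ) ≤ cur := by exact_mod_cast h2
    have h5 : (c : ℝ) = hi + 1 := by exact_mod_cast h3
    exact ⟨h4.trans h0, by linarith⟩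
  have e1 : exT e cur = mxl (ext (e % 1024) (e / 2 ^ 10 % 1024) cur)
      (mxl (ext (e / 2 ^ 20 % 1024) (e / 2 ^ 30 % 1024) cur)
        (ext (e / 2 ^ 40 % 1024) (e / 2 ^ 50 % 1024) cur)) := by
    have s1 : Nat.shiftRight e 10 = e / 2 ^ 10 := Nat.shiftRight_eq_div_pow e 10
    have s2 : Nat.shiftRight e 20 = e / 2 ^ 20 := Nat.shiftRight_eq_div_pow e 20
    have s3 : Nat.shiftRight e 30 = e / 2 ^ 30 := Nat.shiftRight_eq_div_pow e 30
    have s4 : Nat.shiftRight e 40 = e / 2 ^ 40 := Nat.shiftRight_eq_div_pow e 40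
    have s5 : Nat.shiftRight e 50 = e / 2 ^ 50 := Nat.shiftRight_eq_div_pow e 50
    rw [← s1, ← s2, ← s3, ← s4, ← s5]
    rfl
  rw [e1] at h
  left
  rcases cov_mxl (ext (e % 1024) (e / 2 ^ 10 % 1024) cur)
      (mxl (ext (e / 2 ^ 20 % 1024) (e / 2 ^ 30 % 1024) cur)
        (ext (e / 2 ^ 40 % 1024) (e / 2 ^ 50 % 1024) cur)) with h2 | h2
  · rw [h2] at h
    exact Or.inl (key _ _ h)
  · rw [h2] at h
    rcases cov_mxl (ext (e / 2 ^ 20 % 1024) (e / 2 ^ 30 % 1024) cur)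
        (ext (e / 2 ^ 40 % 1024) (e / 2 ^ 50 % 1024) cur) with h3 | h3
    · rw [h3] at h
      exact Or.inr (Or.inl (key _ _ h))
    · rw [h3] at h
      exact Or.inr (Or.inr (key _ _ h))

theorem cov_exP {x cur c : ℕ} : ∀ {L : Pl}, exP x cur L = c → 1 ≤ c →
    ∃ hh n, PlMem hh n L ∧ pat x hh = true ∧ hh / 2 ^ 8 % 1024 ≤ cur ∧
      c = hh / 2 ^ 18 % 1024 + 1 := by
  intro L
  induction L with
  | nil =>
    intro h hc
    have h' : 0 = c := h
    omega
  | cons hh n t ih =>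
    intro h hc
    have s1 : Nat.shiftRight hh 8 = hh / 2 ^ 8 := Nat.shiftRight_eq_div_pow hh 8
    have s2 : Nat.shiftRight hh 18 = hh / 2 ^ 18 := Nat.shiftRight_eq_div_pow hh 18
    have e1 : exP x cur (Pl.cons hh n t) = @Bool.rec (fun _ => ℕ) (exP x cur t)
        (mxl (ext (hh / 2 ^ 8 % 1024) (hh / 2 ^ 18 % 1024) cur) (exP x cur t)) (pat x hh) := by
      rw [← s1, ← s2]
      rfl
    rw [e1] at h
    cases hb : pat x hh
    · rw [hb] at h
      obtain ⟨h2, n2, hm, hr⟩ := ih h hc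
      exact ⟨h2, n2, Or.inr hm, hr⟩
    · rw [hb] at h
      have h' : mxl (ext (hh / 2 ^ 8 % 1024) (hh / 2 ^ 18 % 1024) cur) (exP x cur t) = c := h
      rcases cov_mxl (ext (hh / 2 ^ 8 % 1024) (hh / 2 ^ 18 % 1024) cur) (exP x cur t) with h3 | h3
      · rw [h3] at h'
        obtain ⟨h4, h5⟩ := cov_ext h' hc
        exact ⟨hh, n, Or.inl ⟨rfl, rfl⟩, hb, h4, h5⟩
      · rw [h3] at h'
        obtain ⟨h2, n2, hm, hr⟩ := ih h' hc
        exact ⟨h2, n2, Or.inr hm, hr⟩

theorem cov_sound {e x b : ℕ} {L : Pl} : ∀ (fuel cur : ℕ), cov e x b L fuel cur = true →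
    ∀ θ : ℝ, (cur : ℝ) ≤ θ → θ ≤ b → CovAt e x L θ := by
  intro fuel
  induction fuel with
  | zero =>
    intro cur h
    exact absurd (show false = true from h) (by simp)
  | succ fuel ih =>
    intro cur h θ h0 h1
    have e1 : cov e x b L (fuel + 1) cur = sq (mxl (exT e cur) (exP x cur L)) (fun c =>
      @Bool.rec (fun _ => Bool) false (@Bool.rec (fun _ => Bool)
        (cov e x b L fuel (Nat.sub c 1)) true (Nat.ble (Nat.succ b) c))
          (Nat.ble (Nat.succ cur) c)) := rfl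
    rw [e1, cov_sq] at h
    generalize hc : mxl (exT e cur) (exP x cur L) = c at h
    have h2 := cov_and h
    have h3 : cur + 1 ≤ c := Nat.le_of_ble_eq_true h2.1
    by_cases hθ : θ ≤ (c : ℝ) - 1
    · rcases cov_mxl (exT e cur) (exP x cur L) with h4 | h4
      · rw [h4] at hc
        exact cov_exT hc (by omega) h0 hθ
      · rw [h4] at hc
        obtain ⟨hh, n, hm, hp, h5, h6⟩ := cov_exP hc (by omega)
        right
        refine ⟨hh, n, hm, hp, ?_, ?_⟩
        · have h7 : ((hh / 2 ^ 8 % 1024 : ℕ) : ℝ) ≤ cur := by exact_mod_cast h5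
          exact h7.trans h0
        · have h7 : (c : ℝ) = ((hh / 2 ^ 18 % 1024 : ℕ) : ℝ) + 1 := by exact_mod_cast h6
          linarith
    · have h4 : (((Nat.sub c 1 : ℕ)) : ℝ) = (c : ℝ) - 1 := by
        have : Nat.sub c 1 = c - 1 := rfl
        rw [this, Nat.cast_sub (by omega)]
        simp
      rcases cov_or h2.2 with h5 | h5
      · exfalso
        have h6 : b + 1 ≤ c := Nat.le_of_ble_eq_true h5
        have h7 : (b : ℝ) + 1 ≤ c := by exact_mod_cast h6
        apply hθ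
        linarith
      · refine ih _ h5 θ ?_ h1
        rw [h4]
        exact (not_le.1 hθ).le

theorem cvI_sound {e x a b : ℕ} {L : Pl} (h : cvI e x a b L = true) {θ : ℝ} (h0 : (a : ℝ) ≤ θ)
    (h1 : θ ≤ b) : CovAt e x L θ := by
  have e1 : cvI e x a b L = @Bool.rec (fun _ => Bool) true (cov e x b L 16 a) (Nat.ble a b) := rfl
  rw [e1] at h
  have h2 : a ≤ b := by
    have : (a : ℝ) ≤ b := h0.trans h1
    exact_mod_cast this
  rw [Nat.ble_eq_true_of_le h2] at h
  exact cov_sound 16 a h θ h0 h1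

/-- a level in the entry `u` lies in the entry `e` or in the interval of a piece of the class `x` -/
theorem cvE_sound {u e x : ℕ} {L : Pl} (h : cvE u e x L = true) {θ : ℝ} (hθ : InE u θ) :
    InE e θ ∨ ∃ hh n, PlMem hh n L ∧ pat x hh = true ∧ ((hh / 2 ^ 8 % 1024 : ℕ) : ℝ) ≤ θ ∧
      θ ≤ ((hh / 2 ^ 18 % 1024 : ℕ) : ℝ) := by
  have s1 : Nat.shiftRight u 10 = u / 2 ^ 10 := Nat.shiftRight_eq_div_pow u 10
  have s2 : Nat.shiftRight u 20 = u / 2 ^ 20 := Nat.shiftRight_eq_div_pow u 20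
  have s3 : Nat.shiftRight u 30 = u / 2 ^ 30 := Nat.shiftRight_eq_div_pow u 30
  have s4 : Nat.shiftRight u 40 = u / 2 ^ 40 := Nat.shiftRight_eq_div_pow u 40
  have s5 : Nat.shiftRight u 50 = u / 2 ^ 50 := Nat.shiftRight_eq_div_pow u 50
  have e1 : cvE u e x L = @Bool.rec (fun _ => Bool) false (@Bool.rec (fun _ => Bool) false
      (cvI e x (u / 2 ^ 40 % 1024) (u / 2 ^ 50 % 1024) L)
      (cvI e x (u / 2 ^ 20 % 1024) (u / 2 ^ 30 % 1024) L))
      (cvI e x (u % 1024) (u / 2 ^ 10 % 1024) L) := by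
    rw [← s1, ← s2, ← s3, ← s4, ← s5]
    rfl
  rw [e1] at h
  have h1 := cov_and h
  have h2 := cov_and h1.2
  rcases hθ with hθ | hθ | hθ
  · exact cvI_sound h1.1 hθ.1 hθ.2
  · exact cvI_sound h2.1 hθ.1 hθ.2
  · exact cvI_sound h2.2 hθ.1 hθ.2

theorem cvs_sound {U T : ℕ} {L : Pl} : ∀ {n x : ℕ}, cvs U T L n x = true → ∀ m < n,
    cvE (U / 2 ^ (60 * (x + m)) % 2 ^ 60) (T / 2 ^ (60 * (x + m)) % 2 ^ 60) (x + m) L = true := by
  intro n
  induction n with
  | zero =>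
    intro x _ m hm
    omega
  | succ n ih =>
    intro x h m hm
    have s1 : Nat.shiftRight U (60 * x) = U / 2 ^ (60 * x) := Nat.shiftRight_eq_div_pow U (60 * x)
    have s2 : Nat.shiftRight T (60 * x) = T / 2 ^ (60 * x) := Nat.shiftRight_eq_div_pow T (60 * x)
    have s3 : (2 : ℕ) ^ 60 = 1152921504606846976 := by norm_num
    have e1 : cvs U T L (n + 1) x = @Bool.rec (fun _ => Bool) false (cvs U T L n (x + 1))
        (cvE (U / 2 ^ (60 * x) % 2 ^ 60) (T / 2 ^ (60 * x) % 2 ^ 60) x L) := by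
      rw [← s1, ← s2, s3]
      rfl
    rw [e1] at h
    have h1 := cov_and h
    cases m with
    | zero => simpa using h1.1
    | succ m =>
      have h2 := ih h1.2 m (by omega)
      have e2 : x + 1 + m = x + (m + 1) := by ring
      rw [e2] at h2
      exact h2

/-- meaning of the check of a row -/
theorem rowC_sound {T1 T2 : ℕ → ℕ} {A0 A1 : Tr} {o0 o1 i U T : ℕ} : ∀ {L : Rl} {j : ℕ},
    rowC T1 T2 A0 A1 o0 o1 i U T L j = true → ∀ j', j ≤ j' → j' ≤ 19 → ∃ p : Pl,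
      cellC T1 T2 A0 A1 o0 o1 (cb i) (cb j') (U / 2 ^ (480 * (20 * i + j')) % 2 ^ 480)
        (T / 2 ^ (480 * (20 * i + j')) % 2 ^ 480) p = true := by
  intro L
  induction L with
  | nil =>
    intro j h j' h1 h2
    have h3 : Nat.beq j 20 = true := h
    have h4 := Nat.eq_of_beq_eq_true h3
    omega
  | cons p t ih =>
    intro j h j' h1 h2
    have s1 : Nat.shiftRight U (480 * (20 * i + j)) = U / 2 ^ (480 * (20 * i + j)) :=
      Nat.shiftRight_eq_div_pow U _
    have s2 : Nat.shiftRight T (480 * (20 * i + j)) = T / 2 ^ (480 * (20 * i + j)) :=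
      Nat.shiftRight_eq_div_pow T _
    have s3 : (2 : ℕ) ^ 480 = 3121748550315992231381597229793166305748598142664971150859156959625371738819765620120306103063491971159826931121406622895447975679288285306290176 := by
      decide +kernel
    have e1 : rowC T1 T2 A0 A1 o0 o1 i U T (Rl.cons p t) j = @Bool.rec (fun _ => Bool) false
        (rowC T1 T2 A0 A1 o0 o1 i U T t (j + 1))
        (cellC T1 T2 A0 A1 o0 o1 (cb i) (cb j) (U / 2 ^ (480 * (20 * i + j)) % 2 ^ 480)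
          (T / 2 ^ (480 * (20 * i + j)) % 2 ^ 480) p) := by
      rw [← s1, ← s2, s3]
      rfl
    rw [e1] at h
    have h3 := cov_and h
    rcases Nat.eq_or_lt_of_le h1 with h4 | h4
    · subst h4
      exact ⟨p, h3.1⟩
    · exact ih h3.2 j' h4 h2

end Pool.Agent.Helper6.AE
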