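import Pool.Agent.Helper6.AE.Phi

set_option autoImplicit false

namespace Pool.Agent.Helper6.AE

/-! AE MODULE Cur: `phi` is almost linear in the Moebius parameter. -/

theorem Cur_poly {u : ℝ} (hu0 : 366 / 1000 ≤ u) :
    (u - 366 / 1000) * (7321 / 10000 - u) * u ≤
      3 / 100 * (7321 / 10000 - 366 / 1000) * (1 + 366 / 1000 * u) ^ 3 := by
  nlinarith [mul_nonneg (by linarith : (0 : ℝ) ≤ u) (sq_nonneg (u - 563 / 1000)),
    sq_nonneg (u - 563 / 1000)]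

theorem Cur_exact {m M R0 R1 r u : ℝ} (hM : M - m ≠ 0) (hR : R1 - R0 ≠ 0) (h0 : 1 + R0 * u ≠ 0)
    (h1 : 1 + R1 * u ≠ 0) (h2 : 1 + r * u ≠ 0) :
    (u - m) * (1 + r * M) / ((M - m) * (1 + r * u)) -
      ((R1 - r) / (R1 - R0) * ((u - m) * (1 + R0 * M) / ((M - m) * (1 + R0 * u))) +
        (r - R0) / (R1 - R0) * ((u - m) * (1 + R1 * M) / ((M - m) * (1 + R1 * u)))) =
      ((u - m) * (M - u) * u) * ((r - R0) * (R1 - r)) /
        ((M - m) * ((1 + r * u) * (1 + R0 * u) * (1 + R1 * u))) := by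
  obtain ⟨a, ha⟩ : ∃ a, a = 1 + R0 * u := ⟨_, rfl⟩
  obtain ⟨b, hb⟩ : ∃ b, b = 1 + R1 * u := ⟨_, rfl⟩
  obtain ⟨c, hc⟩ : ∃ c, c = 1 + r * u := ⟨_, rfl⟩
  obtain ⟨D, hD⟩ : ∃ D, D = M - m := ⟨_, rfl⟩
  obtain ⟨F, hF⟩ : ∃ F, F = R1 - R0 := ⟨_, rfl⟩
  rw [← ha] at h0
  rw [← hb] at h1
  rw [← hc] at h2
  rw [← hD] at hM
  rw [← hF] at hR
  rw [← ha, ← hb, ← hc, ← hD, ← hF]
  field_simp
  rw [ha, hb, hc, hF]
  ring

/-- interpolation error of `phi` in the first argument -/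
theorem phi_curv {R0 R1 r u : ℝ} (h0 : m0 ≤ R0) (h1 : R0 ≤ r) (h2 : r ≤ R1) (hlt : R0 < R1)
    (hu0 : m0 ≤ u) (hu1 : u ≤ M0) :
    0 ≤ phi r u - ((R1 - r) / (R1 - R0) * phi R0 u + (r - R0) / (R1 - R0) * phi R1 u) ∧
    phi r u - ((R1 - r) / (R1 - R0) * phi R0 u + (r - R0) / (R1 - R0) * phi R1 u) ≤
      3 / 400 * (R1 - R0) ^ 2 := by
  have hm : (0 : ℝ) < m0 := by unfold m0; norm_num
  have hMm : 0 < M0 - m0 := by unfold m0 M0; norm_num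
  have hu : 0 < u := lt_of_lt_of_le hm hu0
  have hR0 : 0 < R0 := lt_of_lt_of_le hm h0
  have hr : 0 < r := lt_of_lt_of_le hR0 h1
  have hR1 : 0 < R1 := lt_of_lt_of_le hr h2
  have d0 : 0 < 1 + R0 * u := by positivity
  have d1 : 0 < 1 + R1 * u := by positivity
  have d2 : 0 < 1 + r * u := by positivity
  unfold phi
  rw [Cur_exact hMm.ne' (sub_ne_zero.2 hlt.ne') d0.ne' d1.ne' d2.ne']
  have hA : 0 ≤ (u - m0) * (M0 - u) * u :=
    mul_nonneg (mul_nonneg (by linarith) (by linarith)) hu.le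
  have hB : 0 ≤ (r - R0) * (R1 - r) := mul_nonneg (by linarith) (by linarith)
  refine ⟨by positivity, ?_⟩
  rw [div_le_iff₀ (by positivity)]
  have hB' : (r - R0) * (R1 - r) ≤ (R1 - R0) ^ 2 / 4 := by
    nlinarith [sq_nonneg ((r - R0) - (R1 - r))]
  have hP : (u - m0) * (M0 - u) * u ≤ 3 / 100 * (M0 - m0) * (1 + m0 * u) ^ 3 := by
    have := Cur_poly (u := u) (by unfold m0 at hu0; exact hu0)
    unfold m0 M0
    exact this
  have e0 : 1 + m0 * u ≤ 1 + R0 * u := by nlinarith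
  have e1 : 1 + m0 * u ≤ 1 + R1 * u := by nlinarith
  have e2 : 1 + m0 * u ≤ 1 + r * u := by nlinarith
  have dm : 0 < 1 + m0 * u := by positivity
  have hQ : (1 + m0 * u) ^ 3 ≤ (1 + r * u) * (1 + R0 * u) * (1 + R1 * u) := by
    calc (1 + m0 * u) ^ 3 = (1 + m0 * u) * (1 + m0 * u) * (1 + m0 * u) := by ring
      _ ≤ _ := by gcongr
  calc (u - m0) * (M0 - u) * u * ((r - R0) * (R1 - r))
      ≤ (3 / 100 * (M0 - m0) * (1 + m0 * u) ^ 3) * ((R1 - R0) ^ 2 / 4) := by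
        gcongr
    _ = 3 / 400 * (R1 - R0) ^ 2 * ((M0 - m0) * (1 + m0 * u) ^ 3) := by ring
    _ ≤ _ := by gcongr

end Pool.Agent.Helper6.AE
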