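/-!
The integer program: checks a covering certificate. It is written with recursors, so that the
kernel can evaluate it quickly.
-/

set_option autoImplicit false

namespace Pool.Agent.Helper6.AE

/-- evaluate a number before it is used -/
noncomputable def sq (n : Nat) (f : Nat → Bool) : Bool :=
  @Nat.rec (fun _ => Bool) (f 0) (fun m _ => f (Nat.succ m)) n

/-- packed table of the numbers `floor (7 log2 (q/512))` -/
def LG : Nat := 0xa5294a5294a5294a5294a5294a5294a5294a5294a5294a5294a5294a5294a5294a5294a5294a5294a5294a5294a5294a5294a5294a5294a5294a5294a5294a5294a5294a5294a5294a5294a5294a5294a5294a5294a5294a5294a5294a5294a5294a5294a5294a5294a5294a5294a5294a5294a5294a5294a5294a5294a5294a5294a5294a5294a5294a5294a5294a5294a5294a5294a5294a5294a5294a5294a5294a5294a5294a5294a5294a5294a5294a5294a5294a5294a5294a5294a5294a5294a5294a5294a5294a5294a5294a5294a5294a5294a5294a5294a5294a5294a5294a5294a5294a5294a5294a5294a52739ce739ce739ce739ce739ce739ce739ce73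9ce739ce739ce739ce739ce739ce739ce739ce739ce739ce739ce739ce739ce739ce739ce739ce739ce739ce739ce739ce739ce739ce739ce739ce739ce739ce739ce739ce739ce739ce739ce739ce739ce739ce739ce739ce739ce739ce739ce739ce739ce739ce739ce739ce739ce739ce739ce739ce739ce739ce739ce739ce739ce739ce739ce739ce739ce739ce739ce739ce739ce739ce739ce739ce739ce739ce739ce739ce739ce739ce739ce739ce739ce739ce739ce739ce739ce739ce739ce739ce7294a5294a5294a5294a5294a5294a5294a5294a5294a5294a5294a5294a5294a5294a5294a5294a5294a5294a5294a5294a5294a5294a5294a5294a5294a5294a5294a5294a5294a5294a5294a5294a5294a5294a5294a5294a5294a5294a5294a5294a5294a5294a5294a5294a5294a5294a5294a5294a5294a5294a5294a5294a5294a5294a5294a5294a5294a5294a5294a5294a5294a5294a5294a5294a5294a5294a5294a5294a5294a5294a5294a5294a5294a5294a5294a5294a5294a5294a5294a528c6318c6318c6318c6318c6318c6318c6318c6318c6318c6318c6318c6318c6318c6318c6318c6318c6318c6318c6318c6318c6318c6318c6318c6318c6318c6318c6318c6318c6318c6318c6318c6318c6318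c6318c6318c6318c6318c6318c6318c6318c6318c6318c6318c6318c6318c6318c6318c6318c6318c6318c6318c6318c6318c6318c6318c6318c6318c6318c6318c6318c6318c6318c6318c6318c6318c6318c6318c6318c6318c6318c6318c630842108421084210842108421084210842108421084210842108421084210842108421084210842108421084210842108421084210842108421084210842108421084210842108421084210842108421084210842108421084210842108421084210842108421084210842108421084210842108421084210842108421084210842108421084210842108421084210842108421084210842108421084210842108420f7bdef7bdef7bdef7bdef7bdef7bdef7bdef7bdef7bdef7bdef7bdef7bdef7bdef7bdef7bdef7bdef7bdef7bdef7bdef7bdef7bdef7bdef7bdef7bdef7bdef7bdef7bdef7bdef7bdef7bdef7bdef7bdef7bdef7bdef7bdef7bdef7bdef7bdef7bdef7bdef7bdef7bdef7bdef7bdef7bdef7bdef7bdef7bdef7bdef7bdef7bdef7bdef7bdef7bdef7bdef7bdef7bdef7bdef7bdce739ce739ce739ce739ce739ce739ce739ce739ce739ce739ce739ce739ce739ce739ce739ce739ce739ce739ce739ce739ce739ce739ce739ce739ce739ce739ce739ce739ce739ce73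9ce739ce739ce739ce739ce739ce739ce739ce739ce739ce739ce739ce739ce739ce739ce739ce739ce739ce739ce739ce739ce739ce739ce739ce6b5ad6b5ad6b5ad6b5ad6b5ad6b5ad6b5ad6b5ad6b5ad6b5ad6b5ad6b5ad6b5ad6b5ad6b5ad6b5ad6b5ad6b5ad6b5ad6b5ad6b5ad6b5ad6b5ad6b5ad6b5ad6b5ad6b5ad6b5ad6b5ad6b5ad6b5ad6b5ad6b5ad6b5ad6b5ad6b5ad6b5ad6b5ad6b5ad6b5ad6b5ad6b5ad6b5ad6b5ad6b5ad6b5ad6b5ad6b5ad6b18c6318c6318c6318c6318c6318c6318c6318c6318c6318c6318c6318c6318c6318c6318c6318c6318c6318c6318c6318c6318c6318c6318c6318c6318c6318c6318c6318c6318c6318c6318c6318c6318c6318c6318c6318c6318c6318c6318c6318c6318c6318c6318c6318b5ad6b5ad6b5ad6b5ad6b5ad6b5ad6b5ad6b5ad6b5ad6b5ad6b5ad6b5ad6b5ad6b5ad6b5ad6b5ad6b5ad6b5ad6b5ad6b5ad6b5ad6b5ad6b5ad6b5ad6b5ad6b5ad6b5ad6b5ad6b5ad6b5ad6b5ad6b5ad6b5ad6b5ad6b5ad6b5ad6b5ad6b5ad6b5ad6b5ad4a5294a5294a5294a5294a5294a5294a5294a5294a5294a5294a5294a5294a5294a5294a5294a5294a5294a5294a5294a5294a5294a5294a5294a5294a5294a5294a5294a5294a5294a5294a5294a5294a5294a5294a5294a525294a5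294a5294a5294a5294a5294a5294a5294a5294a5294a5294a5294a5294a5294a5294a5294a5294a5294a5294a5294a5294a5294a5294a5294a5294a5294a5294a5294a5294a5294a5294a5294a528421084210842108421084210842108421084210842108421084210842108421084210842108421084210842108421084210842108421084210842108421084210842108421084210841ce739ce739ce739ce739ce739ce739ce739ce739ce739ce739ce739ce739ce739ce739ce739ce739ce739ce739ce739ce739ce739ce739ce739ce739ce739ce739ce7318c6318c6318c6318c6318c6318c6318c6318c6318c6318c6318c6318c6318c6318c6318c6318c6318c6318c6318c6318c6318c6318c6318c6318c6294a5294a5294a5294a5294a5294a5294a5294a5294a5294a5294a5294a5294a5294a5294a5294a5294a5294a5294a5294a5294a5294a4210842108421084210842108421084210842108421084210842108421084210842108421084210842108421084210842108318c6318c6318c6318c6318c6318c6318c6318c6318c6318c6318c6318c6318c6318c6318c6318c6318c6318c4210842108421084210842108421084210842108421084210842108421084210842108421084210841084210842108421084210842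108421084210842108421084210842108421084210842108400000000000000000000000000000000000000000000000000000000000000000000000000000000000000000000000000000000000000000000000000000000000000000000000000000000000000000000000000000000000000000000000000000000000000000000000000000000000000000000000000000000000000000000000000000000000000000000000000000000000000000000000000000000000000000000000000000000000000000000000000000000000000000000000000000000000000000000000000000000000000000000000000000000000000000000000000000000000000000000000000000000000000000000000000000000000000000000000000000000000000000000000000000000000000000000000000000000000000000000000000000000000000000000000000000000000000000000000000000000000000000000000000000000000000000000000000000000000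

/-- a number from its digits in base `2^3840` -/
noncomputable def pk (l : List Nat) : Nat :=
  @List.rec Nat (fun _ => Nat) 0 (fun a _ ih => Nat.add a (Nat.shiftLeft ih 3840)) l

/-- list of pieces: header and certificate -/
inductive Pl where
  | nil : Pl
  | cons (h n : Nat) (t : Pl) : Pl

/-- list of lists of pieces -/
inductive Rl where
  | nil : Rl
  | cons (p : Pl) (t : Rl) : Rl

/-- tree of the intervals of `r`: row of values, slack, two children -/
inductive Tr where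
  | nil : Tr
  | node (row ka : Nat) (l r : Tr) : Tr

/-- functional: entry, level, packed values -/
structure Fn where
  (e th g : Nat)

/-- box -/
structure Bx where
  (b0 b1 c0 c1 k0 k1 k2 row0 row1 row2 : Nat) (t0 t1 t2 : Tr)

/-- context: box, lower and upper functionals -/
structure Cx where
  (B : Bx) (F G : List Fn)

/-- row entry -/
noncomputable def f192 (e k : Nat) : Nat := Nat.mod (Nat.shiftRight e (Nat.mul 192 k)) 6277101735386680763835789423207666416102355444464034512896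

/-- packed data of three words -/
noncomputable def xx (e row0 row1 row2 : Nat) : Nat :=
  Nat.add (f192 row0 (Nat.mod (e) 1024)) (Nat.add (Nat.shiftLeft (f192 row1 (Nat.mod (Nat.shiftRight (e) (10)) 1024)) 192) (Nat.shiftLeft (f192 row2 (Nat.mod (Nat.shiftRight (e) (20)) 1024)) 384))

/-- packed values of a functional (six lanes of 32 bits) -/
noncomputable def gX (X th : Nat) : Nat :=
  Nat.add (Nat.mul 1000 (Nat.land X 726838724295606890509921801691610055141362320587174446476526251999411157640866923805218630169355789144590688249004635968035496442986495))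
    (Nat.mul th (Nat.land (Nat.shiftRight X 64) 726838724295606890509921801691610055141362320587174446476526251999411157640866923805218630169355789144590688249004635968035496442986495))

noncomputable def le3 (E0 E1 E2 b c : Nat) : Bool :=
  Nat.ble (Nat.mul (Nat.add 100000 (Nat.add b c)) 2147483648)
    (Nat.add (Nat.mul 100000 E0) (Nat.add (Nat.mul b E1) (Nat.mul c E2)))

noncomputable def le2 (b0 b1 c0 c1 E0 E1 E2 : Nat) : Bool :=
  le3 E0 E1 E2 (@Bool.rec (fun _ => Nat) (b1) (b0) (Nat.ble 2147483648 E1)) (@Bool.rec (fun _ => Nat) (c1) (c0) (Nat.ble 2147483648 E2))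

noncomputable def mnl (a b : Nat) : Nat := @Bool.rec (fun _ => Nat) (b) (a) (Nat.ble a b)

noncomputable def le1 (b0 b1 c0 c1 k0 k1 k2 D : Nat) : Bool :=
  le2 b0 b1 c0 c1 (Nat.sub (mnl (Nat.mod (D) 4294967296) (Nat.mod (Nat.shiftRight (D) (32)) 4294967296)) k0)
    (Nat.sub (mnl (Nat.mod (Nat.shiftRight (D) (192)) 4294967296) (Nat.mod (Nat.shiftRight (D) (224)) 4294967296)) k1)
    (Nat.sub (mnl (Nat.mod (Nat.shiftRight (D) (384)) 4294967296) (Nat.mod (Nat.shiftRight (D) (416)) 4294967296)) k2)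

/-- `g ≤ h` on the box -/
noncomputable def leF (B : Bx) (g h : Nat) : Bool :=
  @Bx.rec (fun _ => Bool) (fun b0 b1 c0 c1 k0 k1 k2 _ _ _ _ _ _ =>
    le1 b0 b1 c0 c1 k0 k1 k2 (Nat.sub (Nat.add h 363419362232418609279813724609847426605015373441694829560230991703386827922868263753745055083976146524334456117855772407586838049456128) g)) B

/-- `g` is below every member of `F` -/
noncomputable def leL (B : Bx) (g : Nat) (F : List Fn) : Bool :=
  @List.rec Fn (fun _ => Bool) true (fun f _ ih => @Bool.rec (fun _ => Bool) false (ih) (@Fn.rec (fun _ => Bool) (fun _ _ h => leF B g h) f)) F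

/-- every `g` of `G` is below every `f` of `F` -/
noncomputable def fin (B : Bx) (F G : List Fn) : Bool :=
  @List.rec Fn (fun _ => Bool) true (fun g _ ih => @Bool.rec (fun _ => Bool) false (ih) (@Fn.rec (fun _ => Bool) (fun _ _ g => leL B g F) g)) G

/-- second and third interval of a table entry -/
noncomputable def lk3 (e lo hi : Nat) : Bool :=
  @Bool.rec (fun _ => Bool) (@Bool.rec (fun _ => Bool) false (Nat.ble hi (Nat.mod (Nat.shiftRight (e) (50)) 1024)) (Nat.ble (Nat.mod (Nat.shiftRight (e) (40)) 1024) lo)) (true) (@Bool.rec (fun _ => Bool) false (Nat.ble hi (Nat.mod (Nat.shiftRight (e) (30)) 1024)) (Nat.ble (Nat.mod (Nat.shiftRight (e) (20)) 1024) lo))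

/-- table entry: the interval lies in one of three intervals -/
noncomputable def lk2 (e lo hi : Nat) : Bool :=
  @Bool.rec (fun _ => Bool) (lk3 e lo hi) (true) (@Bool.rec (fun _ => Bool) false (Nat.ble hi (Nat.mod (Nat.shiftRight (e) (10)) 1024)) (Nat.ble (Nat.mod (e) 1024) lo))

/-- table look up for `n` cells from position `k` on -/
noncomputable def lpj (T lo hi n : Nat) : Nat → Bool :=
  @Nat.rec (fun _ => Nat → Bool) (fun _ => true) (fun _ ih k =>
    @Bool.rec (fun _ => Bool) false (ih (Nat.add k 8)) (lk2 (Nat.mod (Nat.shiftRight T (Nat.mul 60 k)) 1152921504606846976) lo hi)) n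

/-- table look up for `n` rows from position `k` on -/
noncomputable def lpi (T lo hi m n : Nat) : Nat → Bool :=
  @Nat.rec (fun _ => Nat → Bool) (fun _ => true) (fun _ ih k =>
    @Bool.rec (fun _ => Bool) false (ih (Nat.add k 160)) (lpj T lo hi m k)) n

/-- loop over the classes `c, …, c+n-1` of one coordinate -/
noncomputable def lpc (p : Nat → Bool) (n : Nat) : Nat → Bool :=
  @Nat.rec (fun _ => Nat → Bool) (fun _ => true) (fun _ ih c => @Bool.rec (fun _ => Bool) false (ih (Nat.succ c)) (p c)) n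

/-- class data: `0` and `1` are single classes, `8` is both -/
noncomputable def perm3 (T mp mq ms lo hi k nj ni : Nat) : Bool :=
  @Bool.rec (fun _ => Bool) (lpc (fun xp => lpc (fun xq => lpc (fun xs =>
    lpi T lo hi nj ni (Nat.add k (Nat.add xp (Nat.add (Nat.mul 2 xq) (Nat.mul 4 xs)))))
    (Nat.succ (Nat.shiftRight ms 3)) (Nat.mod ms 2)) (Nat.succ (Nat.shiftRight mq 3)) (Nat.mod mq 2)) (Nat.succ (Nat.shiftRight mp 3)) (Nat.mod mp 2)) (lpi T lo hi nj ni (Nat.add k (Nat.add (Nat.mod mp 2) (Nat.add (Nat.mul 2 (Nat.mod mq 2)) (Nat.mul 4 (Nat.mod ms 2)))))) (Nat.ble (Nat.add mp (Nat.add mq ms)) 3)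

noncomputable def perm2 (TT : Nat → Nat) (np nq ns mp mq ms i0 i1 j0 j1 lo hi : Nat) : Bool :=
  @Bool.rec (fun _ => Bool) false (@Bool.rec (fun _ => Bool) false (@Bool.rec (fun _ => Bool) (perm3 (TT (Nat.sub 3 (Nat.add np (Nat.mul 2 nq)))) mp mq ms (Nat.sub 1000 hi) (Nat.sub 1000 lo) (Nat.mul 8 (Nat.add (Nat.mul 20 i0) j0)) (Nat.sub (Nat.succ j1) j0) (Nat.sub (Nat.succ (mnl i1 j1)) i0)) (perm3 (TT (Nat.add np (Nat.mul 2 nq))) mp mq ms lo hi (Nat.mul 8 (Nat.add (Nat.mul 20 i0) j0)) (Nat.sub (Nat.succ j1) j0) (Nat.sub (Nat.succ (mnl i1 j1)) i0)) (Nat.beq ns 0)) (Nat.ble i0 j1)) (Nat.ble j1 19)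

noncomputable def lgt (q : Nat) : Nat := Nat.mod (Nat.shiftRight LG (Nat.mul 5 (mnl q 4095))) 32
/-- lower bound for the index of a ratio -/
noncomputable def lgl (x y : Nat) : Nat := lgt (Nat.div (Nat.mul 512 x) y)
/-- upper bound -/
noncomputable def lgh (y x : Nat) : Nat := lgt (Nat.div (Nat.add (Nat.mul 512 y) (Nat.sub x 1)) x)

noncomputable def perm (TT : Nat → Nat) (lo hi np nq ns mp mq ms Xpq Ypq Xqp Yqp Xps Yps Xsp Ysp : Nat) : Bool :=
  perm2 TT np nq ns mp mq ms (lgl Xpq Ypq) (lgh Yqp Xqp) (lgl Xps Yps) (lgh Ysp Xsp) lo hi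

/-- new orientation -/
noncomputable def xr (a b : Nat) : Nat := @Bool.rec (fun _ => Nat) (1) (0) (Nat.beq a b)

noncomputable def img3 (TT : Nat → Nat) (lo hi n0 n1 n2 m0 m1 m2 S0 H0 S1 H1 S2 H2 X12 Y12 : Nat)
   (q01 q10 q02 q20 q12 q21 : Bool) : Bool :=
  @Bool.rec (fun _ => Bool) false (@Bool.rec (fun _ => Bool) false (@Bool.rec (fun _ => Bool) (true) (@Bool.rec (fun _ => Bool) false (@Bool.rec (fun _ => Bool) (true) (perm TT lo hi n2 n1 n0 m2 m1 m0 S2 H1 X12 Y12 S2 H0 S0 H2) (q10)) (@Bool.rec (fun _ => Bool) (true) (perm TT lo hi n2 n0 n1 m2 m0 m1 S2 H0 S0 H2 S2 H1 X12 Y12) (q01))) (@Bool.rec (fun _ => Bool) false (q21) (q20))) (@Bool.rec (fun _ => Bool) (true) (@Bool.rec (fun _ => Bool) false (@Bool.rec (fun _ => Bool) (true) (perm TT lo hi n1 n2 n0 m1 m2 m0 X12 Y12 S2 H1 S1 H0 S0 H1) (q20)) (@Bool.rec (fun _ => Bool) (true) (perm TT lo hi n1 n0 n2 m1 m0 m2 S1 H0 S0 H1 X12 Y12 S2 H1) (q02))) (@Bool.rec (fun _ => Bool) false (q12) (q10)))) (@Bool.rec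 (fun _ => Bool) (true) (@Bool.rec (fun _ => Bool) false (@Bool.rec (fun _ => Bool) (true) (perm TT lo hi n0 n2 n1 m0 m2 m1 S0 H2 S2 H0 S0 H1 S1 H0) (q21)) (@Bool.rec (fun _ => Bool) (true) (perm TT lo hi n0 n1 n2 m0 m1 m2 S0 H1 S1 H0 S0 H2 S2 H0) (q12))) (@Bool.rec (fun _ => Bool) false (q02) (q01)))

noncomputable def img2 (TT : Nat → Nat) (lo hi n0 n1 n2 m0 m1 m2 S0 H0 S1 H1 S2 H2 X12 Y12 : Nat) : Bool :=
  img3 TT lo hi n0 n1 n2 m0 m1 m2 S0 H0 S1 H1 S2 H2 X12 Y12
    (Nat.ble S1 H0) (@Bool.rec (fun _ => Bool) true false (Nat.ble H1 S0)) (Nat.ble S2 H0) (@Bool.rec (fun _ => Bool) true false (Nat.ble H2 S0))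
    (Nat.ble S2 H1) (@Bool.rec (fun _ => Bool) true false (Nat.ble Y12 X12))

noncomputable def img1 (TT : Nat → Nat) (lo hi n0 n1 n2 m0 m1 m2 b0 b1 c0 c1 l0 h0 l1 h1 l2 h2 : Nat) : Bool :=
  @Bool.rec (fun _ => Bool) false (@Bool.rec (fun _ => Bool) false (@Bool.rec (fun _ => Bool) false (img2 TT lo hi n0 n1 n2 m0 m1 m2 (Nat.mul 100000 l0) (Nat.mul 100000 h0) (Nat.mul b0 l1)
    (Nat.mul b1 h1) (Nat.mul c0 l2) (Nat.mul c1 h2)
    (@Bool.rec (fun _ => Nat) (l1) (Nat.mul b0 l1) (Nat.ble c1 b0)) (@Bool.rec (fun _ => Nat) (h2) (Nat.mul c1 h2) (Nat.ble c1 b0))) (Nat.ble hi 1000)) (Nat.ble lo hi)) (Nat.ble 1 (Nat.mul b0 (Nat.mul c0 (Nat.mul l0 (Nat.mul l1 l2)))))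

/-- check of the image -/
noncomputable def img (TT : Nat → Nat) (o0 o1 b0 b1 c0 c1 e X : Nat) : Bool :=
  img1 TT (Nat.mod (Nat.shiftRight (e) (30)) 1024) (Nat.mod (Nat.shiftRight (e) (40)) 1024) (xr o0 (Nat.mod (Nat.shiftRight (X) (176)) 2)) (xr o1 (Nat.mod (Nat.shiftRight (X) (368)) 2))
    (Nat.mod (Nat.shiftRight (X) (560)) 2) (Nat.mod (Nat.shiftRight (X) (184)) 256) (Nat.mod (Nat.shiftRight (X) (376)) 256) (Nat.mod (Nat.shiftRight (X) (568)) 256) b0 b1 c0 c1
    (Nat.mod (Nat.shiftRight (X) (128)) 16777216) (Nat.mod (Nat.shiftRight (X) (152)) 16777216) (Nat.mod (Nat.shiftRight (X) (320)) 16777216) (Nat.mod (Nat.shiftRight (X) (344)) 16777216) (Nat.mod (Nat.shiftRight (X) (512)) 16777216) (Nat.mod (Nat.shiftRight (X) (536)) 16777216)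

noncomputable def ent2 (TT : Nat → Nat) (o0 o1 b0 b1 c0 c1 e X : Nat)
    (k : Fn → Fn → Bool) : Bool :=
  @Bool.rec (fun _ => Bool) false (k ⟨e, Nat.mod (Nat.shiftRight (e) (30)) 1024, gX X (Nat.mod (Nat.shiftRight (e) (30)) 1024)⟩ ⟨e, Nat.mod (Nat.shiftRight (e) (40)) 1024, gX X (Nat.mod (Nat.shiftRight (e) (40)) 1024)⟩) (img TT o0 o1 b0 b1 c0 c1 e X)

/-- an entry of the certificate: checks the image and passes on the two functionals -/
noncomputable def ent (TT : Nat → Nat) (o0 o1 : Nat) (B : Bx) (e : Nat)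
    (k : Fn → Fn → Bool) : Bool :=
  @Bx.rec (fun _ => Bool) (fun b0 b1 c0 c1 _ _ _ row0 row1 row2 _ _ _ =>
    ent2 TT o0 o1 b0 b1 c0 c1 e (xx e row0 row1 row2) k) B

/-- new values of the functionals -/
noncomputable def upF (row0 row1 row2 : Nat) (F : List Fn) : List Fn :=
  @List.rec Fn (fun _ => List Fn) [] (fun f _ ih =>
    @Fn.rec (fun _ => List Fn) (fun e th _ => ⟨e, th, gX (xx e row0 row1 row2) th⟩ :: ih) f) F

/-- two words are incompatible (`la`, `lb` are their lengths) -/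
noncomputable def inc (a b la lb : Nat) : Bool :=
  @Bool.rec (fun _ => Bool) (@Bool.rec (fun _ => Bool) true false (Nat.beq (Nat.shiftRight a (Nat.sub la lb)) b)) (@Bool.rec (fun _ => Bool) true false (Nat.beq (Nat.shiftRight b (Nat.sub lb la)) a)) (Nat.ble la lb)

noncomputable def incX (e e' X X' : Nat) : Bool :=
  @Bool.rec (fun _ => Bool) (@Bool.rec (fun _ => Bool) (inc (Nat.mod (Nat.shiftRight (e) (20)) 1024) (Nat.mod (Nat.shiftRight (e') (20)) 1024) (Nat.mod (Nat.shiftRight (X) (560)) 256) (Nat.mod (Nat.shiftRight (X') (560)) 256)) true (inc (Nat.mod (Nat.shiftRight (e) (10)) 1024) (Nat.mod (Nat.shiftRight (e') (10)) 1024) (Nat.mod (Nat.shiftRight (X) (368)) 256) (Nat.mod (Nat.shiftRight (X') (368)) 256))) true (inc (Nat.mod (e) 1024) (Nat.mod (e') 1024) (Nat.mod (Nat.shiftRight (X) (176)) 256) (Nat.mod (Nat.shiftRight (X') (176)) 256))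

noncomputable def incE (B : Bx) (e e' : Nat) : Bool :=
  @Bx.rec (fun _ => Bool) (fun _ _ _ _ _ _ _ row0 row1 row2 _ _ _ =>
    incX e e' (xx e row0 row1 row2) (xx e' row0 row1 row2)) B

/-- split in `b` or `c` -/
noncomputable def spb (B : Bx) (v : Nat) (k : Bx → Bx → Bool) : Bool :=
  @Bx.rec (fun _ => Bool) (fun b0 b1 c0 c1 k0 k1 k2 row0 row1 row2 t0 t1 t2 =>
    k ⟨b0, v, c0, c1, k0, k1, k2, row0, row1, row2, t0, t1, t2⟩
      ⟨v, b1, c0, c1, k0, k1, k2, row0, row1, row2, t0, t1, t2⟩) B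
noncomputable def spc (B : Bx) (v : Nat) (k : Bx → Bx → Bool) : Bool :=
  @Bx.rec (fun _ => Bool) (fun b0 b1 c0 c1 k0 k1 k2 row0 row1 row2 t0 t1 t2 =>
    k ⟨b0, b1, c0, v, k0, k1, k2, row0, row1, row2, t0, t1, t2⟩
      ⟨b0, b1, v, c1, k0, k1, k2, row0, row1, row2, t0, t1, t2⟩) B

/-- replace the interval of `r` number `z` (`9`, `10` or `11`) by `t` -/
noncomputable def rpl (z : Nat) (B : Bx) (t : Tr) (F G : List Fn) (k : Cx → Bool) : Bool :=
  @Bx.rec (fun _ => Bool) (fun b0 b1 c0 c1 k0 k1 k2 row0 row1 row2 t0 t1 t2 =>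
    @Tr.rec (fun _ => Bool) false (fun row ka _ _ _ _ =>
      @Bool.rec (fun _ => Bool) (@Bool.rec (fun _ => Bool) (k ⟨⟨b0, b1, c0, c1, k0, k1, ka, row0, row1, row, t0, t1, t⟩, upF row0 row1 row F, upF row0 row1 row G⟩) (k ⟨⟨b0, b1, c0, c1, k0, ka, k2, row0, row, row2, t0, t, t2⟩, upF row0 row row2 F, upF row0 row row2 G⟩) (Nat.beq z 10)) (k ⟨⟨b0, b1, c0, c1, ka, k1, k2, row, row1, row2, t, t1, t2⟩, upF row row1 row2 F, upF row row1 row2 G⟩) (Nat.beq z 9)) t) B

noncomputable def getT (z : Nat) (B : Bx) : Tr :=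
  @Bx.rec (fun _ => Tr) (fun _ _ _ _ _ _ _ _ _ _ t0 t1 t2 =>
    @Bool.rec (fun _ => Tr) (@Bool.rec (fun _ => Tr) (t2) (t1) (Nat.beq z 10)) (t0) (Nat.beq z 9)) B

noncomputable def spr (z : Nat) (B : Bx) (F G : List Fn) (k : Cx → Cx → Bool) : Bool :=
  @Tr.rec (fun _ => Bool) false (fun _ _ l r _ _ =>
    rpl z B l F G fun X => rpl z B r F G fun Y => k X Y) (getT z B)

noncomputable def emp (B : Bx) : Bool :=
  @Bx.rec (fun _ => Bool) (fun _ b1 c0 _ _ _ _ _ _ _ _ _ _ => Nat.ble b1 c0) B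

noncomputable def tks (ih : Nat → List Cx → Bool) (kd e n : Nat) (st : List Cx) (B : Bx) (F G : List Fn) : Bool :=
  @Bool.rec (fun _ => Bool) (@Bool.rec (fun _ => Bool) (@Bool.rec (fun _ => Bool) (@Bool.rec (fun _ => Bool) false (ih n st) (emp B)) (spr kd B F G fun X Y => ih n (X :: Y :: st)) (Nat.ble kd 11)) (spc B e fun X Y => ih n (⟨X, F, G⟩ :: ⟨Y, F, G⟩ :: st)) (Nat.beq kd 8)) (spb B e fun X Y => ih n (⟨X, F, G⟩ :: ⟨Y, F, G⟩ :: st)) (Nat.beq kd 7)

/-- continuation after a step: `c = 1`: the lower part is done, `c = 3`: both parts are done -/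
noncomputable def fsh (ih : Nat → List Cx → Bool) (c n : Nat) (st : List Cx)
    (B : Bx) (F G lo hi : List Fn) : Bool :=
  @Bool.rec (fun _ => Bool) (@Bool.rec (fun _ => Bool) false (@Bool.rec (fun _ => Bool) (@Bool.rec (fun _ => Bool) false (ih n st) (fin B hi G)) (ih n (⟨B, hi, G⟩ :: st)) (Nat.beq c 1)) (fin B F lo)) (ih n (⟨B, F, lo⟩ :: ⟨B, hi, G⟩ :: st)) (Nat.beq c 2)

noncomputable def tk1 (TT : Nat → Nat) (o0 o1 : Nat) (ih : Nat → List Cx → Bool) (kd e n : Nat) (st : List Cx)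
    (B : Bx) (F G : List Fn) : Bool :=
  ent TT o0 o1 B e fun lo hi => fsh ih kd n st B F G [lo] [hi]

noncomputable def tk2 (TT : Nat → Nat) (o0 o1 : Nat) (ih : Nat → List Cx → Bool) (kd e e' n : Nat) (st : List Cx)
    (B : Bx) (F G : List Fn) : Bool :=
  @Bool.rec (fun _ => Bool) false (ent TT o0 o1 B e fun lo hi => ent TT o0 o1 B e' fun lo' hi' => fsh ih kd n st B F G [lo, lo'] [hi, hi']) (incE B e e')

noncomputable def tok1 (TT1 TT2 : Nat → Nat) (o0 o1 : Nat) (ih : Nat → List Cx → Bool) (kd e n : Nat)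
    (st : List Cx) (B : Bx) (F G : List Fn) : Bool :=
  @Bool.rec (fun _ => Bool) (@Bool.rec (fun _ => Bool) (@Bool.rec (fun _ => Bool) (tks ih kd e n st B F G) (sq (Nat.shiftRight n 56) fun n' => tk2 TT2 o0 o1 ih (Nat.sub kd 3) e (Nat.shiftRight (Nat.mod n 72057594037927936) 4) n' st B F G) (Nat.ble kd 6)) (tk1 TT1 o0 o1 ih kd e n st B F G) (Nat.ble kd 3)) (@Bool.rec (fun _ => Bool) false (ih n st) (fin B F G)) (Nat.beq kd 0)

noncomputable def tok0 (TT1 TT2 : Nat → Nat) (o0 o1 : Nat) (ih : Nat → List Cx → Bool) (n : Nat)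
    (st : List Cx) (B : Bx) (F G : List Fn) : Bool :=
  sq (Nat.shiftRight n 56) fun n' =>
    tok1 TT1 TT2 o0 o1 ih (Nat.mod n 16) (Nat.shiftRight (Nat.mod n 72057594037927936) 4) n' st B F G

noncomputable def run (TT1 TT2 : Nat → Nat) (o0 o1 : Nat) (fuel : Nat) :
    Nat → List Cx → Bool :=
  @Nat.rec (fun _ => Nat → List Cx → Bool)
   (fun _ _ => false)
   (fun _ ih n st =>
     @List.rec Cx (fun _ => Bool) true
       (fun c st' _ => @Cx.rec (fun _ => Bool) (fun B F G => tok0 TT1 TT2 o0 o1 ih n st' B F G) c) st)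
   fuel

/-- `1049601` is the code of three empty words -/
noncomputable def piece1 (TT1 TT2 : Nat → Nat) (o0 o1 b0 b1 c0 c1 k0 k1 k2 row0 row1 row2 : Nat) (t0 t1 t2 : Tr)
    (lo hi fuel n : Nat) : Bool :=
  @Bool.rec (fun _ => Bool) false (@Bool.rec (fun _ => Bool) false (run TT1 TT2 o0 o1 fuel n [⟨⟨b0, b1, c0, c1, k0, k1, k2, row0, row1, row2, t0, t1, t2⟩,
    [⟨1049601, lo, gX (xx 1049601 row0 row1 row2) lo⟩],
    [⟨1049601, hi, gX (xx 1049601 row0 row1 row2) hi⟩]⟩]) (Nat.ble hi 1000)) (Nat.ble lo hi)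

noncomputable def piece (TT1 TT2 : Nat → Nat) (o0 o1 b0 b1 c0 c1 : Nat) (t0 t1 t2 : Tr) (lo hi : Nat)
    (fuel n : Nat) : Bool :=
  @Tr.rec (fun _ => Bool) false (fun row0 k0 _ _ _ _ =>
  @Tr.rec (fun _ => Bool) false (fun row1 k1 _ _ _ _ =>
  @Tr.rec (fun _ => Bool) false (fun row2 k2 _ _ _ _ =>
    piece1 TT1 TT2 o0 o1 b0 b1 c0 c1 k0 k1 k2 row0 row1 row2 t0 t1 t2 lo hi fuel n) t2) t1) t0

/-- bounds of the cells, scaled by `100000` -/
def CB : Nat := 0x3b86035e9041b803b850488f041b70501d0488e058740501c061a80587306bd3061a80770c06bd2083700770b0911e0836f0a0390911d0b0e70a0380c3500b0e60d7a50c3500ee170d7a4106e00ee161223c106df140721223b161cd14071186a0161cc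
noncomputable def cb (i : Nat) : Nat := Nat.mod (Nat.shiftRight CB (Nat.mul 40 i)) 1099511627776

/-- child of a tree by class code (`1`: the tree itself) -/
noncomputable def chd (c : Nat) (t : Tr) : Tr :=
  @Bool.rec (fun _ => Tr) (@Tr.rec (fun _ => Tr) Tr.nil (fun _ _ l r _ _ => @Bool.rec (fun _ => Tr) (r) (l) (Nat.beq c 2)) t) t (Nat.beq c 1)

noncomputable def ott (o : Nat) (A0 A1 : Tr) : Tr := @Bool.rec (fun _ => Tr) (A1) (A0) (Nat.beq o 0)

/-- a piece with header `h` (class codes, lower and upper level, fuel) and certificate `n` -/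
noncomputable def pcs (TT1 TT2 : Nat → Nat) (A0 A1 : Tr) (o0 o1 bb cc h n : Nat) : Bool :=
  piece TT1 TT2 o0 o1 (Nat.mod (bb) 1048576) (Nat.shiftRight bb 20) (Nat.mod (cc) 1048576) (Nat.shiftRight cc 20)
    (chd (Nat.mod (h) 4) (ott o0 A0 A1)) (chd (Nat.mod (Nat.shiftRight (h) (2)) 4) (ott o1 A0 A1)) (chd (Nat.mod (Nat.shiftRight (h) (4)) 4) A0)
    (Nat.mod (Nat.shiftRight (h) (8)) 1024) (Nat.mod (Nat.shiftRight (h) (18)) 1024) (Nat.shiftRight h 28) n

noncomputable def allP (TT1 TT2 : Nat → Nat) (A0 A1 : Tr) (o0 o1 bb cc : Nat) (L : Pl) : Bool :=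
  @Pl.rec (fun _ => Bool) true (fun h n _ ih => @Bool.rec (fun _ => Bool) false (ih) (pcs TT1 TT2 A0 A1 o0 o1 bb cc h n)) L

noncomputable def mxl (a b : Nat) : Nat := @Bool.rec (fun _ => Nat) (a) (b) (Nat.ble a b)

/-- `hi + 1` if `lo ≤ cur` and `0` otherwise -/
noncomputable def ext (lo hi cur : Nat) : Nat := @Bool.rec (fun _ => Nat) (0) (Nat.succ hi) (Nat.ble lo cur)

noncomputable def exT (e cur : Nat) : Nat :=
  mxl (ext (Nat.mod (e) 1024) (Nat.mod (Nat.shiftRight (e) (10)) 1024) cur) (mxl (ext (Nat.mod (Nat.shiftRight (e) (20)) 1024) (Nat.mod (Nat.shiftRight (e) (30)) 1024) cur)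
    (ext (Nat.mod (Nat.shiftRight (e) (40)) 1024) (Nat.mod (Nat.shiftRight (e) (50)) 1024) cur))

/-- class code `c` allows the class `b` -/
noncomputable def pt1 (c b : Nat) : Bool := @Bool.rec (fun _ => Bool) (Nat.beq (Nat.add c b) 3) true (Nat.beq c 1)

/-- the header `h` allows the class `x` -/
noncomputable def pat (x h : Nat) : Bool :=
  @Bool.rec (fun _ => Bool) false (@Bool.rec (fun _ => Bool) false (pt1 (Nat.mod (Nat.shiftRight (h) (4)) 4) (Nat.mod (Nat.shiftRight (x) (2)) 2)) (pt1 (Nat.mod (Nat.shiftRight (h) (2)) 4) (Nat.mod (Nat.shiftRight (x) (1)) 2))) (pt1 (Nat.mod (h) 4) (Nat.mod (x) 2))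

noncomputable def exP (x cur : Nat) (L : Pl) : Nat :=
  @Pl.rec (fun _ => Nat) 0 (fun h _ _ ih => @Bool.rec (fun _ => Nat) (ih) (mxl (ext (Nat.mod (Nat.shiftRight (h) (8)) 1024) (Nat.mod (Nat.shiftRight (h) (18)) 1024) cur) ih) (pat x h)) L

/-- the numbers from `cur` to `b` are covered -/
noncomputable def cov (e x b : Nat) (L : Pl) (fuel : Nat) : Nat → Bool :=
  @Nat.rec (fun _ => Nat → Bool) (fun _ => false) (fun _ ih cur =>
    sq (mxl (exT e cur) (exP x cur L)) fun c =>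
      @Bool.rec (fun _ => Bool) false (@Bool.rec (fun _ => Bool) (ih (Nat.sub c 1)) (true) (Nat.ble (Nat.succ b) c)) (Nat.ble (Nat.succ cur) c)) fuel

noncomputable def cvI (e x a b : Nat) (L : Pl) : Bool := @Bool.rec (fun _ => Bool) (true) (cov e x b L 16 a) (Nat.ble a b)

/-- the three intervals of the entry `u` are covered -/
noncomputable def cvE (u e x : Nat) (L : Pl) : Bool :=
  @Bool.rec (fun _ => Bool) false (@Bool.rec (fun _ => Bool) false (cvI e x (Nat.mod (Nat.shiftRight (u) (40)) 1024) (Nat.mod (Nat.shiftRight (u) (50)) 1024) L) (cvI e x (Nat.mod (Nat.shiftRight (u) (20)) 1024) (Nat.mod (Nat.shiftRight (u) (30)) 1024) L)) (cvI e x (Nat.mod (u) 1024) (Nat.mod (Nat.shiftRight (u) (10)) 1024) L)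

noncomputable def cvs (U T : Nat) (L : Pl) (n : Nat) : Nat → Bool :=
  @Nat.rec (fun _ => Nat → Bool) (fun _ => true) (fun _ ih x =>
    @Bool.rec (fun _ => Bool) false (ih (Nat.succ x)) (cvE (Nat.mod (Nat.shiftRight U (Nat.mul 60 x)) 1152921504606846976) (Nat.mod (Nat.shiftRight T (Nat.mul 60 x)) 1152921504606846976) x L)) n

/-- check of a cell: `U` and `T` hold the eight entries of the cell in the two tables -/
noncomputable def cellC (TT1 TT2 : Nat → Nat) (A0 A1 : Tr) (o0 o1 bb cc U T : Nat) (L : Pl) : Bool :=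
  @Bool.rec (fun _ => Bool) (@Bool.rec (fun _ => Bool) false (cvs U T L 8 0) (allP TT1 TT2 A0 A1 o0 o1 bb cc L)) (true) (Nat.beq U T)

/-- check of the cells `(i, j)`, `(i, j+1)`, ... -/
noncomputable def rowC (TT1 TT2 : Nat → Nat) (A0 A1 : Tr) (o0 o1 i U T : Nat) (L : Rl) : Nat → Bool :=
  @Rl.rec (fun _ => Nat → Bool) (fun j => Nat.beq j 20) (fun p _ ih j =>
    @Bool.rec (fun _ => Bool) false (ih (Nat.succ j)) (cellC TT1 TT2 A0 A1 o0 o1 (cb i) (cb j) (Nat.mod (Nat.shiftRight U (Nat.mul 480 (Nat.add (Nat.mul 20 i) j))) 3121748550315992231381597229793166305748598142664971150859156959625371738819765620120306103063491971159826931121406622895447975679288285306290176) (Nat.mod (Nat.shiftRight T (Nat.mul 480 (Nat.add (Nat.mul 20 i) j))) 3121748550315992231381597229793166305748598142664971150859156959625371738819765620120306103063491971159826931121406622895447975679288285306290176) p)) L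

/-- tables of the four types -/
noncomputable def tbl (a0 a1 a2 a3 : Nat) (k : Nat) : Nat :=
  @Bool.rec (fun _ => Nat) (@Bool.rec (fun _ => Nat) (@Bool.rec (fun _ => Nat) (a3) (a2) (Nat.beq k 2)) (a1) (Nat.beq k 1)) (a0) (Nat.beq k 0)

/-- end points of the word with code `c`, started from `U / V` -/
noncomputable def uvw (fuel : Nat) : Nat → Nat → Nat → (Nat → Nat → Nat) → Nat :=
  @Nat.rec (fun _ => Nat → Nat → Nat → (Nat → Nat → Nat) → Nat) (fun _ U V k => k U V)
    (fun _ ih c U V k => @Bool.rec (fun _ => Nat) (ih (Nat.shiftRight c 1) V (Nat.add (Nat.mul (Nat.succ (Nat.mod c 2)) V) U) k) (k U V) (Nat.ble c 1)) fuel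

/-- length of the word with code `c` -/
noncomputable def lgc (fuel : Nat) : Nat → Nat :=
  @Nat.rec (fun _ => Nat → Nat) (fun _ => 0) (fun _ ih c => @Bool.rec (fun _ => Nat) (Nat.succ (ih (Nat.shiftRight c 1))) (0) (Nat.ble c 1)) fuel

/-- `10 ^ 6` times the value of the function `phi` at `U / V` and `R / 10 ^ 5` -/
noncomputable def phx (R U V : Nat) : Nat :=
  Nat.div (Nat.mul (Nat.mul (Nat.sub (Nat.mul 10000 U) (Nat.mul 3660 V)) 100) (Nat.add 1000000000 (Nat.mul 7321 R)))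
    (Nat.mul 3661 (Nat.add (Nat.mul 100000 V) (Nat.mul R U)))

/-- value at the lower (`s = 0`) or upper (`s = 1`) end of the word `c` -/
noncomputable def phw (R c s : Nat) : Nat :=
  @Bool.rec (fun _ => Nat) (uvw 10 c 7321 10000 (phx R)) (uvw 10 c 3660 10000 (phx R)) (Nat.beq (Nat.mod (Nat.add (lgc 10 c) s) 2) 0)

/-- lower and upper bound of the interval with code `c`, scaled by `10 ^ 5` -/
noncomputable def rlo (c : Nat) : Nat :=
  @Bool.rec (fun _ => Nat) (uvw 10 c 7321 10000 fun U V => Nat.div (Nat.mul 100000 U) V)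
    (uvw 10 c 3660 10000 fun U V => Nat.div (Nat.mul 100000 U) V) (Nat.beq (Nat.mod (lgc 10 c) 2) 0)
noncomputable def rhi (c : Nat) : Nat :=
  @Bool.rec (fun _ => Nat) (uvw 10 c 3660 10000 fun U V => Nat.div (Nat.add (Nat.mul 100000 U) (Nat.sub V 1)) V)
    (uvw 10 c 7321 10000 fun U V => Nat.div (Nat.add (Nat.mul 100000 U) (Nat.sub V 1)) V) (Nat.beq (Nat.mod (lgc 10 c) 2) 0)

noncomputable def kap (D : Nat) : Nat := Nat.add (Nat.div (Nat.mul 75 (Nat.mul D D)) 100000) 2500

/-- class data of the word `c` with the interval `rc` -/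
noncomputable def mkc (c rc : Nat) : Nat :=
  @Bool.rec (fun _ => Nat) (Nat.sub 1 (Nat.mod c 2)) (@Bool.rec (fun _ => Nat) (@Bool.rec (fun _ => Nat) 0 1 (Nat.beq (Nat.shiftRight rc (Nat.sub (lgc 10 rc) 1)) 2)) (8) (Nat.beq rc 1)) (Nat.beq c 1)

noncomputable def mkL (c D a b : Nat) : Nat :=
  @Bool.rec (fun _ => Nat) (Nat.sub (Nat.div (Nat.mul (mnl a b) (Nat.sub 100000000000 (Nat.mul D D))) 100000000000) 2) (1000000) (Nat.beq c 1)
noncomputable def mkH (c D a b : Nat) : Nat :=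
  @Bool.rec (fun _ => Nat) (Nat.add (Nat.div (Nat.mul (mxl a b) (Nat.add 100000000000 (Nat.mul D D))) 100000000000) 3) (1000000) (Nat.beq c 1)

/-- row entry from the values at the ends -/
noncomputable def mk2 (o c rc D L0 H0 L1 H1 : Nat) : Nat :=
  Nat.add (@Bool.rec (fun _ => Nat) (Nat.sub 1000000 H0) (L0) (Nat.beq o 0)) (Nat.add (Nat.shiftLeft (@Bool.rec (fun _ => Nat) (Nat.sub 1000000 H1) (L1) (Nat.beq o 0)) 32)
    (Nat.add (Nat.shiftLeft (Nat.sub H0 L0) 64) (Nat.add (Nat.shiftLeft (Nat.sub H1 L1) 96)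
    (Nat.add (Nat.shiftLeft (mkL c D (Nat.sub H0 L0) (Nat.sub H1 L1)) 128)
    (Nat.add (Nat.shiftLeft (mkH c D (Nat.sub H0 L0) (Nat.sub H1 L1)) 152)
    (Nat.add (Nat.shiftLeft (lgc 10 c) 176) (Nat.shiftLeft (mkc c rc) 184)))))))

noncomputable def mk1 (o rc R0 R1 c : Nat) : Nat :=
  mk2 o c rc (Nat.sub R1 R0) (phw R0 c 0) (phw R0 c 1) (phw R1 c 0) (phw R1 c 1)

/-- row entry of the word `c` -/
noncomputable def mkE (o rc c : Nat) : Nat := mk1 o rc (rlo rc) (rhi rc) c

/-- the row of the words with codes `1, ..., n` -/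
noncomputable def mkR (o rc n : Nat) : Nat :=
  @Nat.rec (fun _ => Nat) 0 (fun k ih => Nat.add ih (Nat.shiftLeft (mkE o rc (Nat.succ k)) (Nat.mul 192 (Nat.succ k)))) n

/-- check of a tree -/
noncomputable def okT (o : Nat) (t : Tr) : Nat → Nat → Bool :=
  @Tr.rec (fun _ => Nat → Nat → Bool) (fun _ _ => true) (fun row ka _ _ ihl ihr d rc =>
    @Bool.rec (fun _ => Bool) false (@Bool.rec (fun _ => Bool) false (@Bool.rec (fun _ => Bool) false (@Bool.rec (fun _ => Bool) false (ihr (Nat.sub d 1) (Nat.succ (Nat.mul 2 rc))) (ihl (Nat.sub d 1) (Nat.mul 2 rc))) (Nat.beq ka (kap (Nat.sub (rhi rc) (rlo rc))))) (Nat.beq row (mkR o rc 128))) (Nat.ble 1 d)) t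

end Pool.Agent.Helper6.AE
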