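import Mathlib
import Pool.Agent.Helper6.AE.Prog
import Pool.Agent.Helper6.AE.CF

/-!
Definitions for the covering certificate: Moebius data of a triple of continued fraction
intervals, tables, functionals, boxes.
-/

set_option autoImplicit false

namespace Pool.Agent.Helper6.AE

/-! ### Words -/

/-- lower end of the basic interval -/
noncomputable def m0 : ℝ := 366 / 1000
/-- upper end of the basic interval -/
noncomputable def M0 : ℝ := 7321 / 10000

/-- `wv [a, b, ...] t = 1 / (a + 1 / (b + ... + t))` -/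
noncomputable def wv (w : List ℕ) (t : ℝ) : ℝ := w.foldr (fun a x => 1 / ((a : ℝ) + x)) t

/-- all letters are `1` or `2` -/
def D12 (w : List ℕ) : Prop := ∀ a ∈ w, a = 1 ∨ a = 2

/-- the word with code `n`: binary digits after the leading `1`, increased by one -/
def dec : ℕ → List ℕ
  | 0 => []
  | 1 => []
  | n + 2 => dec ((n + 2) / 2) ++ [(n + 2) % 2 + 1]
decreasing_by omega

/-- normalised Moebius map: `0` at `m0`, `1` at `M0` -/
noncomputable def phi (r u : ℝ) : ℝ := (u - m0) * (1 + r * M0) / ((M0 - m0) * (1 + r * u))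

/-- relative position of the lower end of the interval of `w` -/
noncomputable def lwo (r : ℝ) (w : List ℕ) : ℝ :=
  if w.length % 2 = 0 then phi r (wv w m0) else phi r (wv w M0)
/-- relative position of the upper end -/
noncomputable def upr (r : ℝ) (w : List ℕ) : ℝ :=
  if w.length % 2 = 0 then phi r (wv w M0) else phi r (wv w m0)
/-- relative length -/
noncomputable def lam (r : ℝ) (w : List ℕ) : ℝ := upr r w - lwo r w
/-- relative position of the lower end, orientation `o` -/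
noncomputable def lw (r : ℝ) (o : Bool) (w : List ℕ) : ℝ := if o then 1 - upr r w else lwo r w

/-! ### States -/

/-- a state: lengths, Moebius parameters and orientations of three intervals; `t` is the distance
of the target from the sum of the lower ends -/
structure St where
  s : Fin 3 → ℝ
  r : Fin 3 → ℝ
  o : Fin 3 → Bool
  t : ℝ

/-- possible values of the Moebius parameter -/
def RE (r : ℝ) : Prop :=
  ∃ ρ : List ℕ, ρ.length = 7 ∧ D12 ρ ∧ ∃ x, m0 ≤ x ∧ x ≤ M0 ∧ r = wv ρ x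

/-- `r` lies in the interval of the word `d` -/
def RM (d : List ℕ) (r : ℝ) : Prop :=
  ∃ ρ : List ℕ, ρ.length = 7 ∧ D12 ρ ∧ d <+: ρ ∧ ∃ x, m0 ≤ x ∧ x ≤ M0 ∧ r = wv ρ x

/-- admissible states -/
def Good (v : St) : Prop := ∀ z, 0 < v.s z ∧ RE (v.r z)

/-- the state after appending the words `w` -/
noncomputable def nxt (v : St) (w : Fin 3 → List ℕ) : St where
  s z := v.s z * lam (v.r z) (w z)
  r z := wv (w z).reverse (v.r z)
  o z := xor (v.o z) (decide ((w z).length % 2 = 1))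
  t := v.t - ∑ z, v.s z * lw (v.r z) (v.o z) (w z)

/-- symmetries: permutation, mirror image, scaling -/
noncomputable def act (σ : Equiv.Perm (Fin 3)) (f : Bool) (k : ℝ) (v : St) : St where
  s z := k * v.s (σ z)
  r z := v.r (σ z)
  o z := xor f (v.o (σ z))
  t := k * (if f then (∑ z, v.s z) - v.t else v.t)

/-! ### Tables -/

/-- class of a Moebius parameter: `1` if the last letter is `1` -/
noncomputable def cls (r : ℝ) : ℕ := if 1 / 2 < r then 1 else 0

/-- `b` lies in the cell `i` -/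
def cel (i : ℕ) (b : ℝ) : Prop := 2 ^ i * b ^ 7 ≤ 1 ∧ 1 < 2 ^ (i + 1) * b ^ 7

/-- `x` lies in one of the three intervals of the entry `e` -/
def InE (e : ℕ) (x : ℝ) : Prop :=
  (((e % 1024 : ℕ) : ℝ) ≤ x ∧ x ≤ ((e / 2 ^ 10 % 1024 : ℕ) : ℝ)) ∨
  (((e / 2 ^ 20 % 1024 : ℕ) : ℝ) ≤ x ∧ x ≤ ((e / 2 ^ 30 % 1024 : ℕ) : ℝ)) ∨
  (((e / 2 ^ 40 % 1024 : ℕ) : ℝ) ≤ x ∧ x ≤ ((e / 2 ^ 50 % 1024 : ℕ) : ℝ))

/-- number `0` or `1` of an orientation -/
def on (o : Bool) : ℕ := if o then 1 else 0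

/-- entry of the table of one type: cell `(i, j)`, class `x` -/
def entry (T i j x : ℕ) : ℕ := T / 2 ^ (60 * (8 * (20 * i + j) + x)) % 2 ^ 60

/-- normalised states -/
def Nrm (v : St) : Prop :=
  Good v ∧ v.s 0 = 1 ∧ v.o 2 = false ∧ v.s 2 ≤ v.s 1 ∧ v.s 1 ≤ 1

/-- normalised state in the table `TT` -/
def InN (TT : ℕ → ℕ) (v : St) : Prop :=
  Nrm v ∧ 0 ≤ v.t ∧ v.t ≤ ∑ z, v.s z ∧
  ∃ i j : ℕ, i ≤ j ∧ j ≤ 19 ∧ cel i (v.s 1) ∧ cel j (v.s 2) ∧
    InE (entry (TT (on (v.o 0) + 2 * on (v.o 1))) i j (cls (v.r 0) + 2 * cls (v.r 1) + 4 * cls (v.r 2)))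
      (1000 * v.t / ∑ z, v.s z)

/-- state in the table `TT` -/
def InT (TT : ℕ → ℕ) (v : St) : Prop :=
  ∃ (σ : Equiv.Perm (Fin 3)) (f : Bool) (k : ℝ), 0 < k ∧ InN TT (act σ f k v)

/-- words over `{1, 2}` -/
def DW (w : Fin 3 → List ℕ) : Prop := ∀ z, D12 (w z)

/-- incompatible triples of words -/
def Inc (w w' : Fin 3 → List ℕ) : Prop := ∃ z, ¬ (w z) <+: (w' z) ∧ ¬ (w' z) <+: (w z)

/-- two incompatible continuations into the table `TT` -/
def Br (TT : ℕ → ℕ) (v : St) : Prop :=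
  ∃ w w', DW w ∧ DW w' ∧ Inc w w' ∧ InT TT (nxt v w) ∧ InT TT (nxt v w')

/-- one continuation into `T1` or two incompatible ones into `T2` -/
def Cv (T1 T2 : ℕ → ℕ) (v : St) : Prop := (∃ w, DW w ∧ InT T1 (nxt v w)) ∨ Br T2 v

/-! ### Boxes and functionals -/

/-- tree with correct rows; `c` is the code of the root -/
inductive TrOK (o : ℕ) : ℕ → ℕ → Tr → Prop where
  | nil (d c : ℕ) : TrOK o d c Tr.nil
  | node (d c : ℕ) (l r : Tr) (hl : TrOK o d (2 * c) l) (hr : TrOK o d (2 * c + 1) r) :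
      TrOK o (d + 1) c (Tr.node (mkR o c 128) (kap (rhi c - rlo c)) l r)

/-- the row, the slack and the tree belong to the code `c` -/
def TB (o c row ka : ℕ) (t : Tr) : Prop :=
  ∃ d l r, d + (dec c).length = 7 ∧ 1 ≤ c ∧ t = Tr.node row ka l r ∧ TrOK o (d + 1) c t

/-- correct box; `c` gives the codes of the intervals of the Moebius parameters -/
def BxOK (o0 o1 : ℕ) (c : Fin 3 → ℕ) (B : Bx) : Prop :=
  o0 ≤ 1 ∧ o1 ≤ 1 ∧ TB o0 (c 0) B.row0 B.k0 B.t0 ∧ TB o1 (c 1) B.row1 B.k1 B.t1 ∧ TB 0 (c 2) B.row2 B.k2 B.t2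

/-- the state lies in the box -/
def InB (c : Fin 3 → ℕ) (v : St) (B : Bx) : Prop :=
  (B.b0 : ℝ) < 100000 * v.s 1 ∧ 100000 * v.s 1 ≤ B.b1 ∧
  (B.c0 : ℝ) < 100000 * v.s 2 ∧ 100000 * v.s 2 ≤ B.c1 ∧ ∀ z, RM (dec (c z)) (v.r z)

/-- code number `z` of an entry -/
def fld (e : ℕ) (z : Fin 3) : ℕ := e / 2 ^ (10 * (z : ℕ)) % 1024

/-- the words of an entry -/
def wds (e : ℕ) : Fin 3 → List ℕ := fun z => dec (fld e z)

/-- admissible codes of words -/
def CdOK (e : ℕ) : Prop := ∀ z, 1 ≤ fld e z ∧ fld e z ≤ 128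

/-- value of a functional: the words of `e` at the relative level `th / 1000` -/
noncomputable def PhiF (v : St) (e th : ℕ) : ℝ :=
  ∑ z, v.s z * (lw (v.r z) (v.o z) (wds e z) + (th : ℝ) / 1000 * lam (v.r z) (wds e z))

/-- functional with correct packed values -/
def FnOK (B : Bx) (f : Fn) : Prop :=
  f.th ≤ 1000 ∧ CdOK f.e ∧ f.g = gX (xx f.e B.row0 B.row1 B.row2) f.th

/-- correct context -/
def CxOK (o0 o1 : ℕ) (c : Fin 3 → ℕ) (C : Cx) : Prop :=
  BxOK o0 o1 c C.B ∧ (∀ f ∈ C.F, FnOK C.B f) ∧ ∀ g ∈ C.G, FnOK C.B g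

/-- a normalised state with the orientations `o0`, `o1` in the box -/
def VB (o0 o1 : ℕ) (c : Fin 3 → ℕ) (B : Bx) (v : St) : Prop :=
  Nrm v ∧ on (v.o 0) = o0 ∧ on (v.o 1) = o1 ∧ InB c v B

/-- meaning of a context: all states between the lower and the upper functionals are covered -/
def Sem (T1 T2 : ℕ → ℕ) (o0 o1 : ℕ) (c : Fin 3 → ℕ) (B : Bx) (F G : List Fn) : Prop :=
  ∀ v, VB o0 o1 c B v → (∃ f ∈ F, PhiF v f.e f.th ≤ v.t) → (∃ g ∈ G, v.t ≤ PhiF v g.e g.th) →
    Cv T1 T2 v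

/-! ### Prefixes -/

/-- the state of the empty prefixes -/
noncomputable def v00 : St where
  s _ := M0 - m0
  r _ := 0
  o _ := false
  t := 1 - 3 * m0

/-- the state of a triple of prefixes -/
noncomputable def vw (P : Fin 3 → List ℕ) : St := nxt v00 P

end Pool.Agent.Helper6.AE
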