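import Pool.Agent.Helper6.AE.WvA

set_option autoImplicit false

namespace Pool.Agent.Helper6.AE

/-! AE MODULE WvB: codes of words. -/

theorem dec_zero : dec 0 = [] := by
  rw [dec]

theorem dec_one : dec 1 = [] := by
  rw [dec]

/-- general recursion: last letter of a code `c ≥ 2` -/
theorem dec_rec {c : ℕ} (hc : 2 ≤ c) : dec c = dec (c / 2) ++ [c % 2 + 1] := by
  obtain ⟨n, rfl⟩ : ∃ n, c = n + 2 := ⟨c - 2, by omega⟩
  rw [dec]

theorem dec_two_mul {c : ℕ} (hc : 1 ≤ c) : dec (2 * c) = dec c ++ [1] := by
  rw [dec_rec (by omega)]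
  have h1 : 2 * c / 2 = c := by omega
  have h2 : 2 * c % 2 + 1 = 1 := by omega
  rw [h1, h2]

theorem dec_two_mul_add {c : ℕ} (hc : 1 ≤ c) : dec (2 * c + 1) = dec c ++ [2] := by
  rw [dec_rec (by omega)]
  have h1 : (2 * c + 1) / 2 = c := by omega
  have h2 : (2 * c + 1) % 2 + 1 = 2 := by omega
  rw [h1, h2]

theorem wvB_small {c : ℕ} (hc : c < 2) : dec c = [] := by
  have : c = 0 ∨ c = 1 := by omega
  rcases this with rfl | rfl
  · exact dec_zero
  · exact dec_one

theorem D12_dec (c : ℕ) : D12 (dec c) := by
  induction c using Nat.strong_induction_on with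
  | _ c ih =>
    rcases Nat.lt_or_ge c 2 with h | h
    · rw [wvB_small h]
      intro a ha
      exact absurd ha (List.not_mem_nil)
    · rw [dec_rec h]
      intro a ha
      rw [List.mem_append, List.mem_singleton] at ha
      rcases ha with ha | ha
      · exact ih (c / 2) (by omega) a ha
      · omega

/-- shifting a code drops letters at the end -/
theorem dec_shift {c k : ℕ} (hc : 1 ≤ c / 2 ^ k) :
    dec (c / 2 ^ k) <+: dec c ∧ (dec c).length = (dec (c / 2 ^ k)).length + k := by
  induction k with
  | zero => simp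
  | succ k ih =>
    have h1 : c / 2 ^ (k + 1) = c / 2 ^ k / 2 := by
      rw [pow_succ, Nat.div_div_eq_div_mul]
    rw [h1] at hc ⊢
    have h2 : 2 ≤ c / 2 ^ k := by omega
    obtain ⟨h3, h4⟩ := ih (by omega)
    rw [dec_rec h2] at h3 h4
    refine ⟨(List.prefix_append _ _).trans h3, ?_⟩
    rw [h4, List.length_append, List.length_singleton]
    omega

theorem dec_inj {a b : ℕ} (ha : 1 ≤ a) (hb : 1 ≤ b) (h : dec a = dec b) : a = b := by
  induction a using Nat.strong_induction_on generalizing b with
  | _ a ih =>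
    rcases Nat.lt_or_ge a 2 with h1 | h1
    · rcases Nat.lt_or_ge b 2 with h2 | h2
      · omega
      · rw [wvB_small h1, dec_rec h2] at h
        exact absurd h.symm (by simp)
    · rcases Nat.lt_or_ge b 2 with h2 | h2
      · rw [wvB_small h2, dec_rec h1] at h
        exact absurd h (by simp)
      · rw [dec_rec h1, dec_rec h2] at h
        obtain ⟨h3, h4⟩ := List.append_inj' h (by simp)
        have h5 := ih (a / 2) (by omega) (by omega) (b := b / 2) (by omega) h3
        have h6 : a % 2 + 1 = b % 2 + 1 := by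
          have := List.cons.inj h4
          exact this.1
        omega

theorem dec_len_lt {c k : ℕ} (hk : 1 ≤ k) (hc : c < 2 ^ k) : (dec c).length < k := by
  induction k generalizing c with
  | zero => omega
  | succ k ih =>
    rcases Nat.lt_or_ge c 2 with h | h
    · rw [wvB_small h]
      simp
    · rw [dec_rec h, List.length_append, List.length_singleton]
      rw [pow_succ] at hc
      have hk1 : 1 ≤ k := by
        by_contra hcon
        have : k = 0 := by omega
        subst this
        omega
      have := ih hk1 (c := c / 2) (by omega)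
      omega

theorem dec_len_ge {c k : ℕ} (hc : 2 ^ k ≤ c) : k ≤ (dec c).length := by
  induction k generalizing c with
  | zero => omega
  | succ k ih =>
    rw [pow_succ] at hc
    have h0 : 1 ≤ 2 ^ k := Nat.one_le_two_pow
    have h : 2 ≤ c := by omega
    rw [dec_rec h, List.length_append, List.length_singleton]
    have := ih (c := c / 2) (by omega)
    omega

theorem TB_lt {o c row ka : ℕ} {t : Tr} (h : TB o c row ka t) : 1 ≤ c ∧ c < 256 := by
  obtain ⟨d, l, r, h1, h2, _, _⟩ := h
  refine ⟨h2, ?_⟩
  by_contra hcon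
  have h3 : 2 ^ 8 ≤ c := by
    have : (2 : ℕ) ^ 8 = 256 := by norm_num
    omega
  have := dec_len_ge h3
  omega

theorem wvB_node {o d c : ℕ} {t : Tr} (h : TrOK o d c t) : ∀ (row ka : ℕ) (l r : Tr),
    t = Tr.node row ka l r → row = mkR o c 128 ∧ ka = kap (rhi c - rlo c) := by
  cases h with
  | nil => intro row ka l r h; exact Tr.noConfusion h
  | node =>
    intro row ka l' r' h
    have h1 := Tr.node.inj h
    exact ⟨h1.1.symm, h1.2.1.symm⟩

theorem TB_row {o c row ka : ℕ} {t : Tr} (h : TB o c row ka t) :
    row = mkR o c 128 ∧ ka = kap (rhi c - rlo c) := by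
  obtain ⟨d, l, r, _, _, h3, h4⟩ := h
  exact wvB_node h4 row ka l r h3

theorem fld_lt (e : ℕ) (z : Fin 3) : fld e z < 1024 :=
  Nat.mod_lt _ (by norm_num)

theorem DW_wds (e : ℕ) : DW (wds e) := fun _ => D12_dec _

end Pool.Agent.Helper6.AE
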