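import Pool.Agent.Helper6.AE.WvA

set_option autoImplicit false

namespace Pool.Agent.Helper6.AE

/-! AE MODULE WvC: the intervals of the Moebius parameter and the classes. -/

theorem RE_mem {r : ℝ} (h : RE r) : m0 ≤ r ∧ r ≤ M0 := by
  obtain ⟨ρ, hl, hD, x, h0, h1, rfl⟩ := h
  exact wv_mem hD h0 h1

/-- a word appended at the end of the prefix keeps `RE` -/
theorem RE_wv {r : ℝ} (h : RE r) {w : List ℕ} (hw : D12 w) : RE (wv w.reverse r) := by
  obtain ⟨ρ, hl, hD, x, h0, h1, rfl⟩ := h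
  have hD' : D12 (w.reverse ++ ρ) := D12_append.2 ⟨D12_reverse.2 hw, hD⟩
  have hx := wv_mem (w := (w.reverse ++ ρ).drop 7)
    (fun a ha => hD' a (List.mem_of_mem_drop ha)) h0 h1
  refine ⟨(w.reverse ++ ρ).take 7, ?_, fun a ha => hD' a (List.mem_of_mem_take ha),
    wv ((w.reverse ++ ρ).drop 7) x, hx.1, hx.2, ?_⟩
  · rw [List.length_take, List.length_append, hl]
    omega
  · rw [← wv_append, ← wv_append, List.take_append_drop]

theorem RM_RE {d : List ℕ} {r : ℝ} (h : RM d r) : RE r := by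
  obtain ⟨ρ, hl, hD, _, x, h0, h1, hr⟩ := h
  exact ⟨ρ, hl, hD, x, h0, h1, hr⟩

theorem RM_nil {r : ℝ} (h : RE r) : RM [] r := by
  obtain ⟨ρ, hl, hD, x, h0, h1, hr⟩ := h
  exact ⟨ρ, hl, hD, List.nil_prefix, x, h0, h1, hr⟩

theorem RM_split {d : List ℕ} {r : ℝ} (h : RM d r) (hd : d.length < 7) :
    RM (d ++ [1]) r ∨ RM (d ++ [2]) r := by
  obtain ⟨ρ, hl, hD, ⟨t, ht⟩, x, h0, h1, hr⟩ := h
  cases t with
  | nil =>
    rw [List.append_nil] at ht
    rw [ht] at hd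
    omega
  | cons a t =>
    have ha : a = 1 ∨ a = 2 := hD a (by rw [← ht]; simp)
    have hp : d ++ [a] <+: ρ := ⟨t, by rw [← ht]; simp⟩
    rcases ha with rfl | rfl
    · exact Or.inl ⟨ρ, hl, hD, hp, x, h0, h1, hr⟩
    · exact Or.inr ⟨ρ, hl, hD, hp, x, h0, h1, hr⟩

/-- `r` in the interval of `d` has the form `wv d x` -/
theorem RM_form {d : List ℕ} {r : ℝ} (h : RM d r) : ∃ x, m0 ≤ x ∧ x ≤ M0 ∧ r = wv d x := by
  obtain ⟨ρ, hl, hD, ⟨t, ht⟩, x, h0, h1, hr⟩ := h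
  have hDt : D12 t := fun a ha => hD a (by rw [← ht]; exact List.mem_append_right _ ha)
  have hx := wv_mem hDt h0 h1
  exact ⟨wv t x, hx.1, hx.2, by rw [hr, ← ht, wv_append]⟩

/-- class of `1 / (a + y)` -/
theorem cls_cons {a : ℕ} (ha : a = 1 ∨ a = 2) {y : ℝ} (h0 : m0 ≤ y) (h1 : y ≤ M0) :
    cls (1 / ((a : ℝ) + y)) = 2 - a := by
  unfold m0 at h0
  unfold M0 at h1
  unfold cls
  rcases ha with rfl | rfl
  · rw [if_pos]
    rw [lt_div_iff₀ (by push_cast; linarith)]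
    push_cast
    linarith
  · rw [if_neg]
    rw [not_lt, div_le_iff₀ (by push_cast; linarith)]
    push_cast
    linarith

theorem cls_RM {a : ℕ} {d : List ℕ} {r : ℝ} (h : RM (a :: d) r) : cls r = 2 - a := by
  have ha : a = 1 ∨ a = 2 := by
    obtain ⟨ρ, hl, hD, ⟨t, ht⟩, _⟩ := h
    exact hD a (by rw [← ht]; simp)
  obtain ⟨ρ, hl, hD, ⟨t, ht⟩, x, h0, h1, rfl⟩ := h
  have hDt : D12 (d ++ t) := fun b hb => hD b (by
    rw [← ht, List.cons_append]
    exact List.mem_cons_of_mem _ hb)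
  have hx := wv_mem hDt h0 h1
  rw [← ht, List.cons_append, wv_cons]
  exact cls_cons ha hx.1 hx.2

theorem WvC_cls_aux {r : ℝ} (h : RE r) : ∃ a, (a = 1 ∨ a = 2) ∧ RM [a] r ∧ cls r = 2 - a := by
  rcases RM_split (RM_nil h) (by simp) with h | h
  · exact ⟨1, Or.inl rfl, h, cls_RM h⟩
  · exact ⟨2, Or.inr rfl, h, cls_RM h⟩

theorem cls_one {r : ℝ} (h : RE r) (hc : cls r = 1) : RM [1] r := by
  obtain ⟨a, ha, h1, h2⟩ := WvC_cls_aux h
  rcases ha with rfl | rfl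
  · exact h1
  · rw [h2] at hc
    omega

theorem cls_zero {r : ℝ} (h : RE r) (hc : cls r = 0) : RM [2] r := by
  obtain ⟨a, ha, h1, h2⟩ := WvC_cls_aux h
  rcases ha with rfl | rfl
  · rw [h2] at hc
    omega
  · exact h1

theorem cls_le (r : ℝ) : cls r ≤ 1 := by
  unfold cls
  split_ifs <;> omega

end Pool.Agent.Helper6.AE
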