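import Pool.Agent.Helper6.AE.CF
import Pool.Agent.Helper6.AE.Wv

set_option autoImplicit false

namespace Pool.Agent.Helper6.AE

/-! AE MODULE Dig: digits of a number in the interval of a word. -/

theorem gauss_inv {a : ℕ} {y : ℝ} (h0 : 0 < y) (h1 : y < 1) :
    gauss (1 / ((a : ℝ) + y)) = y ∧ ⌊1 / (1 / ((a : ℝ) + y))⌋ = (a : ℤ) := by
  unfold gauss
  rw [one_div_one_div]
  constructor
  · rw [Int.fract_natCast_add]
    exact Int.fract_eq_self.2 ⟨h0.le, h1⟩
  · rw [Int.floor_eq_iff]
    constructor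
    · push_cast; linarith
    · push_cast; linarith

theorem wv_pos_lt {P : List ℕ} (hP : ∀ a ∈ P, 1 ≤ a) {y : ℝ} (h0 : 0 < y) (h1 : y < 1) :
    0 < wv P y ∧ wv P y < 1 := by
  induction P with
  | nil => exact ⟨h0, h1⟩
  | cons a P ih =>
    obtain ⟨i0, i1⟩ := ih (fun b hb => hP b (List.mem_cons_of_mem _ hb))
    have ha : (1 : ℝ) ≤ a := by exact_mod_cast hP a List.mem_cons_self
    rw [wv_cons]
    constructor
    · positivity
    · rw [div_lt_one (by linarith)]
      linarith

/-- the digits of `wv P y` begin with `P` -/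
theorem pq_wv {P : List ℕ} (hP : ∀ a ∈ P, 1 ≤ a) {y : ℝ} (h0 : 0 < y) (h1 : y < 1) (k : ℕ)
    (hk : k < P.length) : pq (wv P y) k = (P[k] : ℤ) := by
  induction P generalizing k with
  | nil => simp at hk
  | cons a P ih =>
    have hP' : ∀ b ∈ P, 1 ≤ b := fun b hb => hP b (List.mem_cons_of_mem _ hb)
    obtain ⟨i0, i1⟩ := wv_pos_lt hP' h0 h1
    obtain ⟨g0, g1⟩ := gauss_inv (a := a) i0 i1
    cases k with
    | zero =>
      unfold pq
      rw [Function.iterate_zero, id, wv_cons, g1]
      rfl
    | succ k =>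
      have := ih hP' k (by simpa using hk)
      unfold pq at this ⊢
      rw [Function.iterate_succ_apply, wv_cons, g0, this]
      rfl

theorem gauss_wv {P : List ℕ} (hP : ∀ a ∈ P, 1 ≤ a) {y : ℝ} (h0 : 0 < y) (h1 : y < 1) :
    gauss^[P.length] (wv P y) = y := by
  induction P with
  | nil => rfl
  | cons a P ih =>
    have hP' : ∀ b ∈ P, 1 ≤ b := fun b hb => hP b (List.mem_cons_of_mem _ hb)
    obtain ⟨i0, i1⟩ := wv_pos_lt hP' h0 h1
    obtain ⟨g0, g1⟩ := gauss_inv (a := a) i0 i1
    rw [List.length_cons, Function.iterate_succ_apply, wv_cons, g0, ih hP']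

theorem gauss_rat_aux (q : ℕ) : ∀ p : ℕ, p < q → ∃ n, gauss^[n] ((p : ℝ) / q) = 0 := by
  induction q using Nat.strong_induction_on with
  | _ q ih =>
    intro p hp
    rcases Nat.eq_zero_or_pos p with h | h
    · exact ⟨0, by simp [h]⟩
    · obtain ⟨n, hn⟩ := ih p hp (q % p) (Nat.mod_lt _ h)
      refine ⟨n + 1, ?_⟩
      rw [Function.iterate_succ_apply]
      have : gauss ((p : ℝ) / q) = ((q % p : ℕ) : ℝ) / p := by
        unfold gauss
        rw [one_div_div, Int.fract_div_natCast_eq_div_natCast_mod]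
      rw [this, hn]

/-- a rational number has a finite expansion -/
theorem gauss_rat {x : ℝ} (h0 : 0 ≤ x) (h1 : x < 1) (hx : ¬ Irrational x) :
    ∃ n, gauss^[n] x = 0 := by
  unfold Irrational at hx
  push Not at hx
  obtain ⟨a, rfl⟩ := hx
  have ha0 : 0 ≤ a := by exact_mod_cast h0
  have ha1 : a < 1 := by exact_mod_cast h1
  have hn : (a.num.toNat : ℤ) = a.num := Int.toNat_of_nonneg (Rat.num_nonneg.2 ha0)
  have hlt : a.num.toNat < a.den := by
    have : a.num < a.den := Rat.num_lt_denom_iff.2 ha1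
    omega
  obtain ⟨n, hn'⟩ := gauss_rat_aux a.den a.num.toNat hlt
  refine ⟨n, ?_⟩
  have e : ((a.num.toNat : ℝ) / a.den) = (a : ℝ) := by
    have e1 : ((a.num.toNat : ℕ) : ℝ) = ((a.num : ℤ) : ℝ) := by
      have := congrArg (fun z : ℤ => (z : ℝ)) hn
      rw [← Int.cast_natCast]
      exact this
    rw [e1]
    exact_mod_cast Rat.num_div_den a
  rwa [e] at hn'

/-- intermediate values: numbers between the ends of the interval of `P` have the form `wv P y` -/
theorem wv_surj {P : List ℕ} (hP : ∀ a ∈ P, 1 ≤ a) {x : ℝ}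
    (h0 : min (wv P m0) (wv P M0) ≤ x) (h1 : x ≤ max (wv P m0) (wv P M0)) :
    ∃ y, m0 ≤ y ∧ y ≤ M0 ∧ x = wv P y := by
  have hm : (0 : ℝ) ≤ m0 := by unfold m0; norm_num
  have hM : (0 : ℝ) ≤ M0 := by unfold M0; norm_num
  have hmM : m0 ≤ M0 := by unfold m0 M0; norm_num
  induction P generalizing x with
  | nil =>
    rw [wv_nil, wv_nil, min_eq_left hmM] at h0
    rw [wv_nil, wv_nil, max_eq_right hmM] at h1
    exact ⟨x, h0, h1, rfl⟩
  | cons a P ih =>
    have hP' : ∀ b ∈ P, 1 ≤ b := fun b hb => hP b (List.mem_cons_of_mem _ hb)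
    have ha : (1 : ℝ) ≤ a := by exact_mod_cast hP a List.mem_cons_self
    have hA : 0 ≤ wv P m0 := wv_nonneg hm
    have hB : 0 ≤ wv P M0 := wv_nonneg hM
    rw [wv_cons, wv_cons] at h0 h1
    generalize wv P m0 = A at *
    generalize wv P M0 = B at *
    have hxp : 0 < x := by
      refine lt_of_lt_of_le ?_ h0
      apply lt_min <;> positivity
    have key : min A B ≤ 1 / x - a ∧ 1 / x - a ≤ max A B := by
      rcases le_total A B with h | h
      · rw [min_eq_left h, max_eq_right h]
        have e : 1 / ((a : ℝ) + B) ≤ 1 / (a + A) := by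
          apply one_div_le_one_div_of_le <;> linarith
        rw [min_eq_right e] at h0
        rw [max_eq_left e] at h1
        have k1 := one_div_le_one_div_of_le hxp h1
        rw [one_div_one_div] at k1
        have k2 := one_div_le_one_div_of_le (by positivity) h0
        rw [one_div_one_div] at k2
        constructor <;> linarith
      · rw [min_eq_right h, max_eq_left h]
        have e : 1 / ((a : ℝ) + A) ≤ 1 / (a + B) := by
          apply one_div_le_one_div_of_le <;> linarith
        rw [min_eq_left e] at h0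
        rw [max_eq_right e] at h1
        have k1 := one_div_le_one_div_of_le hxp h1
        rw [one_div_one_div] at k1
        have k2 := one_div_le_one_div_of_le (by positivity) h0
        rw [one_div_one_div] at k2
        constructor <;> linarith
    obtain ⟨y, y0, y1, hy⟩ := ih hP' key.1 key.2
    refine ⟨y, y0, y1, ?_⟩
    rw [wv_cons, ← hy]
    rw [add_sub_cancel, one_div_one_div]

end Pool.Agent.Helper6.AE
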