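import Pool.Agent.Helper6.AE.WvC
import Pool.Agent.Helper6.AE.Cert.TabE

set_option autoImplicit false

namespace Pool.Agent.Helper6.AE

/-- the entry without intervals -/
def e0 : ℕ := 1023 + 1023 * 2 ^ 20 + 1023 * 2 ^ 40

theorem e0_empty (x : ℝ) : ¬ InE e0 x := by
  unfold InE e0
  rintro (⟨h1, h2⟩ | ⟨h1, h2⟩ | ⟨h1, h2⟩) <;> norm_num at h1 h2 <;> linarith

theorem TnE_chk : ((List.range 4).all fun ty => (List.range 20).all fun i =>
    (List.range 20).all fun j => (List.range 8).all fun x =>
      Nat.blt j i || Nat.beq (entry (TnE ty) i j x) e0) = true := by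
  decide +kernel

theorem TnE_entry {ty i j x : ℕ} (h1 : ty < 4) (h2 : i < 20) (h3 : j < 20) (h4 : x < 8)
    (hij : i ≤ j) : entry (TnE ty) i j x = e0 := by
  have h := TnE_chk
  rw [List.all_eq_true] at h
  have h := h ty (List.mem_range.2 h1)
  rw [List.all_eq_true] at h
  have h := h i (List.mem_range.2 h2)
  rw [List.all_eq_true] at h
  have h := h j (List.mem_range.2 h3)
  rw [List.all_eq_true] at h
  have h := h x (List.mem_range.2 h4)
  rw [Bool.or_eq_true] at h
  rcases h with h | h
  · rw [Nat.blt_eq] at h; omega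
  · exact Nat.eq_of_beq_eq_true h

theorem on_le (o : Bool) : on o ≤ 1 := by cases o <;> decide

theorem TnE_empty (v : St) : ¬ InT TnE v := by
  rintro ⟨σ, f, k, hk, hN, h0, h1, i, j, hij, hj, hci, hcj, hE⟩
  rw [TnE_entry (by have := on_le ((act σ f k v).o 0); have := on_le ((act σ f k v).o 1); omega)
    (by omega) (by omega) (by
      have := cls_le ((act σ f k v).r 0); have := cls_le ((act σ f k v).r 1)
      have := cls_le ((act σ f k v).r 2); omega) hij] at hE
  exact e0_empty _ hE

end Pool.Agent.Helper6.AE
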