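import Pool.Agent.Helper6.AE.EntD
import Pool.Agent.Helper6.AE.Cur

set_option autoImplicit false

namespace Pool.Agent.Helper6.AE

/-! AE MODULE EntB: interpolation of functionals. -/

/-- the functional is an affine combination of values of `phi` -/
theorem entB_form {o : ℕ} (ho : o ≤ 1) (c th : ℕ) (ht : th ≤ 1000) :
    ∃ a b u1 u2 : ℝ, 0 ≤ a ∧ 0 ≤ b ∧ a + b = 1 ∧ m0 ≤ u1 ∧ u1 ≤ M0 ∧ m0 ≤ u2 ∧ u2 ≤ M0 ∧
      ∀ r, pos9 o r c th = 10 ^ 9 * ((o : ℝ) + (1 - 2 * (o : ℝ)) * (a * phi r u1 + b * phi r u2)) := by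
  have hD := D12_dec c
  have hm0 : m0 ≤ m0 := le_rfl
  have hle : m0 ≤ M0 := m0_lt_M0.le
  obtain ⟨k1, k2⟩ := wv_mem hD hm0 hle
  obtain ⟨k3, k4⟩ := wv_mem hD hle (le_refl M0)
  have ht' : (th : ℝ) ≤ 1000 := by exact_mod_cast ht
  have ht0 : (0 : ℝ) ≤ th := Nat.cast_nonneg th
  have h1 : 0 ≤ 1 - (th : ℝ) / 1000 := by
    rw [sub_nonneg, div_le_one (by norm_num)]
    exact ht'
  have h2 : 0 ≤ (th : ℝ) / 1000 := by positivity
  have ho' : o = 0 ∨ o = 1 := by omega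
  by_cases hpar : (dec c).length % 2 = 0
  · rcases ho' with rfl | rfl
    · refine ⟨1 - th / 1000, th / 1000, wv (dec c) m0, wv (dec c) M0, h1, h2, by ring, k1, k2, k3,
        k4, fun r => ?_⟩
      simp only [pos9, lw, lam, lwo, upr, hpar, if_true]
      simp
      ring
    · refine ⟨1 - th / 1000, th / 1000, wv (dec c) M0, wv (dec c) m0, h1, h2, by ring, k3, k4, k1,
        k2, fun r => ?_⟩
      simp only [pos9, lw, lam, lwo, upr, hpar, if_true]
      simp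
      ring
  · rcases ho' with rfl | rfl
    · refine ⟨1 - th / 1000, th / 1000, wv (dec c) M0, wv (dec c) m0, h1, h2, by ring, k3, k4, k1,
        k2, fun r => ?_⟩
      simp only [pos9, lw, lam, lwo, upr, hpar, if_false]
      simp
      ring
    · refine ⟨1 - th / 1000, th / 1000, wv (dec c) m0, wv (dec c) M0, h1, h2, by ring, k1, k2, k3,
        k4, fun r => ?_⟩
      simp only [pos9, lw, lam, lwo, upr, hpar, if_false]
      simp
      ring

/-- interpolation error of one functional -/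
theorem entB_err {o : ℕ} (ho : o ≤ 1) (c th : ℕ) (ht : th ≤ 1000) {R0 R1 r : ℝ} (h0 : m0 ≤ R0)
    (h1 : R0 ≤ r) (h2 : r ≤ R1) (hlt : R0 < R1) :
    ∃ e : ℝ, 0 ≤ e ∧ e ≤ 10 ^ 9 * (3 / 400 * (R1 - R0) ^ 2) ∧
      pos9 o r c th = ((R1 - r) / (R1 - R0) * pos9 o R0 c th +
        (r - R0) / (R1 - R0) * pos9 o R1 c th) + (1 - 2 * (o : ℝ)) * e := by
  obtain ⟨a, b, u1, u2, ha, hb, hab, k1, k2, k3, k4, hf⟩ := entB_form ho c th ht
  obtain ⟨p1, p2⟩ := phi_curv h0 h1 h2 hlt k1 k2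
  obtain ⟨q1, q2⟩ := phi_curv h0 h1 h2 hlt k3 k4
  have hw : (R1 - r) / (R1 - R0) + (r - R0) / (R1 - R0) = 1 := by
    rw [← add_div, div_eq_one_iff_eq (by linarith : R1 - R0 ≠ 0)]
    ring
  generalize (R1 - r) / (R1 - R0) = α at *
  generalize (r - R0) / (R1 - R0) = β at *
  refine ⟨10 ^ 9 * (a * (phi r u1 - (α * phi R0 u1 + β * phi R1 u1)) +
    b * (phi r u2 - (α * phi R0 u2 + β * phi R1 u2))), ?_, ?_, ?_⟩
  · have := mul_nonneg ha p1
    have := mul_nonneg hb q1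
    linarith
  · refine mul_le_mul_of_nonneg_left ?_ (by norm_num)
    calc _ ≤ a * (3 / 400 * (R1 - R0) ^ 2) + b * (3 / 400 * (R1 - R0) ^ 2) :=
          add_le_add (mul_le_mul_of_nonneg_left p2 ha) (mul_le_mul_of_nonneg_left q2 hb)
      _ = (a + b) * (3 / 400 * (R1 - R0) ^ 2) := by ring
      _ = _ := by rw [hab, one_mul]
  · rw [hf r, hf R0, hf R1]
    have hα : α = 1 - β := by linarith
    rw [hα]
    ring

/-- interpolation: for `r` in the interval of `rc` the difference of two functionals is at least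
the smaller of the differences at the ends, up to the curvature error -/
theorem pos9_diff {o rc : ℕ} (ho : o ≤ 1) (h1 : 1 ≤ rc) (h2 : rc < 256) {r : ℝ}
    (hr : RM (dec rc) r) (c th c' th' : ℕ) (ht : th ≤ 1000) (ht' : th' ≤ 1000) :
    min (pos9 o ((rlo rc : ℝ) / 10 ^ 5) c th - pos9 o ((rlo rc : ℝ) / 10 ^ 5) c' th')
      (pos9 o ((rhi rc : ℝ) / 10 ^ 5) c th - pos9 o ((rhi rc : ℝ) / 10 ^ 5) c' th') -
      75 * (((rhi rc : ℝ) - rlo rc) ^ 2) / 10 ^ 5 ≤ pos9 o r c th - pos9 o r c' th' := by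
  have hrc : rc < 1024 := by omega
  have e1 := rlo_le hrc hr
  have e2 := le_rhi hrc hr
  have e3 : (36600 : ℝ) ≤ rlo rc := by exact_mod_cast rlo_ge hrc
  have e4 : (rlo rc : ℝ) < rhi rc := by exact_mod_cast rlo_lt_rhi hrc
  generalize (rlo rc : ℝ) = A at *
  generalize (rhi rc : ℝ) = B at *
  have g0 : m0 ≤ A / 10 ^ 5 := by
    rw [m0, div_le_div_iff₀ (by norm_num) (by norm_num)]
    linarith
  have g1 : A / 10 ^ 5 ≤ r := by
    rw [div_le_iff₀ (by norm_num)]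
    linarith
  have g2 : r ≤ B / 10 ^ 5 := by
    rw [le_div_iff₀ (by norm_num)]
    linarith
  have g3 : A / 10 ^ 5 < B / 10 ^ 5 := by
    rw [div_lt_div_iff_of_pos_right (by norm_num)]
    exact e4
  obtain ⟨e, he0, he1, heq⟩ := entB_err ho c th ht g0 g1 g2 g3
  obtain ⟨e', he0', he1', heq'⟩ := entB_err ho c' th' ht' g0 g1 g2 g3
  have hw : (B / 10 ^ 5 - r) / (B / 10 ^ 5 - A / 10 ^ 5) +
      (r - A / 10 ^ 5) / (B / 10 ^ 5 - A / 10 ^ 5) = 1 := by
    rw [← add_div, div_eq_one_iff_eq (by linarith : B / 10 ^ 5 - A / 10 ^ 5 ≠ 0)]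
    ring
  have hα : 0 ≤ (B / 10 ^ 5 - r) / (B / 10 ^ 5 - A / 10 ^ 5) :=
    div_nonneg (by linarith) (by linarith)
  have hβ : 0 ≤ (r - A / 10 ^ 5) / (B / 10 ^ 5 - A / 10 ^ 5) :=
    div_nonneg (by linarith) (by linarith)
  have hD : 10 ^ 9 * (3 / 400 * (B / 10 ^ 5 - A / 10 ^ 5) ^ 2) = 75 * (B - A) ^ 2 / 10 ^ 5 := by
    ring
  rw [hD] at he1 he1'
  generalize (B / 10 ^ 5 - r) / (B / 10 ^ 5 - A / 10 ^ 5) = α at *
  generalize (r - A / 10 ^ 5) / (B / 10 ^ 5 - A / 10 ^ 5) = β at *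
  rw [heq, heq']
  generalize pos9 o (A / 10 ^ 5) c th = p at *
  generalize pos9 o (A / 10 ^ 5) c' th' = p' at *
  generalize pos9 o (B / 10 ^ 5) c th = q at *
  generalize pos9 o (B / 10 ^ 5) c' th' = q' at *
  have h3 : min (p - p') (q - q') ≤ α * (p - p') + β * (q - q') := by
    have h4 := min_le_left (p - p') (q - q')
    have h5 := min_le_right (p - p') (q - q')
    calc min (p - p') (q - q') = α * min (p - p') (q - q') + β * min (p - p') (q - q') := by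
          rw [← add_mul, hw, one_mul]
      _ ≤ _ := add_le_add (mul_le_mul_of_nonneg_left h4 hα) (mul_le_mul_of_nonneg_left h5 hβ)
  have h6 : -(75 * (B - A) ^ 2 / 10 ^ 5) ≤ (1 - 2 * (o : ℝ)) * e - (1 - 2 * (o : ℝ)) * e' := by
    have ho' : o = 0 ∨ o = 1 := by omega
    rcases ho' with rfl | rfl
    · push_cast
      linarith
    · push_cast
      linarith
  linarith

end Pool.Agent.Helper6.AE
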