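import Pool.Agent.Helper6.AE.Phi

set_option autoImplicit false

namespace Pool.Agent.Helper6.AE

/-! AE MODULE Lmb: bounds for the relative length in an interval of the Moebius parameter. -/

/-- ratio of quadratic polynomials -/
theorem lmb_core {m M R0 R1 r u1 u2 : ℝ} (hm : m = 366 / 1000) (hM : M = 7321 / 10000)
    (h0 : m ≤ R0) (h1 : R0 ≤ r) (h2 : r ≤ R1)
    (h3 : R1 ≤ M) (hu : m ≤ u1) (h12 : u1 ≤ u2) (hu2 : u2 ≤ M) (k : ℝ → ℝ)
    (hk : ∀ x, k x = (1 + x * M) * (1 + x * m) / ((1 + x * u1) * (1 + x * u2))) :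
    (1 - (R1 - R0) ^ 2 / 10) * min (k R0) (k R1) ≤ k r ∧
    k r ≤ (1 + (R1 - R0) ^ 2 / 10) * max (k R0) (k R1) := by
  rcases (h1.trans h2).eq_or_lt with he | hlt
  · have hr : r = R0 := le_antisymm (by rw [he]; exact h2) h1
    subst hr
    subst he
    simp
  have hm0 : 0 < m := by rw [hm]; norm_num
  have hu1p : 0 < u1 := hm0.trans_le hu
  have hu2p : 0 < u2 := hu1p.trans_le h12
  have hR0p : 0 < R0 := hm0.trans_le h0
  have hrp : 0 < r := hR0p.trans_le h1
  have hR1p : 0 < R1 := hrp.trans_le h2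
  have hqp : ∀ x, 0 < x → 0 < (1 + x * u1) * (1 + x * u2) := fun x hx => by positivity
  have hDp : 0 < R1 - R0 := by linarith
  -- lower bound of `q r`
  have hrm : m ≤ r := h0.trans h1
  have hru1 : m * u1 ≤ r * u1 := mul_le_mul_of_nonneg_right hrm hu1p.le
  have hru2 : m * u2 ≤ r * u2 := mul_le_mul_of_nonneg_right hrm hu2p.le
  have hq1 : (1 + m * u1) * (1 + m * u2) ≤ (1 + r * u1) * (1 + r * u2) := by
    apply mul_le_mul <;> first | linarith | positivity
  have hu1M : u1 ≤ M := h12.trans hu2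
  have hqa : 5 / 2 * (u1 * u2) ≤ (1 + r * u1) * (1 + r * u2) := by
    refine le_trans ?_ hq1
    subst hm hM
    nlinarith [mul_nonneg (sub_nonneg.2 hu1M) (sub_nonneg.2 hu2), mul_pos hu1p hu2p,
      mul_nonneg (sub_nonneg.2 hu1M) hu2p.le, mul_nonneg (sub_nonneg.2 hu2) hu1p.le]
  have hprod : (r - R0) * (R1 - r) ≤ (R1 - R0) ^ 2 / 4 := by
    nlinarith [sq_nonneg ((r - R0) - (R1 - r))]
  have hprod0 : 0 ≤ (r - R0) * (R1 - r) :=
    mul_nonneg (sub_nonneg.2 h1) (sub_nonneg.2 h2)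
  constructor
  · -- lower bound
    set κ := min (k R0) (k R1) with hκ
    have hκ0 : κ * ((1 + R0 * u1) * (1 + R0 * u2)) ≤ (1 + R0 * M) * (1 + R0 * m) := by
      have : κ ≤ k R0 := min_le_left _ _
      rw [hk] at this
      exact (le_div_iff₀ (hqp _ hR0p)).1 this
    have hκ1 : κ * ((1 + R1 * u1) * (1 + R1 * u2)) ≤ (1 + R1 * M) * (1 + R1 * m) := by
      have : κ ≤ k R1 := min_le_right _ _
      rw [hk] at this
      exact (le_div_iff₀ (hqp _ hR1p)).1 this
    have hkb : ∀ x, 0 < x → x ≤ M → 4 / 5 ≤ k x := by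
      intro x hx hxM
      rw [hk, le_div_iff₀ (hqp _ hx)]
      have e1 : (1 + x * u1) * (1 + x * u2) ≤ (1 + x * M) * (1 + x * M) := by
        have := mul_le_mul_of_nonneg_left hu1M hx.le
        have := mul_le_mul_of_nonneg_left hu2 hx.le
        apply mul_le_mul <;> first | linarith | positivity
      have e2 : 4 / 5 * (1 + x * M) ≤ 1 + x * m := by
        subst hm hM
        linarith
      have e3 : 0 < 1 + x * M := by
        have : 0 < x * M := mul_pos hx (hx.trans_le hxM)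
        linarith
      nlinarith
    have hκb : 4 / 5 ≤ κ := le_min (hkb _ hR0p (by linarith)) (hkb _ hR1p h3)
    have hq2 : 5 / 4 ≤ (1 + r * u1) * (1 + r * u2) := by
      refine le_trans ?_ hq1
      have a1 : m * m ≤ m * u1 := mul_le_mul_of_nonneg_left hu hm0.le
      have a2 : m * m ≤ m * u2 := mul_le_mul_of_nonneg_left (hu.trans h12) hm0.le
      have a3 : (1 + m * m) * (1 + m * m) ≤ (1 + m * u1) * (1 + m * u2) := by
        apply mul_le_mul <;> first | linarith | positivity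
      refine le_trans ?_ a3
      rw [hm]; norm_num
    have hMm : M * m / 4 ≤ κ * ((1 + r * u1) * (1 + r * u2)) / 10 := by
      have : 4 / 5 * (5 / 4) ≤ κ * ((1 + r * u1) * (1 + r * u2)) := by
        apply mul_le_mul hκb hq2 (by norm_num) (by linarith)
      have h5 : M * m / 4 ≤ 1 / 10 := by rw [hm, hM]; norm_num
      linarith
    have hid : (R1 - R0) * ((1 + r * M) * (1 + r * m) - κ * ((1 + r * u1) * (1 + r * u2))) =
        (R1 - r) * ((1 + R0 * M) * (1 + R0 * m) - κ * ((1 + R0 * u1) * (1 + R0 * u2))) +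
        (r - R0) * ((1 + R1 * M) * (1 + R1 * m) - κ * ((1 + R1 * u1) * (1 + R1 * u2))) -
        (R1 - R0) * ((M * m - κ * (u1 * u2)) * ((r - R0) * (R1 - r))) := by ring
    have hn1 : 0 ≤ (R1 - r) * ((1 + R0 * M) * (1 + R0 * m) - κ * ((1 + R0 * u1) * (1 + R0 * u2))) :=
      mul_nonneg (by linarith) (by linarith)
    have hn2 : 0 ≤ (r - R0) * ((1 + R1 * M) * (1 + R1 * m) - κ * ((1 + R1 * u1) * (1 + R1 * u2))) :=
      mul_nonneg (by linarith) (by linarith)
    have hMmp : 0 ≤ M * m := by rw [hM, hm]; norm_num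
    have hκu : 0 ≤ κ * (u1 * u2) := by positivity
    have hn3 : (M * m - κ * (u1 * u2)) * ((r - R0) * (R1 - r)) ≤ M * m * ((R1 - R0) ^ 2 / 4) := by
      calc (M * m - κ * (u1 * u2)) * ((r - R0) * (R1 - r)) ≤ M * m * ((r - R0) * (R1 - r)) :=
            mul_le_mul_of_nonneg_right (by linarith) hprod0
        _ ≤ _ := mul_le_mul_of_nonneg_left hprod hMmp
    have hfin : -(M * m * ((R1 - R0) ^ 2 / 4)) ≤
        (1 + r * M) * (1 + r * m) - κ * ((1 + r * u1) * (1 + r * u2)) := by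
      have : (R1 - R0) * -(M * m * ((R1 - R0) ^ 2 / 4)) ≤
          (R1 - R0) * ((1 + r * M) * (1 + r * m) - κ * ((1 + r * u1) * (1 + r * u2))) := by
        rw [hid]
        have := mul_le_mul_of_nonneg_left hn3 hDp.le
        linarith
      exact le_of_mul_le_mul_left this hDp
    rw [hk r, le_div_iff₀ (hqp _ hrp)]
    have := mul_le_mul_of_nonneg_right hMm (sq_nonneg (R1 - R0))
    generalize (1 + r * M) * (1 + r * m) = A at *
    generalize (1 + r * u1) * (1 + r * u2) = B at *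
    linarith
  · -- upper bound
    set K := max (k R0) (k R1) with hK
    have hK0 : (1 + R0 * M) * (1 + R0 * m) ≤ K * ((1 + R0 * u1) * (1 + R0 * u2)) := by
      have : k R0 ≤ K := le_max_left _ _
      rw [hk] at this
      exact (div_le_iff₀ (hqp _ hR0p)).1 this
    have hK1 : (1 + R1 * M) * (1 + R1 * m) ≤ K * ((1 + R1 * u1) * (1 + R1 * u2)) := by
      have : k R1 ≤ K := le_max_right _ _
      rw [hk] at this
      exact (div_le_iff₀ (hqp _ hR1p)).1 this
    have hMp : 0 < M := by rw [hM]; norm_num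
    have hKp : 0 ≤ K := by
      refine le_trans ?_ (le_max_left _ _)
      rw [hk]
      positivity
    have hid : (R1 - R0) * ((1 + r * M) * (1 + r * m) - K * ((1 + r * u1) * (1 + r * u2))) =
        (R1 - r) * ((1 + R0 * M) * (1 + R0 * m) - K * ((1 + R0 * u1) * (1 + R0 * u2))) +
        (r - R0) * ((1 + R1 * M) * (1 + R1 * m) - K * ((1 + R1 * u1) * (1 + R1 * u2))) -
        (R1 - R0) * ((M * m - K * (u1 * u2)) * ((r - R0) * (R1 - r))) := by ring
    have hn1 : (R1 - r) * ((1 + R0 * M) * (1 + R0 * m) - K * ((1 + R0 * u1) * (1 + R0 * u2))) ≤ 0 :=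
      mul_nonpos_of_nonneg_of_nonpos (by linarith) (by linarith)
    have hn2 : (r - R0) * ((1 + R1 * M) * (1 + R1 * m) - K * ((1 + R1 * u1) * (1 + R1 * u2))) ≤ 0 :=
      mul_nonpos_of_nonneg_of_nonpos (by linarith) (by linarith)
    have hMmp : 0 ≤ M * m := by positivity
    have hKu : 0 ≤ K * (u1 * u2) := by positivity
    have hn3 : -((M * m - K * (u1 * u2)) * ((r - R0) * (R1 - r))) ≤
        K * (u1 * u2) * ((R1 - R0) ^ 2 / 4) := by
      calc -((M * m - K * (u1 * u2)) * ((r - R0) * (R1 - r)))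
          = (K * (u1 * u2) - M * m) * ((r - R0) * (R1 - r)) := by ring
        _ ≤ K * (u1 * u2) * ((r - R0) * (R1 - r)) :=
            mul_le_mul_of_nonneg_right (by linarith) hprod0
        _ ≤ _ := mul_le_mul_of_nonneg_left hprod hKu
    have hfin : (1 + r * M) * (1 + r * m) - K * ((1 + r * u1) * (1 + r * u2)) ≤
        K * (u1 * u2) * ((R1 - R0) ^ 2 / 4) := by
      have : (R1 - R0) * ((1 + r * M) * (1 + r * m) - K * ((1 + r * u1) * (1 + r * u2))) ≤
          (R1 - R0) * (K * (u1 * u2) * ((R1 - R0) ^ 2 / 4)) := by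
        rw [hid]
        have := mul_le_mul_of_nonneg_left hn3 hDp.le
        linarith
      exact le_of_mul_le_mul_left this hDp
    rw [hk r, div_le_iff₀ (hqp _ hrp)]
    have := mul_le_mul_of_nonneg_left hqa (mul_nonneg hKp (sq_nonneg (R1 - R0)))
    generalize (1 + r * M) * (1 + r * m) = A at *
    generalize (1 + r * u1) * (1 + r * u2) = B at *
    linarith

theorem lam_bounds {R0 R1 r u1 u2 : ℝ} (h0 : m0 ≤ R0) (h1 : R0 ≤ r) (h2 : r ≤ R1)
    (h3 : R1 ≤ M0) (hu : m0 ≤ u1) (h12 : u1 ≤ u2) (hu2 : u2 ≤ M0) :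
    (1 - (R1 - R0) ^ 2 / 10) * min (phi R0 u2 - phi R0 u1) (phi R1 u2 - phi R1 u1) ≤
      phi r u2 - phi r u1 ∧
    phi r u2 - phi r u1 ≤
      (1 + (R1 - R0) ^ 2 / 10) * max (phi R0 u2 - phi R0 u1) (phi R1 u2 - phi R1 u1) := by
  have hmp := m0_pos
  have hmM := m0_lt_M0
  have hC : 0 ≤ (u2 - u1) / (M0 - m0) := div_nonneg (by linarith) (by linarith)
  rw [phi_sub (r := r) (by linarith) (by linarith) (by linarith),
    phi_sub (r := R0) (by linarith) (by linarith) (by linarith),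
    phi_sub (r := R1) (by linarith) (by linarith) (by linarith)]
  obtain ⟨ha, hb⟩ := lmb_core (m := m0) (M := M0) rfl rfl h0 h1 h2 h3 hu h12 hu2
    (fun x => (1 + x * M0) * (1 + x * m0) / ((1 + x * u1) * (1 + x * u2))) (fun _ => rfl)
  rw [← mul_min_of_nonneg _ _ hC, ← mul_max_of_nonneg _ _ hC]
  constructor
  · calc _ = (u2 - u1) / (M0 - m0) * _ := mul_left_comm _ _ _
      _ ≤ _ := mul_le_mul_of_nonneg_left ha hC
  · calc _ ≤ (u2 - u1) / (M0 - m0) * _ := mul_le_mul_of_nonneg_left hb hC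
      _ = _ := mul_left_comm _ _ _

end Pool.Agent.Helper6.AE
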