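import Pool.Agent.Helper6.AE.EntD
import Pool.Agent.Helper6.AE.Lmb

set_option autoImplicit false

namespace Pool.Agent.Helper6.AE

/-! AE MODULE EntA: meaning of a row entry. -/

namespace EntA

/-- first field -/
noncomputable def fa (o L H : ℕ) : ℕ := @Bool.rec (fun _ => ℕ) (Nat.sub 1000000 H) L (Nat.beq o 0)

theorem fa_zero (L H : ℕ) : fa 0 L H = L := rfl

theorem fa_one (L H : ℕ) : fa 1 L H = 1000000 - H := rfl

theorem mk2_eq (o c rc D L0 H0 L1 H1 : ℕ) : mk2 o c rc D L0 H0 L1 H1 =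
    pack (fa o L0 H0) (fa o L1 H1) (H0 - L0) (H1 - L1) (mkL c D (H0 - L0) (H1 - L1))
      (mkH c D (H0 - L0) (H1 - L1)) (lgc 10 c) (mkc c rc) := by
  have h1 : mk2 o c rc D L0 H0 L1 H1 = fa o L0 H0 + (Nat.shiftLeft (fa o L1 H1) 32 +
    (Nat.shiftLeft (H0 - L0) 64 + (Nat.shiftLeft (H1 - L1) 96 +
    (Nat.shiftLeft (mkL c D (H0 - L0) (H1 - L1)) 128 +
    (Nat.shiftLeft (mkH c D (H0 - L0) (H1 - L1)) 152 +
    (Nat.shiftLeft (lgc 10 c) 176 + Nat.shiftLeft (mkc c rc) 184)))))) := rfl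
  have h2 : ∀ a k : ℕ, Nat.shiftLeft a k = a * 2 ^ k := fun a k => Nat.shiftLeft_eq a k
  rw [h1, h2, h2, h2, h2, h2, h2, h2]
  unfold pack
  ring

theorem mkc_one_one : mkc 1 1 = 8 := rfl

theorem mkc_ne {c rc : ℕ} (hc : c ≠ 1) : mkc c rc = 1 - c % 2 := by
  have h : Nat.beq c 1 = false := by
    rw [← Bool.not_eq_true]
    intro h
    exact hc (Nat.eq_of_beq_eq_true h)
  unfold mkc
  rw [h]
  rfl

theorem mkc_one {rc : ℕ} (hrc : rc ≠ 1) :
    mkc 1 rc = if rc / 2 ^ (lgc 10 rc - 1) = 2 then 1 else 0 := by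
  have h : Nat.beq rc 1 = false := by
    rw [← Bool.not_eq_true]
    intro h
    exact hrc (Nat.eq_of_beq_eq_true h)
  have h1 : mkc 1 rc = @Bool.rec (fun _ => ℕ) (@Bool.rec (fun _ => ℕ) 0 1
    (Nat.beq (Nat.shiftRight rc (lgc 10 rc - 1)) 2)) 8 (Nat.beq rc 1) := rfl
  rw [h1, h]
  have h2 : Nat.shiftRight rc (lgc 10 rc - 1) = rc / 2 ^ (lgc 10 rc - 1) :=
    Nat.shiftRight_eq_div_pow _ _
  rw [h2]
  by_cases h3 : rc / 2 ^ (lgc 10 rc - 1) = 2
  · rw [h3]
    rfl
  · rw [if_neg h3]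
    have h4 : Nat.beq (rc / 2 ^ (lgc 10 rc - 1)) 2 = false := by
      rw [← Bool.not_eq_true]
      intro h
      exact h3 (Nat.eq_of_beq_eq_true h)
    rw [h4]

theorem mnl_eq (a b : ℕ) : mnl a b = min a b := by
  unfold mnl
  rcases hb : Nat.ble a b with _ | _
  · have h : ¬ a ≤ b := by
      intro h
      rw [Nat.ble_eq_true_of_le h] at hb
      exact absurd hb (by decide)
    simp only
    omega
  · have h := Nat.le_of_ble_eq_true hb
    simp only
    omega

theorem mxl_eq (a b : ℕ) : mxl a b = max a b := by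
  unfold mxl
  rcases hb : Nat.ble a b with _ | _
  · have h : ¬ a ≤ b := by
      intro h
      rw [Nat.ble_eq_true_of_le h] at hb
      exact absurd hb (by decide)
    simp only
    omega
  · have h := Nat.le_of_ble_eq_true hb
    simp only
    omega

theorem mkL_one (D a b : ℕ) : mkL 1 D a b = 1000000 := rfl

theorem mkL_ne {c : ℕ} (hc : c ≠ 1) (D a b : ℕ) :
    mkL c D a b = min a b * (100000000000 - D * D) / 100000000000 - 2 := by
  have h : Nat.beq c 1 = false := by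
    rw [← Bool.not_eq_true]
    intro h
    exact hc (Nat.eq_of_beq_eq_true h)
  unfold mkL
  rw [h, mnl_eq]
  rfl

theorem mkH_one (D a b : ℕ) : mkH 1 D a b = 1000000 := rfl

theorem mkH_ne {c : ℕ} (hc : c ≠ 1) (D a b : ℕ) :
    mkH c D a b = max a b * (100000000000 + D * D) / 100000000000 + 3 := by
  have h : Nat.beq c 1 = false := by
    rw [← Bool.not_eq_true]
    intro h
    exact hc (Nat.eq_of_beq_eq_true h)
  unfold mkH
  rw [h, mxl_eq]
  rfl

/-- the values at one end -/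
theorem ex_one {o : ℕ} (ho : o ≤ 1) {r : ℝ} {c L H : ℕ} (hLH : L ≤ H) (hH : H ≤ 1000000)
    (h1 : (L : ℝ) ≤ 10 ^ 6 * lwo r (dec c)) (h2 : 10 ^ 6 * lwo r (dec c) < L + 1)
    (h3 : (H : ℝ) ≤ 10 ^ 6 * upr r (dec c)) (h4 : 10 ^ 6 * upr r (dec c) < H + 1)
    {th : ℕ} (ht : th ≤ 1000) :
    (1000 * (fa o L H : ℕ) + th * ((H - L : ℕ) : ℝ) : ℝ) - 1000 * o ≤ pos9 o r c th ∧
    pos9 o r c th ≤ (1000 * (fa o L H : ℕ) + th * ((H - L : ℕ) : ℝ) : ℝ) + 1000 * (1 - o) := by
  have ht' : (th : ℝ) ≤ 1000 := by exact_mod_cast ht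
  have ht0 : (0 : ℝ) ≤ th := Nat.cast_nonneg th
  have hHL : ((H - L : ℕ) : ℝ) = (H : ℝ) - L := Nat.cast_sub hLH
  set x := 10 ^ 6 * lwo r (dec c) with hx
  set y := 10 ^ 6 * upr r (dec c) with hy
  have e1 : 0 ≤ (1000 - (th : ℝ)) * (x - L) := mul_nonneg (by linarith) (by linarith)
  have e2 : 0 ≤ (th : ℝ) * (y - H) := mul_nonneg ht0 (by linarith)
  have e3 : 0 ≤ (1000 - (th : ℝ)) * (L + 1 - x) := mul_nonneg (by linarith) (by linarith)
  have e4 : 0 ≤ (th : ℝ) * (H + 1 - y) := mul_nonneg ht0 (by linarith)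
  have e5 : 0 ≤ (1000 - (th : ℝ)) * (y - H) := mul_nonneg (by linarith) (by linarith)
  have e6 : 0 ≤ (th : ℝ) * (x - L) := mul_nonneg ht0 (by linarith)
  have e7 : 0 ≤ (1000 - (th : ℝ)) * (H + 1 - y) := mul_nonneg (by linarith) (by linarith)
  have e8 : 0 ≤ (th : ℝ) * (L + 1 - x) := mul_nonneg ht0 (by linarith)
  interval_cases o
  · have hp : pos9 0 r c th = (1000 - th) * x + th * y := by
      unfold pos9 lw lam
      rw [hx, hy]
      simp only [zero_ne_one, decide_false, Bool.false_eq_true, if_false]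
      ring
    rw [hp, fa_zero, hHL]
    push_cast
    constructor <;> nlinarith
  · have hp : pos9 1 r c th = 10 ^ 9 - (1000 - th) * y - th * x := by
      unfold pos9 lw lam
      rw [hx, hy]
      simp only [decide_true, if_true]
      ring
    have hcast : ((1000000 - H : ℕ) : ℝ) = 1000000 - (H : ℝ) := by
      rw [Nat.cast_sub hH]
      norm_num
    rw [hp, fa_one, hHL, hcast]
    push_cast
    constructor <;> nlinarith

/-- first letter of a word from its code -/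
theorem first {rc : ℕ} (h1 : 2 ≤ rc) (h2 : rc < 256) :
    ∃ (a : ℕ) (d : List ℕ), dec rc = a :: d ∧
      (if rc / 2 ^ (lgc 10 rc - 1) = 2 then 1 else 0) = 2 - a := by
  have hlg : lgc 10 rc = (dec rc).length := lgc_spec (by omega)
  have hk : 1 ≤ (dec rc).length := dec_len_ge (k := 1) (by omega)
  rw [hlg]
  set k := (dec rc).length with hkd
  have hq : 1 ≤ rc / 2 ^ (k - 1) := by
    rw [Nat.one_le_div_iff (by positivity)]
    by_contra hcon
    rw [not_le] at hcon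
    by_cases hk1 : k - 1 = 0
    · rw [hk1] at hcon
      omega
    · have := dec_len_lt (c := rc) (k := k - 1) (by omega) hcon
      omega
  obtain ⟨hp, hl⟩ := dec_shift hq
  set q := rc / 2 ^ (k - 1) with hqd
  have hl1 : (dec q).length = 1 := by omega
  have hq4 : q < 4 := by
    by_contra hcon
    have := dec_len_ge (c := q) (k := 2) (by omega)
    omega
  have hq2 : q ≠ 1 := by
    intro h
    rw [h, dec_one] at hl1
    exact absurd hl1 (by decide)
  obtain ⟨d, hd⟩ := hp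
  have hq23 : q = 2 ∨ q = 3 := by omega
  rcases hq23 with h | h
  · refine ⟨1, d, ?_, ?_⟩
    · rw [← hd, h]
      have : dec 2 = dec 1 ++ [1] := dec_two_mul (c := 1) le_rfl
      rw [this, dec_one]
      rfl
    · rw [h]
      rfl
  · refine ⟨2, d, ?_, ?_⟩
    · rw [← hd, h]
      have : dec 3 = dec 1 ++ [2] := dec_two_mul_add (c := 1) le_rfl
      rw [this, dec_one]
      rfl
    · rw [h]
      rfl

/-- the relative length as a difference of values of `phi` -/
theorem lam_form {w : List ℕ} (hw : D12 w) : ∃ u1 u2 : ℝ, m0 ≤ u1 ∧ u1 ≤ u2 ∧ u2 ≤ M0 ∧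
    ∀ r, lam r w = phi r u2 - phi r u1 := by
  have hm := m0_pos
  have hM := m0_lt_M0
  have a1 := wv_mem hw (t := m0) le_rfl hM.le
  have a2 := wv_mem hw (t := M0) hM.le le_rfl
  have a3 := wv_mono (D12_pos hw) hm.le hM.le
  by_cases h : w.length % 2 = 0
  · refine ⟨wv w m0, wv w M0, a1.1, a3.1 h, a2.2, ?_⟩
    intro r
    unfold lam lwo upr
    rw [if_pos h, if_pos h]
  · refine ⟨wv w M0, wv w m0, a2.1, a3.2 (by omega), a1.2, ?_⟩
    intro r
    unfold lam lwo upr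
    rw [if_neg h, if_neg h]

/-- lower bound of the length, arithmetic part -/
theorem lo_arith {D a b : ℕ} (hD : D ≤ 36610) {x y l : ℝ} (hx : (a : ℝ) - 1 < x)
    (hy : (b : ℝ) - 1 < y) (hl0 : 0 ≤ l) (hl : (1 - ((D : ℝ) / 10 ^ 5) ^ 2 / 10) * min x y ≤ l) :
    ((min a b * (100000000000 - D * D) / 100000000000 - 2 : ℕ) : ℝ) ≤ l := by
  set n := min a b with hn
  set f := n * (100000000000 - D * D) / 100000000000 with hf
  by_cases h2 : f ≤ 2
  · have : f - 2 = 0 := by omega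
    rw [this]
    exact_mod_cast hl0
  · have hc : ((f - 2 : ℕ) : ℝ) = (f : ℝ) - 2 := by
      rw [Nat.cast_sub (by omega)]
      norm_num
    rw [hc]
    have hD2 : D * D ≤ 100000000000 := by nlinarith
    have h3 : (f : ℝ) * 100000000000 ≤ (n : ℝ) * (100000000000 - (D : ℝ) * D) := by
      have h4 : f * 100000000000 ≤ n * (100000000000 - D * D) := Nat.div_mul_le_self _ _
      have h5 : ((f * 100000000000 : ℕ) : ℝ) ≤ ((n * (100000000000 - D * D) : ℕ) : ℝ) := by
        exact_mod_cast h4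
      push_cast [Nat.cast_sub hD2] at h5
      linarith
    have h6 : (n : ℝ) - 1 ≤ min x y := by
      rw [hn]
      rcases le_total a b with h | h
      · rw [min_eq_left h]
        have : (a : ℝ) ≤ b := by exact_mod_cast h
        exact le_min hx.le (by linarith)
      · rw [min_eq_right h]
        have : (b : ℝ) ≤ a := by exact_mod_cast h
        exact le_min (by linarith) hy.le
    have hDr : (D : ℝ) ≤ 36610 := by exact_mod_cast hD
    have hD0 : (0 : ℝ) ≤ D := Nat.cast_nonneg D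
    have h7 : (D : ℝ) * D ≤ 100000000000 := by nlinarith
    have h8 : 0 ≤ 1 - ((D : ℝ) / 10 ^ 5) ^ 2 / 10 := by
      have : ((D : ℝ) / 10 ^ 5) ^ 2 / 10 = (D : ℝ) * D / 100000000000 := by ring
      rw [this]
      have : (D : ℝ) * D / 100000000000 ≤ 1 := by
        rw [div_le_one (by norm_num)]
        exact h7
      linarith
    have h9 := mul_le_mul_of_nonneg_left h6 h8
    have h10 : (1 - ((D : ℝ) / 10 ^ 5) ^ 2 / 10) * ((n : ℝ) - 1) =
        (n : ℝ) * (100000000000 - (D : ℝ) * D) / 100000000000 -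
          (1 - ((D : ℝ) / 10 ^ 5) ^ 2 / 10) := by ring
    have h11 : (f : ℝ) ≤ (n : ℝ) * (100000000000 - (D : ℝ) * D) / 100000000000 := by
      rw [le_div_iff₀ (by norm_num)]
      exact h3
    have h12 : 0 ≤ ((D : ℝ) / 10 ^ 5) ^ 2 / 10 := by positivity
    rw [h10] at h9
    linarith

/-- upper bound of the length, arithmetic part -/
theorem hi_arith {D a b : ℕ} (hD : D ≤ 36610) {x y l : ℝ} (hx : x < (a : ℝ) + 1)
    (hy : y < (b : ℝ) + 1) (hl : l ≤ (1 + ((D : ℝ) / 10 ^ 5) ^ 2 / 10) * max x y) :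
    l ≤ ((max a b * (100000000000 + D * D) / 100000000000 + 3 : ℕ) : ℝ) := by
  set n := max a b with hn
  set f := n * (100000000000 + D * D) / 100000000000 with hf
  have h3 : (n : ℝ) * (100000000000 + (D : ℝ) * D) < (f + 1) * 100000000000 := by
    have h4 : n * (100000000000 + D * D) < (f + 1) * 100000000000 := by
      rw [hf, mul_comm (_ + 1)]
      exact Nat.lt_mul_div_succ _ (by norm_num)
    have h5 : ((n * (100000000000 + D * D) : ℕ) : ℝ) < (((f + 1) * 100000000000 : ℕ) : ℝ) := by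
      exact_mod_cast h4
    push_cast at h5
    linarith
  have h6 : max x y ≤ (n : ℝ) + 1 := by
    rw [hn]
    rcases le_total a b with h | h
    · rw [max_eq_right h]
      have : (a : ℝ) ≤ b := by exact_mod_cast h
      exact max_le (by linarith) hy.le
    · rw [max_eq_left h]
      have : (b : ℝ) ≤ a := by exact_mod_cast h
      exact max_le hx.le (by linarith)
  have hDr : (D : ℝ) ≤ 36610 := by exact_mod_cast hD
  have hD0 : (0 : ℝ) ≤ D := Nat.cast_nonneg D
  have h7 : (D : ℝ) * D / 100000000000 ≤ 1 := by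
    rw [div_le_one (by norm_num)]
    nlinarith
  have h8 : 0 ≤ 1 + ((D : ℝ) / 10 ^ 5) ^ 2 / 10 := by positivity
  have h9 := mul_le_mul_of_nonneg_left h6 h8
  have h10 : (1 + ((D : ℝ) / 10 ^ 5) ^ 2 / 10) * ((n : ℝ) + 1) =
      (n : ℝ) * (100000000000 + (D : ℝ) * D) / 100000000000 + 1 +
        (D : ℝ) * D / 100000000000 := by ring
  have h11 : (n : ℝ) * (100000000000 + (D : ℝ) * D) / 100000000000 < f + 1 := by
    rw [div_lt_iff₀ (by norm_num)]
    exact h3
  rw [h10] at h9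
  push_cast
  linarith

end EntA

theorem ent_ok {o rc c : ℕ} (ho : o ≤ 1) (h1 : 1 ≤ rc) (h2 : rc < 256) (hc : 1 ≤ c)
    (hc' : c ≤ 128) : ∃ a0 a1 d0 d1 lo hi len mk : ℕ, EntOK o rc c a0 a1 d0 d1 lo hi len mk := by
  have hR0 := rlo_ge (c := rc) (by omega)
  have hR1 := rhi_le (c := rc) (by omega)
  have hR := rlo_lt_rhi (c := rc) (by omega)
  have hc10 : c < 1024 := by omega
  have hm := m0_pos
  have hM := m0_lt_M0
  have hm0 : m0 = 366 / 1000 := rfl
  have hM0 : M0 = 7321 / 10000 := rfl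
  set R0 := rlo rc with hR0d
  set R1 := rhi rc with hR1d
  have hR0r : (36600 : ℝ) ≤ R0 := by exact_mod_cast hR0
  have hR1r : (R1 : ℝ) ≤ 73210 := by exact_mod_cast hR1
  have hRr : (R0 : ℝ) < R1 := by exact_mod_cast hR
  have hr0 : (0 : ℝ) ≤ (R0 : ℝ) / 10 ^ 5 := div_nonneg (Nat.cast_nonneg _) (by norm_num)
  have g : ∀ R : ℕ, phw R c 0 ≤ phw R c 1 ∧ phw R c 1 ≤ 1000000 := by
    intro R
    have hr : (0 : ℝ) ≤ (R : ℝ) / 10 ^ 5 := div_nonneg (Nat.cast_nonneg _) (by norm_num)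
    have a1 := phw_zero R hc10
    have a2 := phw_one R hc10
    have a3 := lam_pos hr (D12_pos (D12_dec c))
    have a4 := upr_le_one hr (D12_dec c)
    unfold lam at a3
    constructor
    · have : (phw R c 0 : ℝ) < phw R c 1 + 1 := by linarith [a1.1, a2.2]
      have : phw R c 0 < phw R c 1 + 1 := by exact_mod_cast this
      omega
    · have : (phw R c 1 : ℝ) ≤ 1000000 := by linarith [a2.1]
      exact_mod_cast this
  have z0 := phw_zero R0 hc10
  have o0 := phw_one R0 hc10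
  have z1 := phw_zero R1 hc10
  have o1 := phw_one R1 hc10
  obtain ⟨g1, g2⟩ := g R0
  obtain ⟨g3, g4⟩ := g R1
  set L0 := phw R0 c 0 with hL0
  set H0 := phw R0 c 1 with hH0
  set L1 := phw R1 c 0 with hL1
  set H1 := phw R1 c 1 with hH1
  have hD : R1 - R0 ≤ 36610 := by omega
  have hlenlt : (dec c).length < 8 := dec_len_lt (by norm_num) (by omega)
  have hHL0 : ((H0 - L0 : ℕ) : ℝ) = (H0 : ℝ) - L0 := Nat.cast_sub g1
  have hHL1 : ((H1 - L1 : ℕ) : ℝ) = (H1 : ℝ) - L1 := Nat.cast_sub g3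
  have hDr : ((R1 - R0 : ℕ) : ℝ) = (R1 : ℝ) - R0 := Nat.cast_sub hR.le
  have hbounds : ∀ r, RM (dec rc) r → (R0 : ℝ) / 10 ^ 5 ≤ r ∧ r ≤ (R1 : ℝ) / 10 ^ 5 := by
    intro r hr
    have a1 := rlo_le (c := rc) (by omega) hr
    have a2 := le_rhi (c := rc) (by omega) hr
    constructor
    · rw [div_le_iff₀ (by positivity)]
      linarith
    · rw [le_div_iff₀ (by positivity)]
      linarith
  have hrpos : ∀ r, RM (dec rc) r → 0 ≤ r := fun r hr => hr0.trans (hbounds r hr).1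
  obtain ⟨u1, u2, hu1, hu12, hu2, hlam⟩ := EntA.lam_form (D12_dec c)
  have hlb : ∀ r, RM (dec rc) r →
      (1 - (((R1 - R0 : ℕ) : ℝ) / 10 ^ 5) ^ 2 / 10) *
        min (10 ^ 6 * lam ((R0 : ℝ) / 10 ^ 5) (dec c)) (10 ^ 6 * lam ((R1 : ℝ) / 10 ^ 5) (dec c)) ≤
          10 ^ 6 * lam r (dec c) ∧
      10 ^ 6 * lam r (dec c) ≤ (1 + (((R1 - R0 : ℕ) : ℝ) / 10 ^ 5) ^ 2 / 10) *
        max (10 ^ 6 * lam ((R0 : ℝ) / 10 ^ 5) (dec c)) (10 ^ 6 * lam ((R1 : ℝ) / 10 ^ 5) (dec c)) := by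
    intro r hr
    obtain ⟨b1, b2⟩ := hbounds r hr
    have b3 : m0 ≤ (R0 : ℝ) / 10 ^ 5 := by
      rw [hm0, le_div_iff₀ (by positivity)]
      linarith
    have b4 : (R1 : ℝ) / 10 ^ 5 ≤ M0 := by
      rw [hM0, div_le_iff₀ (by positivity)]
      linarith
    obtain ⟨c1, c2⟩ := lam_bounds b3 b1 b2 b4 hu1 hu12 hu2
    rw [← hlam, ← hlam, ← hlam] at c1 c2
    have e1 : ((R1 - R0 : ℕ) : ℝ) / 10 ^ 5 = (R1 : ℝ) / 10 ^ 5 - (R0 : ℝ) / 10 ^ 5 := by
      rw [hDr]
      ring
    rw [e1, ← mul_min_of_nonneg _ _ (by norm_num : (0 : ℝ) ≤ 10 ^ 6),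
      ← mul_max_of_nonneg _ _ (by norm_num : (0 : ℝ) ≤ 10 ^ 6)]
    constructor
    · calc _ = 10 ^ 6 * ((1 - ((R1 : ℝ) / 10 ^ 5 - (R0 : ℝ) / 10 ^ 5) ^ 2 / 10) *
            min (lam ((R0 : ℝ) / 10 ^ 5) (dec c)) (lam ((R1 : ℝ) / 10 ^ 5) (dec c))) := by ring
        _ ≤ _ := mul_le_mul_of_nonneg_left c1 (by norm_num)
    · calc _ ≤ 10 ^ 6 * ((1 + ((R1 : ℝ) / 10 ^ 5 - (R0 : ℝ) / 10 ^ 5) ^ 2 / 10) *
            max (lam ((R0 : ℝ) / 10 ^ 5) (dec c)) (lam ((R1 : ℝ) / 10 ^ 5) (dec c))) :=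
            mul_le_mul_of_nonneg_left c2 (by norm_num)
        _ = _ := by ring
  have hl0 : (((H0 - L0 : ℕ) : ℝ) - 1 < 10 ^ 6 * lam ((R0 : ℝ) / 10 ^ 5) (dec c)) ∧
      10 ^ 6 * lam ((R0 : ℝ) / 10 ^ 5) (dec c) < ((H0 - L0 : ℕ) : ℝ) + 1 := by
    rw [hHL0]
    unfold lam
    constructor <;> linarith [z0.1, z0.2, o0.1, o0.2]
  have hl1 : (((H1 - L1 : ℕ) : ℝ) - 1 < 10 ^ 6 * lam ((R1 : ℝ) / 10 ^ 5) (dec c)) ∧
      10 ^ 6 * lam ((R1 : ℝ) / 10 ^ 5) (dec c) < ((H1 - L1 : ℕ) : ℝ) + 1 := by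
    rw [hHL1]
    unfold lam
    constructor <;> linarith [z1.1, z1.2, o1.1, o1.2]
  refine ⟨EntA.fa o L0 H0, EntA.fa o L1 H1, H0 - L0, H1 - L1,
    mkL c (R1 - R0) (H0 - L0) (H1 - L1), mkH c (R1 - R0) (H0 - L0) (H1 - L1), lgc 10 c,
    mkc c rc, ?_⟩
  refine
    { eq := ?_
      b0 := ?_
      b1 := ?_
      blo := ?_
      bhi := ?_
      len_eq := lgc_spec hc10
      blen := ?_
      bmk := ?_
      ex := ?_
      lam_lo := ?_
      lam_hi := ?_
      cl := ?_ }
  · exact EntA.mk2_eq o c rc (R1 - R0) L0 H0 L1 H1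
  · interval_cases o
    · rw [EntA.fa_zero]
      omega
    · rw [EntA.fa_one]
      omega
  · interval_cases o
    · rw [EntA.fa_zero]
      omega
    · rw [EntA.fa_one]
      omega
  · by_cases h : c = 1
    · rw [h, EntA.mkL_one]
      norm_num
    · rw [EntA.mkL_ne h]
      have a1 : min (H0 - L0) (H1 - L1) ≤ 1000000 := by omega
      have a2 : min (H0 - L0) (H1 - L1) * (100000000000 - (R1 - R0) * (R1 - R0)) / 100000000000
          ≤ 1000000 := by
        apply Nat.div_le_of_le_mul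
        calc _ ≤ 1000000 * 100000000000 := Nat.mul_le_mul a1 (Nat.sub_le _ _)
          _ = _ := by norm_num
      omega
  · by_cases h : c = 1
    · rw [h, EntA.mkH_one]
      norm_num
    · rw [EntA.mkH_ne h]
      have a1 : max (H0 - L0) (H1 - L1) ≤ 1000000 := by omega
      have a3 : (R1 - R0) * (R1 - R0) ≤ 100000000000 := by nlinarith
      have a2 : max (H0 - L0) (H1 - L1) * (100000000000 + (R1 - R0) * (R1 - R0)) / 100000000000
          ≤ 2000000 := by
        apply Nat.div_le_of_le_mul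
        calc _ ≤ 1000000 * 200000000000 := Nat.mul_le_mul a1 (by omega)
          _ = _ := by norm_num
      omega
  · rw [lgc_spec hc10]
    exact hlenlt
  · by_cases h : c = 1
    · subst h
      by_cases h' : rc = 1
      · rw [h', EntA.mkc_one_one]
        omega
      · rw [EntA.mkc_one h']
        split_ifs
        · omega
        · omega
    · rw [EntA.mkc_ne h]
      omega
  · intro th ht
    have e0 := EntA.ex_one ho g1 g2 z0.1 z0.2 o0.1 o0.2 ht
    have e1 := EntA.ex_one ho g3 g4 z1.1 z1.2 o1.1 o1.2 ht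
    exact ⟨e0.1, e0.2, e1.1, e1.2⟩
  · intro r hr
    by_cases h : c = 1
    · subst h
      rw [EntA.mkL_one, dec_one, lam_nil (hrpos r hr)]
      norm_num
    · rw [EntA.mkL_ne h]
      refine EntA.lo_arith hD hl0.1 hl1.1 ?_ (hlb r hr).1
      have := lam_pos (hrpos r hr) (D12_pos (D12_dec c))
      positivity
  · intro r hr
    by_cases h : c = 1
    · subst h
      rw [EntA.mkH_one, dec_one, lam_nil (hrpos r hr)]
      norm_num
    · rw [EntA.mkH_ne h]
      exact EntA.hi_arith hD hl0.2 hl1.2 (hlb r hr).2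
  · intro r hr hmk
    by_cases h : c = 1
    · subst h
      rw [dec_one, List.reverse_nil, wv_nil]
      by_cases h' : rc = 1
      · rw [h', EntA.mkc_one_one] at hmk
        exact absurd rfl hmk
      · rw [EntA.mkc_one h']
        obtain ⟨a, d, had, hif⟩ := EntA.first (rc := rc) (by omega) h2
        rw [hif]
        rw [had] at hr
        exact cls_RM hr
    · rw [EntA.mkc_ne h, dec_rec (by omega : 2 ≤ c), List.reverse_append, List.reverse_singleton,
        List.singleton_append, wv_cons]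
      have hr' := RE_mem (RM_RE hr)
      have hm1 := wv_mem (D12_reverse.2 (D12_dec (c / 2))) hr'.1 hr'.2
      have hk : c % 2 = 0 ∨ c % 2 = 1 := by omega
      rw [cls_cons (a := c % 2 + 1) (by omega) hm1.1 hm1.2]
      omega

end Pool.Agent.Helper6.AE
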