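import Pool.Agent.Helper6.AE.Num

set_option autoImplicit false

namespace Pool.Agent.Helper6.AE

/-! Definitions for row entries. -/

/-- fields of a row entry -/
def pack (a0 a1 d0 d1 lo hi len mk : ℕ) : ℕ :=
  a0 + a1 * 2 ^ 32 + d0 * 2 ^ 64 + d1 * 2 ^ 96 + lo * 2 ^ 128 + hi * 2 ^ 152 + len * 2 ^ 176 +
    mk * 2 ^ 184

/-- exact position, scaled by `10 ^ 9`, at the relative level `th / 1000` -/
noncomputable def pos9 (o : ℕ) (r : ℝ) (c th : ℕ) : ℝ :=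
  10 ^ 9 * (lw r (decide (o = 1)) (dec c) + (th : ℝ) / 1000 * lam r (dec c))

/-- meaning of the fields; `o` orientation, `rc` code of the interval of the Moebius parameter,
`c` code of the word -/
structure EntOK (o rc c a0 a1 d0 d1 lo hi len mk : ℕ) : Prop where
  eq : mkE o rc c = pack a0 a1 d0 d1 lo hi len mk
  b0 : a0 + d0 ≤ 10 ^ 6
  b1 : a1 + d1 ≤ 10 ^ 6
  blo : lo < 2 ^ 24
  bhi : hi < 2 ^ 24
  len_eq : len = (dec c).length
  blen : len < 8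
  bmk : mk = 0 ∨ mk = 1 ∨ mk = 8
  /-- the packed values are correct up to rounding, at both ends of the interval of `rc` -/
  ex : ∀ th : ℕ, th ≤ 1000 →
    (1000 * a0 + th * d0 : ℝ) - 1000 * o ≤ pos9 o ((rlo rc : ℝ) / 10 ^ 5) c th ∧
    pos9 o ((rlo rc : ℝ) / 10 ^ 5) c th ≤ (1000 * a0 + th * d0 : ℝ) + 1000 * (1 - o) ∧
    (1000 * a1 + th * d1 : ℝ) - 1000 * o ≤ pos9 o ((rhi rc : ℝ) / 10 ^ 5) c th ∧
    pos9 o ((rhi rc : ℝ) / 10 ^ 5) c th ≤ (1000 * a1 + th * d1 : ℝ) + 1000 * (1 - o)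
  lam_lo : ∀ r, RM (dec rc) r → (lo : ℝ) ≤ 10 ^ 6 * lam r (dec c)
  lam_hi : ∀ r, RM (dec rc) r → 10 ^ 6 * lam r (dec c) ≤ (hi : ℝ)
  cl : ∀ r, RM (dec rc) r → mk ≠ 8 → cls (wv (dec c).reverse r) = mk

end Pool.Agent.Helper6.AE
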