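import Pool.Agent.Helper6.AE.Defs

set_option autoImplicit false

namespace Pool.Agent.Helper6.AE

/-! AE MODULE Row: rows of entries. -/

private theorem row_succ (o rc n : ℕ) : mkR o rc (n + 1) =
    mkR o rc n + mkE o rc (n + 1) * 2 ^ (192 * (n + 1)) := by
  have h : mkR o rc (n + 1) =
      Nat.add (mkR o rc n) (Nat.shiftLeft (mkE o rc (Nat.succ n)) (Nat.mul 192 (Nat.succ n))) := rfl
  rw [h]
  have h2 : Nat.shiftLeft (mkE o rc (Nat.succ n)) (Nat.mul 192 (Nat.succ n)) =
      mkE o rc (n + 1) * 2 ^ (192 * (n + 1)) := Nat.shiftLeft_eq _ _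
  rw [h2]
  rfl

private theorem row_zero (o rc : ℕ) : mkR o rc 0 = 0 := rfl

private theorem row_f192 (e k : ℕ) : f192 e k = e / 2 ^ (192 * k) % 2 ^ 192 := by
  have h1 : f192 e k = Nat.shiftRight e (Nat.mul 192 k) %
      6277101735386680763835789423207666416102355444464034512896 := rfl
  have h2 : Nat.shiftRight e (Nat.mul 192 k) = e / 2 ^ (192 * k) := Nat.shiftRight_eq_div_pow _ _
  rw [h1, h2]
  norm_num

private theorem row_lt {o rc : ℕ} (h : ∀ c, 1 ≤ c → c ≤ 128 → mkE o rc c < 2 ^ 192) (n : ℕ)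
    (hn : n ≤ 128) : mkR o rc n < 2 ^ (192 * (n + 1)) := by
  induction n with
  | zero => rw [row_zero]; positivity
  | succ n ih =>
    have h1 := ih (by omega)
    have h2 := h (n + 1) (by omega) hn
    rw [row_succ]
    have h3 : 2 ^ (192 * (n + 1 + 1)) = 2 ^ 192 * 2 ^ (192 * (n + 1)) := by
      have h30 : 192 * (n + 1 + 1) = 192 + 192 * (n + 1) := by omega
      rw [h30, pow_add]
    rw [h3]
    generalize 2 ^ (192 * (n + 1)) = P at *
    have h4 : mkE o rc (n + 1) + 1 ≤ 2 ^ 192 := h2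
    calc mkR o rc n + mkE o rc (n + 1) * P < P + mkE o rc (n + 1) * P := by omega
      _ = (mkE o rc (n + 1) + 1) * P := by ring
      _ ≤ 2 ^ 192 * P := Nat.mul_le_mul_right _ h4

private theorem row_get {o rc : ℕ} (h : ∀ c, 1 ≤ c → c ≤ 128 → mkE o rc c < 2 ^ 192) (n : ℕ)
    (hn : n ≤ 128) (c : ℕ) :
    mkR o rc n / 2 ^ (192 * c) % 2 ^ 192 = if 1 ≤ c ∧ c ≤ n then mkE o rc c else 0 := by
  induction n generalizing c with
  | zero =>
    rw [row_zero, Nat.zero_div, Nat.zero_mod, if_neg (by omega)]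
  | succ n ih =>
    have h1 := row_lt h n (by omega)
    have h2 := h (n + 1) (by omega) hn
    rcases lt_trichotomy c (n + 1) with hc | hc | hc
    · have h3 : mkR o rc (n + 1) =
          mkR o rc n + 2 ^ (192 * c) * (mkE o rc (n + 1) * 2 ^ (192 * (n - c)) * 2 ^ 192) := by
        rw [row_succ]
        have h4 : 2 ^ (192 * (n + 1)) = 2 ^ (192 * c) * (2 ^ (192 * (n - c)) * 2 ^ 192) := by
          have h40 : 192 * (n + 1) = 192 * c + (192 * (n - c) + 192) := by omega
          rw [h40, pow_add, pow_add]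
        rw [h4]
        ring
      rw [h3, Nat.add_mul_div_left _ _ (by positivity), Nat.add_mul_mod_self_right, ih (by omega)]
      by_cases h5 : 1 ≤ c ∧ c ≤ n
      · rw [if_pos h5, if_pos ⟨h5.1, by omega⟩]
      · rw [if_neg h5, if_neg (by omega)]
    · subst hc
      rw [if_pos ⟨by omega, le_rfl⟩, row_succ, Nat.add_mul_div_right _ _ (by positivity),
        Nat.div_eq_of_lt h1, zero_add, Nat.mod_eq_of_lt h2]
    · rw [if_neg (by omega)]
      have h3 : mkR o rc (n + 1) < 2 ^ (192 * c) := by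
        refine lt_of_lt_of_le (row_lt h (n + 1) hn) ?_
        exact Nat.pow_le_pow_right (by norm_num) (by omega)
      rw [Nat.div_eq_of_lt h3, Nat.zero_mod]

theorem f192_mkR {o rc c : ℕ} (h : ∀ c, 1 ≤ c → c ≤ 128 → mkE o rc c < 2 ^ 192) (h1 : 1 ≤ c)
    (h2 : c ≤ 128) : f192 (mkR o rc 128) c = mkE o rc c := by
  rw [row_f192, row_get h 128 le_rfl c, if_pos ⟨h1, h2⟩]

theorem f192_mkR_zero {o rc c : ℕ} (h : ∀ c, 1 ≤ c → c ≤ 128 → mkE o rc c < 2 ^ 192)
    (hc : c = 0 ∨ 128 < c) : f192 (mkR o rc 128) c = 0 := by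
  rw [row_f192, row_get h 128 le_rfl c, if_neg (by omega)]

theorem xx_eq (e row0 row1 row2 : ℕ) : xx e row0 row1 row2 =
    f192 row0 (fld e 0) + f192 row1 (fld e 1) * 2 ^ 192 + f192 row2 (fld e 2) * 2 ^ 384 := by
  have h0 : fld e 0 = Nat.mod e 1024 := by
    show e / 2 ^ (10 * 0) % 1024 = e % 1024
    rw [Nat.mul_zero, pow_zero, Nat.div_one]
  have h1 : fld e 1 = Nat.mod (Nat.shiftRight e 10) 1024 := by
    have : Nat.shiftRight e 10 = e / 2 ^ 10 := Nat.shiftRight_eq_div_pow _ _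
    rw [this]
    rfl
  have h2 : fld e 2 = Nat.mod (Nat.shiftRight e 20) 1024 := by
    have : Nat.shiftRight e 20 = e / 2 ^ 20 := Nat.shiftRight_eq_div_pow _ _
    rw [this]
    rfl
  rw [h0, h1, h2]
  have h3 : xx e row0 row1 row2 = f192 row0 (Nat.mod e 1024) +
      (Nat.shiftLeft (f192 row1 (Nat.mod (Nat.shiftRight e 10) 1024)) 192 +
        Nat.shiftLeft (f192 row2 (Nat.mod (Nat.shiftRight e 20) 1024)) 384) := rfl
  have h4 : ∀ a k : ℕ, Nat.shiftLeft a k = a * 2 ^ k := fun a k => Nat.shiftLeft_eq _ _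
  rw [h3, h4, h4, ← Nat.add_assoc]

private theorem row_and {b x : Bool} (h : @Bool.rec (fun _ => Bool) false x b = true) :
    b = true ∧ x = true := by
  cases b with
  | false => exact absurd h (by simp)
  | true => exact ⟨rfl, h⟩

theorem okT_sound {o : ℕ} {t : Tr} {d c : ℕ} (h : okT o t d c = true) : TrOK o d c t := by
  induction t generalizing d c with
  | nil => exact TrOK.nil d c
  | node row ka l r ihl ihr =>
    have h0 : okT o (Tr.node row ka l r) d c =
      @Bool.rec (fun _ => Bool) false (@Bool.rec (fun _ => Bool) false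
        (@Bool.rec (fun _ => Bool) false (@Bool.rec (fun _ => Bool) false
          (okT o r (Nat.sub d 1) (Nat.succ (Nat.mul 2 c)))
          (okT o l (Nat.sub d 1) (Nat.mul 2 c)))
          (Nat.beq ka (kap (Nat.sub (rhi c) (rlo c)))))
        (Nat.beq row (mkR o c 128))) (Nat.ble 1 d) := rfl
    rw [h0] at h
    obtain ⟨h1, h2⟩ := row_and h
    obtain ⟨h3, h4⟩ := row_and h2
    obtain ⟨h5, h6⟩ := row_and h4
    obtain ⟨h7, h8⟩ := row_and h6
    have e1 : 1 ≤ d := Nat.le_of_ble_eq_true h1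
    have e2 : row = mkR o c 128 := Nat.eq_of_beq_eq_true h3
    have e3 : ka = kap (rhi c - rlo c) := Nat.eq_of_beq_eq_true h5
    obtain ⟨d', rfl⟩ : ∃ d', d = d' + 1 := ⟨d - 1, by omega⟩
    have e4 := ihl h7
    have e5 := ihr h8
    rw [e2, e3]
    exact TrOK.node d' c l r e4 e5

end Pool.Agent.Helper6.AE
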