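import Pool.Agent.Helper6.AE.Prm
import Pool.Agent.Helper6.AE.Row
import Pool.Agent.Helper6.AE.Ent

set_option autoImplicit false

namespace Pool.Agent.Helper6.AE

/-! AE MODULE Img: soundness of the image check. -/

namespace ImgAux

/-! ### Booleans -/

theorem and_rec (b x : Bool) :
    (@Bool.rec (fun _ => Bool) false x b = true) ↔ (b = true ∧ x = true) := by
  cases b <;> simp

theorem imp_rec (b x : Bool) :
    (@Bool.rec (fun _ => Bool) true x b = true) ↔ (b = true → x = true) := by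
  cases b <;> simp

theorem not_rec (b : Bool) :
    (@Bool.rec (fun _ => Bool) true false b = true) ↔ ¬ (b = true) := by
  cases b <;> simp

/-! ### Fields of a row entry -/

theorem pack_lt {a0 a1 d0 d1 lo hi len mk : ℕ} (h0 : a0 + d0 ≤ 10 ^ 6) (h1 : a1 + d1 ≤ 10 ^ 6)
    (h2 : lo < 2 ^ 24) (h3 : hi < 2 ^ 24) (h4 : len < 8) (h5 : mk ≤ 8) :
    pack a0 a1 d0 d1 lo hi len mk < 2 ^ 192 := by
  unfold pack
  omega

theorem pack_lo {a0 a1 d0 d1 lo hi len mk : ℕ} (h0 : a0 + d0 ≤ 10 ^ 6) (h1 : a1 + d1 ≤ 10 ^ 6)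
    (h2 : lo < 2 ^ 24) : pack a0 a1 d0 d1 lo hi len mk / 2 ^ 128 % 2 ^ 24 = lo := by
  unfold pack
  omega

theorem pack_hi {a0 a1 d0 d1 lo hi len mk : ℕ} (h0 : a0 + d0 ≤ 10 ^ 6) (h1 : a1 + d1 ≤ 10 ^ 6)
    (h2 : lo < 2 ^ 24) (h3 : hi < 2 ^ 24) :
    pack a0 a1 d0 d1 lo hi len mk / 2 ^ 152 % 2 ^ 24 = hi := by
  unfold pack
  omega

theorem pack_par {a0 a1 d0 d1 lo hi len mk : ℕ} (h0 : a0 + d0 ≤ 10 ^ 6) (h1 : a1 + d1 ≤ 10 ^ 6)
    (h2 : lo < 2 ^ 24) (h3 : hi < 2 ^ 24) :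
    pack a0 a1 d0 d1 lo hi len mk / 2 ^ 176 % 2 = len % 2 := by
  unfold pack
  omega

theorem pack_mk {a0 a1 d0 d1 lo hi len mk : ℕ} (h0 : a0 + d0 ≤ 10 ^ 6) (h1 : a1 + d1 ≤ 10 ^ 6)
    (h2 : lo < 2 ^ 24) (h3 : hi < 2 ^ 24) (h4 : len < 8) (h5 : mk ≤ 8) :
    pack a0 a1 d0 d1 lo hi len mk / 2 ^ 184 % 256 = mk := by
  unfold pack
  omega

theorem f192_lt (e k : ℕ) : f192 e k < 2 ^ 192 := by
  unfold f192
  exact Nat.mod_lt _ (by norm_num)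

/-- a field of the row entry of a correct box -/
theorem mkE_lt {o rc : ℕ} (ho : o ≤ 1) (h1 : 1 ≤ rc) (h2 : rc < 256) :
    ∀ c, 1 ≤ c → c ≤ 128 → mkE o rc c < 2 ^ 192 := by
  intro c hc hc'
  obtain ⟨a0, a1, d0, d1, lo, hi, len, mk, h⟩ := ent_ok ho h1 h2 hc hc'
  rw [h.eq]
  have := h.bmk
  exact pack_lt h.b0 h.b1 h.blo h.bhi h.blen (by omega)

theorem row_zero {o c row ka : ℕ} {t : Tr} (ho : o ≤ 1) (hT : TB o c row ka t) {k : ℕ}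
    (hk : k = 0 ∨ 128 < k) : f192 row k = 0 := by
  have h1 := TB_lt hT
  rw [(TB_row hT).1]
  exact f192_mkR_zero (mkE_lt ho h1.1 h1.2) hk

/-- what the entry says about one coordinate -/
theorem coord {o c row ka : ℕ} {t : Tr} (ho : o ≤ 1) (hT : TB o c row ka t) {k : ℕ}
    (hk1 : 1 ≤ k) (hk2 : k ≤ 128) {r : ℝ} (hr : RM (dec c) r) :
    ((f192 row k / 2 ^ 128 % 2 ^ 24 : ℕ) : ℝ) ≤ 10 ^ 6 * lam r (dec k) ∧
    10 ^ 6 * lam r (dec k) ≤ ((f192 row k / 2 ^ 152 % 2 ^ 24 : ℕ) : ℝ) ∧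
    f192 row k / 2 ^ 176 % 2 = (dec k).length % 2 ∧
    Al (f192 row k / 2 ^ 184 % 256) (cls (wv (dec k).reverse r)) := by
  have h1 := TB_lt hT
  obtain ⟨a0, a1, d0, d1, lo, hi, len, mk, h⟩ := ent_ok ho h1.1 h1.2 hk1 hk2
  have hmk := h.bmk
  have e1 : f192 row k = pack a0 a1 d0 d1 lo hi len mk := by
    rw [(TB_row hT).1, f192_mkR (mkE_lt ho h1.1 h1.2) hk1 hk2, h.eq]
  rw [e1, pack_lo h.b0 h.b1 h.blo, pack_hi h.b0 h.b1 h.blo h.bhi,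
    pack_par h.b0 h.b1 h.blo h.bhi, pack_mk h.b0 h.b1 h.blo h.bhi h.blen (by omega), h.len_eq]
  refine ⟨h.lam_lo r hr, h.lam_hi r hr, rfl, cls_le _, ?_⟩
  by_cases h8 : mk = 8
  · exact Or.inl h8
  · exact Or.inr (h.cl r hr h8).symm

/-! ### Fields of the packed data -/

theorem lane (f g : ℕ) {a w : ℕ} (h : a + w ≤ 192) :
    (f + 2 ^ 192 * g) / 2 ^ a % 2 ^ w = f / 2 ^ a % 2 ^ w := by
  have e2 : 2 ^ 192 = 2 ^ a * (2 ^ w * 2 ^ (192 - (a + w))) := by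
    rw [← pow_add, ← pow_add]
    congr 1
    omega
  have e1 : f + 2 ^ 192 * g = f + 2 ^ a * (2 ^ w * (2 ^ (192 - (a + w)) * g)) := by
    rw [e2, mul_assoc, mul_assoc]
  rw [e1, Nat.add_mul_div_left _ _ (by positivity), Nat.add_mul_mod_self_left]

theorem split (f0 f1 f2 : ℕ) :
    f0 + f1 * 2 ^ 192 + f2 * 2 ^ 384 = f0 + 2 ^ 192 * (f1 + 2 ^ 192 * f2) := by
  have e : (384 : ℕ) = 192 + 192 := rfl
  rw [e, pow_add]
  generalize 2 ^ 192 = A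
  ring

theorem div192 {f g : ℕ} (h : f < 2 ^ 192) : (f + 2 ^ 192 * g) / 2 ^ 192 = g := by
  rw [Nat.add_mul_div_left _ _ (by positivity), Nat.div_eq_of_lt h, Nat.zero_add]

theorem fld0 {X f0 f1 f2 : ℕ} (hX : f0 + f1 * 2 ^ 192 + f2 * 2 ^ 384 = X) {a w : ℕ}
    (h : a + w ≤ 192) : Nat.mod (Nat.shiftRight X a) (2 ^ w) = f0 / 2 ^ a % 2 ^ w := by
  have e : Nat.shiftRight X a = X / 2 ^ a := Nat.shiftRight_eq_div_pow X a
  rw [e, ← hX, split]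
  exact lane _ _ h

theorem fld1 {X f0 f1 f2 : ℕ} (hX : f0 + f1 * 2 ^ 192 + f2 * 2 ^ 384 = X) (h0 : f0 < 2 ^ 192)
    {a w : ℕ} (h : a + w ≤ 192) :
    Nat.mod (Nat.shiftRight X (192 + a)) (2 ^ w) = f1 / 2 ^ a % 2 ^ w := by
  have e : Nat.shiftRight X (192 + a) = X / 2 ^ (192 + a) := Nat.shiftRight_eq_div_pow X _
  rw [e, ← hX, split, pow_add, ← Nat.div_div_eq_div_mul, div192 h0]
  exact lane _ _ h

theorem fld2 {X f0 f1 f2 : ℕ} (hX : f0 + f1 * 2 ^ 192 + f2 * 2 ^ 384 = X) (h0 : f0 < 2 ^ 192)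
    (h1 : f1 < 2 ^ 192) {a w : ℕ} (h : a + w ≤ 192) :
    Nat.mod (Nat.shiftRight X (192 + (192 + a))) (2 ^ w) = f2 / 2 ^ a % 2 ^ w := by
  have e : Nat.shiftRight X (192 + (192 + a)) = X / 2 ^ (192 + (192 + a)) :=
    Nat.shiftRight_eq_div_pow X _
  rw [e, ← hX, split, pow_add, ← Nat.div_div_eq_div_mul, div192 h0, pow_add,
    ← Nat.div_div_eq_div_mul, div192 h1]
  have := lane f2 0 h
  rw [Nat.mul_zero, Nat.add_zero] at this
  exact this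

/-! ### The six orderings -/

theorem img3_sound {TT : ℕ → ℕ}
    {lo hi n0 n1 n2 m0 m1 m2 S0 H0 S1 H1 S2 H2 X12 Y12 : ℕ}
    {q01 q10 q02 q20 q12 q21 : Bool}
    (h : img3 TT lo hi n0 n1 n2 m0 m1 m2 S0 H0 S1 H1 S2 H2 X12 Y12 q01 q10 q02 q20 q12 q21 = true)
    (g01 : S1 ≤ H0 → q01 = true) (g10 : S0 < H1 → q10 = true)
    (g02 : S2 ≤ H0 → q02 = true) (g20 : S0 < H2 → q20 = true)
    (g12 : S2 ≤ H1 → q12 = true) (g21 : X12 < Y12 → q21 = true)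
    {v : St} (hG : Good v) (hn0 : on (v.o 0) = n0) (hn1 : on (v.o 1) = n1)
    (hn2 : on (v.o 2) = n2) (hm0 : Al m0 (cls (v.r 0))) (hm1 : Al m1 (cls (v.r 1)))
    (hm2 : Al m2 (cls (v.r 2))) {K : ℝ} (hK : 0 < K)
    (a0 : (S0 : ℝ) ≤ K * v.s 0) (b0 : K * v.s 0 ≤ H0)
    (a1 : (S1 : ℝ) ≤ K * v.s 1) (b1 : K * v.s 1 ≤ H1)
    (a2 : (S2 : ℝ) ≤ K * v.s 2) (b2 : K * v.s 2 ≤ H2)
    (hX : (X12 : ℝ) * v.s 2 ≤ Y12 * v.s 1)
    (pS0 : 0 < S0) (pS1 : 0 < S1) (pS2 : 0 < S2) (pX : 0 < X12) (pY : 0 < Y12)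
    (hlh : lo ≤ hi) (h1000 : hi ≤ 1000)
    (hlo : lo * (∑ z, v.s z) ≤ 1000 * v.t) (hhi : 1000 * v.t ≤ hi * ∑ z, v.s z) :
    InT TT v := by
  have s0 := (hG 0).1
  have s1 := (hG 1).1
  have s2 := (hG 2).1
  have pos : ∀ {x : ℝ} {n : ℕ}, 0 < x → K * x ≤ (n : ℝ) → 0 < n := by
    intro x n hx hn
    have : (0 : ℝ) < n := lt_of_lt_of_le (mul_pos hK hx) hn
    exact_mod_cast this
  have pH0 := pos s0 b0
  have pH1 := pos s1 b1
  have pH2 := pos s2 b2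
  have cr : ∀ {S H : ℕ} {x y : ℝ}, 0 < x → 0 < y → (S : ℝ) ≤ K * x → K * y ≤ H →
      (S : ℝ) * y ≤ H * x := by
    intro S H x y hx hy hS hH
    calc (S : ℝ) * y ≤ K * x * y := mul_le_mul_of_nonneg_right hS hy.le
      _ = K * y * x := by ring
      _ ≤ H * x := mul_le_mul_of_nonneg_right hH hx.le
  have le_of : ∀ {S H : ℕ} {x y : ℝ}, (S : ℝ) ≤ K * x → K * y ≤ H → x ≤ y → S ≤ H := by
    intro S H x y hS hH hxy
    have : (S : ℝ) ≤ H := hS.trans ((mul_le_mul_of_nonneg_left hxy hK.le).trans hH)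
    exact_mod_cast this
  have lt_of : ∀ {S H : ℕ} {x y : ℝ}, (S : ℝ) ≤ K * x → K * y ≤ H → x < y → S < H := by
    intro S H x y hS hH hxy
    have : (S : ℝ) < H := lt_of_le_of_lt hS (lt_of_lt_of_le (mul_lt_mul_of_pos_left hxy hK) hH)
    exact_mod_cast this
  have lt21 : v.s 1 < v.s 2 → X12 < Y12 := by
    intro h12
    have e1 : (X12 : ℝ) * v.s 2 < Y12 * v.s 2 :=
      lt_of_le_of_lt hX (mul_lt_mul_of_pos_left h12 (by exact_mod_cast pY))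
    have e2 : (X12 : ℝ) < Y12 := lt_of_mul_lt_mul_right e1 s2.le
    exact_mod_cast e2
  unfold img3 at h
  simp only [and_rec, imp_rec] at h
  obtain ⟨P0, P1, P2⟩ := h
  rcases le_or_gt (v.s 1) (v.s 0) with c10 | c10
  · rcases le_or_gt (v.s 2) (v.s 0) with c20 | c20
    · obtain ⟨R1, R2⟩ := P0 ⟨g01 (le_of a1 b0 c10), g02 (le_of a2 b0 c20)⟩
      rcases le_or_gt (v.s 2) (v.s 1) with c21 | c21
      · exact perm_sound (R1 (g12 (le_of a2 b1 c21))) (by decide) (by decide) (by decide) hG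
          hn0 hn1 hn2 c10 c21 hm0 hm1 hm2 pH1 (cr s0 s1 a0 b1) pS1 (cr s1 s0 a1 b0) pH2
          (cr s0 s2 a0 b2) pS2 (cr s2 s0 a2 b0) hlh h1000 hlo hhi
      · exact perm_sound (R2 (g21 (lt21 c21))) (by decide) (by decide) (by decide) hG
          hn0 hn2 hn1 c20 c21.le hm0 hm2 hm1 pH2 (cr s0 s2 a0 b2) pS2 (cr s2 s0 a2 b0) pH1
          (cr s0 s1 a0 b1) pS1 (cr s1 s0 a1 b0) hlh h1000 hlo hhi
    · -- `s 1 ≤ s 0 < s 2`
      have c21 : v.s 1 < v.s 2 := lt_of_le_of_lt c10 c20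
      obtain ⟨R1, R2⟩ := P2 ⟨g20 (lt_of a0 b2 c20), g21 (lt21 c21)⟩
      exact perm_sound (R1 (g01 (le_of a1 b0 c10))) (by decide) (by decide) (by decide) hG
        hn2 hn0 hn1 c20.le c10 hm2 hm0 hm1 pH0 (cr s2 s0 a2 b0) pS0 (cr s0 s2 a0 b2) pH1
        (cr s2 s1 a2 b1) pX hX hlh h1000 hlo hhi
  · rcases le_or_gt (v.s 2) (v.s 1) with c21 | c21
    · obtain ⟨R1, R2⟩ := P1 ⟨g10 (lt_of a0 b1 c10), g12 (le_of a2 b1 c21)⟩
      rcases le_or_gt (v.s 2) (v.s 0) with c20 | c20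
      · exact perm_sound (R1 (g02 (le_of a2 b0 c20))) (by decide) (by decide) (by decide) hG
          hn1 hn0 hn2 c10.le c20 hm1 hm0 hm2 pH0 (cr s1 s0 a1 b0) pS0 (cr s0 s1 a0 b1) pY
          hX pS2 (cr s2 s1 a2 b1) hlh h1000 hlo hhi
      · exact perm_sound (R2 (g20 (lt_of a0 b2 c20))) (by decide) (by decide) (by decide) hG
          hn1 hn2 hn0 c21 c20.le hm1 hm2 hm0 pY hX pS2 (cr s2 s1 a2 b1) pH0
          (cr s1 s0 a1 b0) pS0 (cr s0 s1 a0 b1) hlh h1000 hlo hhi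
    · have c20 : v.s 0 < v.s 2 := c10.trans c21
      obtain ⟨R1, R2⟩ := P2 ⟨g20 (lt_of a0 b2 c20), g21 (lt21 c21)⟩
      exact perm_sound (R2 (g10 (lt_of a0 b1 c10))) (by decide) (by decide) (by decide) hG
        hn2 hn1 hn0 c21.le c10.le hm2 hm1 hm0 pH1 (cr s2 s1 a2 b1) pX hX pH0
        (cr s2 s0 a2 b0) pS0 (cr s0 s2 a0 b2) hlh h1000 hlo hhi

theorem img1_sound {TT : ℕ → ℕ}
    {lo hi n0 n1 n2 m0 m1 m2 b0 b1 c0 c1 l0 h0 l1 h1 l2 h2 : ℕ}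
    (h : img1 TT lo hi n0 n1 n2 m0 m1 m2 b0 b1 c0 c1 l0 h0 l1 h1 l2 h2 = true) :
    (0 < b0 ∧ 0 < c0 ∧ 0 < l0 ∧ 0 < l1 ∧ 0 < l2) ∧ lo ≤ hi ∧ hi ≤ 1000 ∧
    ∀ (v : St) (s1 s2 x0 x1 x2 : ℝ), Good v → v.s 0 = x0 → v.s 1 = s1 * x1 → v.s 2 = s2 * x2 →
      0 < s2 → s2 ≤ s1 → 0 < x0 → 0 < x1 → 0 < x2 →
      (b0 : ℝ) ≤ 100000 * s1 → 100000 * s1 ≤ b1 → (c0 : ℝ) ≤ 100000 * s2 → 100000 * s2 ≤ c1 →
      (l0 : ℝ) ≤ 10 ^ 6 * x0 → 10 ^ 6 * x0 ≤ h0 → (l1 : ℝ) ≤ 10 ^ 6 * x1 → 10 ^ 6 * x1 ≤ h1 →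
      (l2 : ℝ) ≤ 10 ^ 6 * x2 → 10 ^ 6 * x2 ≤ h2 →
      on (v.o 0) = n0 → on (v.o 1) = n1 → on (v.o 2) = n2 →
      Al m0 (cls (v.r 0)) → Al m1 (cls (v.r 1)) → Al m2 (cls (v.r 2)) →
      lo * (∑ z, v.s z) ≤ 1000 * v.t → 1000 * v.t ≤ hi * ∑ z, v.s z → InT TT v := by
  unfold img1 at h
  simp only [and_rec, Nat.ble_eq] at h
  obtain ⟨k1, k2, k3, k4⟩ := h
  have k1' : 0 < b0 * (c0 * (l0 * (l1 * l2))) := k1
  have pb0 : 0 < b0 := Nat.pos_of_mul_pos_right k1'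
  have k5 : 0 < c0 * (l0 * (l1 * l2)) := Nat.pos_of_mul_pos_left k1'
  have pc0 : 0 < c0 := Nat.pos_of_mul_pos_right k5
  have k6 : 0 < l0 * (l1 * l2) := Nat.pos_of_mul_pos_left k5
  have pl0 : 0 < l0 := Nat.pos_of_mul_pos_right k6
  have k7 : 0 < l1 * l2 := Nat.pos_of_mul_pos_left k6
  have pl1 : 0 < l1 := Nat.pos_of_mul_pos_right k7
  have pl2 : 0 < l2 := Nat.pos_of_mul_pos_left k7
  refine ⟨⟨pb0, pc0, pl0, pl1, pl2⟩, k2, k3, ?_⟩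
  intro v s1 s2 x0 x1 x2 hG e0 e1 e2 ps2 hs21 px0 px1 px2 hb0 hb1 hc0 hc1 hl0 hh0 hl1 hh1 hl2 hh2
    hn0 hn1 hn2 hm0 hm1 hm2 hlo hhi
  have ps1 : 0 < s1 := lt_of_lt_of_le ps2 hs21
  have ph2 : 0 < h2 := by
    have : (0 : ℝ) < h2 := lt_of_lt_of_le (by positivity) hh2
    exact_mod_cast this
  have pc1 : 0 < c1 := by
    have : (0 : ℝ) < c1 := lt_of_lt_of_le (by positivity) hc1
    exact_mod_cast this
  unfold img2 at k4
  refine img3_sound k4 (fun g => ?_) (fun g => ?_) (fun g => ?_) (fun g => ?_) (fun g => ?_)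
    (fun g => ?_) hG hn0 hn1 hn2 hm0 hm1 hm2 (K := 10 ^ 11) (by positivity) ?_ ?_ ?_ ?_ ?_ ?_ ?_
    ?_ ?_ ?_ ?_ ?_ k2 k3 hlo hhi
  · rw [Nat.ble_eq]; exact g
  · rw [not_rec, Nat.ble_eq]; exact Nat.not_le.2 g
  · rw [Nat.ble_eq]; exact g
  · rw [not_rec, Nat.ble_eq]; exact Nat.not_le.2 g
  · rw [Nat.ble_eq]; exact g
  · rw [not_rec, Nat.ble_eq]; exact Nat.not_le.2 g
  · rw [e0]
    have : ((Nat.mul 100000 l0 : ℕ) : ℝ) = 100000 * l0 := by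
      show ((100000 * l0 : ℕ) : ℝ) = _
      push_cast; ring
    rw [this]
    linarith
  · rw [e0]
    have : ((Nat.mul 100000 h0 : ℕ) : ℝ) = 100000 * h0 := by
      show ((100000 * h0 : ℕ) : ℝ) = _
      push_cast; ring
    rw [this]
    linarith
  · rw [e1]
    have : ((Nat.mul b0 l1 : ℕ) : ℝ) = b0 * l1 := by
      show ((b0 * l1 : ℕ) : ℝ) = _
      push_cast; ring
    rw [this]
    calc (b0 : ℝ) * l1 ≤ (100000 * s1) * (10 ^ 6 * x1) :=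
          mul_le_mul hb0 hl1 (by positivity) (by positivity)
      _ = 10 ^ 11 * (s1 * x1) := by ring
  · rw [e1]
    have : ((Nat.mul b1 h1 : ℕ) : ℝ) = b1 * h1 := by
      show ((b1 * h1 : ℕ) : ℝ) = _
      push_cast; ring
    rw [this]
    calc 10 ^ 11 * (s1 * x1) = (100000 * s1) * (10 ^ 6 * x1) := by ring
      _ ≤ (b1 : ℝ) * h1 := mul_le_mul hb1 hh1 (by positivity) (by positivity)
  · rw [e2]
    have : ((Nat.mul c0 l2 : ℕ) : ℝ) = c0 * l2 := by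
      show ((c0 * l2 : ℕ) : ℝ) = _
      push_cast; ring
    rw [this]
    calc (c0 : ℝ) * l2 ≤ (100000 * s2) * (10 ^ 6 * x2) :=
          mul_le_mul hc0 hl2 (by positivity) (by positivity)
      _ = 10 ^ 11 * (s2 * x2) := by ring
  · rw [e2]
    have : ((Nat.mul c1 h2 : ℕ) : ℝ) = c1 * h2 := by
      show ((c1 * h2 : ℕ) : ℝ) = _
      push_cast; ring
    rw [this]
    calc 10 ^ 11 * (s2 * x2) = (100000 * s2) * (10 ^ 6 * x2) := by ring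
      _ ≤ (c1 : ℝ) * h2 := mul_le_mul hc1 hh2 (by positivity) (by positivity)
  · rw [e1, e2]
    cases hb : Nat.ble c1 b0 with
    | false =>
      show ((l1 : ℕ) : ℝ) * (s2 * x2) ≤ ((h2 : ℕ) : ℝ) * (s1 * x1)
      have g1 : (l1 : ℝ) * x2 ≤ h2 * x1 := by
        have g2 : (l1 : ℝ) * x2 ≤ (10 ^ 6 * x1) * x2 := mul_le_mul_of_nonneg_right hl1 px2.le
        have g3 : (10 ^ 6 * x2) * x1 ≤ (h2 : ℝ) * x1 := mul_le_mul_of_nonneg_right hh2 px1.le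
        nlinarith
      have g4 : (0 : ℝ) ≤ l1 * x2 := by positivity
      calc (l1 : ℝ) * (s2 * x2) = s2 * (l1 * x2) := by ring
        _ ≤ s1 * (l1 * x2) := mul_le_mul_of_nonneg_right hs21 g4
        _ ≤ s1 * (h2 * x1) := mul_le_mul_of_nonneg_left g1 ps1.le
        _ = h2 * (s1 * x1) := by ring
    | true =>
      show ((b0 * l1 : ℕ) : ℝ) * (s2 * x2) ≤ ((c1 * h2 : ℕ) : ℝ) * (s1 * x1)
      push_cast
      have g1 : (b0 : ℝ) * l1 ≤ (100000 * s1) * (10 ^ 6 * x1) :=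
        mul_le_mul hb0 hl1 (by positivity) (by positivity)
      have g2 : (100000 * s2) * (10 ^ 6 * x2) ≤ (c1 : ℝ) * h2 :=
        mul_le_mul hc1 hh2 (by positivity) (by positivity)
      calc (b0 : ℝ) * l1 * (s2 * x2) ≤ (100000 * s1) * (10 ^ 6 * x1) * (s2 * x2) :=
            mul_le_mul_of_nonneg_right g1 (by positivity)
        _ = (100000 * s2) * (10 ^ 6 * x2) * (s1 * x1) := by ring
        _ ≤ (c1 : ℝ) * h2 * (s1 * x1) := mul_le_mul_of_nonneg_right g2 (by positivity)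
  · exact Nat.mul_pos (by norm_num) pl0
  · exact Nat.mul_pos pb0 pl1
  · exact Nat.mul_pos pc0 pl2
  · cases hb : Nat.ble c1 b0 with
    | false => exact pl1
    | true => exact Nat.mul_pos pb0 pl1
  · cases hb : Nat.ble c1 b0 with
    | false => exact ph2
    | true => exact Nat.mul_pos pc1 ph2

theorem xr_on (b : Bool) (n : ℕ) :
    on (xor b (decide (n % 2 = 1))) = xr (on b) (n % 2) := by
  rcases Nat.mod_two_eq_zero_or_one n with h | h <;> rw [h] <;> cases b <;> rfl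

theorem on_par (n : ℕ) : on (xor false (decide (n % 2 = 1))) = n % 2 := by
  rcases Nat.mod_two_eq_zero_or_one n with h | h <;> rw [h] <;> rfl

end ImgAux

theorem img_sound {TT : ℕ → ℕ} {o0 o1 : ℕ} {c : Fin 3 → ℕ} {B : Bx} {e : ℕ}
    (hB : BxOK o0 o1 c B)
    (h : img TT o0 o1 B.b0 B.b1 B.c0 B.c1 e (xx e B.row0 B.row1 B.row2) = true) :
    CdOK e ∧ e / 2 ^ 30 % 1024 ≤ e / 2 ^ 40 % 1024 ∧ e / 2 ^ 40 % 1024 ≤ 1000 ∧
    ∀ v, VB o0 o1 c B v → PhiF v e (e / 2 ^ 30 % 1024) ≤ v.t → v.t ≤ PhiF v e (e / 2 ^ 40 % 1024) →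
      InT TT (nxt v (wds e)) := by
  obtain ⟨ho0, ho1, hT0, hT1, hT2⟩ := hB
  generalize hX : xx e B.row0 B.row1 B.row2 = X at h
  rw [xx_eq] at hX
  have F0 := ImgAux.f192_lt B.row0 (fld e 0)
  have F1 := ImgAux.f192_lt B.row1 (fld e 1)
  unfold img at h
  have r1 : Nat.mod (Nat.shiftRight X 176) 2 = _ :=
    ImgAux.fld0 (a := 176) (w := 1) hX (by norm_num)
  have r2 : Nat.mod (Nat.shiftRight X 368) 2 = _ :=
    ImgAux.fld1 (a := 176) (w := 1) hX F0 (by norm_num)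
  have r3 : Nat.mod (Nat.shiftRight X 560) 2 = _ :=
    ImgAux.fld2 (a := 176) (w := 1) hX F0 F1 (by norm_num)
  have r4 : Nat.mod (Nat.shiftRight X 184) 256 = _ :=
    ImgAux.fld0 (a := 184) (w := 8) hX (by norm_num)
  have r5 : Nat.mod (Nat.shiftRight X 376) 256 = _ :=
    ImgAux.fld1 (a := 184) (w := 8) hX F0 (by norm_num)
  have r6 : Nat.mod (Nat.shiftRight X 568) 256 = _ :=
    ImgAux.fld2 (a := 184) (w := 8) hX F0 F1 (by norm_num)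
  have r7 : Nat.mod (Nat.shiftRight X 128) 16777216 = _ :=
    ImgAux.fld0 (a := 128) (w := 24) hX (by norm_num)
  have r8 : Nat.mod (Nat.shiftRight X 152) 16777216 = _ :=
    ImgAux.fld0 (a := 152) (w := 24) hX (by norm_num)
  have r9 : Nat.mod (Nat.shiftRight X 320) 16777216 = _ :=
    ImgAux.fld1 (a := 128) (w := 24) hX F0 (by norm_num)
  have r10 : Nat.mod (Nat.shiftRight X 344) 16777216 = _ :=
    ImgAux.fld1 (a := 152) (w := 24) hX F0 (by norm_num)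
  have r11 : Nat.mod (Nat.shiftRight X 512) 16777216 = _ :=
    ImgAux.fld2 (a := 128) (w := 24) hX F0 F1 (by norm_num)
  have r12 : Nat.mod (Nat.shiftRight X 536) 16777216 = _ :=
    ImgAux.fld2 (a := 152) (w := 24) hX F0 F1 (by norm_num)
  have r13 : Nat.mod (Nat.shiftRight e 30) 1024 = e / 2 ^ 30 % 1024 :=
    congrArg (fun x => x % 1024) (Nat.shiftRight_eq_div_pow e 30)
  have r14 : Nat.mod (Nat.shiftRight e 40) 1024 = e / 2 ^ 40 % 1024 :=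
    congrArg (fun x => x % 1024) (Nat.shiftRight_eq_div_pow e 40)
  rw [r1, r2, r3, r4, r5, r6, r7, r8, r9, r10, r11, r12, r13, r14] at h
  obtain ⟨⟨pb0, pc0, pl0, pl1, pl2⟩, q1, q2, q3⟩ := ImgAux.img1_sound h
  have K0 : 1 ≤ fld e 0 ∧ fld e 0 ≤ 128 := by
    by_contra hcon
    have : fld e 0 = 0 ∨ 128 < fld e 0 := by omega
    rw [ImgAux.row_zero ho0 hT0 this] at pl0
    simp at pl0
  have K1 : 1 ≤ fld e 1 ∧ fld e 1 ≤ 128 := by
    by_contra hcon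
    have : fld e 1 = 0 ∨ 128 < fld e 1 := by omega
    rw [ImgAux.row_zero ho1 hT1 this] at pl1
    simp at pl1
  have K2 : 1 ≤ fld e 2 ∧ fld e 2 ≤ 128 := by
    by_contra hcon
    have : fld e 2 = 0 ∨ 128 < fld e 2 := by omega
    rw [ImgAux.row_zero (by norm_num) hT2 this] at pl2
    simp at pl2
  refine ⟨fun z => ?_, q1, q2, ?_⟩
  · match z with
    | 0 => exact K0
    | 1 => exact K1
    | 2 => exact K2
  · rintro v ⟨⟨hG, hs0, ho2, hs21, hs11⟩, hon0, hon1, hB0, hB1, hC0, hC1, hRM⟩ hlo hhi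
    obtain ⟨u1, u2, u3, u4⟩ := ImgAux.coord ho0 hT0 K0.1 K0.2 (hRM 0)
    obtain ⟨v1, v2, v3, v4⟩ := ImgAux.coord ho1 hT1 K1.1 K1.2 (hRM 1)
    obtain ⟨w1, w2, w3, w4⟩ := ImgAux.coord (by norm_num) hT2 K2.1 K2.2 (hRM 2)
    have hw := DW_wds e
    have hlam : ∀ z, 0 < lam (v.r z) (wds e z) := fun z =>
      lam_pos (le_trans m0_pos.le (RE_mem (hG z).2).1) (D12_pos (hw z))
    refine q3 (nxt v (wds e)) (v.s 1) (v.s 2) (lam (v.r 0) (wds e 0)) (lam (v.r 1) (wds e 1))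
      (lam (v.r 2) (wds e 2)) (Good_nxt hG hw) ?_ rfl rfl (hG 2).1 hs21 (hlam 0) (hlam 1)
      (hlam 2) hB0.le hB1 hC0.le hC1 u1 u2 v1 v2 w1 w2 ?_ ?_ ?_ u4 v4 w4 ?_ ?_
    · show v.s 0 * lam (v.r 0) (wds e 0) = lam (v.r 0) (wds e 0)
      rw [hs0, one_mul]
    · show on (xor (v.o 0) (decide ((wds e 0).length % 2 = 1))) = _
      rw [ImgAux.xr_on, hon0]
      exact congrArg (xr o0) u3.symm
    · show on (xor (v.o 1) (decide ((wds e 1).length % 2 = 1))) = _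
      rw [ImgAux.xr_on, hon1]
      exact congrArg (xr o1) v3.symm
    · show on (xor (v.o 2) (decide ((wds e 2).length % 2 = 1))) = _
      rw [ho2, ImgAux.on_par]
      exact w3.symm
    · unfold PhiF at hlo
      simp only [nxt, Fin.sum_univ_three] at hlo ⊢
      linarith
    · unfold PhiF at hhi
      simp only [nxt, Fin.sum_univ_three] at hhi ⊢
      linarith

end Pool.Agent.Helper6.AE
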