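import Pool.Agent.Helper6.AE.LanD

set_option autoImplicit false

namespace Pool.Agent.Helper6.AE

/-! AE MODULE LanB: comparison of packed values. -/

theorem LanB_mnl (a b : ℕ) : mnl a b = min a b := by
  unfold mnl
  cases h : Nat.ble a b
  · have : ¬ a ≤ b := by
      intro h'
      rw [Nat.ble_eq_true_of_le h'] at h
      exact Bool.noConfusion h
    simp only
    omega
  · have : a ≤ b := Nat.le_of_ble_eq_true h
    simp only
    omega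

theorem LanB_fld {D l x r n : ℕ} (h : D = l + (x + r * 2 ^ 32) * 2 ^ n) (hl : l < 2 ^ n)
    (hx : x < 2 ^ 32) : Nat.mod (Nat.shiftRight D n) 4294967296 = x := by
  change (D >>> n) % 4294967296 = x
  have e : (4294967296 : ℕ) = 2 ^ 32 := by norm_num
  rw [e, Nat.shiftRight_eq_div_pow, h, Nat.add_mul_div_right _ _ (by positivity),
    Nat.div_eq_of_lt hl, Nat.zero_add, Nat.add_mul_mod_self_right, Nat.mod_eq_of_lt hx]

theorem LanB_lanes {x0 x1 x2 x3 x4 x5 : ℕ} (h0 : x0 < 2 ^ 32) (h1 : x1 < 2 ^ 32)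
    (h2 : x2 < 2 ^ 32) (h3 : x3 < 2 ^ 32) (h4 : x4 < 2 ^ 32) (h5 : x5 < 2 ^ 32) :
    Nat.mod (ln6 x0 x1 x2 x3 x4 x5) 4294967296 = x0 ∧
    Nat.mod (Nat.shiftRight (ln6 x0 x1 x2 x3 x4 x5) 32) 4294967296 = x1 ∧
    Nat.mod (Nat.shiftRight (ln6 x0 x1 x2 x3 x4 x5) 192) 4294967296 = x2 ∧
    Nat.mod (Nat.shiftRight (ln6 x0 x1 x2 x3 x4 x5) 224) 4294967296 = x3 ∧
    Nat.mod (Nat.shiftRight (ln6 x0 x1 x2 x3 x4 x5) 384) 4294967296 = x4 ∧
    Nat.mod (Nat.shiftRight (ln6 x0 x1 x2 x3 x4 x5) 416) 4294967296 = x5 := by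
  obtain ⟨A, hA⟩ : ∃ A : ℕ, A = 2 ^ 32 := ⟨_, rfl⟩
  obtain ⟨P, hP⟩ : ∃ P : ℕ, P = 2 ^ 128 := ⟨_, rfl⟩
  have q1 : (2 : ℕ) ^ 192 = A * A * P := by rw [hA, hP, ← pow_add, ← pow_add]
  have q2 : (2 : ℕ) ^ 224 = A * A * P * A := by rw [hA, hP, ← pow_add, ← pow_add, ← pow_add]
  have q3 : (2 : ℕ) ^ 384 = A * A * P * (A * A * P) := by
    rw [← q1, ← pow_add]
  have q4 : (2 : ℕ) ^ 416 = A * A * P * (A * A * P) * A := by
    rw [← q1, hA, ← pow_add, ← pow_add]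
  have hP0 : 1 ≤ P := by rw [hP]; exact Nat.one_le_two_pow
  have hA0 : 1 ≤ A := by rw [hA]; exact Nat.one_le_two_pow
  rw [← hA] at h0 h1 h2 h3 h4 h5
  have b1 : x0 + x1 * A < A * A := by nlinarith
  have b2 : x0 + x1 * A < A * A * P := lt_of_lt_of_le b1 (Nat.le_mul_of_pos_right _ hP0)
  have b3 : x0 + x1 * A + x2 * (A * A * P) < A * A * P * A := by
    have : x2 * (A * A * P) + A * A * P ≤ A * (A * A * P) := by nlinarith
    linarith
  have b4 : x0 + x1 * A + x2 * (A * A * P) + x3 * (A * A * P * A) < A * A * P * (A * A * P) := by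
    have i1 : x3 * (A * A * P * A) + A * A * P * A ≤ A * (A * A * P * A) := by
      have := Nat.mul_le_mul_right (A * A * P * A) h3
      linarith [this]
    have i2 : A * (A * A * P * A) ≤ A * A * P * (A * A * P) := by
      calc A * (A * A * P * A) = A * A * P * (A * A) * 1 := by ring
        _ ≤ A * A * P * (A * A) * P := Nat.mul_le_mul_left _ hP0
        _ = _ := by ring
    linarith
  have b5 : x0 + x1 * A + x2 * (A * A * P) + x3 * (A * A * P * A) +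
      x4 * (A * A * P * (A * A * P)) < A * A * P * (A * A * P) * A := by
    have := Nat.mul_le_mul_right (A * A * P * (A * A * P)) h4
    linarith
  have hD : ln6 x0 x1 x2 x3 x4 x5 = x0 + x1 * A + x2 * (A * A * P) + x3 * (A * A * P * A) +
      x4 * (A * A * P * (A * A * P)) + x5 * (A * A * P * (A * A * P) * A) := by
    unfold ln6
    rw [q4, q3, q2, q1, ← hA]
  refine ⟨?_, ?_, ?_, ?_, ?_, ?_⟩
  · have := LanB_fld (D := ln6 x0 x1 x2 x3 x4 x5) (l := 0) (x := x0) (n := 0)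
      (r := x1 + x2 * (A * P) + x3 * (A * A * P) + x4 * (A * P * (A * A * P)) +
        x5 * (A * A * P * (A * A * P))) (by rw [hD, ← hA]; ring) (by norm_num)
      (by rw [← hA]; exact h0)
    exact this
  · refine LanB_fld (l := x0) (x := x1) (n := 32)
      (r := x2 * P + x3 * (A * P) + x4 * (P * (A * A * P)) + x5 * (P * (A * A * P) * A))
      ?_ ?_ ?_
    · rw [hD, ← hA]; ring
    · rw [← hA]; exact h0
    · rw [← hA]; exact h1
  · refine LanB_fld (l := x0 + x1 * A) (x := x2) (n := 192)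
      (r := x3 + x4 * (A * P) + x5 * (A * P * A)) ?_ ?_ ?_
    · rw [hD, q1, ← hA]; ring
    · rw [q1]; exact b2
    · rw [← hA]; exact h2
  · refine LanB_fld (l := x0 + x1 * A + x2 * (A * A * P)) (x := x3) (n := 224)
      (r := x4 * P + x5 * (A * P)) ?_ ?_ ?_
    · rw [hD, q2, ← hA]; ring
    · rw [q2]; exact b3
    · rw [← hA]; exact h3
  · refine LanB_fld (l := x0 + x1 * A + x2 * (A * A * P) + x3 * (A * A * P * A)) (x := x4)
      (n := 384) (r := x5) ?_ ?_ ?_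
    · rw [hD, q3, ← hA]; ring
    · rw [q3]; exact b4
    · rw [← hA]; exact h4
  · refine LanB_fld (l := x0 + x1 * A + x2 * (A * A * P) + x3 * (A * A * P * A) +
      x4 * (A * A * P * (A * A * P))) (x := x5) (n := 416) (r := 0) ?_ ?_ ?_
    · rw [hD, q4, ← hA]; ring
    · rw [q4]; exact b5
    · rw [← hA]; exact h5

theorem LanB_off : 363419362232418609279813724609847426605015373441694829560230991703386827922868263753745055083976146524334456117855772407586838049456128 =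
    ln6 (2 ^ 31) (2 ^ 31) (2 ^ 31) (2 ^ 31) (2 ^ 31) (2 ^ 31) := by
  unfold ln6
  have p1 : (2 : ℕ) ^ 384 = 2 ^ 192 * 2 ^ 192 := by rw [← pow_add]
  have p2 : (2 : ℕ) ^ 416 = 2 ^ 192 * 2 ^ 192 * 2 ^ 32 := by rw [← pow_add, ← pow_add]
  rw [p1, p2]
  norm_num

/-- the comparison of two packed functionals -/
theorem leF_eq {B : Bx} {g0 g1 g2 g3 g4 g5 h0 h1 h2 h3 h4 h5 : ℕ}
    (b0 : g0 < 2 ^ 30) (b1 : g1 < 2 ^ 30) (b2 : g2 < 2 ^ 30) (b3 : g3 < 2 ^ 30)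
    (b4 : g4 < 2 ^ 30) (b5 : g5 < 2 ^ 30) (c0 : h0 < 2 ^ 30) (c1 : h1 < 2 ^ 30)
    (c2 : h2 < 2 ^ 30) (c3 : h3 < 2 ^ 30) (c4 : h4 < 2 ^ 30) (c5 : h5 < 2 ^ 30)
    (h : leF B (ln6 g0 g1 g2 g3 g4 g5) (ln6 h0 h1 h2 h3 h4 h5) = true) :
    ∃ E0 E1 E2 b c : ℕ,
      E0 = min (h0 + 2 ^ 31 - g0) (h1 + 2 ^ 31 - g1) - B.k0 ∧
      E1 = min (h2 + 2 ^ 31 - g2) (h3 + 2 ^ 31 - g3) - B.k1 ∧
      E2 = min (h4 + 2 ^ 31 - g4) (h5 + 2 ^ 31 - g5) - B.k2 ∧
      b = (if 2 ^ 31 ≤ E1 then B.b0 else B.b1) ∧ c = (if 2 ^ 31 ≤ E2 then B.c0 else B.c1) ∧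
      (100000 + b + c) * 2 ^ 31 ≤ 100000 * E0 + b * E1 + c * E2 := by
  have hle : leF B (ln6 g0 g1 g2 g3 g4 g5) (ln6 h0 h1 h2 h3 h4 h5) =
      le1 B.b0 B.b1 B.c0 B.c1 B.k0 B.k1 B.k2
        (ln6 h0 h1 h2 h3 h4 h5 + 363419362232418609279813724609847426605015373441694829560230991703386827922868263753745055083976146524334456117855772407586838049456128 - ln6 g0 g1 g2 g3 g4 g5) := rfl
  have hsub : ln6 h0 h1 h2 h3 h4 h5 + 363419362232418609279813724609847426605015373441694829560230991703386827922868263753745055083976146524334456117855772407586838049456128 - ln6 g0 g1 g2 g3 g4 g5 =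
      ln6 (h0 + 2 ^ 31 - g0) (h1 + 2 ^ 31 - g1) (h2 + 2 ^ 31 - g2) (h3 + 2 ^ 31 - g3)
        (h4 + 2 ^ 31 - g4) (h5 + 2 ^ 31 - g5) := by
    rw [LanB_off]
    have hs : ∀ g k : ℕ, g < 2 ^ 30 → ∃ x, k + 2 ^ 31 - g = x ∧ k + 2 ^ 31 = x + g := by
      intro g k hg
      exact ⟨_, rfl, by norm_num at *; omega⟩
    obtain ⟨x0, e0, f0⟩ := hs g0 h0 b0
    obtain ⟨x1, e1, f1⟩ := hs g1 h1 b1
    obtain ⟨x2, e2, f2⟩ := hs g2 h2 b2
    obtain ⟨x3, e3, f3⟩ := hs g3 h3 b3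
    obtain ⟨x4, e4, f4⟩ := hs g4 h4 b4
    obtain ⟨x5, e5, f5⟩ := hs g5 h5 b5
    rw [e0, e1, e2, e3, e4, e5]
    have : ln6 h0 h1 h2 h3 h4 h5 + ln6 (2 ^ 31) (2 ^ 31) (2 ^ 31) (2 ^ 31) (2 ^ 31) (2 ^ 31) =
        ln6 x0 x1 x2 x3 x4 x5 + ln6 g0 g1 g2 g3 g4 g5 := by
      have a1 : ln6 h0 h1 h2 h3 h4 h5 + ln6 (2 ^ 31) (2 ^ 31) (2 ^ 31) (2 ^ 31) (2 ^ 31) (2 ^ 31) =
          ln6 (h0 + 2 ^ 31) (h1 + 2 ^ 31) (h2 + 2 ^ 31) (h3 + 2 ^ 31) (h4 + 2 ^ 31)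
            (h5 + 2 ^ 31) := by
        unfold ln6
        simp only [add_mul]
        ac_rfl
      have a2 : ln6 x0 x1 x2 x3 x4 x5 + ln6 g0 g1 g2 g3 g4 g5 =
          ln6 (x0 + g0) (x1 + g1) (x2 + g2) (x3 + g3) (x4 + g4) (x5 + g5) := by
        unfold ln6
        simp only [add_mul]
        ac_rfl
      rw [a1, a2, f0, f1, f2, f3, f4, f5]
    rw [this, Nat.add_sub_cancel]
  have hlt : ∀ g k : ℕ, k < 2 ^ 30 → k + 2 ^ 31 - g < 2 ^ 32 := by
    intro g k hk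
    norm_num at *
    omega
  obtain ⟨l0, l1, l2, l3, l4, l5⟩ := LanB_lanes (hlt g0 h0 c0) (hlt g1 h1 c1) (hlt g2 h2 c2)
    (hlt g3 h3 c3) (hlt g4 h4 c4) (hlt g5 h5 c5)
  rw [hle, hsub] at h
  unfold le1 at h
  rw [l0, l1, l2, l3, l4, l5, LanB_mnl, LanB_mnl, LanB_mnl] at h
  have hbr : ∀ (x y a : ℕ), (@Bool.rec (fun _ => ℕ) y x (Nat.ble 2147483648 a)) =
      (if 2 ^ 31 ≤ a then x else y) := by
    intro x y a
    have e31 : (2 : ℕ) ^ 31 = 2147483648 := by norm_num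
    rw [e31]
    cases hb : Nat.ble 2147483648 a
    · rw [if_neg]
      intro h'
      rw [Nat.ble_eq_true_of_le h'] at hb
      exact Bool.noConfusion hb
    · rw [if_pos (Nat.le_of_ble_eq_true hb)]
  unfold le2 le3 at h
  rw [hbr, hbr] at h
  refine ⟨_, _, _, _, _, rfl, rfl, rfl, rfl, rfl, ?_⟩
  have h' := Nat.le_of_ble_eq_true h
  simp only [Nat.mul_eq, Nat.add_eq, Nat.sub_eq] at h'
  rw [← add_assoc, ← add_assoc] at h'
  exact h'

end Pool.Agent.Helper6.AE
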