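import Pool.Agent.Helper6.AE.LanD

set_option autoImplicit false

namespace Pool.Agent.Helper6.AE

/-! AE MODULE LanA: packed values of a functional. -/

theorem LanA_split {a b c d n : ℕ} (ha : a < 2 ^ n) (hc : c < 2 ^ n) :
    (a + b * 2 ^ n) &&& (c + d * 2 ^ n) = (a &&& c) + (b &&& d) * 2 ^ n := by
  have hp : 0 < 2 ^ n := by positivity
  have h1 : ((a + b * 2 ^ n) &&& (c + d * 2 ^ n)) % 2 ^ n = a &&& c := by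
    rw [Nat.and_mod_two_pow, Nat.add_mul_mod_self_right, Nat.add_mul_mod_self_right,
      Nat.mod_eq_of_lt ha, Nat.mod_eq_of_lt hc]
  have h2 : ((a + b * 2 ^ n) &&& (c + d * 2 ^ n)) / 2 ^ n = b &&& d := by
    rw [Nat.and_div_two_pow, Nat.add_mul_div_right _ _ hp, Nat.add_mul_div_right _ _ hp,
      Nat.div_eq_of_lt ha, Nat.div_eq_of_lt hc, Nat.zero_add, Nat.zero_add]
  rw [← Nat.mod_add_div ((a + b * 2 ^ n) &&& (c + d * 2 ^ n)) (2 ^ n), h1, h2,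
    Nat.mul_comm (2 ^ n)]

/-- the mask -/
theorem LanA_mask {l0 h0 l1 h1 l2 h2 : ℕ} (hl0 : l0 < 2 ^ 64) (hh0 : h0 < 2 ^ 128)
    (hl1 : l1 < 2 ^ 64) (hh1 : h1 < 2 ^ 128) (hl2 : l2 < 2 ^ 64) :
    ((l0 + h0 * 2 ^ 64) + ((l1 + h1 * 2 ^ 64) + (l2 + h2 * 2 ^ 64) * 2 ^ 192) * 2 ^ 192) &&&
      726838724295606890509921801691610055141362320587174446476526251999411157640866923805218630169355789144590688249004635968035496442986495 =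
      l0 + (l1 + l2 * 2 ^ 192) * 2 ^ 192 := by
  have e : (726838724295606890509921801691610055141362320587174446476526251999411157640866923805218630169355789144590688249004635968035496442986495 : ℕ) =
    (2 ^ 64 - 1) + ((2 ^ 64 - 1) + (2 ^ 64 - 1) * 2 ^ 192) * 2 ^ 192 := by norm_num
  have hm : 2 ^ 64 - 1 < 2 ^ 192 := by norm_num
  have hlow : ∀ l h : ℕ, l < 2 ^ 64 → (l + h * 2 ^ 64) &&& (2 ^ 64 - 1) = l := by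
    intro l h hl
    rw [Nat.and_two_pow_sub_one_eq_mod, Nat.add_mul_mod_self_right, Nat.mod_eq_of_lt hl]
  have hb : ∀ l h : ℕ, l < 2 ^ 64 → h < 2 ^ 128 → l + h * 2 ^ 64 < 2 ^ 192 := by
    intro l h hl hh
    have : (2 : ℕ) ^ 192 = 2 ^ 128 * 2 ^ 64 := by norm_num
    rw [this]
    nlinarith
  rw [e, LanA_split (hb _ _ hl0 hh0) hm, LanA_split (hb _ _ hl1 hh1) hm, hlow _ _ hl0,
    hlow _ _ hl1, hlow _ _ hl2]

theorem gX_eq {a0 a1 d0 d1 k0 a2 a3 d2 d3 k1 a4 a5 d4 d5 k2 th : ℕ}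
    (h0 : a0 < 2 ^ 32) (h1 : a1 < 2 ^ 32) (h2 : d0 < 2 ^ 32) (h3 : d1 < 2 ^ 32) (hk0 : k0 < 2 ^ 64)
    (h4 : a2 < 2 ^ 32) (h5 : a3 < 2 ^ 32) (h6 : d2 < 2 ^ 32) (h7 : d3 < 2 ^ 32) (hk1 : k1 < 2 ^ 64)
    (h8 : a4 < 2 ^ 32) (h9 : a5 < 2 ^ 32) (h10 : d4 < 2 ^ 32) (h11 : d5 < 2 ^ 32)
    (hk2 : k2 < 2 ^ 64) :
    gX ((a0 + a1 * 2 ^ 32 + d0 * 2 ^ 64 + d1 * 2 ^ 96 + k0 * 2 ^ 128) +
      (a2 + a3 * 2 ^ 32 + d2 * 2 ^ 64 + d3 * 2 ^ 96 + k1 * 2 ^ 128) * 2 ^ 192 +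
      (a4 + a5 * 2 ^ 32 + d4 * 2 ^ 64 + d5 * 2 ^ 96 + k2 * 2 ^ 128) * 2 ^ 384) th =
    ln6 (1000 * a0 + th * d0) (1000 * a1 + th * d1) (1000 * a2 + th * d2) (1000 * a3 + th * d3)
      (1000 * a4 + th * d4) (1000 * a5 + th * d5) := by
  have p1 : (2 : ℕ) ^ 384 = 2 ^ 192 * 2 ^ 192 := by rw [← pow_add]
  have p2 : (2 : ℕ) ^ 416 = 2 ^ 192 * 2 ^ 192 * 2 ^ 32 := by rw [← pow_add, ← pow_add]
  have hl : ∀ a b : ℕ, a < 2 ^ 32 → b < 2 ^ 32 → a + b * 2 ^ 32 < 2 ^ 64 := by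
    intro a b ha hb
    norm_num at *
    omega
  have hh : ∀ a b : ℕ, a < 2 ^ 64 → b < 2 ^ 64 → a + b * 2 ^ 64 < 2 ^ 128 := by
    intro a b ha hb
    norm_num at *
    omega
  obtain ⟨X, hX⟩ : ∃ X, X = (a0 + a1 * 2 ^ 32 + d0 * 2 ^ 64 + d1 * 2 ^ 96 + k0 * 2 ^ 128) +
      (a2 + a3 * 2 ^ 32 + d2 * 2 ^ 64 + d3 * 2 ^ 96 + k1 * 2 ^ 128) * 2 ^ 192 +
      (a4 + a5 * 2 ^ 32 + d4 * 2 ^ 64 + d5 * 2 ^ 96 + k2 * 2 ^ 128) * 2 ^ 384 := ⟨_, rfl⟩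
  rw [← hX]
  change 1000 * (X &&& 726838724295606890509921801691610055141362320587174446476526251999411157640866923805218630169355789144590688249004635968035496442986495) +
    th * ((X >>> 64) &&& 726838724295606890509921801691610055141362320587174446476526251999411157640866923805218630169355789144590688249004635968035496442986495) = _
  have e1 : X = ((a0 + a1 * 2 ^ 32) + ((d0 + d1 * 2 ^ 32) + k0 * 2 ^ 64) * 2 ^ 64) +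
      (((a2 + a3 * 2 ^ 32) + ((d2 + d3 * 2 ^ 32) + k1 * 2 ^ 64) * 2 ^ 64) +
        ((a4 + a5 * 2 ^ 32) + ((d4 + d5 * 2 ^ 32) + k2 * 2 ^ 64) * 2 ^ 64) * 2 ^ 192) *
          2 ^ 192 := by
    rw [hX, p1]
    ring
  have e2 : X >>> 64 = ((d0 + d1 * 2 ^ 32) + (k0 + (a2 + a3 * 2 ^ 32) * 2 ^ 64) * 2 ^ 64) +
      (((d2 + d3 * 2 ^ 32) + (k1 + (a4 + a5 * 2 ^ 32) * 2 ^ 64) * 2 ^ 64) +
        ((d4 + d5 * 2 ^ 32) + k2 * 2 ^ 64) * 2 ^ 192) * 2 ^ 192 := by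
    rw [Nat.shiftRight_eq_div_pow]
    have : X = (a0 + a1 * 2 ^ 32) +
      (((d0 + d1 * 2 ^ 32) + (k0 + (a2 + a3 * 2 ^ 32) * 2 ^ 64) * 2 ^ 64) +
      (((d2 + d3 * 2 ^ 32) + (k1 + (a4 + a5 * 2 ^ 32) * 2 ^ 64) * 2 ^ 64) +
        ((d4 + d5 * 2 ^ 32) + k2 * 2 ^ 64) * 2 ^ 192) * 2 ^ 192) * 2 ^ 64 := by
      rw [hX, p1]
      ring
    rw [this, Nat.add_mul_div_right _ _ (by positivity), Nat.div_eq_of_lt (hl _ _ h0 h1),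
      Nat.zero_add]
  rw [e2, LanA_mask (hl _ _ h2 h3) (hh _ _ hk0 (hl _ _ h4 h5)) (hl _ _ h6 h7)
    (hh _ _ hk1 (hl _ _ h8 h9)) (hl _ _ h10 h11), e1,
    LanA_mask (hl _ _ h0 h1) (hh _ _ (hl _ _ h2 h3) hk0) (hl _ _ h4 h5)
    (hh _ _ (hl _ _ h6 h7) hk1) (hl _ _ h8 h9)]
  unfold ln6
  rw [p1, p2]
  ring

end Pool.Agent.Helper6.AE
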