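import Pool.Agent.Helper6.AE.Defs

set_option autoImplicit false

namespace Pool.Agent.Helper6.AE

/-! Definition of lanes. -/

/-- six lanes -/
def ln6 (x0 x1 x2 x3 x4 x5 : ℕ) : ℕ :=
  x0 + x1 * 2 ^ 32 + x2 * 2 ^ 192 + x3 * 2 ^ 224 + x4 * 2 ^ 384 + x5 * 2 ^ 416

end Pool.Agent.Helper6.AE
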