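import Pool.Agent.Helper6.AE.Lan
import Pool.Agent.Helper6.AE.Row
import Pool.Agent.Helper6.AE.Ent

set_option autoImplicit false

namespace Pool.Agent.Helper6.AE

namespace LefB

theorem arithE {A0 A1 B0 B1 K k E : ℕ} (hB0 : B0 ≤ 1000000000) (hB1 : B1 ≤ 1000000000)
    (hK : K ≤ 1005221) (hk : k = K + 2500)
    (hE : E = min (A0 + 2 ^ 31 - B0) (A1 + 2 ^ 31 - B1) - k) :
    E + B0 + (K + 2500) ≤ A0 + 2147483648 ∧ E + B1 + (K + 2500) ≤ A1 + 2147483648 := by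
  rw [show (2 : ℕ) ^ 31 = 2147483648 by norm_num] at hE
  omega

theorem arithG {a d th : ℕ} (h : a + d ≤ 10 ^ 6) (ht : th ≤ 1000) :
    1000 * a + th * d ≤ 1000000000 := by
  have h1 : th * d ≤ 1000 * d := Nat.mul_le_mul_right _ ht
  rw [show (10 : ℕ) ^ 6 = 1000000 by norm_num] at h
  omega

theorem arithK {D : ℕ} (hD : D ≤ 36610) : 75 * (D * D) / 100000 ≤ 1005221 := by
  have h : D * D ≤ 1340292100 := by nlinarith
  generalize D * D = x at *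
  omega

theorem arithR (D : ℕ) : (75 * (D : ℝ) ^ 2) / 10 ^ 5 < ((75 * (D * D) / 100000 : ℕ) : ℝ) + 1 := by
  have h : ∀ x : ℕ, (75 * (x : ℝ)) / 10 ^ 5 < ((75 * x / 100000 : ℕ) : ℝ) + 1 := by
    intro x
    have h1 : 75 * x < (75 * x / 100000 + 1) * 100000 := by omega
    have h2 : ((75 * x : ℕ) : ℝ) < (((75 * x / 100000 + 1) * 100000 : ℕ) : ℝ) := by
      exact_mod_cast h1
    rw [div_lt_iff₀ (by norm_num)]
    push_cast at h2 ⊢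
    linarith
  have h3 := h (D * D)
  rw [show ((D : ℝ)) ^ 2 = ((D * D : ℕ) : ℝ) by push_cast; ring]
  exact h3

theorem coord {o rc : ℕ} (ho : o ≤ 1) (h1 : 1 ≤ rc) (h2 : rc < 256) {r : ℝ}
    (hr : RM (dec rc) r) {c c' th th' : ℕ} (ht : th ≤ 1000) (ht' : th' ≤ 1000)
    {a0 a1 d0 d1 lo hi len mk a0' a1' d0' d1' lo' hi' len' mk' : ℕ}
    (h : EntOK o rc c a0 a1 d0 d1 lo hi len mk)
    (h' : EntOK o rc c' a0' a1' d0' d1' lo' hi' len' mk') {E : ℕ}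
    (hE : E = min (1000 * a0 + th * d0 + 2 ^ 31 - (1000 * a0' + th' * d0'))
      (1000 * a1 + th * d1 + 2 ^ 31 - (1000 * a1' + th' * d1')) - kap (rhi rc - rlo rc)) :
    (E : ℝ) - 2 ^ 31 < pos9 o r c th - pos9 o r c' th' := by
  have hd := pos9_diff ho h1 h2 hr c th c' th' ht ht'
  obtain ⟨x1, x2, x3, x4⟩ := h.ex th ht
  obtain ⟨y1, y2, y3, y4⟩ := h'.ex th' ht'
  have hlt := rlo_lt_rhi (c := rc) (by omega)
  have hge := rlo_ge (c := rc) (by omega)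
  have hle := rhi_le (c := rc) (by omega)
  have hk : kap (rhi rc - rlo rc) = 75 * ((rhi rc - rlo rc) * (rhi rc - rlo rc)) / 100000 + 2500 := rfl
  have hDle : rhi rc - rlo rc ≤ 36610 := by omega
  have hDr : ((rhi rc - rlo rc : ℕ) : ℝ) = (rhi rc : ℝ) - rlo rc := Nat.cast_sub hlt.le
  rw [← hDr] at hd
  have hklb := arithR (rhi rc - rlo rc)
  have hA := arithE (arithG h'.b0 ht') (arithG h'.b1 ht') (arithK hDle) hk hE
  have hA1 : ((E : ℝ) + (1000 * a0' + th' * d0') +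
      (((75 * ((rhi rc - rlo rc) * (rhi rc - rlo rc)) / 100000 : ℕ) : ℝ) + 2500)) ≤
      (1000 * a0 + th * d0) + 2147483648 := by exact_mod_cast hA.1
  have hA2 : ((E : ℝ) + (1000 * a1' + th' * d1') +
      (((75 * ((rhi rc - rlo rc) * (rhi rc - rlo rc)) / 100000 : ℕ) : ℝ) + 2500)) ≤
      (1000 * a1 + th * d1) + 2147483648 := by exact_mod_cast hA.2
  have hmin : (E : ℝ) - 2147483648 +
      ((75 * ((rhi rc - rlo rc) * (rhi rc - rlo rc)) / 100000 : ℕ) : ℝ) + 1500 ≤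
      min (pos9 o ((rlo rc : ℝ) / 10 ^ 5) c th - pos9 o ((rlo rc : ℝ) / 10 ^ 5) c' th')
      (pos9 o ((rhi rc : ℝ) / 10 ^ 5) c th - pos9 o ((rhi rc : ℝ) / 10 ^ 5) c' th') := by
    apply le_min
    · linarith
    · linarith
  rw [show (2 : ℝ) ^ 31 = 2147483648 by norm_num]
  linarith

theorem fieldsum {a0 a1 d0 d1 lo hi len mk : ℕ} : pack a0 a1 d0 d1 lo hi len mk =
    a0 + a1 * 2 ^ 32 + d0 * 2 ^ 64 + d1 * 2 ^ 96 +
      (lo + hi * 2 ^ 24 + len * 2 ^ 48 + mk * 2 ^ 56) * 2 ^ 128 := by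
  unfold pack
  ring

theorem small {o rc c a0 a1 d0 d1 lo hi len mk : ℕ} (h : EntOK o rc c a0 a1 d0 d1 lo hi len mk) :
    a0 < 2 ^ 32 ∧ a1 < 2 ^ 32 ∧ d0 < 2 ^ 32 ∧ d1 < 2 ^ 32 ∧
      lo + hi * 2 ^ 24 + len * 2 ^ 48 + mk * 2 ^ 56 < 2 ^ 64 := by
  have h1 := h.b0
  have h2 := h.b1
  have h3 := h.blo
  have h4 := h.bhi
  have h5 := h.blen
  have h6 := h.bmk
  clear h
  rw [show (10 : ℕ) ^ 6 = 1000000 by norm_num] at h1 h2
  rw [show (2 : ℕ) ^ 24 = 16777216 by norm_num] at h3 h4 ⊢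
  rw [show (2 : ℕ) ^ 32 = 4294967296 by norm_num, show (2 : ℕ) ^ 48 = 281474976710656 by norm_num,
    show (2 : ℕ) ^ 56 = 72057594037927936 by norm_num,
    show (2 : ℕ) ^ 64 = 18446744073709551616 by norm_num]
  refine ⟨by omega, by omega, by omega, by omega, by omega⟩

theorem lt192 {a0 a1 d0 d1 k : ℕ} (h1 : a0 < 2 ^ 32) (h2 : a1 < 2 ^ 32) (h3 : d0 < 2 ^ 32)
    (h4 : d1 < 2 ^ 32) (h5 : k < 2 ^ 64) :
    a0 + a1 * 2 ^ 32 + d0 * 2 ^ 64 + d1 * 2 ^ 96 + k * 2 ^ 128 < 2 ^ 192 := by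
  have e1 : (2 : ℕ) ^ 64 = 2 ^ 32 * 2 ^ 32 := by rw [← pow_add]
  have e2 : (2 : ℕ) ^ 96 = 2 ^ 32 * 2 ^ 32 * 2 ^ 32 := by rw [← pow_add, ← pow_add]
  have e3 : (2 : ℕ) ^ 128 = 2 ^ 32 * 2 ^ 32 * 2 ^ 32 * 2 ^ 32 := by
    rw [← pow_add, ← pow_add, ← pow_add]
  have e4 : (2 : ℕ) ^ 192 = 2 ^ 32 * 2 ^ 32 * 2 ^ 32 * 2 ^ 32 * 2 ^ 64 := by
    rw [← pow_add, ← pow_add, ← pow_add, ← pow_add]
  rw [e4, e3, e2]
  rw [e1] at h5 ⊢
  generalize hB : (2 : ℕ) ^ 32 = X at *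
  have a1' : a1 * X + a0 < X * X := by nlinarith
  have a2' : d0 * (X * X) + (a1 * X + a0) < X * X * X := by nlinarith [mul_self_nonneg X]
  have a3' : d1 * (X * X * X) + (d0 * (X * X) + (a1 * X + a0)) < X * X * X * X := by
    nlinarith [Nat.zero_le (X * X * X)]
  nlinarith [Nat.zero_le (X * X * X * X)]

theorem ent_lt {o rc : ℕ} (ho : o ≤ 1) (h1 : 1 ≤ rc) (h2 : rc < 256) :
    ∀ c, 1 ≤ c → c ≤ 128 → mkE o rc c < 2 ^ 192 := by
  intro c hc hc'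
  obtain ⟨a0, a1, d0, d1, lo, hi, len, mk, h⟩ := ent_ok ho h1 h2 hc hc'
  obtain ⟨s1, s2, s3, s4, s5⟩ := small h
  rw [h.eq, fieldsum]
  exact lt192 s1 s2 s3 s4 s5

/-- entries of the three rows -/
theorem xx_ent {o0 o1 : ℕ} {c : Fin 3 → ℕ} {B : Bx} (hB : BxOK o0 o1 c B) {e : ℕ} (he : CdOK e) :
    xx e B.row0 B.row1 B.row2 = mkE o0 (c 0) (fld e 0) + mkE o1 (c 1) (fld e 1) * 2 ^ 192 +
      mkE 0 (c 2) (fld e 2) * 2 ^ 384 := by
  obtain ⟨ho0, ho1, t0, t1, t2⟩ := hB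
  rw [xx_eq, (TB_row t0).1, (TB_row t1).1, (TB_row t2).1,
    f192_mkR (ent_lt ho0 (TB_lt t0).1 (TB_lt t0).2) (he 0).1 (he 0).2,
    f192_mkR (ent_lt ho1 (TB_lt t1).1 (TB_lt t1).2) (he 1).1 (he 1).2,
    f192_mkR (ent_lt (by norm_num) (TB_lt t2).1 (TB_lt t2).2) (he 2).1 (he 2).2]

theorem lane_lt {a d th : ℕ} (h : a + d ≤ 10 ^ 6) (ht : th ≤ 1000) : 1000 * a + th * d < 2 ^ 30 := by
  have := arithG h ht
  rw [show (2 : ℕ) ^ 30 = 1073741824 by norm_num]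
  omega

theorem on_dec {b : Bool} {o : ℕ} (h : on b = o) : decide (o = 1) = b := by
  subst h; cases b <;> simp [on]

theorem lanes {o0 o1 : ℕ} {c : Fin 3 → ℕ} {B : Bx} (hB : BxOK o0 o1 c B) {e th : ℕ} (he : CdOK e)
    {a0 a1 d0 d1 lo hi len mk a0' a1' d0' d1' lo' hi' len' mk' a0'' a1'' d0'' d1'' lo'' hi'' len'' mk'' : ℕ}
    (F0 : EntOK o0 (c 0) (fld e 0) a0 a1 d0 d1 lo hi len mk)
    (F1 : EntOK o1 (c 1) (fld e 1) a0' a1' d0' d1' lo' hi' len' mk')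
    (F2 : EntOK 0 (c 2) (fld e 2) a0'' a1'' d0'' d1'' lo'' hi'' len'' mk'') :
    gX (xx e B.row0 B.row1 B.row2) th = ln6 (1000 * a0 + th * d0) (1000 * a1 + th * d1)
      (1000 * a0' + th * d0') (1000 * a1' + th * d1') (1000 * a0'' + th * d0'')
      (1000 * a1'' + th * d1'') := by
  obtain ⟨u1, u2, u3, u4, u5⟩ := small F0
  obtain ⟨u6, u7, u8, u9, u10⟩ := small F1
  obtain ⟨u11, u12, u13, u14, u15⟩ := small F2
  have hx := xx_ent hB he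
  rw [F0.eq, F1.eq, F2.eq, fieldsum, fieldsum, fieldsum] at hx
  rw [hx]
  exact gX_eq u1 u2 u3 u4 u5 u6 u7 u8 u9 u10 u11 u12 u13 u14 u15

theorem recAll (P : ℕ → Bool) (F : List Fn)
    (h : @List.rec Fn (fun _ => Bool) true (fun f _ ih => @Bool.rec (fun _ => Bool) false (ih)
      (@Fn.rec (fun _ => Bool) (fun _ _ h => P h) f)) F = true) : ∀ f ∈ F, P f.g = true := by
  induction F with
  | nil => intro f hf; cases hf
  | cons a F ih =>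
    obtain ⟨e, th, g⟩ := a
    have h' : @Bool.rec (fun _ => Bool) false (@List.rec Fn (fun _ => Bool) true
      (fun f _ ih => @Bool.rec (fun _ => Bool) false (ih)
      (@Fn.rec (fun _ => Bool) (fun _ _ h => P h) f)) F) (P g) = true := h
    intro f hf
    cases hP : P g
    · rw [hP] at h'
      exact Bool.noConfusion h'
    · rw [hP] at h'
      rcases List.mem_cons.1 hf with rfl | hf
      · exact hP
      · exact ih h' f hf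

theorem leL_all {B : Bx} {x : ℕ} {F : List Fn} (h : leL B x F = true) :
    ∀ f ∈ F, leF B x f.g = true := by
  delta leL at h
  exact recAll (leF B x) F h

theorem fin_all {B : Bx} {F G : List Fn} (h : fin B F G = true) :
    ∀ g ∈ G, leL B g.g F = true := by
  delta fin at h
  have := recAll (fun y => leL B y F) G
  exact this h

end LefB

open LefB in
theorem leF_sound {o0 o1 : ℕ} {c : Fin 3 → ℕ} {B : Bx} {f g : Fn} {v : St}
    (hB : BxOK o0 o1 c B) (hf : FnOK B f) (hg : FnOK B g) (hv : VB o0 o1 c B v)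
    (h : leF B g.g f.g = true) : PhiF v g.e g.th < PhiF v f.e f.th := by
  have hB' := hB
  obtain ⟨ho0, ho1, t0, t1, t2⟩ := hB'
  obtain ⟨hft, hfe, hfg⟩ := hf
  obtain ⟨hgt, hge, hgg⟩ := hg
  obtain ⟨hN, hv0, hv1, hb0, hb1, hc0, hc1, hRM⟩ := hv
  obtain ⟨-, hs0, hvo, -, -⟩ := hN
  obtain ⟨f0a, f0b, f0c, f0d, f0e, f0f, f0g, f0h, F0⟩ :=
    ent_ok ho0 (TB_lt t0).1 (TB_lt t0).2 (hfe 0).1 (hfe 0).2
  obtain ⟨f1a, f1b, f1c, f1d, f1e, f1f, f1g, f1h, F1⟩ :=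
    ent_ok ho1 (TB_lt t1).1 (TB_lt t1).2 (hfe 1).1 (hfe 1).2
  obtain ⟨f2a, f2b, f2c, f2d, f2e, f2f, f2g, f2h, F2⟩ :=
    ent_ok (o := 0) (by norm_num) (TB_lt t2).1 (TB_lt t2).2 (hfe 2).1 (hfe 2).2
  obtain ⟨g0a, g0b, g0c, g0d, g0e, g0f, g0g, g0h, G0⟩ :=
    ent_ok ho0 (TB_lt t0).1 (TB_lt t0).2 (hge 0).1 (hge 0).2
  obtain ⟨g1a, g1b, g1c, g1d, g1e, g1f, g1g, g1h, G1⟩ :=
    ent_ok ho1 (TB_lt t1).1 (TB_lt t1).2 (hge 1).1 (hge 1).2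
  obtain ⟨g2a, g2b, g2c, g2d, g2e, g2f, g2g, g2h, G2⟩ :=
    ent_ok (o := 0) (by norm_num) (TB_lt t2).1 (TB_lt t2).2 (hge 2).1 (hge 2).2
  rw [hfg.trans (lanes hB hfe F0 F1 F2), hgg.trans (lanes hB hge G0 G1 G2)] at h
  obtain ⟨E0, E1, E2, b, cc, e0, e1, e2, eb, ec, hle⟩ := leF_eq
    (lane_lt G0.b0 hgt) (lane_lt G0.b1 hgt) (lane_lt G1.b0 hgt) (lane_lt G1.b1 hgt)
    (lane_lt G2.b0 hgt) (lane_lt G2.b1 hgt) (lane_lt F0.b0 hft) (lane_lt F0.b1 hft)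
    (lane_lt F1.b0 hft) (lane_lt F1.b1 hft) (lane_lt F2.b0 hft) (lane_lt F2.b1 hft) h
  rw [(TB_row t0).2] at e0
  rw [(TB_row t1).2] at e1
  rw [(TB_row t2).2] at e2
  have c0 := coord ho0 (TB_lt t0).1 (TB_lt t0).2 (hRM 0) hft hgt F0 G0 e0
  have c1 := coord ho1 (TB_lt t1).1 (TB_lt t1).2 (hRM 1) hft hgt F1 G1 e1
  have c2 := coord (o := 0) (by norm_num) (TB_lt t2).1 (TB_lt t2).2 (hRM 2) hft hgt F2 G2 e2
  have hle' : ((100000 : ℝ) + b + cc) * 2 ^ 31 ≤ 100000 * E0 + b * E1 + cc * E2 := by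
    exact_mod_cast hle
  have hs1 : (b : ℝ) * ((E1 : ℝ) - 2 ^ 31) ≤ 100000 * v.s 1 * ((E1 : ℝ) - 2 ^ 31) := by
    by_cases hh : 2 ^ 31 ≤ E1
    · rw [if_pos hh] at eb
      have : (2 : ℝ) ^ 31 ≤ E1 := by exact_mod_cast hh
      rw [eb]
      exact mul_le_mul_of_nonneg_right hb0.le (by linarith)
    · rw [if_neg hh] at eb
      have : (E1 : ℝ) ≤ 2 ^ 31 := by
        have h3 : E1 ≤ 2 ^ 31 := by omega
        exact_mod_cast h3
      rw [eb]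
      exact mul_le_mul_of_nonpos_right hb1 (by linarith)
  have hs2 : (cc : ℝ) * ((E2 : ℝ) - 2 ^ 31) ≤ 100000 * v.s 2 * ((E2 : ℝ) - 2 ^ 31) := by
    by_cases hh : 2 ^ 31 ≤ E2
    · rw [if_pos hh] at ec
      have : (2 : ℝ) ^ 31 ≤ E2 := by exact_mod_cast hh
      rw [ec]
      exact mul_le_mul_of_nonneg_right hc0.le (by linarith)
    · rw [if_neg hh] at ec
      have : (E2 : ℝ) ≤ 2 ^ 31 := by
        have h3 : E2 ≤ 2 ^ 31 := by omega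
        exact_mod_cast h3
      rw [ec]
      exact mul_le_mul_of_nonpos_right hc1 (by linarith)
  have p1 : 0 < v.s 1 := by
    have : (0 : ℝ) ≤ B.b0 := Nat.cast_nonneg _
    linarith
  have p2 : 0 < v.s 2 := by
    have : (0 : ℝ) ≤ B.c0 := Nat.cast_nonneg _
    linarith
  have q1 : v.s 1 * ((E1 : ℝ) - 2 ^ 31) < v.s 1 *
      (pos9 o1 (v.r 1) (fld f.e 1) f.th - pos9 o1 (v.r 1) (fld g.e 1) g.th) :=
    mul_lt_mul_of_pos_left c1 p1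
  have q2 : v.s 2 * ((E2 : ℝ) - 2 ^ 31) < v.s 2 *
      (pos9 0 (v.r 2) (fld f.e 2) f.th - pos9 0 (v.r 2) (fld g.e 2) g.th) :=
    mul_lt_mul_of_pos_left c2 p2
  have key : 0 < (pos9 o0 (v.r 0) (fld f.e 0) f.th - pos9 o0 (v.r 0) (fld g.e 0) g.th) +
      v.s 1 * (pos9 o1 (v.r 1) (fld f.e 1) f.th - pos9 o1 (v.r 1) (fld g.e 1) g.th) +
      v.s 2 * (pos9 0 (v.r 2) (fld f.e 2) f.th - pos9 0 (v.r 2) (fld g.e 2) g.th) := by
    linarith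
  have hpf : ∀ (e th : ℕ), 10 ^ 9 * PhiF v e th = pos9 o0 (v.r 0) (fld e 0) th +
      v.s 1 * pos9 o1 (v.r 1) (fld e 1) th + v.s 2 * pos9 0 (v.r 2) (fld e 2) th := by
    intro e th
    unfold PhiF pos9
    rw [Fin.sum_univ_three, hs0, on_dec hv0, on_dec hv1, hvo,
      show (decide (0 = 1)) = false from rfl]
    unfold wds
    ring
  have := hpf f.e f.th
  have := hpf g.e g.th
  linarith

open LefB in
theorem fin_sound {o0 o1 : ℕ} {c : Fin 3 → ℕ} {B : Bx} {F G : List Fn} {v : St}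
    (hB : BxOK o0 o1 c B) (hF : ∀ f ∈ F, FnOK B f) (hG : ∀ g ∈ G, FnOK B g)
    (hv : VB o0 o1 c B v) (h : fin B F G = true) :
    ∀ f ∈ F, ∀ g ∈ G, PhiF v g.e g.th < PhiF v f.e f.th := by
  intro f hf g hg
  have h1 := fin_all h g hg
  have h2 := leL_all h1 f hf
  exact leF_sound hB (hF f hf) (hG g hg) hv h2

end Pool.Agent.Helper6.AE
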