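import Pool.Agent.Helper6.AE.Pce
import Pool.Agent.Helper6.AE.Cov
import Pool.Agent.Helper6.AE.App

set_option autoImplicit false

namespace Pool.Agent.Helper6.AE

/-! AE MODULE Lev: soundness of a level. -/

theorem lev_on_le (o : Bool) : on o ≤ 1 := by
  cases o <;> simp [on]

theorem lev_entry_cell (T i j x : ℕ) (hx : x < 8) :
    entry T i j x = T / 2 ^ (480 * (20 * i + j)) % 2 ^ 480 / 2 ^ (60 * x) % 2 ^ 60 := by
  unfold entry
  have h1 : 60 * (8 * (20 * i + j) + x) = 480 * (20 * i + j) + 60 * x := by ring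
  rw [h1, pow_add, ← Nat.div_div_eq_div_mul]
  generalize T / 2 ^ (480 * (20 * i + j)) = A
  have h2 : (2 : ℕ) ^ 480 = 2 ^ (60 * x) * 2 ^ (480 - 60 * x) := by
    rw [← pow_add]; congr 1; omega
  rw [h2, Nat.mod_mul_right_div_self]
  have h3 : (2 : ℕ) ^ 60 ∣ 2 ^ (480 - 60 * x) := pow_dvd_pow 2 (by omega)
  rw [Nat.mod_mod_of_dvd _ h3]

theorem lev_cls_le (r : ℝ) : cls r ≤ 1 := by
  unfold cls
  split_ifs <;> omega

theorem lev_cellC_cases {T1 T2 : ℕ → ℕ} {A0 A1 : Tr} {o0 o1 bb cc U T : ℕ} {L : Pl}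
    (h : cellC T1 T2 A0 A1 o0 o1 bb cc U T L = true) :
    U = T ∨ (allP T1 T2 A0 A1 o0 o1 bb cc L = true ∧ cvs U T L 8 0 = true) := by
  unfold cellC at h
  cases hb : Nat.beq U T with
  | true => exact Or.inl (Nat.eq_of_beq_eq_true hb)
  | false =>
    right
    rw [hb] at h
    cases ha : allP T1 T2 A0 A1 o0 o1 bb cc L with
    | false => rw [ha] at h; exact absurd h (by simp)
    | true => rw [ha] at h; exact ⟨rfl, h⟩

theorem level {U T V : ℕ → ℕ} {A0 A1 : Tr} (hA0 : TrOK 0 8 1 A0) (hA1 : TrOK 1 8 1 A1)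
    (H : ∀ ty i, ty < 4 → i < 20 → ∃ L,
      rowC T V A0 A1 (ty % 2) (ty / 2) i (U ty) (T ty) L i = true) :
    ∀ v, InT U v → InT T v ∨ Cv T V v := by
  rintro v ⟨σ, f, k, hk, hN, ht0, ht1, i, j, hij, hj, hci, hcj, hE⟩
  set u := act σ f k v with hu
  have ha := lev_on_le (u.o 0)
  have hb := lev_on_le (u.o 1)
  obtain ⟨L, hL⟩ := H (on (u.o 0) + 2 * on (u.o 1)) i (by omega) (by omega)
  have e0 : (on (u.o 0) + 2 * on (u.o 1)) % 2 = on (u.o 0) := by omega
  have e1 : (on (u.o 0) + 2 * on (u.o 1)) / 2 = on (u.o 1) := by omega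
  rw [e0, e1] at hL
  obtain ⟨p, hp⟩ := rowC_sound hL j hij hj
  set ty := on (u.o 0) + 2 * on (u.o 1) with hty
  have c0 := lev_cls_le (u.r 0)
  have c1 := lev_cls_le (u.r 1)
  have c2 := lev_cls_le (u.r 2)
  set x := cls (u.r 0) + 2 * cls (u.r 1) + 4 * cls (u.r 2) with hx
  have hx8 : x < 8 := by omega
  have hgood : Good u := hN.1
  have hS : 0 < ∑ z, u.s z := by
    apply Finset.sum_pos
    · intro z _
      exact (hgood z).1
    · exact Finset.univ_nonempty
  rcases lev_cellC_cases hp with heq | ⟨hall, hcv⟩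
  · left
    refine ⟨σ, f, k, hk, hN, ht0, ht1, i, j, hij, hj, hci, hcj, ?_⟩
    rw [lev_entry_cell _ _ _ _ hx8] at hE ⊢
    rw [← heq]
    exact hE
  · have h1 := cvs_sound hcv x hx8
    rw [Nat.zero_add] at h1
    rw [lev_entry_cell _ _ _ _ hx8] at hE
    rcases cvE_sound h1 hE with h2 | ⟨hh, n, hmem, hpat, hlo, hhi⟩
    · left
      refine ⟨σ, f, k, hk, hN, ht0, ht1, i, j, hij, hj, hci, hcj, ?_⟩
      rw [lev_entry_cell _ _ _ _ hx8]
      exact h2
    · right
      have h3 := allP_sound hall hh n hmem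
      apply Cv_act hk
      refine pcs_sound hA0 hA1 ha hb (by omega) hj h3 hN rfl rfl hci hcj hpat ?_ ?_
      · exact (le_div_iff₀ hS).mp hlo
      · exact (div_le_iff₀ hS).mp hhi

/-- a level below which everything branches -/
theorem chain {U T V : ℕ → ℕ} (h : ∀ v, InT U v → InT T v ∨ Cv T V v)
    (hT : ∀ v, InT T v → Br V v) : ∀ v, InT U v → Br V v := by
  intro v hv
  rcases h v hv with h1 | ⟨w, hw, h2⟩ | h2
  · exact hT v h1
  · exact Br_of_nxt (InT_Good hv) hw (hT _ h2)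
  · exact h2

end Pool.Agent.Helper6.AE
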