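import Pool.Agent.Helper6.AE.Defs

set_option autoImplicit false

namespace Pool.Agent.Helper6.AE

/-! AE MODULE Lgx: index of a ratio. -/

/-- the index `i` of the ratio `ρ` -/
def idx (ρ : ℝ) (i : ℕ) : Prop := 2 ^ i ≤ ρ ^ 7 ∧ ρ ^ 7 < 2 ^ (i + 1)

theorem idx_exists {ρ : ℝ} (h : 1 ≤ ρ) : ∃ i, idx ρ i := by
  have h1 : (1 : ℝ) ≤ ρ ^ 7 := one_le_pow₀ h
  obtain ⟨n, hn, hn'⟩ := exists_nat_pow_near h1 (by norm_num : (1 : ℝ) < 2)
  exact ⟨n, hn, hn'⟩

private theorem lt_succ_of_pow {i j : ℕ} (h : (2 : ℝ) ^ i < 2 ^ (j + 1)) : i ≤ j := by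
  have := (pow_lt_pow_iff_right₀ (by norm_num : (1 : ℝ) < 2)).1 h
  omega

theorem idx_mono {ρ ρ' : ℝ} {i j : ℕ} (h0 : 0 ≤ ρ) (h : ρ ≤ ρ') (hi : idx ρ i) (hj : idx ρ' j) :
    i ≤ j := by
  have h1 : ρ ^ 7 ≤ ρ' ^ 7 := pow_le_pow_left₀ h0 h 7
  exact lt_succ_of_pow (lt_of_le_of_lt (hi.1.trans h1) hj.2)

theorem idx_cel {b : ℝ} {i : ℕ} (hb : 0 < b) : idx (1 / b) i ↔ cel i b := by
  unfold idx cel
  have h7 : (0 : ℝ) < b ^ 7 := by positivity
  rw [div_pow, one_pow, le_div_iff₀ h7, div_lt_iff₀ h7]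

/-- test of one table value -/
private noncomputable def tsg (K q t : Nat) : Bool :=
  @Bool.rec (fun _ => Bool)
    (@Bool.rec (fun _ => Bool) false
      (Nat.ble (Nat.succ (q ^ 7)) (2 ^ (t + 1) * K))
      (Nat.ble (2 ^ t * K) (q ^ 7)))
    (Nat.beq t 0) (Nat.ble q 511)

private noncomputable def tst (q : Nat) : Bool := tsg 9223372036854775808 q (lgt q)

/-- test of the range `a, ..., a + 2 ^ k - 1` -/
private noncomputable def rng (k : Nat) : Nat → Bool :=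
  @Nat.rec (fun _ => Nat → Bool) (fun a => tst a)
    (fun k ih a => @Bool.rec (fun _ => Bool) false (ih (Nat.add a (Nat.pow 2 k))) (ih a)) k

private theorem rng_succ (k a : Nat) : rng (k + 1) a =
    @Bool.rec (fun _ => Bool) false (rng k (a + 2 ^ k)) (rng k a) := rfl

private theorem and_rec {b x : Bool} (h : @Bool.rec (fun _ => Bool) false x b = true) :
    b = true ∧ x = true := by
  cases b
  · exact absurd h Bool.false_ne_true
  · exact ⟨rfl, h⟩

private theorem ble_of {a b : Nat} (h : Nat.ble a b = true) : a ≤ b := Nat.le_of_ble_eq_true h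

private theorem of_ble {a b : Nat} (h : a ≤ b) : Nat.ble a b = true := Nat.ble_eq_true_of_le h

private theorem rng_sound (k : Nat) : ∀ a : Nat, rng k a = true → ∀ q, a ≤ q → q < a + 2 ^ k →
    tst q = true := by
  induction k with
  | zero =>
    intro a h q h1 h2
    have : q = a := by omega
    subst this
    exact h
  | succ k ih =>
    intro a h q h1 h2
    rw [rng_succ] at h
    obtain ⟨h3, h4⟩ := and_rec h
    rcases Nat.lt_or_ge q (a + 2 ^ k) with h5 | h5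
    · exact ih a h3 q h1 h5
    · refine ih _ h4 q h5 ?_
      rw [pow_succ] at h2
      omega

private theorem rng_all : rng 12 0 = true := by
  decide +kernel

private theorem lgt_4095 : lgt 4095 = 20 := by
  decide +kernel

private theorem tsg_low {K q t : ℕ} (h : q ≤ 511) (h1 : tsg K q t = true) : t = 0 := by
  unfold tsg at h1
  have h2 : Nat.ble q 511 = true := of_ble h
  rw [h2] at h1
  exact Nat.eq_of_beq_eq_true h1

private theorem tsg_mid {K q t : ℕ} (h : 512 ≤ q) (h1 : tsg K q t = true) :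
    2 ^ t * K ≤ q ^ 7 ∧ q ^ 7 < 2 ^ (t + 1) * K := by
  unfold tsg at h1
  have h2 : Nat.ble q 511 = false := by
    rw [Bool.eq_false_iff]
    intro h3
    have := ble_of h3
    omega
  rw [h2] at h1
  obtain ⟨h3, h4⟩ := and_rec h1
  exact ⟨ble_of h3, ble_of h4⟩

private theorem tst_all {q : ℕ} (h : q ≤ 4095) : tst q = true := by
  have h0 : q < 0 + 2 ^ 12 := by
    norm_num
    omega
  exact rng_sound 12 0 rng_all q (Nat.zero_le q) h0

private theorem lgt_low {q : ℕ} (h : q ≤ 511) : lgt q = 0 := by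
  have h1 := tst_all (q := q) (by omega)
  unfold tst at h1
  exact tsg_low h h1

private theorem lgt_mid {q : ℕ} (h : 512 ≤ q) (h' : q ≤ 4095) :
    2 ^ (lgt q) * 9223372036854775808 ≤ q ^ 7 ∧
    q ^ 7 < 2 ^ (lgt q + 1) * 9223372036854775808 := by
  have h1 := tst_all h'
  unfold tst at h1
  exact tsg_mid h h1

private theorem mnl_le {a b : ℕ} (h : a ≤ b) : mnl a b = a := by
  unfold mnl
  rw [of_ble h]

private theorem mnl_gt {a b : ℕ} (h : b < a) : mnl a b = b := by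
  unfold mnl
  have h2 : Nat.ble a b = false := by
    rw [Bool.eq_false_iff]
    intro h3
    have := ble_of h3
    omega
  rw [h2]

private theorem lgt_high {q : ℕ} (h : 4095 ≤ q) : lgt q = 20 := by
  rw [← lgt_4095]
  unfold lgt
  have h1 : mnl 4095 4095 = 4095 := mnl_le le_rfl
  have h2 : mnl q 4095 = 4095 := by
    rcases Nat.eq_or_lt_of_le h with h3 | h3
    · rw [← h3]
      exact h1
    · exact mnl_gt h3
  rw [h1, h2]

theorem lgl_sound {x y i : ℕ} {ρ : ℝ} (_h1 : 1 ≤ ρ) (h : (x : ℝ) ≤ y * ρ) (hy : 0 < y)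
    (hi : idx ρ i) : lgl x y ≤ i := by
  have hyR : (0 : ℝ) < y := by exact_mod_cast hy
  have key : ∀ q : ℕ, (q : ℝ) ≤ 512 * ρ → 512 ≤ q → q ≤ 4095 → lgt q ≤ i := by
    intro q hq hq1 hq2
    have h3 := (lgt_mid hq1 hq2).1
    have h4 : ((2 : ℝ) ^ (lgt q)) * 9223372036854775808 ≤ (q : ℝ) ^ 7 := by exact_mod_cast h3
    have h5 : (q : ℝ) ^ 7 ≤ (512 * ρ) ^ 7 := pow_le_pow_left₀ (Nat.cast_nonneg q) hq 7
    rw [mul_pow] at h5
    have h6 : ((2 : ℝ) ^ (lgt q)) ≤ ρ ^ 7 := by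
      nlinarith [h4, h5]
    exact lt_succ_of_pow (lt_of_le_of_lt h6 hi.2)
  have hq : ((Nat.div (Nat.mul 512 x) y : ℕ) : ℝ) ≤ 512 * ρ := by
    have h2 : ((Nat.div (Nat.mul 512 x) y : ℕ) : ℝ) ≤ ((512 * x : ℕ) : ℝ) / y :=
      Nat.cast_div_le
    refine h2.trans ?_
    rw [div_le_iff₀ hyR]
    push_cast
    nlinarith [h]
  unfold lgl
  generalize Nat.div (Nat.mul 512 x) y = q at hq ⊢
  rcases Nat.lt_or_ge q 512 with h2 | h2
  · rw [lgt_low (by omega)]
    exact Nat.zero_le i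
  · rcases Nat.lt_or_ge 4095 q with h3 | h3
    · rw [lgt_high (by omega), ← lgt_4095]
      refine key 4095 ?_ (by norm_num) le_rfl
      refine le_trans ?_ hq
      exact_mod_cast h3.le
    · exact key q hq h2 h3

theorem lgh_sound {x y i : ℕ} {ρ : ℝ} (h1 : 1 ≤ ρ) (h : ρ * x ≤ y) (hx : 0 < x)
    (hi : idx ρ i) (hlt : i ≤ 19 ∨ lgh y x ≤ 19) : i ≤ lgh y x := by
  have hxR : (0 : ℝ) < x := by exact_mod_cast hx
  have hq : 512 * ρ ≤ ((Nat.div (Nat.add (Nat.mul 512 y) (Nat.sub x 1)) x : ℕ) : ℝ) := by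
    have h2 : 512 * y ≤ x * ((512 * y + (x - 1)) / x) := by
      have h3 := Nat.div_add_mod (512 * y + (x - 1)) x
      have h4 := Nat.mod_lt (512 * y + (x - 1)) hx
      omega
    have h3 : (512 : ℝ) * y ≤ x * (((512 * y + (x - 1)) / x : ℕ) : ℝ) := by exact_mod_cast h2
    change 512 * ρ ≤ (((512 * y + (x - 1)) / x : ℕ) : ℝ)
    have h4 : x * (512 * ρ) ≤ x * (((512 * y + (x - 1)) / x : ℕ) : ℝ) := by
      refine le_trans ?_ h3
      nlinarith [h]
    exact le_of_mul_le_mul_left h4 hxR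
  unfold lgh at hlt ⊢
  generalize Nat.div (Nat.add (Nat.mul 512 y) (Nat.sub x 1)) x = q at hq hlt ⊢
  have hq1 : 512 ≤ q := by
    have h2 : (512 : ℝ) ≤ q := by nlinarith [hq, h1]
    exact_mod_cast h2
  rcases Nat.lt_or_ge 4095 q with h3 | h3
  · rw [lgt_high (by omega)] at hlt ⊢
    omega
  · have h4 := (lgt_mid hq1 h3).2
    have h5 : (q : ℝ) ^ 7 < ((2 : ℝ) ^ (lgt q + 1)) * 9223372036854775808 := by exact_mod_cast h4
    have h6 : (512 * ρ) ^ 7 ≤ (q : ℝ) ^ 7 :=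
      pow_le_pow_left₀ (by nlinarith [h1]) hq 7
    rw [mul_pow] at h6
    have h7 : ρ ^ 7 < (2 : ℝ) ^ (lgt q + 1) := by
      nlinarith [h5, h6]
    exact lt_succ_of_pow (lt_of_le_of_lt hi.1 h7)

end Pool.Agent.Helper6.AE
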