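import Pool.Agent.Helper6.AE.Pre
import Pool.Agent.Helper6.AE.Dig

set_option autoImplicit false

namespace Pool.Agent.Helper6.AE

/-! AE MODULE Lim: the limit of a branch. -/

private theorem m0_pos' : 0 < m0 := by unfold m0; norm_num
private theorem m0_lt_M0' : m0 < M0 := by unfold m0 M0; norm_num
private theorem M0_lt_one' : M0 < 1 := by unfold M0; norm_num

/-- values in the interval of a word -/
private theorem lim_between {P : List ℕ} (hP : ∀ a ∈ P, 1 ≤ a) {t : ℝ} (h0 : m0 ≤ t)
    (h1 : t ≤ M0) :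
    min (wv P m0) (wv P M0) ≤ wv P t ∧ wv P t ≤ max (wv P m0) (wv P M0) := by
  have a1 := wv_mono hP m0_pos'.le h0
  have a2 := wv_mono hP (m0_pos'.le.trans h0) h1
  rcases Nat.mod_two_eq_zero_or_one P.length with h | h
  · exact ⟨(min_le_left _ _).trans (a1.1 h), (a2.1 h).trans (le_max_right _ _)⟩
  · exact ⟨(min_le_right _ _).trans (a2.2 h), (a1.2 h).trans (le_max_left _ _)⟩

/-- the intervals are nested -/
private theorem lim_nested {P w : List ℕ} (hP : ∀ a ∈ P, 1 ≤ a) (hw : D12 w) :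
    min (wv P m0) (wv P M0) ≤ min (wv (P ++ w) m0) (wv (P ++ w) M0) ∧
    max (wv (P ++ w) m0) (wv (P ++ w) M0) ≤ max (wv P m0) (wv P M0) := by
  rw [wv_append, wv_append]
  have a1 := wv_mem hw le_rfl m0_lt_M0'.le
  have a2 := wv_mem hw m0_lt_M0'.le le_rfl
  have b1 := lim_between hP a1.1 a1.2
  have b2 := lim_between hP a2.1 a2.2
  exact ⟨le_min b1.1 b2.1, max_le b1.2 b2.2⟩

private theorem gauss_zero_iter {x : ℝ} {k : ℕ} (h : gauss^[k] x = 0) (j : ℕ) (hj : k ≤ j) :
    gauss^[j] x = 0 := by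
  obtain ⟨i, rfl⟩ := Nat.exists_eq_add_of_le' hj
  induction i with
  | zero => simpa using h
  | succ i ih =>
    have h1 : gauss^[i + 1 + k] x = gauss (gauss^[i + k] x) := by
      rw [show i + 1 + k = (i + k) + 1 by ring, Function.iterate_succ_apply']
    rw [h1, ih (by omega)]
    simp [gauss]

/-- an infinite branch of prefixes with states in the table defines a solution -/
theorem limit_point {V : ℕ → ℕ} {P : ℕ → Fin 3 → List ℕ} (h1 : ∀ z, ∀ a ∈ P 0 z, 1 ≤ a)
    (h3 : ∀ z, ∀ a ∈ P 0 z, a ≤ 3)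
    (hs : ∀ n, ∃ w, DW w ∧ (∃ z, w z ≠ []) ∧ P (n + 1) = fun z => P n z ++ w z)
    (hV : ∀ n, InT V (vw (P n))) :
    ∃ x : Fin 3 → ℝ, (∀ z, x z ∈ B2s) ∧ x 0 + x 1 + x 2 = 1 ∧
      ∀ n z, ∃ y, m0 ≤ y ∧ y ≤ M0 ∧ x z = wv (P n z) y := by
  classical
  choose w hw hne hP using hs
  have hPs : ∀ n z, P (n + 1) z = P n z ++ w n z := fun n z => by rw [hP n]
  have hQ : ∀ n, ∃ Q : Fin 3 → List ℕ, DW Q ∧ (∀ z, P n z = P 0 z ++ Q z) ∧
      n ≤ ∑ z, (Q z).length := by
    intro n
    induction n with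
    | zero => exact ⟨fun _ => [], fun z a ha => by simp at ha, fun z => by simp, by simp⟩
    | succ n ih =>
      obtain ⟨Q, hQ1, hQ2, hQ3⟩ := ih
      refine ⟨fun z => Q z ++ w n z, fun z => D12_append.mpr ⟨hQ1 z, hw n z⟩,
        fun z => by rw [hPs, hQ2, List.append_assoc], ?_⟩
      obtain ⟨z0, hz0⟩ := hne n
      have h5 : 1 ≤ ∑ z, (w n z).length := by
        calc 1 ≤ (w n z0).length := List.length_pos_iff.mpr hz0
          _ ≤ ∑ z, (w n z).length :=
            Finset.single_le_sum (f := fun z => (w n z).length) (fun _ _ => Nat.zero_le _)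
              (Finset.mem_univ z0)
      simp only [List.length_append, Finset.sum_add_distrib]
      omega
  choose Q hQ1 hQ2 hQ3 using hQ
  have hP1 : ∀ n z, ∀ a ∈ P n z, 1 ≤ a := by
    intro n z a ha
    rw [hQ2 n z, List.mem_append] at ha
    rcases ha with ha | ha
    · exact h1 z a ha
    · exact D12_pos (hQ1 n z) a ha
  have hP3 : ∀ n z, ∀ a ∈ P n z, a ≤ 3 := by
    intro n z a ha
    rw [hQ2 n z, List.mem_append] at ha
    rcases ha with ha | ha
    · exact h3 z a ha
    · rcases hQ1 n z a ha with h | h <;> omega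
  -- the lengths tend to zero
  have hsm : ∀ ε : ℝ, 0 < ε → ∃ K, ∀ n, K ≤ n → ∀ z, (vw (P n)).s z < ε := by
    intro ε hε
    obtain ⟨k, hk⟩ := exists_pow_lt_of_lt_one (show 0 < ε / 8 by positivity)
      (show (3 / 5 : ℝ) < 1 by norm_num)
    refine ⟨3 * k, fun n hn z => ?_⟩
    have h5 : ∃ z', k ≤ (Q n z').length := by
      by_contra hcon
      push Not at hcon
      have h6 := hQ3 n
      rw [Fin.sum_univ_three] at h6
      have := hcon 0
      have := hcon 1
      have := hcon 2
      omega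
    obtain ⟨z', hz'⟩ := h5
    have h6 := InT_ratio (hV n) z z'
    have h7 : (vw (P n)).s z' ≤ (3 / 5 : ℝ) ^ (Q n z').length := by
      rw [vw_s (hP1 n) z', hQ2 n z']
      exact wv_len (h1 z') (hQ1 n z')
    have h8 : (3 / 5 : ℝ) ^ (Q n z').length ≤ (3 / 5 : ℝ) ^ k :=
      pow_le_pow_of_le_one (by norm_num) (by norm_num) hz'
    linarith
  -- prefixes
  have hpre : ∀ N i z, ∃ R, P (N + i) z = P N z ++ R := by
    intro N i z
    induction i with
    | zero => exact ⟨[], by simp⟩
    | succ i ih =>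
      obtain ⟨R, hR⟩ := ih
      exact ⟨R ++ w (N + i) z, by rw [← add_assoc, hPs, hR, List.append_assoc]⟩
  have hlen : ∀ z k, ∃ n, k ≤ (P n z).length := by
    intro z k
    by_contra hcon
    push Not at hcon
    set S : Set ℕ := Set.range (fun n => (P n z).length) with hS
    have hb : BddAbove S := ⟨k, by rintro _ ⟨n, rfl⟩; exact (hcon n).le⟩
    obtain ⟨N, hN⟩ : sSup S ∈ S := Nat.sSup_mem (Set.range_nonempty _) hb
    have hmax : ∀ n, (P n z).length ≤ (P N z).length := by
      intro n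
      have h5 : (P n z).length ≤ sSup S := le_csSup hb ⟨n, rfl⟩
      have h6 : (P N z).length = sSup S := hN
      omega
    have hcst : ∀ i, P (N + i) z = P N z := by
      intro i
      obtain ⟨R, hR⟩ := hpre N i z
      have h5 := hmax (N + i)
      rw [hR, List.length_append] at h5
      have h6 : R.length = 0 := by omega
      rw [hR, List.length_eq_zero_iff.mp h6, List.append_nil]
    have hpos : 0 < (vw (P N)).s z := (InT_Good (hV N) z).1
    obtain ⟨K, hK⟩ := hsm _ hpos
    have h5 := hK (N + K) (by omega) z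
    rw [vw_s (hP1 (N + K)) z, vw_s (hP1 N) z, hcst K] at h5
    exact lt_irrefl _ h5
  -- the limit
  set lo : Fin 3 → ℕ → ℝ := fun z n => min (wv (P n z) m0) (wv (P n z) M0) with hlo
  set hi : Fin 3 → ℕ → ℝ := fun z n => max (wv (P n z) m0) (wv (P n z) M0) with hhi
  have hanti : ∀ z, Antitone fun n => Set.Icc (lo z n) (hi z n) := by
    intro z
    refine antitone_nat_of_succ_le fun n => ?_
    have h5 := lim_nested (hP1 n z) (hw n z)
    rw [← hPs] at h5
    exact Set.Icc_subset_Icc h5.1 h5.2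
  have hmem : ∀ z n, (⨆ n, lo z n) ∈ Set.Icc (lo z n) (hi z n) := by
    intro z n
    exact Set.mem_iInter.mp (ciSup_mem_iInter_Icc_of_antitone_Icc (hanti z)
      (fun n => min_le_max)) n
  set x : Fin 3 → ℝ := fun z => ⨆ n, lo z n with hx
  have hy : ∀ n z, ∃ y, m0 ≤ y ∧ y ≤ M0 ∧ x z = wv (P n z) y := fun n z =>
    wv_surj (hP1 n z) (hmem z n).1 (hmem z n).2
  refine ⟨x, fun z => ?_, ?_, hy⟩
  · -- digits
    obtain ⟨y0, hy0, hy0', hxy⟩ := hy 0 z
    have h01 := wv_pos_lt (h1 z) (m0_pos'.trans_le hy0) (hy0'.trans_lt M0_lt_one')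
    rw [← hxy] at h01
    have hdig : ∀ k n, (hk : k < (P n z).length) → pq (x z) k = (((P n z)[k] : ℕ) : ℤ) := by
      intro k n hk
      obtain ⟨y, hy1, hy2, hxy'⟩ := hy n z
      rw [hxy']
      exact pq_wv (hP1 n z) (m0_pos'.trans_le hy1) (hy2.trans_lt M0_lt_one') k hk
    refine ⟨?_, h01.1, h01.2, ?_, (P 0 z).length, ?_⟩
    · by_contra hirr
      obtain ⟨k, hk⟩ := gauss_rat h01.1.le h01.2 hirr
      obtain ⟨n, hn⟩ := hlen z k
      obtain ⟨y, hy1, hy2, hxy'⟩ := hy n z
      have h5 := gauss_wv (hP1 n z) (m0_pos'.trans_le hy1) (hy2.trans_lt M0_lt_one')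
      rw [← hxy', gauss_zero_iter hk _ hn] at h5
      have := m0_pos'
      linarith
    · intro k
      obtain ⟨n, hn⟩ := hlen z (k + 1)
      rw [hdig k n (by omega)]
      exact_mod_cast hP3 n z _ (List.getElem_mem _)
    · intro k hk
      obtain ⟨n, hn⟩ := hlen z (k + 1)
      rw [hdig k n (by omega)]
      have h5 : (P n z)[k]'(by omega) ∈ Q n z := by
        have h6 : (P n z)[k]? = (Q n z)[k - (P 0 z).length]? := by
          rw [hQ2 n z, List.getElem?_append_right hk]
        have h7 : k < (P n z).length := by omega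
        rw [List.getElem?_eq_getElem h7] at h6
        exact List.mem_of_getElem? h6.symm
      rcases hQ1 n z _ h5 with h | h
      · rw [h]; norm_num
      · rw [h]; norm_num
  · -- the sum
    have hbd : ∀ n, |x 0 + x 1 + x 2 - 1| ≤
        (vw (P n)).s 0 + (vw (P n)).s 1 + (vw (P n)).s 2 := by
      intro n
      have h5 := InT_bounds (hV n)
      rw [vw_t (hP1 n), Fin.sum_univ_three, Fin.sum_univ_three] at h5
      have h6 : ∀ z, lo z n ≤ x z ∧ x z ≤ lo z n + (vw (P n)).s z := by
        intro z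
        refine ⟨(hmem z n).1, (hmem z n).2.trans (le_of_eq ?_)⟩
        rw [vw_s (hP1 n) z]
        simp only [hlo, hhi]
        rw [← max_sub_min_eq_abs]
        ring
      have a0 := h6 0
      have a1 := h6 1
      have a2 := h6 2
      simp only [hlo] at a0 a1 a2
      rw [abs_le]
      constructor <;> linarith [h5.1, h5.2]
    have h0 : |x 0 + x 1 + x 2 - 1| ≤ 0 := by
      by_contra hcon
      push Not at hcon
      obtain ⟨K, hK⟩ := hsm (|x 0 + x 1 + x 2 - 1| / 3) (by positivity)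
      have b := hbd K
      have b0 := hK K le_rfl 0
      have b1 := hK K le_rfl 1
      have b2 := hK K le_rfl 2
      linarith
    have h5 := abs_nonpos_iff.mp h0
    linarith

end Pool.Agent.Helper6.AE
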