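import Pool.Agent.Helper6.AE.Defs

set_option autoImplicit false

namespace Pool.Agent.Helper6.AE

/-! AE MODULE Lup: table look up. -/

theorem Lup_and (b x : Bool) : @Bool.rec (fun _ => Bool) false x b = (b && x) := by
  cases b <;> rfl

theorem Lup_or (b y : Bool) : @Bool.rec (fun _ => Bool) y true b = (b || y) := by
  cases b <;> rfl

theorem Lup_mod (a b : ℕ) : Nat.mod a b = a % b := rfl

theorem Lup_shr (a b : ℕ) : Nat.shiftRight a b = a / 2 ^ b := Nat.shiftRight_eq_div_pow a b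

theorem Lup_mul (a b : ℕ) : Nat.mul a b = a * b := rfl

theorem Lup_add (a b : ℕ) : Nat.add a b = a + b := rfl

theorem Lup_60 : (1152921504606846976 : ℕ) = 2 ^ 60 := by norm_num

theorem lk2_sound {e lo hi : ℕ} {x : ℝ} (h : lk2 e lo hi = true) (h0 : (lo : ℝ) ≤ x)
    (h1 : x ≤ hi) : InE e x := by
  unfold lk2 lk3 at h
  simp only [Lup_and, Lup_or, Lup_mod, Lup_shr, Bool.or_eq_true, Bool.and_eq_true, Nat.ble_eq] at h
  unfold InE
  rcases h with ⟨ha, hb⟩ | ⟨ha, hb⟩ | ⟨ha, hb⟩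
  · exact Or.inl ⟨le_trans (by exact_mod_cast ha) h0, h1.trans (by exact_mod_cast hb)⟩
  · exact Or.inr (Or.inl ⟨le_trans (by exact_mod_cast ha) h0, h1.trans (by exact_mod_cast hb)⟩)
  · exact Or.inr (Or.inr ⟨le_trans (by exact_mod_cast ha) h0, h1.trans (by exact_mod_cast hb)⟩)

theorem Lup_lpj_succ (T lo hi n k : ℕ) : lpj T lo hi (n + 1) k =
    @Bool.rec (fun _ => Bool) false (lpj T lo hi n (Nat.add k 8))
      (lk2 (Nat.mod (Nat.shiftRight T (Nat.mul 60 k)) 1152921504606846976) lo hi) := rfl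

theorem lpj_sound {T lo hi : ℕ} : ∀ {n k : ℕ}, lpj T lo hi n k = true → ∀ m < n,
    lk2 (T / 2 ^ (60 * (k + 8 * m)) % 2 ^ 60) lo hi = true := by
  intro n
  induction n with
  | zero => intro k _ m hm; exact absurd hm (Nat.not_lt_zero m)
  | succ n ih =>
    intro k h m hm
    rw [Lup_lpj_succ, Lup_and, Bool.and_eq_true, Lup_shr, Lup_mod, Lup_mul, Lup_add, Lup_60] at h
    cases m with
    | zero => simpa using h.1
    | succ m =>
      have := ih h.2 m (by omega)
      rwa [show k + 8 + 8 * m = k + 8 * (m + 1) by ring] at this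

theorem Lup_lpi_succ (T lo hi m n k : ℕ) : lpi T lo hi m (n + 1) k =
    @Bool.rec (fun _ => Bool) false (lpi T lo hi m n (Nat.add k 160)) (lpj T lo hi m k) := rfl

theorem lpi_sound {T lo hi m : ℕ} : ∀ {n k : ℕ}, lpi T lo hi m n k = true → ∀ a < n, ∀ b < m,
    lk2 (T / 2 ^ (60 * (k + 160 * a + 8 * b)) % 2 ^ 60) lo hi = true := by
  intro n
  induction n with
  | zero => intro k _ a ha; exact absurd ha (Nat.not_lt_zero a)
  | succ n ih =>
    intro k h a ha b hb
    rw [Lup_lpi_succ, Lup_and, Bool.and_eq_true, Lup_add] at h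
    cases a with
    | zero => simpa using lpj_sound h.1 b hb
    | succ a =>
      have := ih h.2 a (by omega) b hb
      rwa [show k + 160 + 160 * a = k + 160 * (a + 1) by ring] at this

theorem Lup_lpc_succ (p : ℕ → Bool) (n c : ℕ) : lpc p (n + 1) c =
    @Bool.rec (fun _ => Bool) false (lpc p n (Nat.succ c)) (p c) := rfl

theorem lpc_sound {p : ℕ → Bool} : ∀ {n c : ℕ}, lpc p n c = true → ∀ m < n, p (c + m) = true := by
  intro n
  induction n with
  | zero => intro c _ m hm; exact absurd hm (Nat.not_lt_zero m)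
  | succ n ih =>
    intro c h m hm
    rw [Lup_lpc_succ, Lup_and, Bool.and_eq_true] at h
    cases m with
    | zero => simpa using h.1
    | succ m =>
      have := ih h.2 m (by omega)
      rwa [show Nat.succ c + m = c + (m + 1) by omega] at this

/-- the class `x` is allowed by the class data `m` -/
def Al (m x : ℕ) : Prop := x ≤ 1 ∧ (m = 8 ∨ m = x)

theorem Lup_Al {m x : ℕ} (h : Al m x) : ∃ j < Nat.succ (Nat.shiftRight m 3), Nat.mod m 2 + j = x := by
  obtain ⟨h1, rfl | rfl⟩ := h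
  · exact ⟨x, by rw [Lup_shr]; norm_num; omega, by rw [Lup_mod]; norm_num⟩
  · refine ⟨0, by simp, ?_⟩
    rw [Lup_mod]
    omega

theorem Lup_Al3 {m x : ℕ} (h : Al m x) (h3 : m ≤ 3) : Nat.mod m 2 = x := by
  obtain ⟨h1, rfl | rfl⟩ := h
  · omega
  · rw [Lup_mod]
    omega

theorem perm3_sound {T mp mq ms lo hi k nj ni : ℕ}
    (h : perm3 T mp mq ms lo hi k nj ni = true) {xp xq xs : ℕ} (hp : Al mp xp) (hq : Al mq xq)
    (hs : Al ms xs) : ∀ a < ni, ∀ b < nj,
    lk2 (T / 2 ^ (60 * (k + (xp + 2 * xq + 4 * xs) + 160 * a + 8 * b)) % 2 ^ 60) lo hi = true := by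
  intro a ha b hb
  unfold perm3 at h
  rcases hc : Nat.ble (Nat.add mp (Nat.add mq ms)) 3 with _ | _
  · rw [hc] at h
    obtain ⟨jp, hjp, rfl⟩ := Lup_Al hp
    obtain ⟨jq, hjq, rfl⟩ := Lup_Al hq
    obtain ⟨js, hjs, rfl⟩ := Lup_Al hs
    have h1 := lpc_sound (lpc_sound (lpc_sound h jp hjp) jq hjq) js hjs
    have h2 := lpi_sound h1 a ha b hb
    simp only [Lup_add, Lup_mul] at h2
    rwa [← add_assoc (Nat.mod mp 2 + jp)] at h2
  · rw [hc] at h
    rw [Nat.ble_eq, Lup_add, Lup_add] at hc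
    have h2 := lpi_sound h a ha b hb
    rw [Lup_Al3 hp (by omega), Lup_Al3 hq (by omega), Lup_Al3 hs (by omega)] at h2
    simp only [Lup_add, Lup_mul] at h2
    rwa [← add_assoc xp] at h2

theorem Lup_mnl (a b : ℕ) : mnl a b = min a b := by
  unfold mnl
  rcases hc : Nat.ble a b with _ | _
  · have : ¬ a ≤ b := fun h => by rw [← Nat.ble_eq, hc] at h; exact absurd h (by decide)
    show b = min a b
    omega
  · rw [Nat.ble_eq] at hc
    show a = min a b
    omega

theorem perm2_sound {TT : ℕ → ℕ} {np nq ns mp mq ms i0 i1 j0 j1 lo hi : ℕ}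
    (h : perm2 TT np nq ns mp mq ms i0 i1 j0 j1 lo hi = true) : j1 ≤ 19 ∧
    ∀ i j xp xq xs, i0 ≤ i → i ≤ i1 → j0 ≤ j → j ≤ j1 → i ≤ j → Al mp xp → Al mq xq → Al ms xs →
      (ns = 0 → lk2 (entry (TT (np + 2 * nq)) i j (xp + 2 * xq + 4 * xs)) lo hi = true) ∧
      (ns ≠ 0 → lk2 (entry (TT (3 - (np + 2 * nq))) i j (xp + 2 * xq + 4 * xs))
        (1000 - hi) (1000 - lo) = true) := by
  unfold perm2 at h
  rw [Lup_and, Bool.and_eq_true, Lup_and, Bool.and_eq_true, Nat.ble_eq, Nat.ble_eq] at h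
  obtain ⟨h1, -, h3⟩ := h
  refine ⟨h1, ?_⟩
  intro i j xp xq xs hi0 hi1 hj0 hj1 hij hp hq hs
  have e1 : i - i0 < Nat.sub (Nat.succ (mnl i1 j1)) i0 := by
    rw [Lup_mnl]
    show i - i0 < Nat.succ (min i1 j1) - i0
    omega
  have e2 : j - j0 < Nat.sub (Nat.succ j1) j0 := by
    show j - j0 < Nat.succ j1 - j0
    omega
  have e3 : ∀ x, Nat.mul 8 (Nat.add (Nat.mul 20 i0) j0) + x + 160 * (i - i0) + 8 * (j - j0) =
      8 * (20 * i + j) + x := by
    intro x
    rw [Lup_mul, Lup_add, Lup_mul]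
    omega
  constructor
  · rintro rfl
    have h4 := perm3_sound h3 hp hq hs _ e1 _ e2
    rw [e3] at h4
    exact h4
  · intro hns
    have hb : Nat.beq ns 0 = false := by
      rw [← Bool.not_eq_true, Nat.beq_eq]
      exact hns
    rw [hb] at h3
    have h4 := perm3_sound h3 hp hq hs _ e1 _ e2
    rw [e3] at h4
    exact h4

end Pool.Agent.Helper6.AE
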