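import Pool.Agent.Helper6.AE.Pre
import Pool.Agent.Helper6.AE.Cert.TabV4

set_option autoImplicit false

namespace Pool.Agent.Helper6.AE

/-- the start of the construction -/
def P0 : Fin 3 → List ℕ :=
  ![[3, 2, 2, 2, 1, 2, 1, 2, 2], [3, 2, 1, 2, 1, 2, 2, 2, 2], [2, 2, 3, 1, 1, 1, 2, 1, 1, 1, 1, 2]]

theorem P0_pos : ∀ z, ∀ a ∈ P0 z, 1 ≤ a := by decide

theorem P0_le : ∀ z, ∀ a ∈ P0 z, a ≤ 3 := by decide

theorem P0_w0 : |wv (P0 0) M0 - wv (P0 0) m0| = 1830500 / 14584879647267 := by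
  simp only [P0, Matrix.cons_val_zero, wv, List.foldr_cons, List.foldr_nil, m0, M0]
  rw [abs_of_neg (by norm_num)]; norm_num

theorem P0_w1 : |wv (P0 1) M0 - wv (P0 1) m0| = 1830500 / 14648244084563 := by
  simp only [P0, Matrix.cons_val_one, Matrix.cons_val_zero, wv, List.foldr_cons, List.foldr_nil, m0, M0]
  rw [abs_of_neg (by norm_num)]; norm_num

theorem P0_w2 : |wv (P0 2) M0 - wv (P0 2) m0| = 457625 / 12154128956248 := by
  have : P0 2 = [2, 2, 3, 1, 1, 1, 2, 1, 1, 1, 1, 2] := rfl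
  rw [this]
  simp only [wv, List.foldr_cons, List.foldr_nil, m0, M0]
  rw [abs_of_pos (by norm_num)]; norm_num

theorem P0_t : 1 - ∑ z, min (wv (P0 z) m0) (wv (P0 z) M0) = 4999782672671/25645006346334289688 := by
  have h0 : P0 0 = [3, 2, 2, 2, 1, 2, 1, 2, 2] := rfl
  have h1 : P0 1 = [3, 2, 1, 2, 1, 2, 2, 2, 2] := rfl
  have h2 : P0 2 = [2, 2, 3, 1, 1, 1, 2, 1, 1, 1, 1, 2] := rfl
  rw [Fin.sum_univ_three, h0, h1, h2]
  simp only [wv, List.foldr_cons, List.foldr_nil, m0, M0]
  rw [min_eq_right (by norm_num), min_eq_right (by norm_num), min_eq_left (by norm_num)]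
  norm_num

theorem P0_RE : ∀ z, RE ((vw P0).r z) := by
  have key : ∀ z, (vw P0).r z = wv (P0 z).reverse 0 := fun z => rfl
  intro z
  rw [key]
  fin_cases z
  · refine ⟨[2, 2, 1, 2, 1, 2, 2], rfl, by unfold D12; decide, wv [2, 3] 0, ?_, ?_, ?_⟩
    · simp only [wv, m0]; norm_num
    · simp only [wv, M0]; norm_num
    · rfl
  · refine ⟨[2, 2, 2, 2, 1, 2, 1], rfl, by unfold D12; decide, wv [2, 3] 0, ?_, ?_, ?_⟩
    · simp only [wv, m0]; norm_num
    · simp only [wv, M0]; norm_num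
    · rfl
  · refine ⟨[2, 1, 1, 1, 1, 2, 1], rfl, by unfold D12; decide, wv [1, 1, 3, 2, 2] 0, ?_, ?_, ?_⟩
    · simp only [wv, m0]; norm_num
    · simp only [wv, M0]; norm_num
    · rfl

theorem P0_cls : ∀ z, cls ((vw P0).r z) = 0 := by
  have key : ∀ z, (vw P0).r z = wv (P0 z).reverse 0 := fun z => rfl
  intro z
  rw [key]
  unfold cls
  rw [if_neg]
  fin_cases z
  · have : (P0 ((fun i => i) ⟨0, by decide⟩)).reverse = [2, 2, 1, 2, 1, 2, 2, 2, 3] := rfl
    rw [this]; simp only [wv, List.foldr_cons, List.foldr_nil]; norm_num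
  · have : (P0 ((fun i => i) ⟨1, by decide⟩)).reverse = [2, 2, 2, 2, 1, 2, 1, 2, 3] := rfl
    rw [this]; simp only [wv, List.foldr_cons, List.foldr_nil]; norm_num
  · have : (P0 ((fun i => i) ⟨2, by decide⟩)).reverse = [2, 1, 1, 1, 1, 2, 1, 1, 1, 3, 2, 2] := rfl
    rw [this]; simp only [wv, List.foldr_cons, List.foldr_nil]; norm_num

theorem entry_start : entry (TnV4 3) 0 12 0 = 1098614101045736458 := by
  decide +kernel

theorem P0_o (z : Fin 3) : (vw P0).o z = decide ((P0 z).length % 2 = 1) := by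
  show xor false _ = _
  simp

theorem P0_InT : InT TnV4 (vw P0) := by
  have hs0 : (vw P0).s 0 = 1830500 / 14584879647267 := by rw [vw_s P0_pos, P0_w0]
  have hs1 : (vw P0).s 1 = 1830500 / 14648244084563 := by rw [vw_s P0_pos, P0_w1]
  have hs2 : (vw P0).s 2 = 457625 / 12154128956248 := by rw [vw_s P0_pos, P0_w2]
  have ht : (vw P0).t = 4999782672671/25645006346334289688 := by rw [vw_t P0_pos, P0_t]
  have hk : (0 : ℝ) < 14584879647267 / 1830500 := by norm_num
  refine ⟨Equiv.refl _, false, 14584879647267 / 1830500, hk, ?_⟩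
  have e0 : (act (Equiv.refl _) false (14584879647267 / 1830500) (vw P0)).s 0 = 1 := by
    show 14584879647267 / 1830500 * (vw P0).s 0 = 1
    rw [hs0]; norm_num
  have e1 : (act (Equiv.refl _) false (14584879647267 / 1830500) (vw P0)).s 1 =
      14584879647267 / 14648244084563 := by
    show 14584879647267 / 1830500 * (vw P0).s 1 = _
    rw [hs1]; norm_num
  have e2 : (act (Equiv.refl _) false (14584879647267 / 1830500) (vw P0)).s 2 =
      14584879647267 / 48616515824992 := by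
    show 14584879647267 / 1830500 * (vw P0).s 2 = _
    rw [hs2]; norm_num
  have et : (act (Equiv.refl _) false (14584879647267 / 1830500) (vw P0)).t =
      14584879647267 / 1830500 * (4999782672671/25645006346334289688) := by
    show 14584879647267 / 1830500 * (if false = true then _ else (vw P0).t) = _
    rw [ht]; simp
  have eo : ∀ z, (act (Equiv.refl _) false (14584879647267 / 1830500) (vw P0)).o z =
      decide ((P0 z).length % 2 = 1) := by
    intro z
    show xor false ((vw P0).o z) = _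
    rw [P0_o]; simp
  have esum : ∑ z, (act (Equiv.refl _) false (14584879647267 / 1830500) (vw P0)).s z =
      1 + 14584879647267 / 14648244084563 + 14584879647267 / 48616515824992 := by
    rw [Fin.sum_univ_three, e0, e1, e2]
  refine ⟨⟨?_, e0, ?_, ?_, ?_⟩, ?_, ?_, 0, 12, by norm_num, by norm_num, ?_, ?_, ?_⟩
  · intro z
    refine ⟨?_, P0_RE z⟩
    fin_cases z
    · exact lt_of_lt_of_eq one_pos e0.symm
    · exact lt_of_lt_of_eq (by norm_num) e1.symm
    · exact lt_of_lt_of_eq (by norm_num) e2.symm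
  · rw [eo]; decide
  · rw [e1, e2]; norm_num
  · rw [e1]; norm_num
  · rw [et]; norm_num
  · rw [et, esum]; norm_num
  · rw [e1]; constructor <;> norm_num
  · rw [e2]; constructor <;> norm_num
  · rw [esum, et]
    have o0 : on ((act (Equiv.refl _) false (14584879647267 / 1830500) (vw P0)).o 0) = 1 := by
      rw [eo]; decide
    have o1 : on ((act (Equiv.refl _) false (14584879647267 / 1830500) (vw P0)).o 1) = 1 := by
      rw [eo]; decide
    have c : ∀ z, cls ((act (Equiv.refl _) false (14584879647267 / 1830500) (vw P0)).r z) = 0 :=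
      fun z => P0_cls z
    rw [o0, o1, c, c, c]
    rw [show 1 + 2 * 1 = 3 from rfl, show 0 + 2 * 0 + 4 * 0 = 0 from rfl, entry_start]
    right; left
    constructor
    · norm_num
    · norm_num

theorem P0_h01 : max (wv (P0 0) m0) (wv (P0 0) M0) < min (wv (P0 1) m0) (wv (P0 1) M0) := by
  have h0 : P0 0 = [3, 2, 2, 2, 1, 2, 1, 2, 2] := rfl
  have h1 : P0 1 = [3, 2, 1, 2, 1, 2, 2, 2, 2] := rfl
  rw [h0, h1]
  simp only [wv, List.foldr_cons, List.foldr_nil, m0, M0]
  rw [max_lt_iff, lt_min_iff, lt_min_iff]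
  norm_num

theorem P0_h12 : max (wv (P0 1) m0) (wv (P0 1) M0) < min (wv (P0 2) m0) (wv (P0 2) M0) := by
  have h1 : P0 1 = [3, 2, 1, 2, 1, 2, 2, 2, 2] := rfl
  have h2 : P0 2 = [2, 2, 3, 1, 1, 1, 2, 1, 1, 1, 1, 2] := rfl
  rw [h1, h2]
  simp only [wv, List.foldr_cons, List.foldr_nil, m0, M0]
  rw [max_lt_iff, lt_min_iff, lt_min_iff]
  norm_num

end Pool.Agent.Helper6.AE
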