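import Pool.Agent.Helper6.AE.Lim

set_option autoImplicit false

namespace Pool.Agent.Helper6.AE

/-! AE MODULE Unc: a branching table gives uncountably many solutions. -/

theorem Unc_notCountable : ¬ Countable (ℕ → Bool) := by
  intro h
  obtain ⟨f, hf⟩ := exists_surjective_nat (ℕ → Bool)
  obtain ⟨n, hn⟩ := hf (fun k => !(f k k))
  have := congrFun hn n
  simp at this

/-- values of words with argument in the basic interval -/
theorem Unc_between {w : List ℕ} (hw : ∀ a ∈ w, 1 ≤ a) {y : ℝ} (h0 : m0 ≤ y) (h1 : y ≤ M0) :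
    min (wv w m0) (wv w M0) ≤ wv w y ∧ wv w y ≤ max (wv w m0) (wv w M0) := by
  have hm : (0 : ℝ) ≤ m0 := by unfold m0; norm_num
  have e1 := wv_mono hw hm h0
  have e2 := wv_mono hw (hm.trans h0) h1
  rcases Nat.mod_two_eq_zero_or_one w.length with h | h
  · exact ⟨(min_le_left _ _).trans (e1.1 h), (e2.1 h).trans (le_max_right _ _)⟩
  · exact ⟨(min_le_right _ _).trans (e2.2 h), (e1.2 h).trans (le_max_left _ _)⟩

/-- words read off from the same digits are comparable -/
theorem Unc_prefix {L L' : List ℕ} {d : ℕ → ℤ} (h : ∀ k (hk : k < L.length), d k = (L[k] : ℤ))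
    (h' : ∀ k (hk : k < L'.length), d k = (L'[k] : ℤ)) (hl : L.length ≤ L'.length) :
    L <+: L' := by
  rw [List.prefix_iff_eq_take]
  refine List.ext_getElem ?_ fun k h1 h2 => ?_
  · rw [List.length_take, min_eq_left hl]
  · rw [List.getElem_take]
    have e1 := h k h1
    have e2 := h' k (lt_of_lt_of_le h1 hl)
    rw [e1] at e2
    exact_mod_cast e2

/-- if every state of the table `V` branches, if the state of the prefixes `P` lies in the table
and if the intervals of the prefixes are ordered, then the solution set is uncountable -/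
theorem uncountable_of_branching {V : ℕ → ℕ} (hV : ∀ v, InT V v → Br V v)
    {P : Fin 3 → List ℕ} (hP1 : ∀ z, ∀ a ∈ P z, 1 ≤ a) (hP3 : ∀ z, ∀ a ∈ P z, a ≤ 3)
    (hP : InT V (vw P))
    (h01 : max (wv (P 0) m0) (wv (P 0) M0) < min (wv (P 1) m0) (wv (P 1) M0))
    (h12 : max (wv (P 1) m0) (wv (P 1) M0) < min (wv (P 2) m0) (wv (P 2) M0)) :
    ¬ SS.Countable := by
  classical
  intro hcount
  -- nodes
  let T := {Q : Fin 3 → List ℕ // (∀ z, ∀ a ∈ Q z, 1 ≤ a) ∧ InT V (vw Q)}
  have hbr : ∀ Q : T, ∃ W : Bool → Fin 3 → List ℕ, (∀ b, DW (W b)) ∧ Inc (W false) (W true) ∧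
      ∀ b, InT V (vw (fun z => Q.1 z ++ W b z)) := by
    rintro ⟨Q, hQ, hQV⟩
    obtain ⟨w, w', h1, h2, h3, h4, h5⟩ := hV _ hQV
    rw [vw_append hQ h1] at h4
    rw [vw_append hQ h2] at h5
    refine ⟨fun b => if b then w' else w, ?_, by simpa using h3, ?_⟩
    · intro b
      cases b
      · simpa using h1
      · simpa using h2
    · intro b
      cases b
      · simpa using h4
      · simpa using h5
  choose W hW1 hW2 hW3 using hbr
  let nx : T → Bool → T := fun Q b => ⟨fun z => Q.1 z ++ W Q b z, by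
    intro z a ha
    rcases List.mem_append.1 ha with h | h
    · exact Q.2.1 z a h
    · exact D12_pos (hW1 Q b z) a h, hW3 Q b⟩
  let P0 : T := ⟨P, hP1, hP⟩
  let nd : (ℕ → Bool) → ℕ → T := fun a n => Nat.rec P0 (fun k Q => nx Q (a k)) n
  have nd0 : ∀ a, nd a 0 = P0 := fun a => rfl
  have ndS : ∀ a n, nd a (n + 1) = nx (nd a n) (a n) := fun a n => rfl
  have hne : ∀ Q b, ∃ z, W Q b z ≠ [] := by
    intro Q b
    obtain ⟨z, hz1, hz2⟩ := hW2 Q
    refine ⟨z, fun h => ?_⟩
    cases b
    · rw [h] at hz1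
      exact hz1 List.nil_prefix
    · rw [h] at hz2
      exact hz2 List.nil_prefix
  have hlim : ∀ a : ℕ → Bool, ∃ x : Fin 3 → ℝ, (∀ z, x z ∈ B2s) ∧ x 0 + x 1 + x 2 = 1 ∧
      ∀ n z, ∃ y, m0 ≤ y ∧ y ≤ M0 ∧ x z = wv ((nd a n).1 z) y := by
    intro a
    refine limit_point (V := V) (P := fun n => (nd a n).1) hP1 hP3 ?_ (fun n => (nd a n).2.2)
    intro n
    exact ⟨W (nd a n) (a n), hW1 _ _, hne _ _, rfl⟩
  choose x hx1 hx2 hx3 using hlim
  -- the points are solutions
  have hSS : ∀ a, ((x a 0, x a 1, x a 2) : ℝ × ℝ × ℝ) ∈ SS := by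
    intro a
    have hb : ∀ z, min (wv (P z) m0) (wv (P z) M0) ≤ x a z ∧
        x a z ≤ max (wv (P z) m0) (wv (P z) M0) := by
      intro z
      obtain ⟨y, hy0, hy1, hy⟩ := hx3 a 0 z
      rw [hy]
      exact Unc_between (hP1 z) hy0 hy1
    exact ⟨hx1 a 0, hx1 a 1, hx1 a 2, hx2 a, ((hb 0).2.trans_lt (h01.trans_le (hb 1).1)).le,
      ((hb 1).2.trans_lt (h12.trans_le (hb 2).1)).le⟩
  -- digits
  have hm : (0 : ℝ) < m0 := by unfold m0; norm_num
  have hM : (M0 : ℝ) < 1 := by unfold M0; norm_num
  have hdig : ∀ a n z k, ∀ hk : k < ((nd a n).1 z).length,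
      pq (x a z) k = (((nd a n).1 z)[k] : ℤ) := by
    intro a n z k hk
    obtain ⟨y, hy0, hy1, hy⟩ := hx3 a n z
    rw [hy]
    exact pq_wv ((nd a n).2.1 z) (lt_of_lt_of_le hm hy0) (lt_of_le_of_lt hy1 hM) k hk
  -- injectivity
  have key : ∀ a b n, (∀ k < n, a k = b k) → a n = false → b n = true →
      (∀ z, x a z = x b z) → False := by
    intro a b n hab ha hb hx
    have hnd : ∀ k ≤ n, nd a k = nd b k := by
      intro k
      induction k with
      | zero => intro _; rfl
      | succ k ih =>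
        intro hk
        rw [ndS, ndS, ih (by omega), hab k (by omega)]
    obtain ⟨z, hz1, hz2⟩ := hW2 (nd a n)
    have e1 : (nd a (n + 1)).1 z = (nd a n).1 z ++ W (nd a n) false z := by
      rw [ndS, ha]
    have e2 : (nd b (n + 1)).1 z = (nd a n).1 z ++ W (nd a n) true z := by
      rw [ndS, hb, ← hnd n le_rfl]
    have d1 : ∀ k, ∀ hk : k < ((nd a n).1 z ++ W (nd a n) false z).length,
        pq (x a z) k = (((nd a n).1 z ++ W (nd a n) false z)[k] : ℤ) := by
      intro k hk
      have := hdig a (n + 1) z k (by rw [e1]; exact hk)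
      simpa only [e1] using this
    have d2 : ∀ k, ∀ hk : k < ((nd a n).1 z ++ W (nd a n) true z).length,
        pq (x a z) k = (((nd a n).1 z ++ W (nd a n) true z)[k] : ℤ) := by
      intro k hk
      have := hdig b (n + 1) z k (by rw [e2]; exact hk)
      rw [hx z]
      simpa only [e2] using this
    rcases le_total ((nd a n).1 z ++ W (nd a n) false z).length
      ((nd a n).1 z ++ W (nd a n) true z).length with hl | hl
    · exact hz1 ((List.prefix_append_right_inj _).1 (Unc_prefix d1 d2 hl))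
    · exact hz2 ((List.prefix_append_right_inj _).1 (Unc_prefix d2 d1 hl))
  have hinj : Function.Injective
      (fun a : ℕ → Bool => (⟨(x a 0, x a 1, x a 2), hSS a⟩ : SS)) := by
    intro a b hab
    by_contra hne'
    have hx : ∀ z, x a z = x b z := by
      have h := congrArg Subtype.val hab
      simp only [Prod.mk.injEq] at h
      intro z
      fin_cases z
      · exact h.1
      · exact h.2.1
      · exact h.2.2
    have hex : ∃ n, a n ≠ b n := by
      by_contra hcon
      push Not at hcon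
      exact hne' (funext hcon)
    have hn := Nat.find_spec hex
    have hlt : ∀ k < Nat.find hex, a k = b k := fun k hk => by
      by_contra h
      exact Nat.find_min hex hk h
    rcases Bool.eq_false_or_eq_true (a (Nat.find hex)) with h1 | h1
    · rcases Bool.eq_false_or_eq_true (b (Nat.find hex)) with h2 | h2
      · exact hn (by rw [h1, h2])
      · exact key b a (Nat.find hex) (fun k hk => (hlt k hk).symm) h2 h1 (fun z => (hx z).symm)
    · rcases Bool.eq_false_or_eq_true (b (Nat.find hex)) with h2 | h2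
      · exact key a b (Nat.find hex) hlt h1 h2 hx
      · exact hn (by rw [h1, h2])
  have : Countable SS := hcount.to_subtype
  exact Unc_notCountable hinj.countable

end Pool.Agent.Helper6.AE
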