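import Pool.Agent.Helper6.AE.Lev
import Pool.Agent.Helper6.AE.Unc
import Pool.Agent.Helper6.AE.Start
import Pool.Agent.Helper6.AE.Empty
import Pool.Agent.Helper6.AE.Cert.TreesOK
import Pool.Agent.Helper6.AE.Cert.LR1
import Pool.Agent.Helper6.AE.Cert.LR2
import Pool.Agent.Helper6.AE.Cert.LR3
import Pool.Agent.Helper6.AE.Cert.LR4
import Pool.Agent.Helper6.AE.Cert.LR5
import Pool.Agent.Helper6.AE.Cert.LW1
import Pool.Agent.Helper6.AE.Cert.LW2
import Pool.Agent.Helper6.AE.Cert.LW3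
import Pool.Agent.Helper6.AE.Cert.LW4
import Pool.Agent.Helper6.AE.Cert.LD0
import Pool.Agent.Helper6.AE.Cert.LM2
import Pool.Agent.Helper6.AE.Cert.LM3
import Pool.Agent.Helper6.AE.Cert.LM4
import Pool.Agent.Helper6.AE.Cert.LM5
import Pool.Agent.Helper6.AE.Cert.LM6
import Pool.Agent.Helper6.AE.Cert.LM7

set_option autoImplicit false

namespace Pool.Agent.Helper6.AE

theorem hA0 : TrOK 0 8 1 A0 := okT_sound okA0
theorem hA1 : TrOK 1 8 1 A1 := okT_sound okA1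

theorem bE : ∀ v, InT TnE v → Br TnV4 v := fun v h => absurd h (TnE_empty v)
theorem bD0 : ∀ v, InT TnD0 v → Br TnV4 v := chain (level hA0 hA1 lD0) bE
theorem bD2 : ∀ v, InT TnD2 v → Br TnV4 v := chain (level hA0 hA1 lM2) bD0
theorem bD3 : ∀ v, InT TnD3 v → Br TnV4 v := chain (level hA0 hA1 lM3) bD2
theorem bD4 : ∀ v, InT TnD4 v → Br TnV4 v := chain (level hA0 hA1 lM4) bD3
theorem bD5 : ∀ v, InT TnD5 v → Br TnV4 v := chain (level hA0 hA1 lM5) bD4
theorem bD6 : ∀ v, InT TnD6 v → Br TnV4 v := chain (level hA0 hA1 lM6) bD5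
theorem bC : ∀ v, InT TnC v → Br TnV4 v := chain (level hA0 hA1 lM7) bD6
theorem bT1 : ∀ v, InT TnT1 v → Br TnV4 v := chain (level hA0 hA1 lR1) bC
theorem bT2 : ∀ v, InT TnT2 v → Br TnV4 v := chain (level hA0 hA1 lR2) bT1
theorem bT3 : ∀ v, InT TnT3 v → Br TnV4 v := chain (level hA0 hA1 lR3) bT2
theorem bT4 : ∀ v, InT TnT4 v → Br TnV4 v := chain (level hA0 hA1 lR4) bT3
theorem bT5 : ∀ v, InT TnT5 v → Br TnV4 v := chain (level hA0 hA1 lR5) bT4
theorem bV1 : ∀ v, InT TnV1 v → Br TnV4 v := chain (level hA0 hA1 lW1) bT5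
theorem bV2 : ∀ v, InT TnV2 v → Br TnV4 v := chain (level hA0 hA1 lW2) bV1
theorem bV3 : ∀ v, InT TnV3 v → Br TnV4 v := chain (level hA0 hA1 lW3) bV2
theorem bV4 : ∀ v, InT TnV4 v → Br TnV4 v := chain (level hA0 hA1 lW4) bV3

theorem main : ¬ SS.Countable :=
  uncountable_of_branching bV4 P0_pos P0_le P0_InT P0_h01 P0_h12

end Pool.Agent.Helper6.AE
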