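import Pool.Agent.Helper6.AE.Phi

set_option autoImplicit false

namespace Pool.Agent.Helper6.AE

/-! AE MODULE Num: the integer functions `uvw`, `phx`, `phw`, `lgc`, `rlo`, `rhi`. -/

theorem Num_uvw_zero (c U V : ℕ) (k : ℕ → ℕ → ℕ) : uvw 0 c U V k = k U V := rfl

theorem Num_uvw_succ (f c U V : ℕ) (k : ℕ → ℕ → ℕ) : uvw (f + 1) c U V k =
    @Bool.rec (fun _ => ℕ) (uvw f (Nat.shiftRight c 1) V
      (Nat.add (Nat.mul (Nat.succ (Nat.mod c 2)) V) U) k) (k U V) (Nat.ble c 1) := rfl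

theorem Num_lgc_zero (c : ℕ) : lgc 0 c = 0 := rfl

theorem Num_lgc_succ (f c : ℕ) : lgc (f + 1) c =
    @Bool.rec (fun _ => ℕ) (Nat.succ (lgc f (Nat.shiftRight c 1))) 0 (Nat.ble c 1) := rfl

theorem Num_shift (c : ℕ) : Nat.shiftRight c 1 = c / 2 := by
  have := Nat.shiftRight_eq_div_pow c 1
  simpa using this

theorem uvw_spec (fuel : ℕ) : ∀ (c U V : ℕ) (k : ℕ → ℕ → ℕ), c < 2 ^ fuel → 0 < V →
    ∃ U' V' : ℕ, uvw fuel c U V k = k U' V' ∧ 0 < V' ∧
      (U' : ℝ) / V' = wv (dec c) ((U : ℝ) / V) := by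
  induction fuel with
  | zero =>
    intro c U V k hc hV
    have hc0 : c = 0 := by simpa using hc
    subst hc0
    exact ⟨U, V, Num_uvw_zero _ _ _ _, hV, by rw [dec_zero, wv_nil]⟩
  | succ f ih =>
    intro c U V k hc hV
    rw [Num_uvw_succ]
    by_cases h1 : c ≤ 1
    · have hb : Nat.ble c 1 = true := Nat.ble_eq_true_of_le h1
      rw [hb]
      refine ⟨U, V, rfl, hV, ?_⟩
      have : dec c = [] := by
        interval_cases c
        · exact dec_zero
        · exact dec_one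
      rw [this, wv_nil]
    · have hb : Nat.ble c 1 = false := by
        rw [Bool.eq_false_iff]
        intro h
        exact h1 (Nat.le_of_ble_eq_true h)
      rw [hb]
      have hV' : 0 < Nat.add (Nat.mul (Nat.succ (Nat.mod c 2)) V) U := by
        show 0 < (c % 2 + 1) * V + U
        positivity
      have hc' : Nat.shiftRight c 1 < 2 ^ f := by
        rw [Num_shift]
        have : 2 ^ (f + 1) = 2 ^ f * 2 := pow_succ 2 f
        omega
      obtain ⟨U', V', e1, e2, e3⟩ := ih (Nat.shiftRight c 1) V _ k hc' hV'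
      refine ⟨U', V', e1, e2, ?_⟩
      rw [e3, Num_shift, dec_rec (by omega : 2 ≤ c), wv_append, wv_cons, wv_nil]
      congr 1
      show (V : ℝ) / (((c % 2 + 1) * V + U : ℕ) : ℝ) = 1 / (((c % 2 + 1 : ℕ) : ℝ) + (U : ℝ) / V)
      have hVR : (0 : ℝ) < V := by exact_mod_cast hV
      push_cast
      rw [eq_div_iff (by positivity)]
      field_simp

theorem Num_lgc (fuel : ℕ) : ∀ c : ℕ, c < 2 ^ fuel → lgc fuel c = (dec c).length := by
  induction fuel with
  | zero =>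
    intro c hc
    have hc0 : c = 0 := by simpa using hc
    subst hc0
    rw [Num_lgc_zero, dec_zero]
    rfl
  | succ f ih =>
    intro c hc
    rw [Num_lgc_succ]
    by_cases h1 : c ≤ 1
    · have hb : Nat.ble c 1 = true := Nat.ble_eq_true_of_le h1
      rw [hb]
      have : dec c = [] := by
        interval_cases c
        · exact dec_zero
        · exact dec_one
      rw [this]
      rfl
    · have hb : Nat.ble c 1 = false := by
        rw [Bool.eq_false_iff]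
        intro h
        exact h1 (Nat.le_of_ble_eq_true h)
      rw [hb]
      show lgc f (Nat.shiftRight c 1) + 1 = (dec c).length
      rw [Num_shift, ih (c / 2) (by have : 2 ^ (f + 1) = 2 ^ f * 2 := pow_succ 2 f
                                    omega), dec_rec (by omega : 2 ≤ c)]
      simp

theorem lgc_spec {c : ℕ} (hc : c < 1024) : lgc 10 c = (dec c).length :=
  Num_lgc 10 c (by norm_num; exact hc)

theorem Num_floor (N D : ℕ) (hD : 0 < D) :
    ((N / D : ℕ) : ℝ) ≤ (N : ℝ) / D ∧ (N : ℝ) / D < ((N / D : ℕ) : ℝ) + 1 := by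
  have hDR : (0 : ℝ) < D := by exact_mod_cast hD
  constructor
  · rw [le_div_iff₀ hDR]
    exact_mod_cast Nat.div_mul_le_self N D
  · rw [div_lt_iff₀ hDR]
    have := Nat.lt_div_mul_add (a := N) (b := D) hD
    have h2 : N < (N / D + 1) * D := by
      rw [Nat.add_mul, Nat.one_mul]; exact this
    exact_mod_cast h2

theorem Num_ceil (N D : ℕ) (hD : 0 < D) :
    (N : ℝ) / D ≤ (((N + (D - 1)) / D : ℕ) : ℝ) ∧
      (((N + (D - 1)) / D : ℕ) : ℝ) < (N : ℝ) / D + 1 := by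
  have hDR : (0 : ℝ) < D := by exact_mod_cast hD
  have h1 := Nat.div_mul_le_self (N + (D - 1)) D
  have h2 := Nat.lt_div_mul_add (a := N + (D - 1)) (b := D) hD
  set q := (N + (D - 1)) / D with hq
  constructor
  · rw [div_le_iff₀ hDR]
    have : N ≤ q * D := by omega
    exact_mod_cast this
  · have h3 : q * D < N + D := by omega
    have h4 : (q : ℝ) * D < N + D := by exact_mod_cast h3
    have h5 : (q : ℝ) < (N + D) / D := by rw [lt_div_iff₀ hDR]; exact h4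
    rw [add_div, div_self hDR.ne'] at h5
    exact h5

theorem phx_spec (R : ℕ) {U V : ℕ} (hV : 0 < V) (h : m0 ≤ (U : ℝ) / V) :
    (phx R U V : ℝ) ≤ 10 ^ 6 * phi ((R : ℝ) / 10 ^ 5) ((U : ℝ) / V) ∧
    10 ^ 6 * phi ((R : ℝ) / 10 ^ 5) ((U : ℝ) / V) < phx R U V + 1 := by
  have hVR : (0 : ℝ) < V := by exact_mod_cast hV
  have hle : 3660 * V ≤ 10000 * U := by
    unfold m0 at h
    rw [le_div_iff₀ hVR] at h
    have : (3660 : ℝ) * V ≤ 10000 * U := by linarith
    exact_mod_cast this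
  have hD : 0 < 3661 * (100000 * V + R * U) := by positivity
  have e0 : phx R U V = ((10000 * U - 3660 * V) * 100 * (1000000000 + 7321 * R)) /
      (3661 * (100000 * V + R * U)) := rfl
  have e1 : 10 ^ 6 * phi ((R : ℝ) / 10 ^ 5) ((U : ℝ) / V) =
      (((10000 * U - 3660 * V) * 100 * (1000000000 + 7321 * R) : ℕ) : ℝ) /
        ((3661 * (100000 * V + R * U) : ℕ) : ℝ) := by
    have hden : (0 : ℝ) < 100000 * V + R * U := by positivity
    unfold phi m0 M0
    push_cast [Nat.cast_sub hle]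
    field_simp
    ring
  rw [e0, e1]
  exact Num_floor _ _ hD

theorem Num_phw (R c s : ℕ) : phw R c s =
    @Bool.rec (fun _ => ℕ) (uvw 10 c 7321 10000 (phx R)) (uvw 10 c 3660 10000 (phx R))
      (Nat.beq (Nat.mod (lgc 10 c + s) 2) 0) := rfl

theorem Num_m0 : ((3660 : ℕ) : ℝ) / ((10000 : ℕ) : ℝ) = m0 := by
  unfold m0; norm_num

theorem Num_M0 : ((7321 : ℕ) : ℝ) / ((10000 : ℕ) : ℝ) = M0 := by
  unfold M0; norm_num

theorem Num_mM : m0 ≤ M0 := m0_lt_M0.le

/-- value of `phx` along a word started at `m0` -/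
theorem Num_uvw_m (R : ℕ) {c : ℕ} (hc : c < 1024) :
    (uvw 10 c 3660 10000 (phx R) : ℝ) ≤ 10 ^ 6 * phi ((R : ℝ) / 10 ^ 5) (wv (dec c) m0) ∧
    10 ^ 6 * phi ((R : ℝ) / 10 ^ 5) (wv (dec c) m0) < uvw 10 c 3660 10000 (phx R) + 1 := by
  obtain ⟨U', V', e1, e2, e3⟩ := uvw_spec 10 c 3660 10000 (phx R) (by norm_num; exact hc)
    (by norm_num)
  rw [Num_m0] at e3
  rw [e1, ← e3]
  apply phx_spec R e2
  rw [e3]
  exact (wv_mem (D12_dec c) le_rfl Num_mM).1

theorem Num_uvw_M (R : ℕ) {c : ℕ} (hc : c < 1024) :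
    (uvw 10 c 7321 10000 (phx R) : ℝ) ≤ 10 ^ 6 * phi ((R : ℝ) / 10 ^ 5) (wv (dec c) M0) ∧
    10 ^ 6 * phi ((R : ℝ) / 10 ^ 5) (wv (dec c) M0) < uvw 10 c 7321 10000 (phx R) + 1 := by
  obtain ⟨U', V', e1, e2, e3⟩ := uvw_spec 10 c 7321 10000 (phx R) (by norm_num; exact hc)
    (by norm_num)
  rw [Num_M0] at e3
  rw [e1, ← e3]
  apply phx_spec R e2
  rw [e3]
  exact (wv_mem (D12_dec c) Num_mM le_rfl).1

theorem Num_beq_true {a : ℕ} (h : a % 2 = 0) : Nat.beq (Nat.mod a 2) 0 = true := by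
  show Nat.beq (a % 2) 0 = true
  rw [h]; rfl

theorem Num_beq_false {a : ℕ} (h : a % 2 = 1) : Nat.beq (Nat.mod a 2) 0 = false := by
  show Nat.beq (a % 2) 0 = false
  rw [h]; rfl

/-- lower end -/
theorem phw_zero (R : ℕ) {c : ℕ} (hc : c < 1024) :
    (phw R c 0 : ℝ) ≤ 10 ^ 6 * lwo ((R : ℝ) / 10 ^ 5) (dec c) ∧
    10 ^ 6 * lwo ((R : ℝ) / 10 ^ 5) (dec c) < phw R c 0 + 1 := by
  rw [Num_phw, lgc_spec hc]
  unfold lwo
  by_cases h : (dec c).length % 2 = 0
  · rw [Num_beq_true (by omega), if_pos h]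
    exact Num_uvw_m R hc
  · rw [Num_beq_false (by omega), if_neg h]
    exact Num_uvw_M R hc

/-- upper end -/
theorem phw_one (R : ℕ) {c : ℕ} (hc : c < 1024) :
    (phw R c 1 : ℝ) ≤ 10 ^ 6 * upr ((R : ℝ) / 10 ^ 5) (dec c) ∧
    10 ^ 6 * upr ((R : ℝ) / 10 ^ 5) (dec c) < phw R c 1 + 1 := by
  rw [Num_phw, lgc_spec hc]
  unfold upr
  by_cases h : (dec c).length % 2 = 0
  · rw [Num_beq_false (by omega), if_pos h]
    exact Num_uvw_M R hc
  · rw [Num_beq_true (by omega), if_neg h]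
    exact Num_uvw_m R hc

/-- lower end of the interval of the word -/
noncomputable def Num_lo (c : ℕ) : ℝ := if (dec c).length % 2 = 0 then wv (dec c) m0 else wv (dec c) M0
/-- upper end of the interval of the word -/
noncomputable def Num_hi (c : ℕ) : ℝ := if (dec c).length % 2 = 0 then wv (dec c) M0 else wv (dec c) m0

theorem Num_rlo (c : ℕ) : rlo c =
    @Bool.rec (fun _ => ℕ) (uvw 10 c 7321 10000 fun U V => (100000 * U) / V)
      (uvw 10 c 3660 10000 fun U V => (100000 * U) / V) (Nat.beq (Nat.mod (lgc 10 c) 2) 0) := rfl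

theorem Num_rhi (c : ℕ) : rhi c =
    @Bool.rec (fun _ => ℕ) (uvw 10 c 3660 10000 fun U V => (100000 * U + (V - 1)) / V)
      (uvw 10 c 7321 10000 fun U V => (100000 * U + (V - 1)) / V)
      (Nat.beq (Nat.mod (lgc 10 c) 2) 0) := rfl

theorem Num_f1 {c : ℕ} (hc : c < 1024) (U0 V0 : ℕ) (hV0 : 0 < V0) {x : ℝ} (hx : (U0 : ℝ) / V0 = x) :
    ((uvw 10 c U0 V0 fun U V => (100000 * U) / V : ℕ) : ℝ) ≤ 10 ^ 5 * wv (dec c) x ∧
    10 ^ 5 * wv (dec c) x < ((uvw 10 c U0 V0 fun U V => (100000 * U) / V : ℕ) : ℝ) + 1 := by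
  obtain ⟨U', V', e1, e2, e3⟩ := uvw_spec 10 c U0 V0 (fun U V => (100000 * U) / V)
    (by norm_num; exact hc) hV0
  rw [hx] at e3
  rw [e1, ← e3]
  have := Num_floor (100000 * U') V' e2
  have h2 : (10 : ℝ) ^ 5 * ((U' : ℝ) / V') = ((100000 * U' : ℕ) : ℝ) / V' := by
    push_cast; ring
  rw [h2]
  exact this

theorem Num_f2 {c : ℕ} (hc : c < 1024) (U0 V0 : ℕ) (hV0 : 0 < V0) {x : ℝ} (hx : (U0 : ℝ) / V0 = x) :
    10 ^ 5 * wv (dec c) x ≤ ((uvw 10 c U0 V0 fun U V => (100000 * U + (V - 1)) / V : ℕ) : ℝ) ∧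
    ((uvw 10 c U0 V0 fun U V => (100000 * U + (V - 1)) / V : ℕ) : ℝ) < 10 ^ 5 * wv (dec c) x + 1 := by
  obtain ⟨U', V', e1, e2, e3⟩ := uvw_spec 10 c U0 V0 (fun U V => (100000 * U + (V - 1)) / V)
    (by norm_num; exact hc) hV0
  rw [hx] at e3
  rw [e1, ← e3]
  have := Num_ceil (100000 * U') V' e2
  have h2 : (10 : ℝ) ^ 5 * ((U' : ℝ) / V') = ((100000 * U' : ℕ) : ℝ) / V' := by
    push_cast; ring
  rw [h2]
  exact this

theorem Num_rlo_spec {c : ℕ} (hc : c < 1024) :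
    (rlo c : ℝ) ≤ 10 ^ 5 * Num_lo c ∧ 10 ^ 5 * Num_lo c < (rlo c : ℝ) + 1 := by
  rw [Num_rlo, lgc_spec hc]
  unfold Num_lo
  by_cases h : (dec c).length % 2 = 0
  · rw [Num_beq_true h, if_pos h]
    exact Num_f1 hc 3660 10000 (by norm_num) Num_m0
  · rw [Num_beq_false (by omega), if_neg h]
    exact Num_f1 hc 7321 10000 (by norm_num) Num_M0

theorem Num_rhi_spec {c : ℕ} (hc : c < 1024) :
    10 ^ 5 * Num_hi c ≤ (rhi c : ℝ) ∧ (rhi c : ℝ) < 10 ^ 5 * Num_hi c + 1 := by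
  rw [Num_rhi, lgc_spec hc]
  unfold Num_hi
  by_cases h : (dec c).length % 2 = 0
  · rw [Num_beq_true h, if_pos h]
    exact Num_f2 hc 7321 10000 (by norm_num) Num_M0
  · rw [Num_beq_false (by omega), if_neg h]
    exact Num_f2 hc 3660 10000 (by norm_num) Num_m0

theorem rlo_le {c : ℕ} (hc : c < 1024) {r : ℝ} (h : RM (dec c) r) :
    (rlo c : ℝ) ≤ 10 ^ 5 * r := by
  obtain ⟨x, hx0, hx1, rfl⟩ := RM_form h
  have hm := m0_pos
  refine (Num_rlo_spec hc).1.trans (mul_le_mul_of_nonneg_left ?_ (by norm_num))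
  unfold Num_lo
  split_ifs with h2
  · exact (wv_mono (D12_pos (D12_dec c)) hm.le hx0).1 h2
  · exact (wv_mono (D12_pos (D12_dec c)) (hm.le.trans hx0) hx1).2 (by omega)

theorem le_rhi {c : ℕ} (hc : c < 1024) {r : ℝ} (h : RM (dec c) r) :
    10 ^ 5 * r ≤ (rhi c : ℝ) := by
  obtain ⟨x, hx0, hx1, rfl⟩ := RM_form h
  have hm := m0_pos
  refine le_trans (mul_le_mul_of_nonneg_left ?_ (by norm_num)) (Num_rhi_spec hc).1
  unfold Num_hi
  split_ifs with h2
  · exact (wv_mono (D12_pos (D12_dec c)) (hm.le.trans hx0) hx1).1 h2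
  · exact (wv_mono (D12_pos (D12_dec c)) hm.le hx0).2 (by omega)

theorem rlo_ge {c : ℕ} (hc : c < 1024) : 36600 ≤ rlo c := by
  have h1 := (Num_rlo_spec hc).2
  have h2 : m0 ≤ Num_lo c := by
    unfold Num_lo
    split_ifs
    · exact (wv_mem (D12_dec c) le_rfl Num_mM).1
    · exact (wv_mem (D12_dec c) Num_mM le_rfl).1
  unfold m0 at h2
  have h3 : ((36600 : ℕ) : ℝ) < (rlo c : ℝ) + 1 := by
    push_cast
    linarith
  have h4 : 36600 < rlo c + 1 := by exact_mod_cast h3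
  omega

theorem rhi_le {c : ℕ} (hc : c < 1024) : rhi c ≤ 73210 := by
  have h1 := (Num_rhi_spec hc).2
  have h2 : Num_hi c ≤ M0 := by
    unfold Num_hi
    split_ifs
    · exact (wv_mem (D12_dec c) Num_mM le_rfl).2
    · exact (wv_mem (D12_dec c) le_rfl Num_mM).2
  unfold M0 at h2
  have h3 : (rhi c : ℝ) < ((73210 : ℕ) : ℝ) + 1 := by
    push_cast
    linarith
  have h4 : rhi c < 73210 + 1 := by exact_mod_cast h3
  omega

theorem rlo_lt_rhi {c : ℕ} (hc : c < 1024) : rlo c < rhi c := by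
  have h1 := (Num_rlo_spec hc).1
  have h2 := (Num_rhi_spec hc).1
  have h3 : Num_lo c < Num_hi c := by
    unfold Num_lo Num_hi
    have h := wv_strict (D12_pos (D12_dec c)) m0_pos.le m0_lt_M0
    split_ifs with h4
    · exact h.1 h4
    · exact h.2 (by omega)
  have h5 : (rlo c : ℝ) < rhi c := by
    have : (10 : ℝ) ^ 5 * Num_lo c < 10 ^ 5 * Num_hi c := mul_lt_mul_of_pos_left h3 (by norm_num)
    linarith
  exact_mod_cast h5

end Pool.Agent.Helper6.AE
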