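import Pool.Agent.Helper6.AE.Run

set_option autoImplicit false

namespace Pool.Agent.Helper6.AE

/-! AE MODULE Pce: soundness of a piece. -/

theorem pce_and {b x : Bool} (h : @Bool.rec (fun _ => Bool) false x b = true) :
    b = true ∧ x = true := by
  cases b
  · exact absurd h (by simp)
  · exact ⟨rfl, h⟩

theorem pce_table : ∀ i < 20, (cb i % 2 ^ 20) ^ 7 * 2 ^ (i + 1) ≤ 10 ^ 35 ∧
    10 ^ 35 ≤ (cb i / 2 ^ 20) ^ 7 * 2 ^ i := by
  decide +kernel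

theorem cb_spec {i : ℕ} (hi : i ≤ 19) {b : ℝ} (hb : 0 < b) (h : cel i b) :
    ((cb i % 2 ^ 20 : ℕ) : ℝ) < 100000 * b ∧ 100000 * b ≤ ((cb i / 2 ^ 20 : ℕ) : ℝ) := by
  obtain ⟨h1, h2⟩ := pce_table i (by omega)
  obtain ⟨h3, h4⟩ := h
  generalize cb i % 2 ^ 20 = lo at h1 ⊢
  generalize cb i / 2 ^ 20 = hi' at h2 ⊢
  have h1' : (lo : ℝ) ^ 7 * 2 ^ (i + 1) ≤ 10 ^ 35 := by exact_mod_cast h1
  have h2' : (10 : ℝ) ^ 35 ≤ (hi' : ℝ) ^ 7 * 2 ^ i := by exact_mod_cast h2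
  have e : (100000 * b) ^ 7 = 10 ^ 35 * b ^ 7 := by ring
  constructor
  · by_contra hcon
    have h5 : (100000 * b) ^ 7 ≤ (lo : ℝ) ^ 7 := pow_le_pow_left₀ (by positivity) (not_lt.1 hcon) 7
    rw [e] at h5
    have h6 : 10 ^ 35 * b ^ 7 * 2 ^ (i + 1) ≤ (lo : ℝ) ^ 7 * 2 ^ (i + 1) :=
      mul_le_mul_of_nonneg_right h5 (by positivity)
    have h7 : (10 : ℝ) ^ 35 * (2 ^ (i + 1) * b ^ 7) ≤ 10 ^ 35 * 1 := by
      calc (10 : ℝ) ^ 35 * (2 ^ (i + 1) * b ^ 7) = 10 ^ 35 * b ^ 7 * 2 ^ (i + 1) := by ring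
        _ ≤ 10 ^ 35 * 1 := by rw [mul_one]; exact h6.trans h1'
    have h8 := le_of_mul_le_mul_left h7 (by positivity)
    exact absurd h4 (not_lt.2 h8)
  · by_contra hcon
    have h5 : (hi' : ℝ) ^ 7 < (100000 * b) ^ 7 :=
      pow_lt_pow_left₀ (not_le.1 hcon) (by positivity) (by norm_num)
    rw [e] at h5
    have h6 : (hi' : ℝ) ^ 7 * 2 ^ i < 10 ^ 35 * b ^ 7 * 2 ^ i :=
      mul_lt_mul_of_pos_right h5 (by positivity)
    have h7 : (10 : ℝ) ^ 35 * 1 < 10 ^ 35 * (2 ^ i * b ^ 7) := by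
      calc (10 : ℝ) ^ 35 * 1 ≤ (hi' : ℝ) ^ 7 * 2 ^ i := by rw [mul_one]; exact h2'
        _ < 10 ^ 35 * b ^ 7 * 2 ^ i := h6
        _ = 10 ^ 35 * (2 ^ i * b ^ 7) := by ring
    have h8 := lt_of_mul_lt_mul_left h7 (by positivity)
    exact absurd h3 (not_le.2 h8)

theorem pce_piece {T1 T2 : ℕ → ℕ} {o0 o1 b0 b1 c0 c1 : ℕ} {t0 t1 t2 : Tr} {lo hi fuel n : ℕ}
    (h : piece T1 T2 o0 o1 b0 b1 c0 c1 t0 t1 t2 lo hi fuel n = true) :
    ∃ row0 k0 l0 r0 row1 k1 l1 r1 row2 k2 l2 r2, t0 = Tr.node row0 k0 l0 r0 ∧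
      t1 = Tr.node row1 k1 l1 r1 ∧ t2 = Tr.node row2 k2 l2 r2 ∧ lo ≤ hi ∧ hi ≤ 1000 ∧
      run T1 T2 o0 o1 fuel n
        [⟨⟨b0, b1, c0, c1, k0, k1, k2, row0, row1, row2, t0, t1, t2⟩,
          [⟨1049601, lo, gX (xx 1049601 row0 row1 row2) lo⟩],
          [⟨1049601, hi, gX (xx 1049601 row0 row1 row2) hi⟩]⟩] = true := by
  cases t0 with
  | nil => exact absurd (show false = true from h) (by simp)
  | node row0 k0 l0 r0 =>
    cases t1 with
    | nil => exact absurd (show false = true from h) (by simp)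
    | node row1 k1 l1 r1 =>
      cases t2 with
      | nil => exact absurd (show false = true from h) (by simp)
      | node row2 k2 l2 r2 =>
        have h1 : piece1 T1 T2 o0 o1 b0 b1 c0 c1 k0 k1 k2 row0 row1 row2
          (Tr.node row0 k0 l0 r0) (Tr.node row1 k1 l1 r1) (Tr.node row2 k2 l2 r2)
          lo hi fuel n = true := h
        unfold piece1 at h1
        have h2 := pce_and h1
        have h3 := pce_and h2.2
        exact ⟨row0, k0, l0, r0, row1, k1, l1, r1, row2, k2, l2, r2, rfl, rfl, rfl,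
          Nat.le_of_ble_eq_true h2.1, Nat.le_of_ble_eq_true h3.1, h3.2⟩

/-- class codes -/
theorem pce_cls {a : ℕ} {r : ℝ} (hr : RE r) (h : pt1 a (cls r) = true) :
    (a = 1 ∨ a = 2 ∨ a = 3) ∧ RM (dec a) r := by
  have e1 : pt1 a (cls r) = @Bool.rec (fun _ => Bool) (Nat.beq (a + cls r) 3) true
    (Nat.beq a 1) := rfl
  rw [e1] at h
  have hd2 : dec 2 = [1] := by
    have := dec_two_mul (c := 1) le_rfl
    rw [dec_one] at this
    simpa using this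
  have hd3 : dec 3 = [2] := by
    have := dec_two_mul_add (c := 1) le_rfl
    rw [dec_one] at this
    simpa using this
  cases hb : Nat.beq a 1
  · rw [hb] at h
    have h2 : a + cls r = 3 := Nat.eq_of_beq_eq_true h
    have h3 := cls_le r
    have h4 : cls r = 0 ∨ cls r = 1 := by omega
    rcases h4 with h4 | h4
    · have ha : a = 3 := by omega
      subst ha
      exact ⟨Or.inr (Or.inr rfl), by rw [hd3]; exact cls_zero hr h4⟩
    · have ha : a = 2 := by omega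
      subst ha
      exact ⟨Or.inr (Or.inl rfl), by rw [hd2]; exact cls_one hr h4⟩
  · have ha : a = 1 := Nat.eq_of_beq_eq_true hb
    subst ha
    exact ⟨Or.inl rfl, by rw [dec_one]; exact RM_nil hr⟩

/-- the tree of a class code -/
theorem pce_tree {o a row ka : ℕ} {A l r : Tr} (hA : TrOK o 8 1 A)
    (ha : a = 1 ∨ a = 2 ∨ a = 3) (h : chd a A = Tr.node row ka l r) :
    TB o a row ka (chd a A) := by
  have hd2 : dec 2 = [1] := by
    have := dec_two_mul (c := 1) le_rfl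
    rw [dec_one] at this
    simpa using this
  have hd3 : dec 3 = [2] := by
    have := dec_two_mul_add (c := 1) le_rfl
    rw [dec_one] at this
    simpa using this
  rcases ha with rfl | rfl | rfl
  · exact ⟨7, l, r, by rw [dec_one]; rfl, le_rfl, h, hA⟩
  · cases hA with
    | nil => exact absurd (show Tr.nil = Tr.node row ka l r from h) (by simp)
    | node _ _ l' r' hl hr =>
      exact ⟨6, l, r, by rw [hd2]; rfl, by norm_num, h, hl⟩
  · cases hA with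
    | nil => exact absurd (show Tr.nil = Tr.node row ka l r from h) (by simp)
    | node _ _ l' r' hl hr =>
      exact ⟨6, l, r, by rw [hd3]; rfl, by norm_num, h, hr⟩

theorem pce_fld (z : Fin 3) : fld 1049601 z = 1 := by
  fin_cases z <;> rfl

/-- value of the functional of the empty words -/
theorem pce_Phi {v : St} (hv : Nrm v) (th : ℕ) :
    1000 * PhiF v 1049601 th = (th : ℝ) * ∑ z, v.s z := by
  unfold PhiF
  rw [Finset.mul_sum, Finset.mul_sum]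
  refine Finset.sum_congr rfl fun z _ => ?_
  have hr : 0 ≤ v.r z := m0_pos.le.trans (RE_mem (hv.1 z).2).1
  have e1 : wds 1049601 z = [] := by
    unfold wds
    rw [pce_fld, dec_one]
  rw [e1, lam_nil hr]
  have e2 : lw (v.r z) (v.o z) [] = 0 := by
    unfold lw
    rw [upr_nil hr, lwo_nil]
    simp
  rw [e2]
  ring

theorem pce_ott {o : ℕ} (ho : o ≤ 1) {A0 A1 : Tr} (hA0 : TrOK 0 8 1 A0) (hA1 : TrOK 1 8 1 A1) :
    TrOK o 8 1 (ott o A0 A1) := by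
  have h : o = 0 ∨ o = 1 := by omega
  rcases h with rfl | rfl
  · exact hA0
  · exact hA1

/-- a piece covers the states of its cell, classes and levels -/
theorem pcs_sound {T1 T2 : ℕ → ℕ} {A0 A1 : Tr} (hA0 : TrOK 0 8 1 A0) (hA1 : TrOK 1 8 1 A1)
    {o0 o1 i j h n : ℕ} (ho0 : o0 ≤ 1) (ho1 : o1 ≤ 1) (hi : i ≤ 19) (hj : j ≤ 19)
    (hp : pcs T1 T2 A0 A1 o0 o1 (cb i) (cb j) h n = true) {v : St} (hv : Nrm v)
    (h0 : on (v.o 0) = o0) (h1 : on (v.o 1) = o1) (hci : cel i (v.s 1)) (hcj : cel j (v.s 2))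
    (hpat : pat (cls (v.r 0) + 2 * cls (v.r 1) + 4 * cls (v.r 2)) h = true)
    (hlo : ((h / 2 ^ 8 % 1024 : ℕ) : ℝ) * (∑ z, v.s z) ≤ 1000 * v.t)
    (hhi : 1000 * v.t ≤ ((h / 2 ^ 18 % 1024 : ℕ) : ℝ) * ∑ z, v.s z) : Cv T1 T2 v := by
  -- the class codes
  set a0 := h % 4 with ha0
  set a1 := h / 2 ^ 2 % 4 with ha1
  set a2 := h / 2 ^ 4 % 4 with ha2
  have s2 : Nat.shiftRight h 2 = h / 2 ^ 2 := Nat.shiftRight_eq_div_pow h 2
  have s4 : Nat.shiftRight h 4 = h / 2 ^ 4 := Nat.shiftRight_eq_div_pow h 4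
  have s8 : Nat.shiftRight h 8 = h / 2 ^ 8 := Nat.shiftRight_eq_div_pow h 8
  have s18 : Nat.shiftRight h 18 = h / 2 ^ 18 := Nat.shiftRight_eq_div_pow h 18
  set x := cls (v.r 0) + 2 * cls (v.r 1) + 4 * cls (v.r 2) with hx
  have hc0 := cls_le (v.r 0)
  have hc1 := cls_le (v.r 1)
  have hc2 := cls_le (v.r 2)
  have t0 : x % 2 = cls (v.r 0) := by omega
  have t1 : Nat.shiftRight x 1 % 2 = cls (v.r 1) := by
    have : Nat.shiftRight x 1 = x / 2 ^ 1 := Nat.shiftRight_eq_div_pow x 1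
    rw [this]; omega
  have t2 : Nat.shiftRight x 2 % 2 = cls (v.r 2) := by
    have : Nat.shiftRight x 2 = x / 2 ^ 2 := Nat.shiftRight_eq_div_pow x 2
    rw [this]; omega
  have e1 : pat x h = @Bool.rec (fun _ => Bool) false (@Bool.rec (fun _ => Bool) false
      (pt1 a2 (cls (v.r 2))) (pt1 a1 (cls (v.r 1)))) (pt1 a0 (cls (v.r 0))) := by
    rw [ha1, ha2, ← s2, ← s4, ← t0, ← t1, ← t2]
    rfl
  rw [e1] at hpat
  have p0 := pce_and hpat
  have p1 := pce_and p0.2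
  obtain ⟨c0, m0'⟩ := pce_cls (hv.1 0).2 p0.1
  obtain ⟨c1, m1'⟩ := pce_cls (hv.1 1).2 p1.1
  obtain ⟨c2, m2'⟩ := pce_cls (hv.1 2).2 p1.2
  -- the piece
  have sb : Nat.shiftRight (cb i) 20 = cb i / 2 ^ 20 := Nat.shiftRight_eq_div_pow _ 20
  have sc : Nat.shiftRight (cb j) 20 = cb j / 2 ^ 20 := Nat.shiftRight_eq_div_pow _ 20
  have e20 : (2 : ℕ) ^ 20 = 1048576 := by norm_num
  have e2 : pcs T1 T2 A0 A1 o0 o1 (cb i) (cb j) h n = piece T1 T2 o0 o1 (cb i % 2 ^ 20)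
      (cb i / 2 ^ 20) (cb j % 2 ^ 20) (cb j / 2 ^ 20) (chd a0 (ott o0 A0 A1))
      (chd a1 (ott o1 A0 A1)) (chd a2 A0) (h / 2 ^ 8 % 1024) (h / 2 ^ 18 % 1024)
      (Nat.shiftRight h 28) n := by
    rw [ha1, ha2, ← s2, ← s4, ← s8, ← s18, ← sb, ← sc, e20]
    rfl
  rw [e2] at hp
  obtain ⟨row0, k0, l0, r0, row1, k1, l1, r1, row2, k2, l2, r2, q0, q1, q2, hlh, hh, hrun⟩ :=
    pce_piece hp
  have B0 := pce_tree (pce_ott ho0 hA0 hA1) c0 q0
  have B1 := pce_tree (pce_ott ho1 hA0 hA1) c1 q1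
  have B2 := pce_tree hA0 c2 q2
  set B : Bx := ⟨cb i % 2 ^ 20, cb i / 2 ^ 20, cb j % 2 ^ 20, cb j / 2 ^ 20, k0, k1, k2,
    row0, row1, row2, chd a0 (ott o0 A0 A1), chd a1 (ott o1 A0 A1), chd a2 A0⟩ with hB
  have hBx : BxOK o0 o1 ![a0, a1, a2] B := ⟨ho0, ho1, B0, B1, B2⟩
  have hcd : CdOK 1049601 := fun z => by rw [pce_fld]; omega
  have hF : ∀ th, th ≤ 1000 → FnOK B ⟨1049601, th, gX (xx 1049601 row0 row1 row2) th⟩ :=
    fun th hth => ⟨hth, hcd, rfl⟩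
  have hC : CxOK o0 o1 ![a0, a1, a2] ⟨B,
      [⟨1049601, h / 2 ^ 8 % 1024, gX (xx 1049601 row0 row1 row2) (h / 2 ^ 8 % 1024)⟩],
      [⟨1049601, h / 2 ^ 18 % 1024, gX (xx 1049601 row0 row1 row2) (h / 2 ^ 18 % 1024)⟩]⟩ := by
    refine ⟨hBx, ?_, ?_⟩
    · intro f hf
      rw [List.mem_singleton] at hf
      rw [hf]
      exact hF _ (hlh.trans hh)
    · intro f hf
      rw [List.mem_singleton] at hf
      rw [hf]
      exact hF _ hh
  have hSem := run_sound _ _ _ hrun _ (List.mem_singleton.2 rfl) _ hC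
  have hs1 : 0 < v.s 1 := (hv.1 1).1
  have hs2 : 0 < v.s 2 := (hv.1 2).1
  obtain ⟨b1, b2⟩ := cb_spec hi hs1 hci
  obtain ⟨b3, b4⟩ := cb_spec hj hs2 hcj
  have hInB : InB ![a0, a1, a2] v B := by
    refine ⟨b1, b2, b3, b4, ?_⟩
    intro z
    fin_cases z
    · exact m0'
    · exact m1'
    · exact m2'
  refine hSem v ⟨hv, h0, h1, hInB⟩ ⟨_, List.mem_singleton.2 rfl, ?_⟩
    ⟨_, List.mem_singleton.2 rfl, ?_⟩
  · have := pce_Phi hv (h / 2 ^ 8 % 1024)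
    show PhiF v 1049601 (h / 2 ^ 8 % 1024) ≤ v.t
    linarith
  · have := pce_Phi hv (h / 2 ^ 18 % 1024)
    show v.t ≤ PhiF v 1049601 (h / 2 ^ 18 % 1024)
    linarith

end Pool.Agent.Helper6.AE
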