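import Pool.Agent.Helper6.AE.Wv

set_option autoImplicit false

namespace Pool.Agent.Helper6.AE

/-! AE MODULE Phi: the Moebius map along words. -/

theorem m0_pos : 0 < m0 := by
  unfold m0; norm_num

theorem m0_lt_M0 : m0 < M0 := by
  unfold m0 M0; norm_num

theorem phi_m0 (r : ℝ) : phi r m0 = 0 := by
  simp [phi]

theorem phi_M0 {r : ℝ} (hr : 0 ≤ r) : phi r M0 = 1 := by
  have h1 : 0 < M0 - m0 := sub_pos.mpr m0_lt_M0
  have h2 : 0 < 1 + r * M0 := by
    have : 0 < M0 := m0_pos.trans m0_lt_M0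
    positivity
  unfold phi
  exact div_self (mul_pos h1 h2).ne'

/-- exact formula for the relative length -/
private theorem phi_sub_aux {r u v : ℝ} (hr : 0 ≤ r) (hu : 0 ≤ u) (hv : 0 ≤ v) :
    phi r v - phi r u =
      (v - u) / (M0 - m0) * ((1 + r * M0) * (1 + r * m0) / ((1 + r * u) * (1 + r * v))) := by
  have h1 : M0 - m0 ≠ 0 := (sub_pos.mpr m0_lt_M0).ne'
  have h2 : 1 + r * u ≠ 0 := by positivity
  have h3 : 1 + r * v ≠ 0 := by positivity
  unfold phi
  generalize m0 = m at *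
  generalize M0 = M at *
  field_simp
  ring

theorem phi_strict {r u v : ℝ} (hr : 0 ≤ r) (hu : 0 ≤ u) (huv : u < v) : phi r u < phi r v := by
  have hv : 0 ≤ v := hu.trans huv.le
  have h0 := phi_sub_aux hr hu hv
  have h1 : 0 < M0 - m0 := sub_pos.mpr m0_lt_M0
  have h2 : 0 < m0 := m0_pos
  have h3 : 0 < M0 := m0_pos.trans m0_lt_M0
  have h4 : 0 < v - u := sub_pos.mpr huv
  have h5 : 0 < (v - u) / (M0 - m0) * ((1 + r * M0) * (1 + r * m0) / ((1 + r * u) * (1 + r * v))) := by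
    positivity
  linarith

theorem phi_digit {a : ℕ} (ha : 1 ≤ a) {r u : ℝ} (hr : 0 ≤ r) (hu : 0 ≤ u) :
    phi r (1 / ((a : ℝ) + u)) = phi r (1 / ((a : ℝ) + m0)) +
      (phi r (1 / ((a : ℝ) + M0)) - phi r (1 / ((a : ℝ) + m0))) * phi (1 / ((a : ℝ) + r)) u := by
  have ha' : (1 : ℝ) ≤ (a : ℝ) := by exact_mod_cast ha
  have h1 : 0 < M0 - m0 := sub_pos.mpr m0_lt_M0
  have h2 : 0 < m0 := m0_pos
  have h3 : 0 < M0 := m0_pos.trans m0_lt_M0
  have e1 := phi_sub_aux (r := r) (u := 1 / ((a : ℝ) + m0)) (v := 1 / ((a : ℝ) + u)) hr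
    (by positivity) (by positivity)
  have e2 := phi_sub_aux (r := r) (u := 1 / ((a : ℝ) + m0)) (v := 1 / ((a : ℝ) + M0)) hr
    (by positivity) (by positivity)
  have e3 : phi r (1 / ((a : ℝ) + u)) = phi r (1 / ((a : ℝ) + m0)) +
      (phi r (1 / ((a : ℝ) + u)) - phi r (1 / ((a : ℝ) + m0))) := by ring
  rw [e3, e1, e2]
  congr 1
  unfold phi
  generalize m0 = m at *
  generalize M0 = M at *
  generalize (a : ℝ) = b at *
  have k1 : b + u ≠ 0 := by positivity
  have k2 : b + m ≠ 0 := by positivity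
  have k3 : b + M ≠ 0 := by positivity
  have k4 : b + r ≠ 0 := by positivity
  have k5 : b + u + r ≠ 0 := by positivity
  have k6 : b + m + r ≠ 0 := by positivity
  have k7 : b + M + r ≠ 0 := by positivity
  have e4 : 1 + r * (1 / (b + u)) = (b + u + r) / (b + u) := by field_simp
  have e5 : 1 + r * (1 / (b + m)) = (b + m + r) / (b + m) := by field_simp
  have e6 : 1 + r * (1 / (b + M)) = (b + M + r) / (b + M) := by field_simp
  have e7 : 1 + 1 / (b + r) * M = (b + M + r) / (b + r) := by field_simp; ring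
  have e8 : 1 + 1 / (b + r) * u = (b + u + r) / (b + r) := by field_simp; ring
  rw [e4, e5, e6, e7, e8]
  field_simp
  ring

theorem phi_wv {w : List ℕ} (hw : ∀ a ∈ w, 1 ≤ a) {r u : ℝ} (hr : 0 ≤ r) (hu : 0 ≤ u) :
    phi r (wv w u) = phi r (wv w m0) +
      (phi r (wv w M0) - phi r (wv w m0)) * phi (wv w.reverse r) u := by
  induction w generalizing r with
  | nil =>
    simp only [List.reverse_nil, wv_nil]
    rw [phi_m0, phi_M0 hr]
    ring
  | cons a w ih =>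
    have ha : 1 ≤ a := hw a (by simp)
    have hw' : ∀ b ∈ w, 1 ≤ b := fun b hb => hw b (by simp [hb])
    have ha' : (1 : ℝ) ≤ (a : ℝ) := by exact_mod_cast ha
    have hr' : 0 ≤ 1 / ((a : ℝ) + r) := by positivity
    have h3 : 0 ≤ M0 := (m0_pos.trans m0_lt_M0).le
    have i1 := ih hw' hr'
    have d1 := phi_digit ha hr (wv_nonneg (w := w) hu)
    have d2 := phi_digit ha hr (wv_nonneg (w := w) m0_pos.le)
    have d3 := phi_digit ha hr (wv_nonneg (w := w) h3)
    rw [List.reverse_cons, wv_append]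
    simp only [wv_cons, wv_nil]
    rw [d1, d2, d3, i1]
    ring

theorem lam_pos {r : ℝ} (hr : 0 ≤ r) {w : List ℕ} (hw : ∀ a ∈ w, 1 ≤ a) : 0 < lam r w := by
  have h1 := wv_strict hw m0_pos.le m0_lt_M0
  unfold lam upr lwo
  have h3 : 0 ≤ M0 := (m0_pos.trans m0_lt_M0).le
  by_cases h : w.length % 2 = 0
  · rw [if_pos h, if_pos h]
    exact sub_pos.mpr (phi_strict hr (wv_nonneg m0_pos.le) (h1.1 h))
  · rw [if_neg h, if_neg h]
    have h' : w.length % 2 = 1 := by omega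
    exact sub_pos.mpr (phi_strict hr (wv_nonneg h3) (h1.2 h'))

theorem lwo_nil (r : ℝ) : lwo r [] = 0 := by
  simp [lwo, wv_nil, phi_m0]

theorem upr_nil {r : ℝ} (hr : 0 ≤ r) : upr r [] = 1 := by
  simp [upr, wv_nil, phi_M0 hr]

theorem lam_nil {r : ℝ} (hr : 0 ≤ r) : lam r [] = 1 := by
  rw [lam, upr_nil hr, lwo_nil, sub_zero]

private theorem phi_nonneg_aux {r u : ℝ} (hr : 0 ≤ r) (hu : m0 ≤ u) : 0 ≤ phi r u := by
  rcases hu.eq_or_lt with h | h
  · rw [← h, phi_m0]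
  · rw [← phi_m0 r]
    exact (phi_strict hr m0_pos.le h).le

private theorem phi_le_one_aux {r u : ℝ} (hr : 0 ≤ r) (hu0 : 0 ≤ u) (hu : u ≤ M0) :
    phi r u ≤ 1 := by
  rcases hu.eq_or_lt with h | h
  · rw [h, phi_M0 hr]
  · rw [← phi_M0 hr]
    exact (phi_strict hr hu0 h).le

theorem lwo_nonneg {r : ℝ} (hr : 0 ≤ r) {w : List ℕ} (hw : D12 w) : 0 ≤ lwo r w := by
  unfold lwo
  split_ifs
  · exact phi_nonneg_aux hr (wv_mem hw le_rfl m0_lt_M0.le).1
  · exact phi_nonneg_aux hr (wv_mem hw m0_lt_M0.le le_rfl).1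

theorem upr_le_one {r : ℝ} (hr : 0 ≤ r) {w : List ℕ} (hw : D12 w) : upr r w ≤ 1 := by
  have h3 : 0 ≤ M0 := (m0_pos.trans m0_lt_M0).le
  unfold upr
  split_ifs
  · exact phi_le_one_aux hr (wv_nonneg h3) (wv_mem hw m0_lt_M0.le le_rfl).2
  · exact phi_le_one_aux hr (wv_nonneg m0_pos.le) (wv_mem hw le_rfl m0_lt_M0.le).2

/-- exact formula for the relative length -/
theorem phi_sub {r u v : ℝ} (hr : 0 ≤ r) (hu : 0 ≤ u) (hv : 0 ≤ v) :
    phi r v - phi r u =
      (v - u) / (M0 - m0) * ((1 + r * M0) * (1 + r * m0) / ((1 + r * u) * (1 + r * v))) :=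
  phi_sub_aux hr hu hv

end Pool.Agent.Helper6.AE
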