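import Pool.Agent.Helper6.AE.App

set_option autoImplicit false

namespace Pool.Agent.Helper6.AE

/-! AE MODULE Pre: the state of a triple of prefixes. -/

private theorem pre_phi (u : ℝ) : phi 0 u = (u - m0) / (M0 - m0) := by
  unfold phi
  ring_nf

private theorem pre_len (w : List ℕ) (hw : ∀ a ∈ w, 1 ≤ a) :
    (M0 - m0) * lam 0 w = |wv w M0 - wv w m0| ∧
      (M0 - m0) * lwo 0 w = min (wv w m0) (wv w M0) - m0 := by
  have h0 : 0 < m0 := m0_pos
  have h1 : m0 < M0 := m0_lt_M0
  have h2 : M0 - m0 ≠ 0 := by linarith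
  have hm := wv_mono hw h0.le h1.le
  unfold lam upr lwo
  rw [pre_phi, pre_phi]
  rcases Nat.mod_two_eq_zero_or_one w.length with h | h
  · have h3 := hm.1 h
    rw [if_pos h, if_pos h, abs_of_nonneg (by linarith), min_eq_left h3]
    constructor
    · field_simp
      ring
    · field_simp
  · have h3 := hm.2 h
    have h4 : ¬ w.length % 2 = 0 := by omega
    rw [if_neg h4, if_neg h4, abs_of_nonpos (by linarith), min_eq_right h3]
    constructor
    · field_simp
      ring
    · field_simp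

theorem vw_s {P : Fin 3 → List ℕ} (hP : ∀ z, ∀ a ∈ P z, 1 ≤ a) (z : Fin 3) :
    (vw P).s z = |wv (P z) M0 - wv (P z) m0| := by
  have h : (vw P).s z = (M0 - m0) * lam 0 (P z) := rfl
  rw [h, (pre_len (P z) (hP z)).1]

theorem vw_t {P : Fin 3 → List ℕ} (hP : ∀ z, ∀ a ∈ P z, 1 ≤ a) :
    (vw P).t = 1 - ∑ z, min (wv (P z) m0) (wv (P z) M0) := by
  have h : (vw P).t = (1 - 3 * m0) - ∑ z, (M0 - m0) * lw 0 false (P z) := rfl
  have h2 : ∀ z, (M0 - m0) * lw 0 false (P z) = min (wv (P z) m0) (wv (P z) M0) - m0 := by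
    intro z
    have h3 : lw 0 false (P z) = lwo 0 (P z) := rfl
    rw [h3, (pre_len (P z) (hP z)).2]
  rw [h, Finset.sum_congr rfl (fun z _ => h2 z), Finset.sum_sub_distrib]
  simp only [Finset.sum_const, Finset.card_univ, Fintype.card_fin, nsmul_eq_mul]
  push_cast
  ring

theorem vw_append {P w : Fin 3 → List ℕ} (hP : ∀ z, ∀ a ∈ P z, 1 ≤ a) (hw : DW w) :
    nxt (vw P) w = vw (fun z => P z ++ w z) :=
  nxt_append v00 (fun _ => le_refl (0 : ℝ)) hP (fun z => D12_pos (hw z))

private theorem pre_diff {a x y : ℝ} (ha : 1 ≤ a) (hx : 0 ≤ x) (hy : 0 ≤ y) :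
    |1 / (a + x) - 1 / (a + y)| = |x - y| / ((a + x) * (a + y)) := by
  have h1 : 0 < a + x := by linarith
  have h2 : 0 < a + y := by linarith
  have h3 : 1 / (a + x) - 1 / (a + y) = (y - x) / ((a + x) * (a + y)) := by
    field_simp
    ring
  rw [h3, abs_div, abs_of_pos (mul_pos h1 h2), abs_sub_comm]

/-- the length of the interval shrinks with every letter of `w` -/
theorem wv_len {P w : List ℕ} (hP : ∀ a ∈ P, 1 ≤ a) (hw : D12 w) :
    |wv (P ++ w) M0 - wv (P ++ w) m0| ≤ (3 / 5 : ℝ) ^ w.length := by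
  have h0 : 0 < m0 := m0_pos
  have h1 : m0 < M0 := m0_lt_M0
  have hA : |wv w M0 - wv w m0| ≤ (3 / 5 : ℝ) ^ w.length := by
    induction w with
    | nil =>
      simp only [wv_nil, List.length_nil, pow_zero]
      unfold m0 M0
      rw [abs_le]
      constructor <;> norm_num
    | cons a w ih =>
      have hw' : D12 w := fun b hb => hw b (List.mem_cons_of_mem _ hb)
      have ih' := ih hw'
      have hm := wv_mem hw' le_rfl h1.le
      have hM := wv_mem hw' h1.le le_rfl
      have ha : (1 : ℝ) ≤ a := by exact_mod_cast D12_pos hw a List.mem_cons_self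
      rw [wv_cons, wv_cons, pre_diff ha (by linarith) (by linarith), List.length_cons, pow_succ]
      have h3 : (5 / 3 : ℝ) ≤ ((a : ℝ) + wv w M0) * ((a : ℝ) + wv w m0) := by
        have hv : m0 = 366 / 1000 := rfl
        have h4 : (1366 / 1000 : ℝ) ≤ (a : ℝ) + wv w M0 := by linarith [hM.1]
        have h5 : (1366 / 1000 : ℝ) ≤ (a : ℝ) + wv w m0 := by linarith [hm.1]
        nlinarith
      have h6 : 0 < ((a : ℝ) + wv w M0) * ((a : ℝ) + wv w m0) := by linarith
      rw [div_le_iff₀ h6]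
      have h7 : 0 ≤ (3 / 5 : ℝ) ^ w.length := by positivity
      calc |wv w M0 - wv w m0| ≤ (3 / 5 : ℝ) ^ w.length := ih'
        _ = (3 / 5 : ℝ) ^ w.length * (3 / 5) * (5 / 3) := by ring
        _ ≤ _ := by gcongr
  induction P with
  | nil => exact hA
  | cons a P ih =>
    have hP' : ∀ b ∈ P, 1 ≤ b := fun b hb => hP b (List.mem_cons_of_mem _ hb)
    have ih' := ih hP'
    have ha : (1 : ℝ) ≤ a := by exact_mod_cast hP a List.mem_cons_self
    have hx : 0 ≤ wv (P ++ w) M0 := wv_nonneg (by linarith)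
    have hy : 0 ≤ wv (P ++ w) m0 := wv_nonneg h0.le
    rw [List.cons_append, wv_cons, wv_cons, pre_diff ha hx hy]
    refine le_trans ?_ ih'
    have h3 : (1 : ℝ) ≤ ((a : ℝ) + wv (P ++ w) M0) * ((a : ℝ) + wv (P ++ w) m0) := by nlinarith
    exact div_le_self (abs_nonneg _) h3

end Pool.Agent.Helper6.AE
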