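import Pool.Agent.Helper6.AE.App
import Pool.Agent.Helper6.AE.Lgx
import Pool.Agent.Helper6.AE.Lup

set_option autoImplicit false

namespace Pool.Agent.Helper6.AE

/-! AE MODULE Prm: a checked ordering of the three coordinates. -/

private theorem prm_sigma {p q s : Fin 3} (hpq : p ≠ q) (hps : p ≠ s) (hqs : q ≠ s) :
    ∃ σ : Equiv.Perm (Fin 3), σ 0 = p ∧ σ 1 = q ∧ σ 2 = s := by
  have hinj : Function.Injective ![p, q, s] := by
    intro a b hab
    fin_cases a <;> fin_cases b <;> simp_all [Ne.symm]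
  refine ⟨Equiv.ofBijective _ (Finite.injective_iff_bijective.1 hinj), ?_, ?_, ?_⟩ <;> simp

private theorem on_zero {b : Bool} (h : on b = 0) : b = false := by
  cases b
  · rfl
  · simp [on] at h

private theorem on_ne_zero {b : Bool} (h : on b ≠ 0) : b = true := by
  cases b
  · simp [on] at h
  · rfl

private theorem on_not (b : Bool) : on (xor true b) = 1 - on b := by
  cases b <;> simp [on]

private theorem on_le (b : Bool) : on b ≤ 1 := by
  cases b <;> simp [on]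

theorem perm_sound {TT : ℕ → ℕ}
    {lo hi np nq ns mp mq ms Xpq Ypq Xqp Yqp Xps Yps Xsp Ysp : ℕ}
    (h : perm TT lo hi np nq ns mp mq ms Xpq Ypq Xqp Yqp Xps Yps Xsp Ysp = true)
    {v : St} {p q s : Fin 3} (hpq : p ≠ q) (hps : p ≠ s) (hqs : q ≠ s) (hG : Good v)
    (hp : on (v.o p) = np) (hq : on (v.o q) = nq) (hs : on (v.o s) = ns)
    (h1 : v.s q ≤ v.s p) (h2 : v.s s ≤ v.s q)
    (cp : Al mp (cls (v.r p))) (cq : Al mq (cls (v.r q))) (cs : Al ms (cls (v.r s)))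
    (y1 : 0 < Ypq) (x1 : (Xpq : ℝ) * v.s q ≤ Ypq * v.s p)
    (y2 : 0 < Xqp) (x2 : (Xqp : ℝ) * v.s p ≤ Yqp * v.s q)
    (y3 : 0 < Yps) (x3 : (Xps : ℝ) * v.s s ≤ Yps * v.s p)
    (y4 : 0 < Xsp) (x4 : (Xsp : ℝ) * v.s p ≤ Ysp * v.s s)
    (hlh : lo ≤ hi) (h1000 : hi ≤ 1000)
    (hlo : lo * (∑ z, v.s z) ≤ 1000 * v.t) (hhi : 1000 * v.t ≤ hi * ∑ z, v.s z) :
    InT TT v := by
  have h' : perm2 TT np nq ns mp mq ms (lgl Xpq Ypq) (lgh Yqp Xqp) (lgl Xps Yps) (lgh Ysp Xsp)
    lo hi = true := h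
  obtain ⟨hj1, hlk⟩ := perm2_sound h'
  have sp := (hG p).1
  have sq' := (hG q).1
  have ss := (hG s).1
  have hr1 : 1 ≤ v.s p / v.s q := by rw [le_div_iff₀ sq', one_mul]; exact h1
  have hr2 : 1 ≤ v.s p / v.s s := by rw [le_div_iff₀ ss, one_mul]; exact h2.trans h1
  have hr12 : v.s p / v.s q ≤ v.s p / v.s s := div_le_div_of_nonneg_left sp.le ss h2
  obtain ⟨i, hi1⟩ := idx_exists hr1
  obtain ⟨j, hj⟩ := idx_exists hr2
  have hij : i ≤ j := idx_mono (by positivity) hr12 hi1 hj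
  have hjj1 : j ≤ lgh Ysp Xsp := by
    refine lgh_sound hr2 ?_ y4 hj (Or.inr hj1)
    rw [div_mul_eq_mul_div, div_le_iff₀ ss, mul_comm]
    exact x4
  have hj19 : j ≤ 19 := hjj1.trans hj1
  have hii1 : i ≤ lgh Yqp Xqp := by
    refine lgh_sound hr1 ?_ y2 hi1 (Or.inl (hij.trans hj19))
    rw [div_mul_eq_mul_div, div_le_iff₀ sq', mul_comm]
    exact x2
  have hi0 : lgl Xpq Ypq ≤ i := by
    refine lgl_sound hr1 ?_ y1 hi1
    rw [mul_div_assoc', le_div_iff₀ sq']
    exact x1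
  have hj0 : lgl Xps Yps ≤ j := by
    refine lgl_sound hr2 ?_ y3 hj
    rw [mul_div_assoc', le_div_iff₀ ss]
    exact x3
  obtain ⟨hl0, hl1⟩ := hlk i j _ _ _ hi0 hii1 hj0 hjj1 hij cp cq cs
  obtain ⟨σ, σ0, σ1, σ2⟩ := prm_sigma hpq hps hqs
  have hsum : ∑ z, v.s (σ z) = ∑ z, v.s z := Equiv.sum_comp σ v.s
  have hpos : 0 < ∑ z, v.s z := Finset.sum_pos (fun z _ => (hG z).1) ⟨0, Finset.mem_univ _⟩
  have hlo0 : (0 : ℝ) ≤ lo := Nat.cast_nonneg lo
  have hhi1 : (hi : ℝ) ≤ 1000 := by exact_mod_cast h1000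
  have ht0 : 0 ≤ v.t := by
    have := mul_nonneg hlo0 hpos.le
    linarith
  have ht1 : v.t ≤ ∑ z, v.s z := by
    have := mul_le_mul_of_nonneg_right hhi1 hpos.le
    linarith
  have hk : 0 < 1 / v.s p := by positivity
  have hksum : ∑ z, 1 / v.s p * v.s (σ z) = 1 / v.s p * ∑ z, v.s z := by
    rw [← Finset.mul_sum, hsum]
  have hc1 : cel i (1 / v.s p * v.s q) := by
    rw [← idx_cel (by positivity)]
    have : 1 / (1 / v.s p * v.s q) = v.s p / v.s q := by field_simp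
    rw [this]
    exact hi1
  have hc2 : cel j (1 / v.s p * v.s s) := by
    rw [← idx_cel (by positivity)]
    have : 1 / (1 / v.s p * v.s s) = v.s p / v.s s := by field_simp
    rw [this]
    exact hj
  have hnpl := on_le (v.o p)
  have hnql := on_le (v.o q)
  refine ⟨σ, v.o s, 1 / v.s p, hk, ⟨?_, ?_, ?_, ?_, ?_⟩, ?_, ?_, i, j, hij, hj19, ?_, ?_, ?_⟩
  · intro z
    exact ⟨mul_pos hk (hG (σ z)).1, (hG (σ z)).2⟩
  · show 1 / v.s p * v.s (σ 0) = 1
    rw [σ0, one_div_mul_cancel sp.ne']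
  · show xor (v.o s) (v.o (σ 2)) = false
    rw [σ2, Bool.xor_self]
  · show 1 / v.s p * v.s (σ 2) ≤ 1 / v.s p * v.s (σ 1)
    rw [σ2, σ1]
    exact mul_le_mul_of_nonneg_left h2 hk.le
  · show 1 / v.s p * v.s (σ 1) ≤ 1
    rw [σ1, one_div_mul_eq_div, div_le_one sp]
    exact h1
  · show 0 ≤ 1 / v.s p * (if v.o s then (∑ z, v.s z) - v.t else v.t)
    refine mul_nonneg hk.le ?_
    split_ifs
    · linarith
    · exact ht0
  · show 1 / v.s p * (if v.o s then (∑ z, v.s z) - v.t else v.t) ≤ ∑ z, 1 / v.s p * v.s (σ z)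
    rw [hksum]
    refine mul_le_mul_of_nonneg_left ?_ hk.le
    split_ifs
    · linarith
    · exact ht1
  · show cel i (1 / v.s p * v.s (σ 1))
    rw [σ1]; exact hc1
  · show cel j (1 / v.s p * v.s (σ 2))
    rw [σ2]; exact hc2
  · show InE (entry (TT (on (xor (v.o s) (v.o (σ 0))) + 2 * on (xor (v.o s) (v.o (σ 1))))) i j
      (cls (v.r (σ 0)) + 2 * cls (v.r (σ 1)) + 4 * cls (v.r (σ 2))))
      (1000 * (1 / v.s p * (if v.o s then (∑ z, v.s z) - v.t else v.t)) /
        ∑ z, 1 / v.s p * v.s (σ z))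
    rw [hksum, σ0, σ1, σ2]
    by_cases hns : ns = 0
    · have hf : v.o s = false := on_zero (hs.trans hns)
      rw [hf, Bool.false_xor, Bool.false_xor, hp, hq]
      have hx : 1000 * (1 / v.s p * (if false = true then (∑ z, v.s z) - v.t else v.t)) /
          (1 / v.s p * ∑ z, v.s z) = 1000 * v.t / ∑ z, v.s z := by
        simp only [Bool.false_eq_true, if_false]
        field_simp
      rw [hx]
      refine lk2_sound (hl0 hns) ?_ ?_
      · rw [le_div_iff₀ hpos]; exact hlo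
      · rw [div_le_iff₀ hpos]; exact hhi
    · have hf : v.o s = true := on_ne_zero (by rw [hs]; exact hns)
      rw [hf, on_not, on_not]
      have hidx : 1 - on (v.o p) + 2 * (1 - on (v.o q)) = 3 - (np + 2 * nq) := by
        rw [hp, hq] at *
        omega
      rw [hidx]
      have hx : 1000 * (1 / v.s p * (if true = true then (∑ z, v.s z) - v.t else v.t)) /
          (1 / v.s p * ∑ z, v.s z) = 1000 - 1000 * v.t / ∑ z, v.s z := by
        simp only [if_true]
        field_simp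
      rw [hx]
      have hlo1 : lo ≤ 1000 := hlh.trans h1000
      refine lk2_sound (hl1 hns) ?_ ?_
      · rw [Nat.cast_sub h1000]
        have : 1000 * v.t / ∑ z, v.s z ≤ hi := by rw [div_le_iff₀ hpos]; exact hhi
        push_cast
        linarith
      · rw [Nat.cast_sub hlo1]
        have : (lo : ℝ) ≤ 1000 * v.t / ∑ z, v.s z := by rw [le_div_iff₀ hpos]; exact hlo
        push_cast
        linarith

end Pool.Agent.Helper6.AE
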