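import Pool.Agent.Helper6.AE.Tok
import Pool.Agent.Helper6.AE.Lef

set_option autoImplicit false

namespace Pool.Agent.Helper6.AE

/-! AE MODULE Run: soundness of the checker. -/

theorem Run_and (b x : Bool) : @Bool.rec (fun _ => Bool) false x b = (b && x) := by
  cases b <;> rfl

theorem Run_sq (n : ℕ) (f : ℕ → Bool) : sq n f = f n := by cases n <;> rfl

/-- all contexts of the list are covered -/
def RunOK (T1 T2 : ℕ → ℕ) (o0 o1 : ℕ) (st : List Cx) : Prop :=
  ∀ C ∈ st, ∀ c, CxOK o0 o1 c C → Sem T1 T2 o0 o1 c C.B C.F C.G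

/-! ### The rest of the list -/

theorem Run_ent_ex {TT : ℕ → ℕ} {o0 o1 : ℕ} {B : Bx} {e : ℕ} {k : Fn → Fn → Bool}
    (h : ent TT o0 o1 B e k = true) : ∃ lo hi, k lo hi = true := by
  cases B
  unfold ent ent2 at h
  simp only [Run_and, Bool.and_eq_true] at h
  exact ⟨_, _, h.2⟩

theorem Run_spb_ex {B : Bx} {x : ℕ} {k : Bx → Bx → Bool} (h : spb B x k = true) :
    ∃ X Y, k X Y = true := by
  cases B
  exact ⟨_, _, h⟩

theorem Run_spc_ex {B : Bx} {x : ℕ} {k : Bx → Bx → Bool} (h : spc B x k = true) :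
    ∃ X Y, k X Y = true := by
  cases B
  exact ⟨_, _, h⟩

theorem Run_rpl_ex {z : ℕ} {B : Bx} {t : Tr} {F G : List Fn} {k : Cx → Bool}
    (h : rpl z B t F G k = true) : ∃ X, k X = true := by
  cases B
  cases t with
  | nil => exact absurd h (by show ¬ false = true; decide)
  | node row ka l r =>
    unfold rpl at h
    simp only at h
    rcases h1 : Nat.beq z 9 with _ | _
    · rw [h1] at h
      rcases h2 : Nat.beq z 10 with _ | _
      · rw [h2] at h
        exact ⟨_, h⟩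
      · rw [h2] at h
        exact ⟨_, h⟩
    · rw [h1] at h
      exact ⟨_, h⟩

theorem Run_spr_ex {z : ℕ} {B : Bx} {F G : List Fn} {k : Cx → Cx → Bool}
    (h : spr z B F G k = true) : ∃ X Y, k X Y = true := by
  unfold spr at h
  rcases h1 : getT z B with _ | ⟨row, ka, l, r⟩
  · rw [h1] at h
    exact absurd h (by show ¬ false = true; decide)
  · rw [h1] at h
    obtain ⟨X, hX⟩ := Run_rpl_ex h
    obtain ⟨Y, hY⟩ := Run_rpl_ex hX
    exact ⟨X, Y, hY⟩

theorem Run_fsh_cases {ih : ℕ → List Cx → Bool} {c n : ℕ} {st : List Cx} {B : Bx}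
    {F G lo hi : List Fn} (h : fsh ih c n st B F G lo hi = true) :
    ih n (⟨B, F, lo⟩ :: ⟨B, hi, G⟩ :: st) = true ∨
    (fin B F lo = true ∧ ih n (⟨B, hi, G⟩ :: st) = true) ∨
    (fin B F lo = true ∧ fin B hi G = true ∧ ih n st = true) := by
  unfold fsh at h
  rcases h1 : Nat.beq c 2 with _ | _
  · rw [h1] at h
    simp only [Run_and, Bool.and_eq_true] at h
    obtain ⟨h2, h3⟩ := h
    rcases h4 : Nat.beq c 1 with _ | _
    · rw [h4] at h3
      simp only [Bool.and_eq_true] at h3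
      exact Or.inr (Or.inr ⟨h2, h3⟩)
    · rw [h4] at h3
      exact Or.inr (Or.inl ⟨h2, h3⟩)
  · rw [h1] at h
    exact Or.inl h

theorem Run_fsh_ex {ih : ℕ → List Cx → Bool} {c n : ℕ} {st : List Cx} {B : Bx}
    {F G lo hi : List Fn} (h : fsh ih c n st B F G lo hi = true) :
    ∃ n' st', ih n' st' = true ∧ ∀ C ∈ st, C ∈ st' := by
  rcases Run_fsh_cases h with h | ⟨-, h⟩ | ⟨-, -, h⟩
  · exact ⟨_, _, h, fun C hC => List.mem_cons_of_mem _ (List.mem_cons_of_mem _ hC)⟩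
  · exact ⟨_, _, h, fun C hC => List.mem_cons_of_mem _ hC⟩
  · exact ⟨_, _, h, fun C hC => hC⟩

/-- the cases of a token -/
theorem Run_tok1_cases {T1 T2 : ℕ → ℕ} {o0 o1 : ℕ} {ih : ℕ → List Cx → Bool} {kd e n : ℕ}
    {st : List Cx} {B : Bx} {F G : List Fn}
    (h : tok1 T1 T2 o0 o1 ih kd e n st B F G = true) :
    (fin B F G = true ∧ ih n st = true) ∨
    tk1 T1 o0 o1 ih kd e n st B F G = true ∨
    (∃ c e' n', tk2 T2 o0 o1 ih c e e' n' st B F G = true) ∨
    (spb B e fun X Y => ih n (⟨X, F, G⟩ :: ⟨Y, F, G⟩ :: st)) = true ∨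
    (spc B e fun X Y => ih n (⟨X, F, G⟩ :: ⟨Y, F, G⟩ :: st)) = true ∨
    (spr kd B F G fun X Y => ih n (X :: Y :: st)) = true ∨
    (emp B = true ∧ ih n st = true) := by
  unfold tok1 at h
  rcases h0 : Nat.beq kd 0 with _ | _
  · rw [h0] at h
    rcases h1 : Nat.ble kd 3 with _ | _
    · rw [h1] at h
      rcases h2 : Nat.ble kd 6 with _ | _
      · rw [h2] at h
        unfold tks at h
        rcases h3 : Nat.beq kd 7 with _ | _
        · rw [h3] at h
          rcases h4 : Nat.beq kd 8 with _ | _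
          · rw [h4] at h
            rcases h5 : Nat.ble kd 11 with _ | _
            · rw [h5] at h
              simp only [Run_and, Bool.and_eq_true] at h
              exact Or.inr (Or.inr (Or.inr (Or.inr (Or.inr (Or.inr h)))))
            · rw [h5] at h
              exact Or.inr (Or.inr (Or.inr (Or.inr (Or.inr (Or.inl h)))))
          · rw [h4] at h
            exact Or.inr (Or.inr (Or.inr (Or.inr (Or.inl h))))
        · rw [h3] at h
          exact Or.inr (Or.inr (Or.inr (Or.inl h)))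
      · rw [h2] at h
        have h' : sq (Nat.shiftRight n 56) (fun n' => tk2 T2 o0 o1 ih (Nat.sub kd 3) e
          (Nat.shiftRight (Nat.mod n 72057594037927936) 4) n' st B F G) = true := h
        rw [Run_sq] at h'
        exact Or.inr (Or.inr (Or.inl ⟨_, _, _, h'⟩))
    · rw [h1] at h
      exact Or.inr (Or.inl h)
  · rw [h0] at h
    simp only [Run_and, Bool.and_eq_true] at h
    exact Or.inl h

theorem Run_tok1_ex {T1 T2 : ℕ → ℕ} {o0 o1 : ℕ} {ih : ℕ → List Cx → Bool} {kd e n : ℕ}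
    {st : List Cx} {B : Bx} {F G : List Fn}
    (h : tok1 T1 T2 o0 o1 ih kd e n st B F G = true) :
    ∃ n' st', ih n' st' = true ∧ ∀ C ∈ st, C ∈ st' := by
  rcases Run_tok1_cases h with ⟨-, h⟩ | h | ⟨c, e', n', h⟩ | h | h | h | ⟨-, h⟩
  · exact ⟨_, _, h, fun C hC => hC⟩
  · obtain ⟨lo, hi, h1⟩ := Run_ent_ex h
    exact Run_fsh_ex h1
  · unfold tk2 at h
    rw [Run_and, Bool.and_eq_true] at h
    obtain ⟨lo, hi, h1⟩ := Run_ent_ex h.2
    obtain ⟨lo', hi', h2⟩ := Run_ent_ex h1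
    exact Run_fsh_ex h2
  · obtain ⟨X, Y, h1⟩ := Run_spb_ex h
    exact ⟨_, _, h1, fun C hC => List.mem_cons_of_mem _ (List.mem_cons_of_mem _ hC)⟩
  · obtain ⟨X, Y, h1⟩ := Run_spc_ex h
    exact ⟨_, _, h1, fun C hC => List.mem_cons_of_mem _ (List.mem_cons_of_mem _ hC)⟩
  · obtain ⟨X, Y, h1⟩ := Run_spr_ex h
    exact ⟨_, _, h1, fun C hC => List.mem_cons_of_mem _ (List.mem_cons_of_mem _ hC)⟩
  · exact ⟨_, _, h, fun C hC => hC⟩

/-! ### The head of the list -/

theorem Run_fin {T1 T2 : ℕ → ℕ} {o0 o1 : ℕ} {c : Fin 3 → ℕ} {B : Bx} {F G : List Fn}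
    (hB : BxOK o0 o1 c B) (hF : ∀ f ∈ F, FnOK B f) (hG : ∀ g ∈ G, FnOK B g)
    (h : fin B F G = true) : Sem T1 T2 o0 o1 c B F G := by
  rintro v hv ⟨f, hf, hf2⟩ ⟨g, hg, hg2⟩
  have := fin_sound hB hF hG hv h f hf g hg
  linarith

theorem Run_fsh {T1 T2 : ℕ → ℕ} {o0 o1 : ℕ} {ih : ℕ → List Cx → Bool}
    (hih : ∀ n st, ih n st = true → RunOK T1 T2 o0 o1 st) {c : Fin 3 → ℕ} {k n : ℕ}
    {st : List Cx} {B : Bx} {F G lo hi : List Fn} (hB : BxOK o0 o1 c B)
    (hF : ∀ f ∈ F, FnOK B f) (hG : ∀ g ∈ G, FnOK B g) (hlo : ∀ f ∈ lo, FnOK B f)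
    (hhi : ∀ f ∈ hi, FnOK B f) (h : fsh ih k n st B F G lo hi = true) :
    Sem T1 T2 o0 o1 c B F lo ∧ Sem T1 T2 o0 o1 c B hi G := by
  rcases Run_fsh_cases h with h | ⟨h1, h⟩ | ⟨h1, h2, -⟩
  · have h3 := hih _ _ h
    exact ⟨h3 ⟨B, F, lo⟩ (by simp) c ⟨hB, hF, hlo⟩, h3 ⟨B, hi, G⟩ (by simp) c ⟨hB, hhi, hG⟩⟩
  · have h3 := hih _ _ h
    exact ⟨Run_fin hB hF hlo h1, h3 ⟨B, hi, G⟩ (by simp) c ⟨hB, hhi, hG⟩⟩
  · exact ⟨Run_fin hB hF hlo h1, Run_fin hB hhi hG h2⟩

theorem Run_DW {e : ℕ} : DW (wds e) := fun _ => D12_dec _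

theorem Run_tok1 {T1 T2 : ℕ → ℕ} {o0 o1 : ℕ} {ih : ℕ → List Cx → Bool}
    (hih : ∀ n st, ih n st = true → RunOK T1 T2 o0 o1 st) {c : Fin 3 → ℕ} {kd e n : ℕ}
    {st : List Cx} {B : Bx} {F G : List Fn} (hC : CxOK o0 o1 c ⟨B, F, G⟩)
    (h : tok1 T1 T2 o0 o1 ih kd e n st B F G = true) : Sem T1 T2 o0 o1 c B F G := by
  obtain ⟨hB, hF, hG⟩ := hC
  rcases Run_tok1_cases h with ⟨h, -⟩ | h | ⟨k, e', n', h⟩ | h | h | h | ⟨h, -⟩
  · exact Run_fin hB hF hG h
  · obtain ⟨lo, hi, hle, hhe, hlo, hhi, h1, h2⟩ := ent_sound hB h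
    obtain ⟨s1, s2⟩ := Run_fsh hih hB hF hG (lo := [lo]) (hi := [hi])
      (by simpa using hlo) (by simpa using hhi) h1
    intro v hv hfv hgv
    rcases le_total v.t (PhiF v lo.e lo.th) with a1 | a1
    · exact s1 v hv hfv ⟨lo, by simp, a1⟩
    rcases le_total (PhiF v hi.e hi.th) v.t with a2 | a2
    · exact s2 v hv ⟨hi, by simp, a2⟩ hgv
    exact Or.inl ⟨wds e, Run_DW, h2 v hv a1 a2⟩
  · unfold tk2 at h
    rw [Run_and, Bool.and_eq_true] at h
    obtain ⟨hinc, h⟩ := h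
    obtain ⟨lo, hi, hle, hhe, hlo, hhi, h1, h2⟩ := ent_sound hB h
    obtain ⟨lo', hi', hle', hhe', hlo', hhi', h1', h2'⟩ := ent_sound hB h1
    obtain ⟨s1, s2⟩ := Run_fsh hih hB hF hG (lo := [lo, lo']) (hi := [hi, hi'])
      (by
        intro f hf
        simp only [List.mem_cons, List.not_mem_nil, or_false] at hf
        rcases hf with rfl | rfl
        · exact hlo
        · exact hlo')
      (by
        intro f hf
        simp only [List.mem_cons, List.not_mem_nil, or_false] at hf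
        rcases hf with rfl | rfl
        · exact hhi
        · exact hhi') h1'
    intro v hv hfv hgv
    rcases le_total v.t (PhiF v lo.e lo.th) with a1 | a1
    · exact s1 v hv hfv ⟨lo, by simp, a1⟩
    rcases le_total v.t (PhiF v lo'.e lo'.th) with b1 | b1
    · exact s1 v hv hfv ⟨lo', by simp, b1⟩
    rcases le_total (PhiF v hi.e hi.th) v.t with a2 | a2
    · exact s2 v hv ⟨hi, by simp, a2⟩ hgv
    rcases le_total (PhiF v hi'.e hi'.th) v.t with b2 | b2
    · exact s2 v hv ⟨hi', by simp, b2⟩ hgv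
    refine Or.inr ⟨wds e, wds e', Run_DW, Run_DW, ?_, h2 v hv a1 a2, h2' v hv b1 b2⟩
    exact incE_sound hB (hle ▸ hlo.2.1) (hle' ▸ hlo'.2.1) hinc
  · refine spb_sound (T1 := T1) (T2 := T2) ⟨hB, hF, hG⟩ h ?_
    intro X Y hXY C hC
    exact hih _ _ hXY C (by
      simp only [List.mem_cons, List.not_mem_nil, or_false] at hC ⊢
      tauto)
  · refine spc_sound (T1 := T1) (T2 := T2) ⟨hB, hF, hG⟩ h ?_
    intro X Y hXY C hC
    exact hih _ _ hXY C (by
      simp only [List.mem_cons, List.not_mem_nil, or_false] at hC ⊢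
      tauto)
  · refine spr_sound (T1 := T1) (T2 := T2) ⟨hB, hF, hG⟩ h ?_
    intro X Y hXY C hC
    exact hih _ _ hXY C (by
      simp only [List.mem_cons, List.not_mem_nil, or_false] at hC ⊢
      tauto)
  · intro v hv
    exact (emp_sound h hv).elim

theorem run_sound {T1 T2 : ℕ → ℕ} {o0 o1 : ℕ} : ∀ (fuel n : ℕ) (st : List Cx),
    run T1 T2 o0 o1 fuel n st = true → ∀ C ∈ st, ∀ c, CxOK o0 o1 c C →
      Sem T1 T2 o0 o1 c C.B C.F C.G := by
  intro fuel
  induction fuel with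
  | zero =>
    intro n st h
    exact absurd h (by show ¬ false = true; decide)
  | succ fuel ih =>
    intro n st h C hC c hCx
    cases st with
    | nil => exact absurd hC (by simp)
    | cons D st =>
      obtain ⟨B, F, G⟩ := D
      have h' : tok0 T1 T2 o0 o1 (run T1 T2 o0 o1 fuel) n st B F G = true := h
      unfold tok0 at h'
      rw [Run_sq] at h'
      rcases List.mem_cons.1 hC with rfl | hC
      · exact Run_tok1 ih hCx h'
      · obtain ⟨n', st', h1, h2⟩ := Run_tok1_ex h'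
        exact ih n' st' h1 C (h2 C hC) c hCx

end Pool.Agent.Helper6.AE
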