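import Pool.Agent.Helper6.AE.Row
import Pool.Agent.Helper6.AE.Wv

set_option autoImplicit false

namespace Pool.Agent.Helper6.AE

/-! AE MODULE TokB: splits. -/

theorem emp_sound {o0 o1 : ℕ} {c : Fin 3 → ℕ} {B : Bx} (h : emp B = true) {v : St}
    (hv : VB o0 o1 c B v) : False := by
  obtain ⟨hn, _, _, _, hb1, hc0, _, _⟩ := hv
  have h1 : Nat.ble B.b1 B.c0 = true := h
  have h2 : B.b1 ≤ B.c0 := Nat.le_of_ble_eq_true h1
  have h3 : (B.b1 : ℝ) ≤ B.c0 := by exact_mod_cast h2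
  have h4 := hn.2.2.2.1
  linarith

theorem spb_sound {T1 T2 : ℕ → ℕ} {o0 o1 : ℕ} {c : Fin 3 → ℕ} {B : Bx} {x : ℕ} {F G : List Fn}
    {k : Bx → Bx → Bool} (hC : CxOK o0 o1 c ⟨B, F, G⟩) (h : spb B x k = true)
    (hk : ∀ X Y, k X Y = true → ∀ C ∈ [(⟨X, F, G⟩ : Cx), ⟨Y, F, G⟩], ∀ c, CxOK o0 o1 c C →
      Sem T1 T2 o0 o1 c C.B C.F C.G) : Sem T1 T2 o0 o1 c B F G := by
  obtain ⟨b0, b1, c0, c1, k0, k1, k2, row0, row1, row2, t0, t1, t2⟩ := B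
  have hX := hk _ _ h ⟨⟨b0, x, c0, c1, k0, k1, k2, row0, row1, row2, t0, t1, t2⟩, F, G⟩
    (by simp) c hC
  have hY := hk _ _ h ⟨⟨x, b1, c0, c1, k0, k1, k2, row0, row1, row2, t0, t1, t2⟩, F, G⟩
    (by simp) c hC
  intro v hv hF hG
  obtain ⟨hn, ho0, ho1, h1, h2, h3, h4, h5⟩ := hv
  rcases le_or_gt (100000 * v.s 1) (x : ℝ) with hx | hx
  · exact hX v ⟨hn, ho0, ho1, h1, hx, h3, h4, h5⟩ hF hG
  · exact hY v ⟨hn, ho0, ho1, hx, h2, h3, h4, h5⟩ hF hG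

theorem spc_sound {T1 T2 : ℕ → ℕ} {o0 o1 : ℕ} {c : Fin 3 → ℕ} {B : Bx} {x : ℕ} {F G : List Fn}
    {k : Bx → Bx → Bool} (hC : CxOK o0 o1 c ⟨B, F, G⟩) (h : spc B x k = true)
    (hk : ∀ X Y, k X Y = true → ∀ C ∈ [(⟨X, F, G⟩ : Cx), ⟨Y, F, G⟩], ∀ c, CxOK o0 o1 c C →
      Sem T1 T2 o0 o1 c C.B C.F C.G) : Sem T1 T2 o0 o1 c B F G := by
  obtain ⟨b0, b1, c0, c1, k0, k1, k2, row0, row1, row2, t0, t1, t2⟩ := B
  have hX := hk _ _ h ⟨⟨b0, b1, c0, x, k0, k1, k2, row0, row1, row2, t0, t1, t2⟩, F, G⟩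
    (by simp) c hC
  have hY := hk _ _ h ⟨⟨b0, b1, x, c1, k0, k1, k2, row0, row1, row2, t0, t1, t2⟩, F, G⟩
    (by simp) c hC
  intro v hv hF hG
  obtain ⟨hn, ho0, ho1, h1, h2, h3, h4, h5⟩ := hv
  rcases le_or_gt (100000 * v.s 2) (x : ℝ) with hx | hx
  · exact hX v ⟨hn, ho0, ho1, h1, h2, h3, hx, h5⟩ hF hG
  · exact hY v ⟨hn, ho0, ho1, h1, h2, hx, h4, h5⟩ hF hG

/-- index of the interval that is split -/
def TokB_ix (z : ℕ) : Fin 3 := if z = 9 then 0 else if z = 10 then 1 else 2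

/-- its orientation -/
def TokB_or (o0 o1 z : ℕ) : ℕ := if z = 9 then o0 else if z = 10 then o1 else 0

theorem TokB_upF (row0 row1 row2 : ℕ) (F : List Fn) : upF row0 row1 row2 F =
    F.map (fun f => ⟨f.e, f.th, gX (xx f.e row0 row1 row2) f.th⟩) := by
  induction F with
  | nil => rfl
  | cons f F ih =>
    rw [List.map_cons, ← ih]
    cases f
    rfl

theorem TokB_rpl {z : ℕ} {B : Bx} {t : Tr} {F G : List Fn} {k : Cx → Bool}
    (h : rpl z B t F G k = true) :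
    ∃ row ka l r, t = Tr.node row ka l r ∧ ∃ X : Cx, k X = true ∧
      X.F = upF X.B.row0 X.B.row1 X.B.row2 F ∧ X.G = upF X.B.row0 X.B.row1 X.B.row2 G ∧
      X.B.b0 = B.b0 ∧ X.B.b1 = B.b1 ∧ X.B.c0 = B.c0 ∧ X.B.c1 = B.c1 ∧
      ((z = 9 ∧ X.B.k0 = ka ∧ X.B.row0 = row ∧ X.B.t0 = t ∧ X.B.k1 = B.k1 ∧ X.B.row1 = B.row1 ∧
        X.B.t1 = B.t1 ∧ X.B.k2 = B.k2 ∧ X.B.row2 = B.row2 ∧ X.B.t2 = B.t2) ∨
      (z ≠ 9 ∧ z = 10 ∧ X.B.k0 = B.k0 ∧ X.B.row0 = B.row0 ∧ X.B.t0 = B.t0 ∧ X.B.k1 = ka ∧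
        X.B.row1 = row ∧ X.B.t1 = t ∧ X.B.k2 = B.k2 ∧ X.B.row2 = B.row2 ∧ X.B.t2 = B.t2) ∨
      (z ≠ 9 ∧ z ≠ 10 ∧ X.B.k0 = B.k0 ∧ X.B.row0 = B.row0 ∧ X.B.t0 = B.t0 ∧ X.B.k1 = B.k1 ∧
        X.B.row1 = B.row1 ∧ X.B.t1 = B.t1 ∧ X.B.k2 = ka ∧ X.B.row2 = row ∧ X.B.t2 = t)) := by
  obtain ⟨b0, b1, c0, c1, k0, k1, k2, row0, row1, row2, t0, t1, t2⟩ := B
  cases t with
  | nil => exact Bool.noConfusion h
  | node row ka l r =>
    refine ⟨row, ka, l, r, rfl, ?_⟩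
    unfold rpl at h
    dsimp only at h
    cases h9 : Nat.beq z 9
    · rw [h9] at h
      dsimp only at h
      cases h10 : Nat.beq z 10
      · rw [h10] at h
        dsimp only at h
        exact ⟨_, h, rfl, rfl, rfl, rfl, rfl, rfl, Or.inr (Or.inr ⟨Nat.ne_of_beq_eq_false h9,
          Nat.ne_of_beq_eq_false h10, rfl, rfl, rfl, rfl, rfl, rfl, rfl, rfl, rfl⟩)⟩
      · rw [h10] at h
        dsimp only at h
        exact ⟨_, h, rfl, rfl, rfl, rfl, rfl, rfl, Or.inr (Or.inl ⟨Nat.ne_of_beq_eq_false h9,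
          Nat.eq_of_beq_eq_true h10, rfl, rfl, rfl, rfl, rfl, rfl, rfl, rfl, rfl⟩)⟩
    · rw [h9] at h
      dsimp only at h
      exact ⟨_, h, rfl, rfl, rfl, rfl, rfl, rfl, Or.inl ⟨Nat.eq_of_beq_eq_true h9,
        rfl, rfl, rfl, rfl, rfl, rfl, rfl, rfl, rfl⟩⟩

theorem TokB_node' {o d c : ℕ} {t : Tr} (h : TrOK o d c t) :
    ∀ row ka l r, t = Tr.node row ka l r → ∃ d', d = d' + 1 ∧ row = mkR o c 128 ∧
      ka = kap (rhi c - rlo c) ∧ TrOK o d' (2 * c) l ∧ TrOK o d' (2 * c + 1) r := by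
  cases h with
  | nil d c =>
    intro row ka l r heq
    exact Tr.noConfusion heq
  | node d' c l' r' hl hr =>
    intro row ka l r heq
    simp only [Tr.node.injEq] at heq
    obtain ⟨h1, h2, h3, h4⟩ := heq
    exact ⟨d', rfl, h1.symm, h2.symm, h3 ▸ hl, h4 ▸ hr⟩

/-- correct trees that are nodes -/
theorem TokB_node {o d c row ka : ℕ} {l r : Tr} (h : TrOK o d c (Tr.node row ka l r)) :
    ∃ d', d = d' + 1 ∧ row = mkR o c 128 ∧ ka = kap (rhi c - rlo c) ∧ TrOK o d' (2 * c) l ∧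
      TrOK o d' (2 * c + 1) r := by
  exact TokB_node' h row ka l r rfl

theorem TokB_half {o0 o1 : ℕ} {c : Fin 3 → ℕ} {B : Bx} {z : ℕ} {F G : List Fn}
    {k : Cx → Bool} (hC : CxOK o0 o1 c ⟨B, F, G⟩) {t : Tr} {d c1 : ℕ}
    (ht : TrOK (TokB_or o0 o1 z) d c1 t) (hd : d + (dec c1).length = 8) (hc1 : 1 ≤ c1)
    (h : rpl z B t F G k = true) :
    (dec c1).length ≤ 7 ∧ ∃ X : Cx, k X = true ∧
      CxOK o0 o1 (Function.update c (TokB_ix z) c1) X ∧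
      (∀ v, VB o0 o1 c B v → RM (dec c1) (v.r (TokB_ix z)) →
        VB o0 o1 (Function.update c (TokB_ix z) c1) X.B v) ∧
      (∀ f ∈ F, ∃ f' ∈ X.F, f'.e = f.e ∧ f'.th = f.th) ∧
      (∀ g ∈ G, ∃ g' ∈ X.G, g'.e = g.e ∧ g'.th = g.th) := by
  obtain ⟨row, ka, l, r, rfl, X, hkX, hXF, hXG, e1, e2, e3, e4, hX⟩ := TokB_rpl h
  obtain ⟨d', rfl, hrow, hka, hl, hr⟩ := TokB_node ht
  refine ⟨by omega, X, hkX, ?_, ?_, ?_, ?_⟩
  · obtain ⟨⟨ho0, ho1, hT0, hT1, hT2⟩, hF, hG⟩ := hC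
    have hTB : TB (TokB_or o0 o1 z) c1 row ka (Tr.node row ka l r) :=
      ⟨d', l, r, by omega, hc1, rfl, ht⟩
    refine ⟨⟨ho0, ho1, ?_⟩, ?_, ?_⟩
    · rcases hX with ⟨hz, q1, q2, q3, q4, q5, q6, q7, q8, q9⟩ |
        ⟨hz, hz', q1, q2, q3, q4, q5, q6, q7, q8, q9⟩ |
        ⟨hz, hz', q1, q2, q3, q4, q5, q6, q7, q8, q9⟩
      · rw [q1, q2, q3, q4, q5, q6, q7, q8, q9]
        have hix : TokB_ix z = 0 := by simp [TokB_ix, hz]
        have hor : TokB_or o0 o1 z = o0 := by simp [TokB_or, hz]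
        rw [hor] at hTB
        rw [hix]
        refine ⟨by simpa using hTB, by simpa using hT1, by simpa using hT2⟩
      · rw [q1, q2, q3, q4, q5, q6, q7, q8, q9]
        have hix : TokB_ix z = 1 := by simp [TokB_ix, hz']
        have hor : TokB_or o0 o1 z = o1 := by simp [TokB_or, hz']
        rw [hor] at hTB
        rw [hix]
        refine ⟨by simpa using hT0, by simpa using hTB, by simpa using hT2⟩
      · rw [q1, q2, q3, q4, q5, q6, q7, q8, q9]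
        have hix : TokB_ix z = 2 := by simp [TokB_ix, hz, hz']
        have hor : TokB_or o0 o1 z = 0 := by simp [TokB_or, hz, hz']
        rw [hor] at hTB
        rw [hix]
        refine ⟨by simpa using hT0, by simpa using hT1, by simpa using hTB⟩
    · intro f hf
      rw [hXF, TokB_upF, List.mem_map] at hf
      obtain ⟨f', hf', rfl⟩ := hf
      exact ⟨(hF f' hf').1, (hF f' hf').2.1, rfl⟩
    · intro f hf
      rw [hXG, TokB_upF, List.mem_map] at hf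
      obtain ⟨f', hf', rfl⟩ := hf
      exact ⟨(hG f' hf').1, (hG f' hf').2.1, rfl⟩
  · rintro v ⟨hn, ho0, ho1, h1, h2, h3, h4, h5⟩ hRM
    refine ⟨hn, ho0, ho1, by rw [e1]; exact h1, by rw [e2]; exact h2, by rw [e3]; exact h3,
      by rw [e4]; exact h4, fun y => ?_⟩
    by_cases hy : y = TokB_ix z
    · rw [hy, Function.update_self]
      exact hRM
    · rw [Function.update_of_ne hy]
      exact h5 y
  · intro f hf
    rw [hXF, TokB_upF]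
    exact ⟨_, List.mem_map.2 ⟨f, hf, rfl⟩, rfl, rfl⟩
  · intro f hf
    rw [hXG, TokB_upF]
    exact ⟨_, List.mem_map.2 ⟨f, hf, rfl⟩, rfl, rfl⟩

theorem TokB_getT {o0 o1 : ℕ} {c : Fin 3 → ℕ} {B : Bx} (hB : BxOK o0 o1 c B) (z : ℕ) :
    ∃ row ka, TB (TokB_or o0 o1 z) (c (TokB_ix z)) row ka (getT z B) := by
  obtain ⟨b0, b1, c0, c1, k0, k1, k2, row0, row1, row2, t0, t1, t2⟩ := B
  obtain ⟨_, _, hT0, hT1, hT2⟩ := hB
  unfold getT
  dsimp only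
  cases h9 : Nat.beq z 9
  · dsimp only
    have hz := Nat.ne_of_beq_eq_false h9
    cases h10 : Nat.beq z 10
    · have hz' := Nat.ne_of_beq_eq_false h10
      refine ⟨row2, k2, ?_⟩
      have hix : TokB_ix z = 2 := by simp [TokB_ix, hz, hz']
      have hor : TokB_or o0 o1 z = 0 := by simp [TokB_or, hz, hz']
      rw [hix, hor]
      exact hT2
    · have hz' := Nat.eq_of_beq_eq_true h10
      refine ⟨row1, k1, ?_⟩
      have hix : TokB_ix z = 1 := by simp [TokB_ix, hz']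
      have hor : TokB_or o0 o1 z = o1 := by simp [TokB_or, hz']
      rw [hix, hor]
      exact hT1
  · have hz := Nat.eq_of_beq_eq_true h9
    refine ⟨row0, k0, ?_⟩
    have hix : TokB_ix z = 0 := by simp [TokB_ix, hz]
    have hor : TokB_or o0 o1 z = o0 := by simp [TokB_or, hz]
    rw [hix, hor]
    exact hT0

theorem spr_sound {T1 T2 : ℕ → ℕ} {o0 o1 : ℕ} {c : Fin 3 → ℕ} {B : Bx} {z : ℕ} {F G : List Fn}
    {k : Cx → Cx → Bool} (hC : CxOK o0 o1 c ⟨B, F, G⟩) (h : spr z B F G k = true)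
    (hk : ∀ X Y, k X Y = true → ∀ C ∈ [X, Y], ∀ c, CxOK o0 o1 c C →
      Sem T1 T2 o0 o1 c C.B C.F C.G) : Sem T1 T2 o0 o1 c B F G := by
  obtain ⟨row, ka, d, l, r, hd, hc1, hT, hTr⟩ := TokB_getT hC.1 z
  unfold spr at h
  rw [hT] at h hTr
  dsimp only at h
  obtain ⟨d', hd', _, _, hl, hr⟩ := TokB_node hTr
  have hdd : d' = d := by omega
  subst hdd
  have hlen1 : (dec (2 * c (TokB_ix z))).length = (dec (c (TokB_ix z))).length + 1 := by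
    rw [dec_two_mul hc1]
    simp
  have hlen2 : (dec (2 * c (TokB_ix z) + 1)).length = (dec (c (TokB_ix z))).length + 1 := by
    rw [dec_two_mul_add hc1]
    simp
  obtain ⟨hlen, X, hkX, hCX, hvX, hFX, hGX⟩ :=
    TokB_half hC hl (by omega) (by omega) h
  obtain ⟨_, Y, hkY, hCY, hvY, hFY, hGY⟩ :=
    TokB_half hC hr (by omega) (by omega) hkX
  have hSX := hk X Y hkY X (by simp) _ hCX
  have hSY := hk X Y hkY Y (by simp) _ hCY
  intro v hv hF hG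
  obtain ⟨f, hf, hfv⟩ := hF
  obtain ⟨g, hg, hgv⟩ := hG
  have hRM : RM (dec (c (TokB_ix z))) (v.r (TokB_ix z)) := hv.2.2.2.2.2.2.2 _
  rcases RM_split hRM (by omega) with h1 | h2
  · rw [← dec_two_mul hc1] at h1
    obtain ⟨f', hf', q1, q2⟩ := hFX f hf
    obtain ⟨g', hg', q3, q4⟩ := hGX g hg
    exact hSX v (hvX v hv h1) ⟨f', hf', by rw [q1, q2]; exact hfv⟩
      ⟨g', hg', by rw [q3, q4]; exact hgv⟩
  · rw [← dec_two_mul_add hc1] at h2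
    obtain ⟨f', hf', q1, q2⟩ := hFY f hf
    obtain ⟨g', hg', q3, q4⟩ := hGY g hg
    exact hSY v (hvY v hv h2) ⟨f', hf', by rw [q1, q2]; exact hfv⟩
      ⟨g', hg', by rw [q3, q4]; exact hgv⟩

end Pool.Agent.Helper6.AE
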