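import Pool.Agent.Helper6.AE.Img

set_option autoImplicit false

namespace Pool.Agent.Helper6.AE

/-! AE MODULE TokA: entries and incompatible words. -/

private theorem and_rec {b x : Bool} (h : @Bool.rec (fun _ => Bool) false x b = true) :
    b = true ∧ x = true := by
  cases b
  · exact absurd h Bool.false_ne_true
  · exact ⟨rfl, h⟩

private theorem or_rec {b x : Bool} (h : @Bool.rec (fun _ => Bool) x true b = true) :
    b = true ∨ x = true := by
  cases b
  · exact Or.inr h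
  · exact Or.inl rfl

private theorem not_rec {b : Bool} (h : @Bool.rec (fun _ => Bool) true false b = true) :
    b = false := by
  cases b
  · rfl
  · exact absurd h Bool.false_ne_true

private theorem shr_mod (X k m : ℕ) : Nat.mod (Nat.shiftRight X k) m = X / 2 ^ k % m := by
  show (X >>> k) % m = X / 2 ^ k % m
  rw [Nat.shiftRight_eq_div_pow]

theorem ent_sound {TT : ℕ → ℕ} {o0 o1 : ℕ} {c : Fin 3 → ℕ} {B : Bx} {e : ℕ} {k : Fn → Fn → Bool}
    (hB : BxOK o0 o1 c B) (h : ent TT o0 o1 B e k = true) :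
    ∃ lo hi : Fn, lo.e = e ∧ hi.e = e ∧ FnOK B lo ∧ FnOK B hi ∧ k lo hi = true ∧
      ∀ v, VB o0 o1 c B v → PhiF v lo.e lo.th ≤ v.t → v.t ≤ PhiF v hi.e hi.th →
        InT TT (nxt v (wds e)) := by
  have h1 : ent2 TT o0 o1 B.b0 B.b1 B.c0 B.c1 e (xx e B.row0 B.row1 B.row2) k = true := by
    cases B
    exact h
  unfold ent2 at h1
  obtain ⟨h2, h3⟩ := and_rec h1
  obtain ⟨h4, h5, h6, h7⟩ := img_sound hB h2
  have e3 := shr_mod e 30 1024
  have e4 := shr_mod e 40 1024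
  refine ⟨_, _, rfl, rfl, ⟨?_, h4, rfl⟩, ⟨?_, h4, rfl⟩, h3, ?_⟩
  · show Nat.mod (Nat.shiftRight e 30) 1024 ≤ 1000
    rw [e3]
    exact h5.trans h6
  · show Nat.mod (Nat.shiftRight e 40) 1024 ≤ 1000
    rw [e4]
    exact h6
  · intro v hv h8 h9
    refine h7 v hv ?_ ?_
    · have h10 : PhiF v e (Nat.mod (Nat.shiftRight e 30) 1024) ≤ v.t := h8
      rwa [e3] at h10
    · have h10 : v.t ≤ PhiF v e (Nat.mod (Nat.shiftRight e 40) 1024) := h9
      rwa [e4] at h10

/-! ### Words -/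

private theorem inc_aux {a b : ℕ} (ha : 1 ≤ a) (hb : 1 ≤ b)
    (hl : (dec a).length ≤ (dec b).length)
    (h : b / 2 ^ ((dec b).length - (dec a).length) ≠ a) :
    ¬ (dec a) <+: (dec b) ∧ ¬ (dec b) <+: (dec a) := by
  have key : ¬ (dec a) <+: (dec b) := by
    intro h1
    have h2 : 1 ≤ b / 2 ^ ((dec b).length - (dec a).length) := by
      by_contra h3
      have h4 : b / 2 ^ ((dec b).length - (dec a).length) = 0 :=
        Nat.lt_one_iff.1 (Nat.lt_of_not_le h3)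
      have h5 : b < 2 ^ ((dec b).length - (dec a).length) := by
        rcases Nat.div_eq_zero_iff.1 h4 with h6 | h6
        · exact absurd h6 (by positivity)
        · exact h6
      rcases Nat.eq_zero_or_pos ((dec b).length - (dec a).length) with h6 | h6
      · rw [h6] at h5
        omega
      · have := dec_len_lt h6 h5
        omega
    obtain ⟨h3, h4⟩ := dec_shift h2
    have h5 : (dec (b / 2 ^ ((dec b).length - (dec a).length))).length = (dec a).length := by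
      omega
    have h6 : dec (b / 2 ^ ((dec b).length - (dec a).length)) = dec a := by
      have h7 := List.prefix_of_prefix_length_le h3 h1 h5.le
      exact h7.eq_of_length h5
    exact h (dec_inj h2 ha h6)
  refine ⟨key, fun h1 => key ?_⟩
  have h2 : dec b = dec a := h1.eq_of_length_le hl
  rw [h2]

private theorem inc_sound {a b la lb : ℕ} (ha : 1 ≤ a) (hb : 1 ≤ b)
    (hla : la = (dec a).length) (hlb : lb = (dec b).length) (h : inc a b la lb = true) :
    ¬ (dec a) <+: (dec b) ∧ ¬ (dec b) <+: (dec a) := by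
  subst hla hlb
  unfold inc at h
  rcases Nat.lt_or_ge (dec b).length (dec a).length with h1 | h1
  · have h2 : Nat.ble (dec a).length (dec b).length = false := by
      rw [Bool.eq_false_iff]
      intro h3
      have := Nat.le_of_ble_eq_true h3
      omega
    rw [h2] at h
    have h3 := Nat.ne_of_beq_eq_false (not_rec h)
    have h4 : a / 2 ^ ((dec a).length - (dec b).length) ≠ b := by
      intro h5
      exact h3 (Eq.trans (Nat.shiftRight_eq_div_pow a _) h5)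
    exact (inc_aux hb ha h1.le h4).symm
  · rw [Nat.ble_eq_true_of_le h1] at h
    have h3 := Nat.ne_of_beq_eq_false (not_rec h)
    have h4 : b / 2 ^ ((dec b).length - (dec a).length) ≠ a := by
      intro h5
      exact h3 (Eq.trans (Nat.shiftRight_eq_div_pow b _) h5)
    exact inc_aux ha hb h1 h4

/-! ### Fields -/

private theorem field_gen {N low len R : ℕ} (hN : low < N) (hl : len < 256) :
    (low + N * (len + 256 * R)) / N % 256 = len := by
  have h0 : 0 < N := by omega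
  rw [Nat.add_mul_div_left _ _ h0, Nat.div_eq_of_lt hN]
  omega

/-- a number below `2 ^ 192` whose field `176` is `len` -/
private def Fld (f len : ℕ) : Prop :=
  f < 2 ^ 192 ∧ ∃ low R, f = low + 2 ^ 176 * (len + 256 * R) ∧ low < 2 ^ 176 ∧ len < 256

private theorem mkE_fld {o rc c : ℕ} (ho : o ≤ 1) (h1 : 1 ≤ rc) (h2 : rc < 256) (hc : 1 ≤ c)
    (hc' : c ≤ 128) : Fld (mkE o rc c) (dec c).length := by
  obtain ⟨a0, a1, d0, d1, lo, hi, len, mk, h⟩ := ent_ok ho h1 h2 hc hc'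
  have hb0 := h.b0
  have hb1 := h.b1
  have hlo := h.blo
  have hhi := h.bhi
  have hlen := h.blen
  have hmk : mk ≤ 8 := by
    rcases h.bmk with h3 | h3 | h3 <;> omega
  have heq := h.eq
  rw [← h.len_eq]
  unfold pack at heq
  have hlow : a0 + a1 * 2 ^ 32 + d0 * 2 ^ 64 + d1 * 2 ^ 96 + lo * 2 ^ 128 + hi * 2 ^ 152 <
      2 ^ 176 := by
    omega
  refine ⟨by omega, a0 + a1 * 2 ^ 32 + d0 * 2 ^ 64 + d1 * 2 ^ 96 + lo * 2 ^ 128 + hi * 2 ^ 152, mk,
    ?_, hlow, by omega⟩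
  rw [heq]
  ring

private theorem fld0 {f0 f1 f2 l0 : ℕ} (h0 : Fld f0 l0) :
    Nat.mod (Nat.shiftRight (f0 + f1 * 2 ^ 192 + f2 * 2 ^ 384) 176) 256 = l0 := by
  obtain ⟨h1, low, R, h2, h3, h4⟩ := h0
  rw [shr_mod]
  have h5 : f0 + f1 * 2 ^ 192 + f2 * 2 ^ 384 =
      low + 2 ^ 176 * (l0 + 256 * (R + 2 ^ 8 * (f1 + f2 * 2 ^ 192))) := by
    rw [h2]
    rw [show (384 : ℕ) = 176 + (8 + (8 + 192)) from rfl, show (192 : ℕ) = 176 + (8 + 8) from rfl]
    simp only [pow_add]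
    generalize (2 : ℕ) ^ 176 = P
    ring
  rw [h5]
  exact field_gen h3 h4

set_option exponentiation.threshold 600 in
private theorem fld1 {f0 f1 f2 l1 : ℕ} (h0 : f0 < 2 ^ 192) (h1 : Fld f1 l1) :
    Nat.mod (Nat.shiftRight (f0 + f1 * 2 ^ 192 + f2 * 2 ^ 384) 368) 256 = l1 := by
  obtain ⟨h1, low, R, h2, h3, h4⟩ := h1
  rw [shr_mod]
  have h5 : f0 + f1 * 2 ^ 192 + f2 * 2 ^ 384 =
      (f0 + 2 ^ 192 * low) + 2 ^ 368 * (l1 + 256 * (R + 2 ^ 8 * f2)) := by
    rw [h2]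
    rw [show (384 : ℕ) = 192 + 176 + (8 + 8) from rfl, show (368 : ℕ) = 192 + 176 from rfl]
    simp only [pow_add]
    generalize (2 : ℕ) ^ 176 = P
    generalize (2 : ℕ) ^ 192 = Q
    ring
  rw [h5]
  refine field_gen ?_ h4
  have h6 : 2 ^ 192 * (low + 1) ≤ 2 ^ 192 * 2 ^ 176 := Nat.mul_le_mul_left _ h3
  rw [show (368 : ℕ) = 192 + 176 from rfl, pow_add]
  calc f0 + 2 ^ 192 * low < 2 ^ 192 + 2 ^ 192 * low := by omega
    _ = 2 ^ 192 * (low + 1) := by ring
    _ ≤ _ := h6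

set_option exponentiation.threshold 600 in
private theorem fld2 {f0 f1 f2 l2 : ℕ} (h0 : f0 < 2 ^ 192) (h1 : f1 < 2 ^ 192) (h2 : Fld f2 l2) :
    Nat.mod (Nat.shiftRight (f0 + f1 * 2 ^ 192 + f2 * 2 ^ 384) 560) 256 = l2 := by
  obtain ⟨h7, low, R, h2, h3, h4⟩ := h2
  rw [shr_mod]
  have h5 : f0 + f1 * 2 ^ 192 + f2 * 2 ^ 384 =
      (f0 + 2 ^ 192 * (f1 + 2 ^ 192 * low)) + 2 ^ 560 * (l2 + 256 * R) := by
    rw [h2]
    rw [show (384 : ℕ) = 192 + 192 from rfl, show (560 : ℕ) = 192 + (192 + 176) from rfl]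
    simp only [pow_add]
    generalize (2 : ℕ) ^ 176 = P
    generalize (2 : ℕ) ^ 192 = Q
    ring
  rw [h5]
  refine field_gen ?_ h4
  rw [show (560 : ℕ) = 192 + (192 + 176) from rfl, pow_add, pow_add]
  revert h0 h1 h3
  generalize (2 : ℕ) ^ 176 = P
  generalize (2 : ℕ) ^ 192 = Q
  intro h0 h1 h3
  have h6 : Q * (low + 1) ≤ Q * P := Nat.mul_le_mul_left _ h3
  have h8 : f1 + Q * low + 1 ≤ Q * P := by
    refine le_trans ?_ h6
    rw [Nat.mul_add]
    omega
  have h9 : Q * (f1 + Q * low + 1) ≤ Q * (Q * P) := Nat.mul_le_mul_left _ h8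
  refine lt_of_lt_of_le ?_ h9
  rw [Nat.mul_add Q (f1 + Q * low) 1]
  omega

private theorem f192_fld {o rc row ka c : ℕ} {t : Tr} (ho : o ≤ 1) (h : TB o rc row ka t)
    (hc : 1 ≤ c) (hc' : c ≤ 128) : Fld (f192 row c) (dec c).length := by
  obtain ⟨h1, h2⟩ := TB_lt h
  obtain ⟨h3, -⟩ := TB_row h
  rw [h3, f192_mkR (fun c h4 h5 => (mkE_fld ho h1 h2 h4 h5).1) hc hc']
  exact mkE_fld ho h1 h2 hc hc'

private theorem fld_e0 (e : ℕ) : Nat.mod e 1024 = fld e 0 := by
  unfold fld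
  show e % 1024 = e / 2 ^ (10 * 0) % 1024
  rw [Nat.mul_zero, pow_zero, Nat.div_one]

private theorem fld_e1 (e : ℕ) : Nat.mod (Nat.shiftRight e 10) 1024 = fld e 1 := by
  rw [shr_mod]
  rfl

private theorem fld_e2 (e : ℕ) : Nat.mod (Nat.shiftRight e 20) 1024 = fld e 2 := by
  rw [shr_mod]
  rfl

theorem incE_sound {o0 o1 : ℕ} {c : Fin 3 → ℕ} {B : Bx} {e e' : ℕ} (hB : BxOK o0 o1 c B)
    (he : CdOK e) (he' : CdOK e') (h : incE B e e' = true) : Inc (wds e) (wds e') := by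
  have h1 : incX e e' (xx e B.row0 B.row1 B.row2) (xx e' B.row0 B.row1 B.row2) = true := by
    cases B
    exact h
  obtain ⟨ho0, ho1, t0, t1, t2⟩ := hB
  have key : ∀ e, CdOK e →
      Nat.mod (Nat.shiftRight (xx e B.row0 B.row1 B.row2) 176) 256 = (dec (fld e 0)).length ∧
      Nat.mod (Nat.shiftRight (xx e B.row0 B.row1 B.row2) 368) 256 = (dec (fld e 1)).length ∧
      Nat.mod (Nat.shiftRight (xx e B.row0 B.row1 B.row2) 560) 256 = (dec (fld e 2)).length := by
    intro e he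
    have g0 := f192_fld ho0 t0 (he 0).1 (he 0).2
    have g1 := f192_fld ho1 t1 (he 1).1 (he 1).2
    have g2 := f192_fld (Nat.zero_le 1) t2 (he 2).1 (he 2).2
    rw [xx_eq]
    exact ⟨fld0 g0, fld1 g0.1 g1, fld2 g0.1 g1.1 g2⟩
  obtain ⟨k0, k1, k2⟩ := key e he
  obtain ⟨k0', k1', k2'⟩ := key e' he'
  unfold incX at h1
  rcases or_rec h1 with h2 | h2
  · rw [fld_e0, fld_e0] at h2
    exact ⟨0, inc_sound (he 0).1 (he' 0).1 k0 k0' h2⟩
  · rcases or_rec h2 with h3 | h3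
    · rw [fld_e1, fld_e1] at h3
      exact ⟨1, inc_sound (he 1).1 (he' 1).1 k1 k1' h3⟩
    · rw [fld_e2, fld_e2] at h3
      exact ⟨2, inc_sound (he 2).1 (he' 2).1 k2 k2' h3⟩

end Pool.Agent.Helper6.AE
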