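import Pool.Agent.Helper6.AE.Defs

set_option autoImplicit false

namespace Pool.Agent.Helper6.AE

/-! AE MODULE WvA: values of words. -/

theorem wv_nil (t : ℝ) : wv [] t = t := rfl

theorem wv_cons (a : ℕ) (w : List ℕ) (t : ℝ) : wv (a :: w) t = 1 / ((a : ℝ) + wv w t) := rfl

theorem wv_append (w w' : List ℕ) (t : ℝ) : wv (w ++ w') t = wv w (wv w' t) := by
  simp [wv, List.foldr_append]

theorem wv_nonneg {w : List ℕ} {t : ℝ} (ht : 0 ≤ t) : 0 ≤ wv w t := by
  induction w with
  | nil => exact ht
  | cons a w ih =>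
    rw [wv_cons]
    have : (0 : ℝ) ≤ a := Nat.cast_nonneg a
    positivity

theorem wv_mem {w : List ℕ} (hw : D12 w) {t : ℝ} (h0 : m0 ≤ t) (h1 : t ≤ M0) :
    m0 ≤ wv w t ∧ wv w t ≤ M0 := by
  induction w with
  | nil => exact ⟨h0, h1⟩
  | cons a w ih =>
    have hw' : D12 w := fun b hb => hw b (List.mem_cons_of_mem _ hb)
    obtain ⟨h2, h3⟩ := ih hw'
    rw [wv_cons]
    unfold m0 M0 at *
    rcases hw a List.mem_cons_self with rfl | rfl
    · have hp : (0 : ℝ) < ((1 : ℕ) : ℝ) + wv w t := by push_cast; linarith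
      rw [le_div_iff₀ hp, div_le_iff₀ hp]
      push_cast
      constructor <;> nlinarith
    · have hp : (0 : ℝ) < ((2 : ℕ) : ℝ) + wv w t := by push_cast; linarith
      rw [le_div_iff₀ hp, div_le_iff₀ hp]
      push_cast
      constructor <;> nlinarith

/-- words of even length are increasing, words of odd length decreasing (on `t ≥ 0`) -/
theorem wv_mono {w : List ℕ} (hw : ∀ a ∈ w, 1 ≤ a) {s t : ℝ} (hs : 0 ≤ s) (hst : s ≤ t) :
    (w.length % 2 = 0 → wv w s ≤ wv w t) ∧ (w.length % 2 = 1 → wv w t ≤ wv w s) := by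
  induction w with
  | nil => exact ⟨fun _ => hst, fun h => by simp at h⟩
  | cons a w ih =>
    have ih' := ih (fun b hb => hw b (List.mem_cons_of_mem _ hb))
    have ha : (1 : ℝ) ≤ a := by exact_mod_cast hw a List.mem_cons_self
    have h1 : 0 ≤ wv w s := wv_nonneg hs
    have h2 : 0 ≤ wv w t := wv_nonneg (hs.trans hst)
    rw [wv_cons, wv_cons, List.length_cons]
    constructor
    · intro h
      exact one_div_le_one_div_of_le (by linarith) (by linarith [ih'.2 (by omega)])
    · intro h
      exact one_div_le_one_div_of_le (by linarith) (by linarith [ih'.1 (by omega)])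

theorem wv_strict {w : List ℕ} (hw : ∀ a ∈ w, 1 ≤ a) {s t : ℝ} (hs : 0 ≤ s) (hst : s < t) :
    (w.length % 2 = 0 → wv w s < wv w t) ∧ (w.length % 2 = 1 → wv w t < wv w s) := by
  induction w with
  | nil => exact ⟨fun _ => hst, fun h => by simp at h⟩
  | cons a w ih =>
    have ih' := ih (fun b hb => hw b (List.mem_cons_of_mem _ hb))
    have ha : (1 : ℝ) ≤ a := by exact_mod_cast hw a List.mem_cons_self
    have h1 : 0 ≤ wv w s := wv_nonneg hs
    have h2 : 0 ≤ wv w t := wv_nonneg (hs.trans hst.le)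
    rw [wv_cons, wv_cons, List.length_cons]
    constructor
    · intro h
      exact one_div_lt_one_div_of_lt (by linarith) (by linarith [ih'.2 (by omega)])
    · intro h
      exact one_div_lt_one_div_of_lt (by linarith) (by linarith [ih'.1 (by omega)])

theorem D12_pos {w : List ℕ} (hw : D12 w) : ∀ a ∈ w, 1 ≤ a := by
  intro a ha
  rcases hw a ha with h | h <;> omega

theorem D12_append {w w' : List ℕ} : D12 (w ++ w') ↔ D12 w ∧ D12 w' := by
  unfold D12
  constructor
  · intro h
    exact ⟨fun a ha => h a (List.mem_append_left _ ha), fun a ha => h a (List.mem_append_right _ ha)⟩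
  · rintro ⟨h1, h2⟩ a ha
    rcases List.mem_append.1 ha with h | h
    · exact h1 a h
    · exact h2 a h

theorem D12_reverse {w : List ℕ} : D12 w.reverse ↔ D12 w := by
  unfold D12
  simp only [List.mem_reverse]

end Pool.Agent.Helper6.AE
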